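import Pool.Agent.P.MP_a0f0ad_al.Fi.T.Iface4
import Pool.Agent.P.MP_a0f0ad_al.Fi.Z.Bq

/-! Step LALT of the filiform project. -/

namespace Pool.Agent.P.MP_a0f0ad_al.Fi

open Finset MeasureTheory
open scoped Classical

namespace LaltA

open Polynomial

theorem key (h : ℝ[X]) (W : Finset ℝ) (hd : h.natDegree + 1 < W.card) (t : ℝ) (ht : t ≠ 0)
    (hs : ∀ x ∈ W, t * (h.eval x * ∏ y ∈ W.erase x, (x - y)) ≤ 0) : h = 0 := by
  have hd' : h.degree < W.card :=
    degree_le_natDegree.trans_lt (by exact_mod_cast (by omega : h.natDegree < W.card))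
  have e := Lagrange.coeff_eq_sum (s := W) (v := id) Function.injective_id.injOn hd'
  rw [coeff_eq_zero_of_natDegree_lt (by omega)] at e
  have hp : ∀ x, ∏ y ∈ W.erase x, (x - y) ≠ 0 := fun x =>
    prod_ne_zero_iff.2 fun y hy => sub_ne_zero.2 (mem_erase.1 hy).1.symm
  have e2 : ∑ x ∈ W, t * (h.eval x / ∏ y ∈ W.erase x, (x - y)) = 0 := by
    rw [← mul_sum]
    exact mul_eq_zero_of_right _ e.symm
  have e3 := (sum_eq_zero_iff_of_nonpos fun x hx => by
    have h1 : t * (h.eval x / ∏ y ∈ W.erase x, (x - y)) =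
        t * (h.eval x * ∏ y ∈ W.erase x, (x - y)) / (∏ y ∈ W.erase x, (x - y)) ^ 2 := by
      have := hp x
      field_simp
    rw [h1]
    exact div_nonpos_of_nonpos_of_nonneg (hs x hx) (sq_nonneg _)).1 e2
  refine eq_zero_of_degree_lt_of_eval_finset_eq_zero W hd' fun x hx => ?_
  exact (div_eq_zero_iff.1 ((mul_eq_zero.1 (e3 x hx)).resolve_left ht)).resolve_right (hp x)

end LaltA

open Polynomial in
theorem p_LALT :
    S_LALT := by
  intro d f s I A B hs hA hB hAI hIB ⟨z0, hz0⟩ hI hA' hB' hd hf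
  have g0 := (nonconst_iff f).1 hf
  have hdv : Lagrange.nodal I id ∣ derivative (pol f) := by
    refine (Multiset.prod_X_sub_C_dvd_iff_le_roots g0 I.val).2 ?_
    refine (Multiset.le_iff_subset I.nodup).2 fun z hz => (mem_roots g0).2 ?_
    have := (hI z hz).1
    rwa [ev_eq_eval] at this
  obtain ⟨h, hh⟩ := hdv
  have h0 : h ≠ 0 := fun e => g0 (by rw [hh, e, mul_zero])
  have hdeg : I.card + h.natDegree + 1 < d := by
    have h1 := natDegree_derivative_lt hf.natDegree.1
    have h2 := hf.natDegree.2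
    rw [hh, natDegree_mul Lagrange.nodal_ne_zero h0, Lagrange.natDegree_nodal] at h1
    omega
  have hAB : ∀ x ∈ A, ∀ y ∈ B, x < y := fun x hx y hy => (hAI x hx z0 hz0).trans (hIB y hy z0 hz0)
  have d1 : Disjoint I A := disjoint_left.2 fun x h1 h2 => lt_irrefl _ (hAI x h2 x h1)
  have d2 : Disjoint (I ∪ A) B := disjoint_left.2 fun x h1 h2 => (mem_union.1 h1).elim
    (fun h1 => lt_irrefl _ (hIB x h2 x h1)) fun h1 => lt_irrefl _ (hAB x h1 x h2)
  have e1 : ∀ x, ev f 1 x = (∏ y ∈ I, (x - y)) * h.eval x := fun x => by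
    rw [ev_eq_eval, Function.iterate_one, hh, eval_mul, Lagrange.eval_nodal]; rfl
  have e2 : ∀ x ∈ I, ev f 2 x = (∏ y ∈ I.erase x, (x - y)) * h.eval x := fun x hx => by
    have a1 := Lagrange.eval_nodal_derivative_eval_node_eq (v := id) hx
    have a2 := Lagrange.eval_nodal_at_node (v := id) hx
    rw [Lagrange.eval_nodal] at a1
    simp only [id] at a1 a2
    rw [ev_eq_eval, Function.iterate_succ_apply', Function.iterate_one, hh, derivative_mul, eval_add,
      eval_mul, eval_mul, a1, a2, zero_mul, add_zero]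
  refine h0 (LaltA.key h (I ∪ A ∪ B) ?_ (s * (-1) ^ B.card)
    (mul_ne_zero hs (pow_ne_zero _ (by norm_num))) fun x hx => ?_)
  · rw [card_union_of_disjoint d2, card_union_of_disjoint d1]
    omega
  rw [erase_union_distrib, erase_union_distrib,
    prod_union (by
      rw [← erase_union_distrib]
      exact d2.mono (erase_subset _ _) (erase_subset _ _)),
    prod_union (d1.mono (erase_subset _ _) (erase_subset _ _))]
  have pA : 0 ≤ ∏ y ∈ A.erase x, (x - y) := prod_nonneg fun y hy => by
    obtain ⟨y1, y2⟩ := mem_erase.1 hy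
    rcases mem_union.1 hx with hx | hx
    · rcases mem_union.1 hx with hx | hx
      · exact (sub_pos.2 (hAI y y2 x hx)).le
      · exact absurd (card_le_one.1 hA y y2 x hx) y1
    · exact (sub_pos.2 (hAB y y2 x hx)).le
  have pB : (∀ y ∈ B, x < y) → 0 ≤ (-1) ^ B.card * ∏ y ∈ B.erase x, (x - y) := fun hx => by
    rw [erase_eq_of_notMem fun k => lt_irrefl _ (hx x k), ← prod_const, ← prod_mul_distrib]
    exact prod_nonneg fun y hy => by linarith [hx y hy]
  rcases mem_union.1 hx with hx | hx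
  · rcases mem_union.1 hx with hx | hx
    · have k1 := (hI x hx).2
      rw [e2 x hx] at k1
      have := mul_nonpos_of_nonpos_of_nonneg k1 (mul_nonneg pA (pB fun y hy => hIB y hy x hx))
      linarith
    · have k1 := hA' x hx
      rw [e1] at k1
      rw [erase_eq_of_notMem (disjoint_right.1 d1 hx)]
      have := mul_nonpos_of_nonpos_of_nonneg k1 (mul_nonneg pA (pB (hAB x hx)))
      linarith
  · have k1 := hB' x hx
    rw [e1] at k1
    have k2 : B = {x} := eq_singleton_iff_unique_mem.2 ⟨hx, fun y hy => card_le_one.1 hB y hy x hx⟩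
    rw [erase_eq_of_notMem fun k => lt_irrefl _ (hIB x hx x k), k2, erase_singleton, prod_empty,
      card_singleton]
    have := mul_nonneg k1 pA
    linarith

end Pool.Agent.P.MP_a0f0ad_al.Fi
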