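import Pool.Agent.P.MP_a0f0ad_al.Fi.T.Iface4
import Pool.Agent.P.MP_a0f0ad_al.Fi.V.Apr

/-! Step LBB of the filiform project. -/

namespace Pool.Agent.P.MP_a0f0ad_al.Fi

open Finset MeasureTheory Filter Topology
open scoped Classical

namespace LbbA

/-- the integral of the positive part -/
noncomputable def H (a : ℝ) (g : ℝ → ℝ) : ℝ := ∫ x in (0 : ℝ)..a, max (g x) 0

lemma deriv {φ ψ : ℝ → ℝ} (hφ : Continuous φ) (hψ : Continuous ψ) (hn : ∀ᵐ x, φ x ≠ 0) (a : ℝ) :
    HasDerivAt (fun t : ℝ => H a fun x => φ x + t * ψ x)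
      (∫ x in (0 : ℝ)..a, if 0 < φ x then ψ x else 0) 0 := by
  refine (intervalIntegral.hasDerivAt_integral_of_dominated_loc_of_lip (s := Set.univ)
    (F := fun t x => max (φ x + t * ψ x) 0) (bound := fun x => |ψ x|) univ_mem
    (Eventually.of_forall fun t => Continuous.aestronglyMeasurable (by fun_prop))
    (Continuous.intervalIntegrable (by fun_prop) 0 a) ?_ (Eventually.of_forall fun x _ => ?_)
    (Continuous.intervalIntegrable (by fun_prop) 0 a) (hn.mono fun x hx _ => ?_)).2
  · exact (Measurable.ite (measurableSet_lt measurable_const hφ.measurable) hψ.measurable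
      measurable_const).aestronglyMeasurable
  · refine (LipschitzWith.of_dist_le_mul fun t t' => ?_).lipschitzOnWith
    refine (abs_max_sub_max_le_abs _ _ _).trans (le_of_eq ?_)
    rw [show φ x + t * ψ x - (φ x + t' * ψ x) = ψ x * (t - t') by ring, Real.coe_nnabs, abs_mul,
      abs_abs, Real.dist_eq]
  · have h1 : HasDerivAt (fun t : ℝ => φ x + t * ψ x) (ψ x) 0 := by
      simpa using ((hasDerivAt_id (0 : ℝ)).mul_const (ψ x)).const_add (φ x)
    split_ifs with e
    · have : ∀ᶠ t in 𝓝 (0 : ℝ), 0 < φ x + t * ψ x :=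
        ContinuousAt.eventually_lt (by fun_prop) (by fun_prop) (by simpa using e)
      exact h1.congr_of_eventuallyEq (this.mono fun t ht => max_eq_left ht.le)
    · have : ∀ᶠ t in 𝓝 (0 : ℝ), φ x + t * ψ x < 0 :=
        ContinuousAt.eventually_lt (by fun_prop) (by fun_prop)
          (by simpa using (not_lt.1 e).lt_of_ne hx)
      exact (hasDerivAt_const _ _).congr_of_eventuallyEq (this.mono fun t ht => max_eq_right ht.le)

lemma key {d : ℕ} {a : ℝ} {y : Fin d → ℝ} (f0 : Fin d → ℝ) (c : ℝ) (h0 : f0 ≠ 0 ∨ c ≠ 0)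
    (h : ∀ f, H a (fun x => ev f0 0 x + c * x ^ d) - dot f0 y ≤
      H a (fun x => ev f 0 x + c * x ^ d) - dot f y) :
    ∃ φ : Fin (d + 1) → ℝ, φ ≠ 0 ∧
      ∀ j : Fin d, y j = ∫ x in (0 : ℝ)..a, if 0 < ev φ 0 x then x ^ (j : ℕ) else 0 := by
  have hφ : (Fin.snoc f0 c : Fin (d + 1) → ℝ) ≠ 0 := fun e => by
    rcases h0 with h0 | h0
    · exact h0 (funext fun j => by simpa using congrFun e j.castSucc)
    · exact h0 (by simpa using congrFun e (Fin.last d))
  refine ⟨_, hφ, fun j => ?_⟩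
  have hn : ∀ᵐ x, ev (Fin.snoc f0 c : Fin (d + 1) → ℝ) 0 x ≠ 0 := by
    have := (Polynomial.finite_setOf_isRoot (mt pol_eq_zero.1 hφ)).measure_zero volume
    filter_upwards [compl_mem_ae_iff.2 this] with x hx
    rw [ev_eq_eval]; exact hx
  have h1 := (deriv (continuous_ev _ 0) (continuous_pow (j : ℕ)) hn a).fun_sub
    ((hasDerivAt_id (0 : ℝ)).mul_const (y j))
  have h2 := IsLocalMin.hasDerivAt_eq_zero (Eventually.of_forall fun t => by
    have := h (f0 + Pi.single j t)
    simp only [ev_add, VB.ev_single, dot_add_left, VB.single_dot] at this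
    simp only [VB.ev_snoc, id, zero_mul, add_zero, sub_zero, add_right_comm _ (c * _)]
    linarith) h1
  linarith

end LbbA

open LbbA in
theorem p_LBB :
    S_LBB := by
  intro d a y ha hy
  have hc : ∀ c : ℝ, Continuous fun f : Fin d → ℝ =>
      H a (fun x => ev f 0 x + c * x ^ d) - dot f y := fun c => by
    refine Continuous.sub (intervalIntegral.continuous_parametric_intervalIntegral_of_continuous'
      (f := fun (f : Fin d → ℝ) x => max (ev f 0 x + c * x ^ d) 0) ?_ 0 a)
      (by unfold dot; fun_prop)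
    exact ((continuous_ev_uncurry 0).add (by fun_prop)).max continuous_const
  by_cases hA : ∃ f0, f0 ≠ 0 ∧ H a (ev f0 0) ≤ dot f0 y
  · obtain ⟨f0, h1, h2⟩ := hA
    refine key f0 0 (Or.inl h1) fun f => ?_
    simp only [zero_mul, add_zero]
    exact (sub_nonpos.2 h2).trans (sub_nonneg.2 (hy f))
  push Not at hA
  obtain ⟨δ, hδ, hs⟩ := (isCompact_sphere (0 : Fin d → ℝ) 1).exists_forall_le' (hc 0).continuousOn
    (a := 0) fun f hf => by
      simpa using hA f fun e => by simp [e] at hf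
  have low : ∀ f : Fin d → ℝ, δ * ‖f‖ ≤ H a (fun x => ev f 0 x + 1 * x ^ d) - dot f y := by
    intro f
    have h1 : H a (ev f 0) ≤ H a fun x => ev f 0 x + 1 * x ^ d :=
      intervalIntegral.integral_mono_on ha.le (Continuous.intervalIntegrable (by fun_prop) _ _)
        (Continuous.intervalIntegrable (by fun_prop) _ _) fun x hx =>
          max_le_max (by linarith [pow_nonneg hx.1 d]) le_rfl
    rcases eq_or_ne f 0 with rfl | hf
    · simpa using (hy 0).trans h1
    have hn := norm_pos_iff.2 hf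
    have h2 := mul_le_mul_of_nonneg_left
      (hs (‖f‖⁻¹ • f) (by simp [norm_smul, inv_mul_cancel₀ hn.ne'])) hn.le
    have h3 : ‖f‖ * H a (fun x => ev (‖f‖⁻¹ • f) 0 x + 0 * x ^ d) = H a (ev f 0) := by
      simp only [H, ← intervalIntegral.integral_const_mul, mul_max_of_nonneg _ _ hn.le, ev_smul,
        zero_mul, add_zero, mul_zero, mul_inv_cancel_left₀ hn.ne']
    rw [mul_sub, h3, dot_smul_left, mul_inv_cancel_left₀ hn.ne'] at h2
    linarith
  obtain ⟨f0, h0⟩ := (hc 1).exists_forall_le_of_isBounded 0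
    (isBounded_iff_forall_norm_le.2 ⟨_, fun f hf => (le_div_iff₀' hδ).2 ((low f).trans hf)⟩)
  exact key f0 1 (Or.inr one_ne_zero) h0

end Pool.Agent.P.MP_a0f0ad_al.Fi
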