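import Pool.Agent.P.MP_a0f0ad_al.Fi.T.Iface4

/-! Step LCON of the filiform project. -/

namespace Pool.Agent.P.MP_a0f0ad_al.Fi

open Finset MeasureTheory
open scoped Classical

namespace LconA

theorem sep {V : Type} [NormedAddCommGroup V] [NormedSpace ℝ V] [FiniteDimensional ℝ V]
    {C : Set V} (h0 : 0 ∈ C) (h1 : ∀ x ∈ C, ∀ y ∈ C, x + y ∈ C) (h2 : ∀ x ∈ C, ∀ t : ℝ, 0 ≤ t → t • x ∈ C)
    {e : V} (he : e ∉ C) : ∃ l : V →ₗ[ℝ] ℝ, l ≠ 0 ∧ ∀ x ∈ C, l x ≤ 0 := by
  have hc : Convex ℝ C := fun x hx y hy a b ha hb _ => h1 _ (h2 x hx a ha) _ (h2 y hy b hb)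
  by_cases hi : (interior C).Nonempty
  · obtain ⟨f, f0, hf⟩ := geometric_hahn_banach_of_nonempty_interior_point hc
      (fun a => he (interior_subset a)) hi
    refine ⟨f, fun a => f0 (ContinuousLinearMap.coe_injective a), fun x hx => not_lt.1 fun a => ?_⟩
    have a' : 0 < f x := a
    have := hf _ (h2 x hx ((|f e| + 1) / f x) (by positivity))
    rw [map_smul, smul_eq_mul, div_mul_cancel₀ _ a'.ne'] at this
    linarith [le_abs_self (f e)]
  · have : Submodule.span ℝ C < ⊤ := by
      refine lt_top_iff_ne_top.2 fun a => hi (hc.interior_nonempty_iff_affineSpan_eq_top.2 ?_)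
      rw [AffineSubspace.affineSpan_eq_top_iff_vectorSpan_eq_top_of_nonempty ℝ V V ⟨0, h0⟩,
        vectorSpan_eq_span_vsub_set_right ℝ h0]
      simpa using a
    obtain ⟨l, l0, hl⟩ := Submodule.exists_le_ker_of_lt_top _ this
    exact ⟨l, l0, fun x hx => (hl (Submodule.subset_span hx)).le⟩

end LconA

theorem p_LCON :
    S_LCON := by
  intro d C h0 h1 h2 h3 h4 e he
  cases d with
  | zero => exact Subsingleton.elim 0 e ▸ h0
  | succ d =>
    have up : ∀ x : Fin (d + 1) → ℝ, co x 0 = 0 → Function.update x 0 0 = x := fun x hx =>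
      Function.update_eq_self_iff.2 (Eq.symm (by simpa [co] using hx))
    by_contra hn
    obtain ⟨l, l0, hl⟩ := LconA.sep (C := {x | Function.update x 0 0 ∈ C}) (e := e)
      (by simpa using h0)
      (fun x hx y hy => by simpa [← Function.update_add] using h1 _ hx _ hy)
      (fun x hx t ht => by simpa [← Function.update_smul] using h2 _ hx t ht)
      (fun a => hn (up e he ▸ a))
    have el : ∀ x, l x = dot (fun j => l (Pi.single j 1)) x := fun x => by
      rw [LinearMap.pi_apply_eq_sum_univ l x, dot]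
      exact sum_congr rfl fun j _ => by
        rw [smul_eq_mul, mul_comm]
        exact congrArg (fun v => l v * x j) (funext fun i => by simp [Pi.single_apply, eq_comm])
    have hN := h4 (fun j => l (Pi.single j 1)) fun c hc =>
      el c ▸ hl c (show _ ∈ C from (up c (h3 c hc)).symm ▸ hc)
    have z : ∀ j, l (Pi.single j 1) = 0 := fun j => by
      rcases Fin.eq_zero_or_eq_succ j with rfl | ⟨i, rfl⟩
      · have a := hl (Pi.single 0 1) (by simpa [Pi.single] using h0)
        have b := hl (Pi.single 0 (-1)) (by simpa [Pi.single] using h0)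
        rw [Pi.single_neg, map_neg] at b
        linarith
      · exact not_not.1 fun a => hN ⟨i.succ, by simp, a⟩
    exact l0 (LinearMap.ext fun x => by simp [el x, dot, z])

end Pool.Agent.P.MP_a0f0ad_al.Fi
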