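import Pool.Agent.P.MP_a0f0ad_al.Fi.T.Iface2

/-! Chapter T: small tools. -/

namespace Pool.Agent.P.MP_a0f0ad_al.Fi

open Finset MeasureTheory

variable {d : ℕ} {S : Finset (G d)} {D : LD d}

theorem LD.Lv.neg {w : ℝ} (h : D.Lv w) : D.Lv (-w) := by
  obtain ⟨l, hl, h⟩ := h
  exact ⟨l, hl, h.symm.imp (fun e => by rw [e, neg_neg]) fun e => by rw [e]⟩

theorem LD.Lv.neg_iff {w : ℝ} : D.Lv (-w) ↔ D.Lv w :=
  ⟨fun h => by simpa using h.neg, LD.Lv.neg⟩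

theorem LD.Lv.mem {w : ℝ} (h : D.Lv w) : w ∈ D.ThA := Or.inr (Or.inr h)

theorem LD.mem_ThA_of_abs {w : ℝ} (h : |w| = D.Q) : w ∈ D.ThA := by
  rcases abs_cases w with e | e
  · exact Or.inl (e.1 ▸ h)
  · exact Or.inr (Or.inl (by linarith [e.1]))

theorem LD.Jb_neg (D : LD d) (u : ℝ) : D.Jb (-u) = D.Jb u := by
  simp only [LD.Jb, neg_neg]
  exact sum_congr rfl fun _ _ => add_comm _ _

theorem LD.be_zero (D : LD d) : D.be 0 = 0 := by simp [LD.be]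

namespace LD.Spec

theorem Lv_abs_lt (h : D.Spec S) {w : ℝ} (hw : D.Lv w) : |w| < D.Q := by
  obtain ⟨l, hl, e | e⟩ := hw
  · rw [e]; exact abs_lt.2 (h.thQ l hl)
  · rw [e, abs_neg]; exact abs_lt.2 (h.thQ l hl)

theorem not_Lv (h : D.Spec S) {w : ℝ} (hw : |w| = D.Q) : ¬ D.Lv w :=
  fun e => (h.Lv_abs_lt e).ne hw

theorem Jb_nonneg (h : D.Spec S) (u : ℝ) : 0 ≤ D.Jb u :=
  sum_nonneg fun k hk => by
    have := (h.kapmono k (mem_range.1 hk)).le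
    refine add_nonneg ?_ ?_ <;> split_ifs <;> linarith

/-- `be u` has the sign of `u` -/
theorem be_mul_nonneg (h : D.Spec S) {u F : ℝ} (hu : 0 ≤ u * F) : 0 ≤ D.be u * F := by
  rcases lt_trichotomy u 0 with e | e | e
  · have h1 := h.be_nonneg (neg_nonneg.2 e.le)
    rw [D.be_neg] at h1
    have h2 : F ≤ 0 := by by_contra k; nlinarith [mul_pos (neg_pos.2 e) (not_le.1 k)]
    nlinarith
  · rw [e, D.be_zero, zero_mul]
  · exact mul_nonneg (h.be_nonneg e.le) (nonneg_of_mul_nonneg_right hu e)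

theorem be_mul_nonpos (h : D.Spec S) {u F : ℝ} (hu : u * F ≤ 0) : D.be u * F ≤ 0 := by
  have := h.be_mul_nonneg (u := u) (F := -F) (by linarith)
  linarith

theorem be_eventually (h : D.Spec S) {u : ℝ} (hu : ¬ D.Lv u) :
    ∀ᶠ u' in nhds u, D.be u' = D.be u ∧ ¬ D.Lv u' := by
  have h1 := h.idx_eventually (u := u) fun k hk e => hu ⟨k, hk, Or.inl e⟩
  have h2 := (continuous_neg.tendsto u).eventually
    (h.idx_eventually (u := -u) fun k hk e => hu ⟨k, hk, Or.inr (by rw [← e, neg_neg])⟩)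
  have h3 : ∀ᶠ u' in nhds u, ¬ D.Lv u' := by
    have : {w | D.Lv w}.Finite := D.finite_ThA.subset fun w hw => LD.Lv.mem hw
    exact this.isClosed.isOpen_compl.mem_nhds hu
  filter_upwards [h1, h2, h3] with u' a b c
  exact ⟨by simp only [LD.be, LD.kp, a, b], c⟩

/-- near the ends `be` is as large as at the ends -/
theorem exists_be_top (h : D.Spec S) : ∃ c : ℝ, 0 < c ∧ ∀ u, D.Q - c ≤ |u| → D.be D.Q ≤ |D.be u| := by
  have h1 := h.be_eventually (h.not_Lv (abs_of_pos h.Qpos))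
  obtain ⟨ε, hε, h2⟩ := Metric.eventually_nhds_iff.1 h1
  refine ⟨min (ε / 2) (D.Q / 2), lt_min (by linarith) (by linarith [h.Qpos]), fun u hu => ?_⟩
  have h3 : D.be (D.Q - ε / 2) = D.be D.Q :=
    (h2 (by rw [Real.dist_eq, sub_sub_cancel_left, abs_neg, abs_of_pos] <;> linarith)).1
  have h4 : D.be D.Q ≤ D.be |u| := h3 ▸ h.be_mono (by linarith [min_le_left (ε / 2) (D.Q / 2)])
  refine h4.trans ?_
  rcases abs_cases u with e | e
  · rw [e.1]; exact le_abs_self _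
  · rw [e.1, D.be_neg]; exact neg_le_abs _

theorem abs_be_of_abs (h : D.Spec S) {u : ℝ} (hu : |u| = D.Q) : |D.be u| = D.be D.Q := by
  rcases abs_cases u with e | e
  · rw [← e.1, hu] ; simpa [← hu, e.1] using abs_of_nonneg (h.be_nonneg e.2)
  · have : u = -D.Q := by linarith [e.1]
    rw [this, D.be_neg, abs_neg, abs_of_nonneg (h.be_nonneg h.Qpos.le)]

theorem om_of_abs (h0 : D.om D.Q = 0) {u : ℝ} (hu : |u| = D.Q) : D.om u = 0 := by
  rcases abs_cases u with e | e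
  · rw [← e.1, hu, h0]
  · rw [← D.om_neg, ← e.1, hu, h0]

theorem om_nn (h : D.Spec S) {u : ℝ} (hu : |u| ≤ D.Q) : 0 ≤ D.om u := by
  obtain ⟨c, hc, -, h1, -⟩ := h.exists_slack
  exact (mul_nonneg hc.le (sub_nonneg.2 hu)).trans (h1 u hu)

theorem rhoF_add (h : D.Spec S) (q : Fin d → ℝ) (α m z M : ℝ) (Z : Finset ℝ) (ν : ℝ → ℝ)
    (f g : Fin d → ℝ) :
    rhoF D q α m z M Z ν (f + g) = rhoF D q α m z M Z ν f + rhoF D q α m z M Z ν g := by
  have key : ∀ s t, D.Ib q (f + g) s t = D.Ib q f s t + D.Ib q g s t := fun s t => by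
    simp only [LD.Ib, ev_add, mul_add]
    exact intervalIntegral.integral_add (h.ii_be (continuous_ev q 0) (continuous_ev f 0) s t)
      (h.ii_be (continuous_ev q 0) (continuous_ev g 0) s t)
  simp only [rhoF, key, ev_add, mul_add, sum_add_distrib]; ring

end LD.Spec

theorem rhoF_smul (D : LD d) (q : Fin d → ℝ) (α m z M : ℝ) (Z : Finset ℝ) (ν : ℝ → ℝ) (c : ℝ)
    (f : Fin d → ℝ) : rhoF D q α m z M Z ν (c • f) = c * rhoF D q α m z M Z ν f := by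
  have key : ∀ s t, D.Ib q (c • f) s t = c * D.Ib q f s t := fun s t => by
    simp only [LD.Ib, ev_smul, mul_left_comm _ c]
    exact intervalIntegral.integral_const_mul _ _
  simp only [rhoF, key, ev_smul, mul_left_comm _ c, ← mul_sum]; ring

theorem hess_smul (D : LD d) (q : Fin d → ℝ) (α M : ℝ) (L1 L2 Z : Finset ℝ) (ν : ℝ → ℝ)
    (c e : ℝ) (f g : Fin d → ℝ) :
    hess D q α M L1 L2 Z ν (c • f) (e • g) = c * e * hess D q α M L1 L2 Z ν f g := by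
  have key : ∀ a x y t : ℝ, a * (c * x * (e * y)) / t = c * e * (a * (x * y) / t) :=
    fun a x y t => by ring
  simp only [hess, ev_smul, key, ← mul_sum]; ring

theorem TX.mono {c c' α m z M : ℝ} {q : Fin d → ℝ} {Z : Finset ℝ} {ν : ℝ → ℝ}
    (h : TX D c α m z M q Z ν) (hc : c' ≤ c) : TX D c' α m z M q Z ν := by
  obtain ⟨f, h1, h2⟩ := h
  exact ⟨f, h1, hc.trans h2⟩

theorem TH.mono {c c' α M : ℝ} {q : Fin d → ℝ} {Z L1 L2 : Finset ℝ} {ν : ℝ → ℝ}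
    (h : TH D c α M q Z L1 L2 ν) (hc : c' ≤ c) : TH D c' α M q Z L1 L2 ν := by
  obtain ⟨f, g, h1, h2, h3, h4⟩ := h
  exact ⟨f, g, h1, h2, h3, hc.trans h4⟩

theorem norm_inv_smul_le {f : Fin d → ℝ} {N : ℝ} (hN : 0 < N) (h : ‖f‖ ≤ N) : ‖N⁻¹ • f‖ ≤ 1 := by
  rw [norm_smul, norm_inv, Real.norm_eq_abs, abs_of_pos hN, inv_mul_le_iff₀ hN, mul_one]; exact h

/-- normalisation of a test function -/
theorem TX.of_le {c N α m z M : ℝ} {q : Fin d → ℝ} {Z : Finset ℝ} {ν : ℝ → ℝ} (f : Fin d → ℝ)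
    (hN : 0 < N) (h1 : ‖f‖ ≤ N) (h2 : c ≤ |rhoF D q α m z M Z ν f|) :
    TX D (c / N) α m z M q Z ν :=
  ⟨N⁻¹ • f, norm_inv_smul_le hN h1, by
    rw [rhoF_smul, abs_mul, abs_of_pos (inv_pos.2 hN), div_eq_inv_mul]
    exact mul_le_mul_of_nonneg_left h2 (inv_pos.2 hN).le⟩

theorem TH.of_le {c N α M : ℝ} {q : Fin d → ℝ} {Z L1 L2 : Finset ℝ} {ν : ℝ → ℝ}
    (f g : Fin d → ℝ) (hN : 0 < N) (h1 : ‖f‖ ≤ N) (h1' : ‖g‖ ≤ N)
    (h0 : ∀ x ∈ Z, ev f 0 x = 0 ∧ ev g 0 x = 0) (h2 : c ≤ |hess D q α M L1 L2 Z ν f g|) :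
    TH D (c / N ^ 2) α M q Z L1 L2 ν :=
  ⟨N⁻¹ • f, N⁻¹ • g, norm_inv_smul_le hN h1, norm_inv_smul_le hN h1',
    fun x hx => by simp [ev_smul, h0 x hx], by
    rw [hess_smul, abs_mul, abs_of_pos (by positivity), div_eq_inv_mul, sq, mul_inv]
    exact mul_le_mul_of_nonneg_left h2 (by positivity)⟩

/-- the theorem of Rolle for the derivatives of `q` -/
theorem ev_rolle (q : Fin d → ℝ) (k : ℕ) {a b : ℝ} (hab : a < b) (h : ev q k a = ev q k b) :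
    ∃ c, a < c ∧ c < b ∧ ev q (k + 1) c = 0 := by
  obtain ⟨c, hc, h⟩ := exists_hasDerivAt_eq_zero hab (continuous_ev q k).continuousOn h
    fun x _ => hasDerivAt_ev q k x
  exact ⟨c, hc.1, hc.2, h⟩

/-- a partial product of factors in `[0, B]` is at least the full product over `B ^ n` -/
theorem prod_le_pow_mul_prod {K Z : Finset ℝ} (hK : K ⊆ Z) {φ : ℝ → ℝ} {B : ℝ} {n : ℕ}
    (hB : 1 ≤ B) (h : ∀ y ∈ Z, 0 ≤ φ y ∧ φ y ≤ B) (hn : Z.card ≤ n) :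
    ∏ y ∈ Z, φ y ≤ B ^ n * ∏ y ∈ K, φ y := by
  classical
  rw [← prod_sdiff hK]
  refine mul_le_mul_of_nonneg_right ?_ (prod_nonneg fun y hy => (h y (hK hy)).1)
  refine le_trans ?_ (pow_le_pow_right₀ hB ((card_le_card (sdiff_subset (s := Z) (t := K))).trans hn))
  rw [← prod_const]
  exact prod_le_prod (fun y hy => (h y (mem_sdiff.1 hy).1).1) fun y hy => (h y (mem_sdiff.1 hy).1).2

namespace TS

variable {v α m z M : ℝ} {q : Fin d → ℝ} {Z L1 L2 : Finset ℝ}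

theorem abs_le (h : TS D v α m z M q Z L1 L2) {x : ℝ} (hx : x ∈ Set.Icc α M) : |x| ≤ D.Lam :=
  _root_.abs_le.2 ⟨h.hα.trans hx.1, hx.2.trans h.hM⟩

theorem mem_Icc (h : TS D v α m z M q Z L1 L2) {x : ℝ} (hx : x ∈ Z) : x ∈ Set.Icc α M :=
  ⟨h.αm.le.trans (h.hZ x hx).1, (h.hZ x hx).2.1.trans h.zM.le⟩

theorem αM (h : TS D v α m z M q Z L1 L2) : α < M := h.αm.trans (h.mz.trans h.zM)

theorem len_le (h : TS D v α m z M q Z L1 L2) : M - α ≤ 2 * D.Lam := by linarith [h.hα, h.hM]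

theorem norm_le (h : TS D v α m z M q Z L1 L2) : ‖q‖ ≤ 1 / v := by
  rw [le_div_iff₀ h.v0, mul_comm]; exact h.hq

theorem pow_mono (h : TS D v α m z M q Z L1 L2) {c c' : ℝ} {k k' : ℕ} (h0 : 0 ≤ c')
    (hc : c' ≤ c) (hk : k ≤ k') : c' * v ^ k' ≤ c * v ^ k :=
  mul_le_mul hc (pow_le_pow_of_le_one h.v0.le h.v1 hk) (pow_nonneg h.v0.le _) (h0.trans hc)

end TS

end Pool.Agent.P.MP_a0f0ad_al.Fi
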