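import Pool.Agent.P.MP_a0f0ad_al.Fi.T.Iface4
import Pool.Agent.P.MP_a0f0ad_al.Fi.T.Base

/-! Chapter T: small tools for the frames of a constant dual polynomial. -/

namespace Pool.Agent.P.MP_a0f0ad_al.Fi

open Finset MeasureTheory
open scoped Classical

variable {d : ℕ}

@[simp] theorem Wv_zero : (Wv 0 : Fin d → ℝ) = 0 := by funext j; simp [Wv]

theorem Vd_zero_apply (x : ℝ) (j : Fin d) : Vd 0 x j = x ^ (j : ℕ) := by simp [Vd]

theorem integral_Vd (s t : ℝ) (j : Fin d) : ∫ x in s..t, Vd 0 x j = Wv t j - Wv s j := by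
  simp only [Vd_zero_apply, integral_pow, Wv]; ring

theorem dot_Wv (f : Fin d → ℝ) (s t : ℝ) : dot f (Wv t - Wv s) = ∫ x in s..t, ev f 0 x := by
  have := dot_integral f (fun _ => 1) 0 s t intervalIntegrable_const
  simp only [one_mul, integral_Vd] at this
  exact this

theorem contDiff_Wv : ContDiff ℝ 1 fun x : ℝ => (Wv x : Fin d → ℝ) :=
  contDiff_pi.2 fun j => by unfold Wv; fun_prop

theorem contDiff_Vd (k : ℕ) : ContDiff ℝ 1 fun x : ℝ => (Vd k x : Fin d → ℝ) :=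
  contDiff_pi.2 fun j => by unfold Vd; fun_prop

theorem dot_of_const {q : Fin d → ℝ} (h : ¬ Nonconst q) (y : Fin d → ℝ) :
    dot q y = co q 0 * co y 0 := by
  rcases d with _ | d
  · simp [dot, co]
  · rw [dot, Fin.sum_univ_succ, sum_eq_zero, add_zero]
    · simp [co]
    · intro j _
      have : q j.succ = 0 := by
        by_contra k
        exact h ⟨j.succ, by simp, k⟩
      simp [this]

/-- the deposit of a sea -/
theorem integral_sea {a : ℝ} (ha : a ≠ 0) (ν b x : ℝ) :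
    (fun j : Fin d => ∫ s in (0 : ℝ)..1, ν * b * Vd 0 (x + s * (ν * a)) j) =
      (b / a) • (Wv (x + ν * a) - Wv x) := by
  funext j
  have h1 := intervalIntegral.mul_integral_comp_add_mul (a := (0 : ℝ)) (b := 1)
    (f := fun t => Vd 0 t j) (ν * a) x
  simp only [mul_zero, add_zero, mul_one, integral_Vd] at h1
  rw [intervalIntegral.integral_const_mul, Pi.smul_apply, Pi.sub_apply, smul_eq_mul, ← h1]
  simp only [mul_comm _ (ν * a)]
  generalize (∫ s in (0 : ℝ)..1, Vd 0 (x + ν * a * s) j) = I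
  field_simp

/-- the deposit of an atom -/
theorem integral_atom (ν b x : ℝ) :
    (fun j : Fin d => ∫ s in (0 : ℝ)..1, ν * b * Vd 0 (x + s * (ν * 0)) j) = (ν * b) • Vd 0 x := by
  funext j; simp

namespace Frame

variable (F : Frame d)

theorem yF_eq : F.yF = ∑ l ∈ range F.m, fun j : Fin d => ∫ s in (0 : ℝ)..1,
    F.nu l * ((F.Y l).b : ℝ) * Vd 0 (F.pos l + s * (F.nu l * ((F.Y l).a : ℝ))) j := by
  funext j; simp only [yF, pt, Finset.sum_apply]

/-- one more item at the end -/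
noncomputable def lsnoc (g : G d) (t : ℕ) (ν : ℝ) : Frame d :=
  ⟨F.m + 1, fun i => if i = F.m then g else F.Y i, fun i => if i = F.m then g else F.Yh i,
    fun i => if i = F.m then t else F.t i, fun i => if i = F.m then ν else F.nu i⟩

variable (g : G d) (t : ℕ) (ν : ℝ)

@[simp] theorem lsnoc_m : (F.lsnoc g t ν).m = F.m + 1 := rfl
@[simp] theorem lsnoc_Y_last : (F.lsnoc g t ν).Y F.m = g := if_pos rfl
@[simp] theorem lsnoc_Yh_last : (F.lsnoc g t ν).Yh F.m = g := if_pos rfl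
@[simp] theorem lsnoc_t_last : (F.lsnoc g t ν).t F.m = t := if_pos rfl
@[simp] theorem lsnoc_nu_last : (F.lsnoc g t ν).nu F.m = ν := if_pos rfl
theorem lsnoc_Y {i : ℕ} (h : i < F.m) : (F.lsnoc g t ν).Y i = F.Y i := if_neg h.ne
theorem lsnoc_Yh {i : ℕ} (h : i < F.m) : (F.lsnoc g t ν).Yh i = F.Yh i := if_neg h.ne
theorem lsnoc_t {i : ℕ} (h : i < F.m) : (F.lsnoc g t ν).t i = F.t i := if_neg h.ne
theorem lsnoc_nu {i : ℕ} (h : i < F.m) : (F.lsnoc g t ν).nu i = F.nu i := if_neg h.ne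

theorem lsnoc_pos {i : ℕ} (h : i ≤ F.m) : (F.lsnoc g t ν).pos i = F.pos i :=
  sum_congr rfl fun l hl => by
    have := (mem_range.1 hl).trans_le h
    rw [F.lsnoc_nu g t ν this, F.lsnoc_Y g t ν this]

theorem lsnoc_pos_last : (F.lsnoc g t ν).pos (F.m + 1) = F.pos F.m + ν * (g.a : ℝ) := by
  rw [pos_succ, F.lsnoc_pos g t ν le_rfl, lsnoc_nu_last, lsnoc_Y_last]

theorem lsnoc_yF : (F.lsnoc g t ν).yF = F.yF + fun j : Fin d => ∫ s in (0 : ℝ)..1,
    ν * (g.b : ℝ) * Vd 0 (F.pos F.m + s * (ν * (g.a : ℝ))) j := by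
  rw [yF_eq, yF_eq, lsnoc_m, sum_range_succ, lsnoc_nu_last, lsnoc_Y_last, F.lsnoc_pos g t ν le_rfl]
  congr 1
  refine sum_congr rfl fun l hl => ?_
  have := mem_range.1 hl
  rw [F.lsnoc_nu g t ν this, F.lsnoc_Y g t ν this, F.lsnoc_pos g t ν this.le]

theorem lsnoc_yF_sea (h : g.a ≠ 0) : (F.lsnoc g t ν).yF =
    F.yF + ((g.b : ℝ) / (g.a : ℝ)) • (Wv (F.pos F.m + ν * (g.a : ℝ)) - Wv (F.pos F.m)) := by
  rw [lsnoc_yF, integral_sea (by exact_mod_cast h)]

theorem lsnoc_yF_atom (h : g.a = 0) :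
    (F.lsnoc g t ν).yF = F.yF + (ν * (g.b : ℝ)) • Vd 0 (F.pos F.m) := by
  rw [lsnoc_yF, h, Int.cast_zero, integral_atom]

variable {F}

theorem FC.mono {S YY YY' : Finset (G d)} {K0 N N' : ℕ} {L L' w pa : ℝ} {u : E d}
    (h : F.FC S K0 YY N L w pa u) (hY : YY ⊆ YY') (hN : N ≤ N') (hL : L ≤ L') :
    F.FC S K0 YY' N' L' w pa u := by
  obtain ⟨h1, h2, h3, h4, h5, h6, h7, h8⟩ := h
  exact ⟨h1, h2, h3, h4, h5.trans hN, fun i hi => (h6 i hi).trans hL,
    fun i hi => ⟨hY (h7 i hi).1, (h7 i hi).2⟩, h8⟩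

end Frame

/-- blocks of height `K0` made of one vertex letter -/
theorem LD.Spec.exists_blk {S : Finset (G d)} {D : LD d} (h : D.Spec S) :
    ∃ (U : ℕ → G d) (t : ℕ → ℕ), ∀ k ≤ D.n, (U k).a = D.K0 ∧ ((U k).b : ℝ) = D.K0 * D.kap k ∧
      len S (U k) ≤ t k ∧ (t k : ℝ) = D.K0 * (((D.A k).a : ℝ))⁻¹ := by
  have h1 : ∀ k, ∃ t : ℕ, k ≤ D.n → (t : ℤ) * (D.A k).a = D.K0 := fun k => by
    by_cases hk : k ≤ D.n
    · obtain ⟨t, -, ht⟩ := h.dvd_K0 hk
      exact ⟨t, fun _ => ht⟩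
    · exact ⟨0, fun e => absurd e hk⟩
  choose t ht using h1
  refine ⟨fun k => D.A k ^ t k, t, fun k hk => ?_⟩
  have ha : (0 : ℝ) < (D.A k).a := by exact_mod_cast (h.memA k hk).2
  have h2 : (t k : ℝ) * (D.A k).a = D.K0 := by exact_mod_cast ht k hk
  refine ⟨by rw [G.pow_a, ht k hk], ?_, ?_, ?_⟩
  · rw [G.pow_b, LD.kap, ← h2]; push_cast; field_simp
  · exact (h.sym.len_pow _ _).trans (by simpa using Nat.mul_le_mul_left _ (len_mem (h.memA k hk).1))
  · rw [← h2]; field_simp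

end Pool.Agent.P.MP_a0f0ad_al.Fi
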