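import Pool.Agent.P.MP_a0f0ad_al.Fi.T.Iface4
import Pool.Agent.P.MP_a0f0ad_al.Fi.T.LBase

/-! Step LFP of the filiform project. -/

namespace Pool.Agent.P.MP_a0f0ad_al.Fi

open Finset MeasureTheory
open scoped Classical

namespace LfpA

variable {d : ℕ}

theorem one_le_len {S : Finset (G d)} (hS : Sym S) {g : G d} (hb : g.b ≠ 0) : 1 ≤ len S g := by
  obtain ⟨w, hw, rfl⟩ := hS.exists_geo g
  rw [← hw.2]
  rcases w with _ | ⟨a, w⟩
  · simp at hb
  · simp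

theorem abs_pt_le (F : Frame d) {L s : ℝ} {l : ℕ} (h0 : |F.pos l| ≤ L) (h1 : |F.pos (l + 1)| ≤ L)
    (s0 : 0 ≤ s) (s1 : s ≤ 1) : |F.pt l s| ≤ L := by
  rw [F.pos_succ] at h1
  rw [Frame.pt]
  rw [abs_le] at *
  constructor <;> nlinarith [h0.1, h0.2, h1.1, h1.2]

theorem norm_Gam_le (F : Frame d) {L Cv : ℝ} (hCv : 0 ≤ Cv)
    (hV : ∀ x : ℝ, |x| ≤ L → ‖(Vd 1 x : Fin d → ℝ)‖ ≤ Cv) (hp : ∀ i ≤ F.m, |F.pos i| ≤ L)
    (hnu : ∀ i < F.m, 0 ≤ F.nu i) (τ : ℝ) :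
    ‖F.Gam τ‖ ≤ Cv * ∑ l ∈ range F.m, F.nu l * |((F.Y l).b : ℝ)| := by
  refine (pi_norm_le_iff_of_nonneg (mul_nonneg hCv (sum_nonneg fun l hl =>
    mul_nonneg (hnu l (mem_range.1 hl)) (abs_nonneg _)))).2 fun j => ?_
  rw [Frame.Gam, mul_sum]
  refine (norm_sum_le _ _).trans (sum_le_sum fun l hl => ?_)
  have hl' := mem_range.1 hl
  have hc := clamp_mem (τ - l)
  have hn := hnu l hl'
  have hK : 0 ≤ Cv * (F.nu l * |((F.Y l).b : ℝ)|) := by positivity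
  refine (intervalIntegral.norm_integral_le_of_norm_le_const
    (C := Cv * (F.nu l * |((F.Y l).b : ℝ)|)) fun s hs => ?_).trans ?_
  · rw [Set.uIoc_of_le hc.2] at hs
    have h1 := (norm_le_pi_norm _ j).trans
      (hV _ (abs_pt_le F (hp l hl'.le) (hp (l + 1) hl') (hc.1.trans hs.1.le) hs.2))
    rw [norm_mul, norm_mul, Real.norm_of_nonneg hn, Real.norm_eq_abs, mul_comm Cv]
    exact mul_le_mul_of_nonneg_left h1 (by positivity)
  · refine mul_le_of_le_one_right hK ?_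
    rw [abs_le]
    constructor <;> linarith [hc.1, hc.2]

end LfpA

theorem p_LFP :
    S_LFP := by
  intro d S YY N L B hd hS
  obtain ⟨Cv, hCv, hV⟩ := exists_Vd_bound d L
  obtain ⟨Cb, hCb0, hCb⟩ : ∃ Cb : ℝ, 0 ≤ Cb ∧ ∀ g ∈ YY, |(g.a : ℝ)| ≤ Cb ∧ |(g.b : ℝ)| ≤ Cb := by
    refine ⟨∑ g ∈ YY, (|(g.a : ℝ)| + |(g.b : ℝ)|), by positivity, fun g hg => ?_⟩
    have := single_le_sum (f := fun g : G d => |(g.a : ℝ)| + |(g.b : ℝ)|)
      (fun _ _ => by positivity) hg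
    constructor <;> linarith [abs_nonneg (g.a : ℝ), abs_nonneg (g.b : ℝ)]
  refine ⟨N + 2 * B * Cb + (Cb * Cv + Cb * (Cv * Cb)), ?_⟩
  rintro F K0 u p Nu ⟨h1, h2, h3, h4, h5, h6, h7, -⟩ hc hw hpa hNu hle
  have hB : 0 ≤ B := (abs_nonneg _).trans hw
  have hCv0 : 0 ≤ Cv := zero_le_one.trans hCv
  have hcost : ∑ i ∈ range F.m, F.nu i * (F.t i : ℝ) = Nu := by
    rw [hNu, ← h3, ← h4, F.co_yF hd, Frame.pos, mul_sum, mul_sum, ← sum_add_distrib]
    refine sum_congr rfl fun i hi => ?_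
    rw [(h7 i (mem_range.1 hi)).2]
    ring
  have hmass : ∑ l ∈ range F.m, F.nu l * |((F.Y l).b : ℝ)| ≤ Cb := by
    have : ∑ l ∈ range F.m, F.nu l * |((F.Y l).b : ℝ)| ≤
        ∑ l ∈ range F.m, Cb * (F.nu l * (F.t l : ℝ)) := by
      refine sum_le_sum fun l hl => ?_
      have hl' := mem_range.1 hl
      have hn := (h1 l hl').1.le
      by_cases hb : (F.Y l).b = 0
      · rw [hb, Int.cast_zero, abs_zero, mul_zero]
        positivity
      · have ht : (1 : ℝ) ≤ F.t l := by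
          exact_mod_cast (LfpA.one_le_len hS hb).trans (h1 l hl').2.1
        have := (hCb _ (h7 l hl').1).2
        rw [mul_left_comm]
        exact mul_le_mul_of_nonneg_left (this.trans (le_mul_of_one_le_right hCb0 ht)) hn
    rw [← mul_sum, hcost] at this
    exact this.trans (mul_le_of_le_one_right hCb0 hle)
  have e1 : (0 : ℝ) ≤ N := Nat.cast_nonneg _
  have e2 : 0 ≤ 2 * B * Cb := by positivity
  have e3 : 0 ≤ Cb * Cv + Cb * (Cv * Cb) := by positivity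
  refine ⟨h1, h2, h3, h4, hcost, ?_, fun i hi => ⟨(h7 i hi).1, ?_, ?_, ?_⟩⟩
  · have : (F.m : ℝ) ≤ N := by exact_mod_cast h5
    linarith
  · obtain ⟨ha, hb⟩ := hCb _ (h7 i hi).1
    have k1 : co p.2 0 * ((F.Y i).b : ℝ) ≤ B * Cb :=
      (le_abs_self _).trans ((abs_mul _ _).trans_le (mul_le_mul hw hb (abs_nonneg _) hB))
    have k2 : p.1 * ((F.Y i).a : ℝ) ≤ B * Cb :=
      (le_abs_self _).trans ((abs_mul _ _).trans_le (mul_le_mul hpa ha (abs_nonneg _) hB))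
    rw [(h7 i hi).2]
    linarith
  · obtain ⟨ha, hb⟩ := hCb _ (h7 i hi).1
    have k1 := (LfpA.norm_Gam_le F hCv0 (fun x hx => (hV 1 x hx).1) h6
      (fun l hl => (h1 l hl).1.le) i).trans (mul_le_mul_of_nonneg_left hmass hCv0)
    have k2 := (hV 0 _ (h6 i hi.le)).1
    rw [Frame.DvI, Frame.Dv, F.posT_nat hi.le]
    refine (norm_add_le _ _).trans ?_
    rw [norm_smul, norm_smul, Real.norm_eq_abs, Real.norm_eq_abs]
    have k3 := mul_le_mul hb k2 (norm_nonneg _) hCb0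
    have k4 := mul_le_mul ha k1 (norm_nonneg _) hCb0
    linarith
  · rw [dot_of_const hc, Frame.DvI, F.co_Dv hd]
    exact (h7 i hi).2

end Pool.Agent.P.MP_a0f0ad_al.Fi
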