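import Pool.Agent.P.MP_a0f0ad_al.Fi.T.Iface4
import Pool.Agent.P.MP_a0f0ad_al.Fi.T.LBase

/-! Step LFQ of the filiform project. -/

namespace Pool.Agent.P.MP_a0f0ad_al.Fi

open Finset MeasureTheory
open scoped Classical

namespace LfqA

variable {d : ℕ} {F : Frame d} {tt : G d → ℕ} {R : G d → Prop} {g g₁ g₂ U At Dn : G d} {t n K0 : ℕ}
  {ν m M x x' : ℝ} {Z : Finset ℝ} {mu : ℝ → ℝ}

/-- the clauses on items and positions -/
def It (F : Frame d) (tt : G d → ℕ) (R : G d → Prop) (m M : ℝ) : Prop :=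
  (∀ i < F.m, F.Yh i = F.Y i ∧ F.t i = tt (F.Y i) ∧ 0 < F.nu i ∧ R (F.Y i)) ∧
    ∀ i ≤ F.m, m ≤ F.pos i ∧ F.pos i ≤ M

theorem It.lsnoc (h : It F tt R m M) (hg : R g) (hν : 0 < ν) (e : F.pos F.m + ν * (g.a : ℝ) = x)
    (h1 : m ≤ x) (h2 : x ≤ M) : It (F.lsnoc g (tt g) ν) tt R m M := by
  refine ⟨fun i hi => ?_, fun i hi => ?_⟩
  · rcases (Nat.lt_succ_iff.1 hi).eq_or_lt with rfl | c
    · simp [hg, hν]
    · rw [F.lsnoc_Y _ _ _ c, F.lsnoc_Yh _ _ _ c, F.lsnoc_t _ _ _ c, F.lsnoc_nu _ _ _ c]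
      exact h.1 i c
  · rcases hi.eq_or_lt with rfl | c
    · rw [Frame.lsnoc_m, Frame.lsnoc_pos_last, e]
      exact ⟨h1, h2⟩
    · rw [F.lsnoc_pos _ _ _ (Nat.lt_succ_iff.1 c)]
      exact h.2 i (Nat.lt_succ_iff.1 c)

/-- a junction -/
def Pr (F : Frame d) (g₁ g₂ : G d) (x : ℝ) : Prop :=
  ∃ j, 1 ≤ j ∧ j < F.m ∧ F.pos j = x ∧ F.Y (j - 1) = g₁ ∧ F.Y j = g₂

theorem Pr.lsnoc (h : Pr F g₁ g₂ x) : Pr (F.lsnoc g t ν) g₁ g₂ x := by
  obtain ⟨j, a, b, c, e, f⟩ := h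
  exact ⟨j, a, b.trans F.m.lt_succ_self, (F.lsnoc_pos _ _ _ b.le).trans c,
    (F.lsnoc_Y _ _ _ (by omega)).trans e, (F.lsnoc_Y _ _ _ b).trans f⟩

theorem pr_last (a : 1 ≤ F.m) (b : F.Y (F.m - 1) = g₁) (c : F.pos F.m = x) :
    Pr (F.lsnoc g t ν) g₁ g x :=
  ⟨F.m, a, F.m.lt_succ_self, (F.lsnoc_pos _ _ _ le_rfl).trans c,
    (F.lsnoc_Y _ _ _ (by omega)).trans b, F.lsnoc_Y_last _ _ _⟩

/-- an atom item -/
def Atm (F : Frame d) (U At : G d) (m z : ℝ) (i : ℕ) : Prop :=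
  i < F.m ∧ F.Y i = At ∧ F.pos i = z ∧ (m < z → 1 ≤ i ∧ F.Y (i - 1) = U)

theorem Atm.lsnoc {i : ℕ} (h : Atm F U At m x i) : Atm (F.lsnoc g t ν) U At m x i := by
  obtain ⟨a, b, c, e⟩ := h
  exact ⟨a.trans F.m.lt_succ_self, (F.lsnoc_Y _ _ _ a).trans b, (F.lsnoc_pos _ _ _ a.le).trans c,
    fun k => ⟨(e k).1, (F.lsnoc_Y _ _ _ (by omega)).trans (e k).2⟩⟩

theorem nxt {i : ℕ} (h : i + 1 < F.m ∧ F.Y (i + 1) = U) :
    i + 1 < (F.lsnoc g t ν).m ∧ (F.lsnoc g t ν).Y (i + 1) = U :=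
  ⟨h.1.trans F.m.lt_succ_self, (F.lsnoc_Y _ _ _ h.1).trans h.2⟩

/-- the invariant of the upward pass -/
structure Inv (F : Frame d) (tt : G d → ℕ) (R : G d → Prop) (U At Dn : G d) (K0 : ℕ) (m M : ℝ)
    (mu : ℝ → ℝ) (Z : Finset ℝ) (x : ℝ) (n : ℕ) : Prop where
  card : F.m ≤ n
  it : It F tt R m M
  fin : F.pos F.m = x
  dep : F.yF = ((U.b : ℝ) / K0) • (Wv x - Wv m) + ((Dn.b : ℝ) / K0) • (Wv 0 - Wv m) +
    ∑ z ∈ Z, mu z • Vd 0 z
  atm : ∀ z ∈ Z, z ≤ x ∧ ∃ i, Atm F U At m z i ∧ (z < x → i + 1 < F.m ∧ F.Y (i + 1) = U) ∧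
    (z = x → i + 1 = F.m)
  jm : m < 0 → m ∉ Z → (x = m ∧ F.m = 1 ∧ F.Y 0 = Dn) ∨ Pr F Dn U m
  last : m < x → x ∉ Z → 1 ≤ F.m ∧ F.Y (F.m - 1) = U

theorem Inv.mono (h : Inv F tt R U At Dn K0 m M mu Z x n) :
    Inv F tt R U At Dn K0 m M mu Z x (n + 1) :=
  { h with card := h.card.trans n.le_succ }

theorem Inv.sea (h : Inv F tt R U At Dn K0 m M mu Z x n) (hK : 0 < K0) (hU : U.a = K0) (hR : R U)
    (h1 : x < x') (h2 : x' ≤ M) : ∃ F', Inv F' tt R U At Dn K0 m M mu Z x' (n + 1) := by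
  have K : (0 : ℝ) < K0 := by exact_mod_cast hK
  have e : F.pos F.m + (x' - x) / K0 * (U.a : ℝ) = x' := by
    rw [h.fin, hU, Int.cast_natCast, div_mul_cancel₀ _ K.ne', add_sub_cancel]
  have hx : m ≤ x := h.fin ▸ (h.it.2 _ le_rfl).1
  refine ⟨F.lsnoc U (tt U) ((x' - x) / K0), Nat.succ_le_succ h.card,
    h.it.lsnoc hR (div_pos (sub_pos.2 h1) K) e (hx.trans h1.le) h2,
    (F.lsnoc_pos_last _ _ _).trans e, ?_, fun z hz => ?_, fun a b => Or.inr ?_,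
    fun _ _ => ⟨Nat.le_add_left _ _, F.lsnoc_Y_last _ _ _⟩⟩
  · rw [F.lsnoc_yF_sea _ _ _ (by omega), e, h.fin, h.dep, hU, Int.cast_natCast]
    module
  · obtain ⟨a, i, b, c, f⟩ := h.atm z hz
    refine ⟨a.trans h1.le, i, b.lsnoc, fun _ => ?_, fun k => absurd k (a.trans_lt h1).ne⟩
    rcases a.eq_or_lt with k | k
    · rw [f k]
      exact ⟨F.m.lt_succ_self, F.lsnoc_Y_last _ _ _⟩
    · exact nxt (c k)
  · rcases h.jm a b with ⟨c, f, k⟩ | c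
    · exact pr_last f.ge (by rw [f]; exact k) (h.fin.trans c)
    · exact c.lsnoc

theorem Inv.atom (h : Inv F tt R U At Dn K0 m M mu Z x n) (hA : At.a = 0) (hR : R At)
    (h1 : x ∉ Z) (h2 : 0 < mu x * (At.b : ℝ)) :
    ∃ F', Inv F' tt R U At Dn K0 m M mu (insert x Z) x (n + 1) := by
  have b0 : (At.b : ℝ) ≠ 0 := right_ne_zero_of_mul h2.ne'
  have e : F.pos F.m + mu x / At.b * (At.a : ℝ) = x := by
    rw [h.fin, hA, Int.cast_zero, mul_zero, add_zero]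
  have hx := h.it.2 _ le_rfl
  rw [h.fin] at hx
  refine ⟨F.lsnoc At (tt At) (mu x / At.b), Nat.succ_le_succ h.card,
    h.it.lsnoc hR (div_pos_iff.2 (mul_pos_iff.1 h2)) e hx.1 hx.2,
    (F.lsnoc_pos_last _ _ _).trans e, ?_, fun z hz => ?_, fun a b => Or.inr ?_,
    fun _ a => absurd (mem_insert_self _ _) a⟩
  · rw [F.lsnoc_yF_atom _ _ _ hA, h.fin, h.dep, div_mul_cancel₀ _ b0, sum_insert h1]
    abel
  · rcases mem_insert.1 hz with rfl | hz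
    · exact ⟨le_rfl, F.m, ⟨F.m.lt_succ_self, F.lsnoc_Y_last _ _ _,
        (F.lsnoc_pos _ _ _ le_rfl).trans h.fin, fun a => ⟨(h.last a h1).1,
          (F.lsnoc_Y _ _ _ (Nat.sub_one_lt (by have := (h.last a h1).1; omega))).trans
            (h.last a h1).2⟩⟩, fun a => absurd a (lt_irrefl _), fun _ => rfl⟩
    · obtain ⟨a, i, b, c, -⟩ := h.atm z hz
      exact ⟨a, i, b.lsnoc, fun k => nxt (c k), fun k => absurd (k ▸ hz) h1⟩
  · rw [mem_insert, not_or] at b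
    exact ((h.jm a b.2).resolve_left fun c => b.1 c.1.symm).lsnoc

theorem start (hK : 0 < K0) (hD : Dn.a = -(K0 : ℤ)) (hR : m < 0 → R Dn) (h1 : m ≤ 0) (h2 : 0 ≤ M) :
    ∃ F : Frame d, Inv F tt R U At Dn K0 m M mu ∅ m 1 := by
  have K : (0 : ℝ) < K0 := by exact_mod_cast hK
  let F : Frame d := ⟨0, fun _ => 1, fun _ => 1, fun _ => 0, fun _ => 0⟩
  have p : ∀ i, F.pos i = 0 := fun i => by simp [F, Frame.pos]
  have y : F.yF = 0 := by rw [Frame.yF_eq]; rfl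
  have i : It F tt R m M := ⟨fun i hi => absurd hi i.not_lt_zero, fun i _ => p i ▸ ⟨h1, h2⟩⟩
  rcases h1.eq_or_lt with rfl | c
  · exact ⟨F, zero_le_one, i, p _, by simp [y], by simp, fun a => absurd a (lt_irrefl _),
      fun a => absurd a (lt_irrefl _)⟩
  · have e : F.pos F.m + -m / K0 * (Dn.a : ℝ) = m := by
      rw [p, hD, Int.cast_neg, Int.cast_natCast, mul_neg, div_mul_cancel₀ _ K.ne', neg_neg, zero_add]
    refine ⟨F.lsnoc Dn (tt Dn) (-m / K0), le_rfl,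
      i.lsnoc (hR c) (div_pos (neg_pos.2 c) K) e le_rfl (h1.trans h2),
      (F.lsnoc_pos_last _ _ _).trans e, ?_, by simp,
      fun _ _ => Or.inl ⟨rfl, rfl, F.lsnoc_Y_last _ _ _⟩, fun a => absurd a (lt_irrefl _)⟩
    rw [F.lsnoc_yF_sea _ _ _ (by omega), e, p, y, hD, Int.cast_neg, Int.cast_natCast, div_neg,
      sum_empty]
    module

end LfqA

open LfqA in
theorem p_LFQ :
    S_LFQ := by
  intro d K0 U At Dn tt m M a Z mu hK hU hA hD hm ha haM hmM hZ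
  have K : (0 : ℝ) < K0 := by exact_mod_cast hK
  set R : G d → Prop := fun g => g = U ∨ g = At ∨ (g = Dn ∧ (m < 0 ∨ a < M)) with hR
  have rU : R U := Or.inl rfl
  have rA : R At := Or.inr (Or.inl rfl)
  have key : ∃ F x, Inv F tt R U At Dn K0 m M mu Z x (2 * Z.card + 1) ∧ (x = m ∨ x ∈ Z) := by
    induction Z using Finset.induction_on_max with
    | empty =>
      exact (start hK hD (fun c => Or.inr (Or.inr ⟨rfl, Or.inl c⟩)) hm (ha.trans haM)).imp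
        fun F h => ⟨m, h, Or.inl rfl⟩
    | insert z Z hz ih =>
      obtain ⟨F, x, h, hx⟩ := ih fun y hy => hZ y (mem_insert_of_mem hy)
      have n : z ∉ Z := fun c => lt_irrefl _ (hz z c)
      obtain ⟨z1, z2, z3⟩ := hZ z (mem_insert_self _ _)
      have le : x ≤ z := hx.elim (fun c => c ▸ z1) fun c => (hz x c).le
      obtain ⟨F', h'⟩ : ∃ F', Inv F' tt R U At Dn K0 m M mu Z z (2 * Z.card + 1 + 1) := by
        rcases le.eq_or_lt with rfl | c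
        · exact ⟨F, h.mono⟩
        · exact h.sea hK hU rU c z2
      rw [card_insert_of_notMem n]
      exact (h'.atom hA rA n z3).imp fun F h => ⟨z, h, Or.inr (mem_insert_self _ _)⟩
  obtain ⟨F₀, x, h₀, -⟩ := key
  obtain ⟨F, h⟩ : ∃ F, Inv F tt R U At Dn K0 m M mu Z M (2 * Z.card + 1 + 1) := by
    rcases (h₀.fin ▸ (h₀.it.2 _ le_rfl).2 : x ≤ M).eq_or_lt with rfl | c
    · exact ⟨F₀, h₀.mono⟩
    · exact h₀.sea hK hU rU c le_rfl
  have jm : m < 0 → m ∉ Z → Pr F Dn U m := fun b c =>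
    (h.jm b c).resolve_left fun e => hmM.ne' e.1
  rcases haM.eq_or_lt with rfl | c
  · refine ⟨F, h.card.trans (Nat.le_succ _), h.it.1, h.it.2, h.fin, by rw [h.dep, sub_self, add_zero],
      fun z hz => ?_, jm, fun b => absurd b (lt_irrefl _)⟩
    obtain ⟨-, i, b, e, -⟩ := h.atm z hz
    exact ⟨i, b.1, b.2.1, b.2.2.1, b.2.2.2, e⟩
  · have e : F.pos F.m + (M - a) / K0 * (Dn.a : ℝ) = a := by
      rw [h.fin, hD, Int.cast_neg, Int.cast_natCast, mul_neg, div_mul_cancel₀ _ K.ne']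
      ring
    have i := h.it.lsnoc (g := Dn) (Or.inr (Or.inr ⟨rfl, Or.inr c⟩)) (div_pos (sub_pos.2 c) K) e
      (hm.trans ha) haM
    refine ⟨F.lsnoc Dn (tt Dn) ((M - a) / K0), Nat.succ_le_succ h.card, i.1, i.2,
      (F.lsnoc_pos_last _ _ _).trans e, ?_, fun z hz => ?_, fun b c => (jm b c).lsnoc,
      fun _ b => pr_last (h.last hmM b).1 (h.last hmM b).2 h.fin⟩
    · rw [F.lsnoc_yF_sea _ _ _ (by omega), e, h.fin, h.dep, hD, Int.cast_neg, Int.cast_natCast,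
        div_neg]
      module
    · obtain ⟨-, i, b, e, -⟩ := h.atm z hz
      have b' := b.lsnoc (g := Dn) (t := tt Dn) (ν := (M - a) / K0)
      exact ⟨i, b'.1, b'.2.1, b'.2.2.1, b'.2.2.2, fun k => nxt (e k)⟩

end Pool.Agent.P.MP_a0f0ad_al.Fi
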