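import Pool.Agent.P.MP_a0f0ad_al.Fi.T.Iface4
import Pool.Agent.P.MP_a0f0ad_al.Fi.T.LBase

/-! Step LFT of the filiform project. -/

namespace Pool.Agent.P.MP_a0f0ad_al.Fi

open Finset MeasureTheory
open scoped Classical

namespace LftA

variable {d : ℕ}

/-- the alternating frame -/
noncomputable def fr (K0 t0 t1 ε : ℕ) (U0 U1 : G d) (x : ℕ → ℝ) : Frame d :=
  ⟨d + 1, fun i => if Even (i + ε) then U1 else U0, fun i => if Even (i + ε) then U1 else U0,
    fun i => if Even (i + ε) then t1 else t0, fun i => (x (i + 1) - x i) / K0⟩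

theorem alt {n : ℕ} (f : Fin (n + 1) → ℝ) (c : ℝ) (hc : c ≠ 0) (x : ℕ → ℝ)
    (hx : ∀ i ≤ n + 1, x i < x (i + 1))
    (h : ∀ i ≤ n, 0 ≤ (-1) ^ i * (c * ev f 1 (x (i + 1)))) : ¬ Nonconst f := by
  rw [nonconst_iff, not_not]
  have hd : (Polynomial.C c * Polynomial.derivative (pol f)).degree < n := by
    refine (Polynomial.degree_lt_iff_coeff_zero _ _).2 fun m hm => ?_
    rw [Polynomial.coeff_C_mul, Polynomial.coeff_derivative, coeff_pol, co, dif_neg (by omega)]
    simp
  have := eq_zero_of_alternate hd (fun i => x (i + 1))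
    (Fin.strictMono_iff_lt_succ.2 fun i => by
      simpa using hx (i + 1) (by omega))
    (fun i => by
      have := h i (by omega)
      rw [ev_eq_eval] at this
      simpa using this)
  exact (mul_eq_zero.1 this).resolve_left (by simpa using hc)

end LftA

open LftA in
theorem p_LFT :
    S_LFT := by
  intro d S K0 t0 t1 ε U0 U1 w pa x u hd hK h0 h1 hb l0 l1 e0 e1 x0 xd hx hu
  have hK' : (0 : ℝ) < K0 := by exact_mod_cast hK
  set F : Frame d := fr K0 t0 t1 ε U0 U1 x with hF
  have hm : F.m = d + 1 := rfl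
  have hY : ∀ i, F.Y i = if Even (i + ε) then U1 else U0 := fun _ => rfl
  have hYh : ∀ i, F.Yh i = F.Y i := fun _ => rfl
  have ht : ∀ i, F.t i = if Even (i + ε) then t1 else t0 := fun _ => rfl
  have hnu : ∀ i, F.nu i = (x (i + 1) - x i) / K0 := fun _ => rfl
  have ha : ∀ i, (F.Y i).a = K0 := fun i => by rw [hY]; split_ifs <;> assumption
  have hna : ∀ i, F.nu i * ((F.Y i).a : ℝ) = x (i + 1) - x i := fun i => by
    rw [hnu, ha]; push_cast; field_simp
  have hpos : ∀ i, F.pos i = x i := fun i => by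
    induction i with
    | zero => rw [Frame.pos_zero, x0]
    | succ i ih => rw [Frame.pos_succ, ih, hna]; ring
  have hom : ∀ j, (F.om (j + 1) : ℝ) = (-1) ^ (j + ε) * (K0 * ((U1.b : ℝ) - U0.b)) := fun j => by
    rw [Frame.om, Nat.add_sub_cancel, ha, ha, hY, hY, show j + 1 + ε = j + ε + 1 by ring]
    by_cases he : Even (j + ε)
    · rw [if_pos he, if_neg (by simpa [Nat.even_add_one] using he), he.neg_one_pow]
      push_cast; ring
    · rw [if_neg he, if_pos (by simpa [Nat.even_add_one] using he),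
        (Nat.not_even_iff_odd.1 he).neg_one_pow]
      push_cast; ring
  have hc : (K0 : ℝ) * ((U1.b : ℝ) - U0.b) ≠ 0 :=
    mul_ne_zero hK'.ne' (sub_ne_zero.2 (by exact_mod_cast hb.symm))
  have hmono : ∀ i j, i ≤ j → j ≤ d + 1 → x i ≤ x j := fun i j hij hj => by
    induction j, hij using Nat.le_induction with
    | base => exact le_rfl
    | succ j _ ih => exact (ih (by omega)).trans (hx j (by omega)).le
  refine ⟨F, fun i hi => ?_, ⟨1, le_rfl, by omega, fun h => ?_⟩, ?_, by rw [hm, hpos, xd], le_rfl,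
    fun i hi => ?_, fun i _ => ?_, fun f hf => ?_⟩
  · have hl : len S (F.Y i) ≤ F.t i := by rw [hY, ht]; split_ifs <;> assumption
    refine ⟨?_, hl, hl, rfl, rfl, le_rfl, Or.inr (Or.inl (ha i))⟩
    rw [hnu]
    exact div_pos (sub_pos.2 (hx i (by omega))) hK'
  · have := hom 0
    rw [zero_add, h, Int.cast_zero] at this
    exact mul_ne_zero (pow_ne_zero _ (by norm_num)) hc this.symm
  · rw [Frame.yF_eq, hu, hm]
    refine sum_congr rfl fun i _ => ?_
    rw [integral_sea (by rw [ha]; exact_mod_cast hK.ne'), hna, hpos, add_sub_cancel, ha, hY]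
    split_ifs <;> simp
  · rw [hpos, abs_of_nonneg (x0 ▸ hmono 0 i (Nat.zero_le _) hi), ← xd]
    exact hmono i _ hi le_rfl
  · rw [ha, hY, ht]
    split_ifs <;> simp [e0, e1]
  · obtain ⟨n, rfl⟩ := Nat.exists_eq_add_of_le' hd
    refine alt f (-((-1) ^ ε * (K0 * ((U1.b : ℝ) - U0.b))))
      (neg_ne_zero.2 (mul_ne_zero (pow_ne_zero _ (by norm_num)) hc)) x hx fun i hi => ?_
    have := hf _ (F.junction_mem_cone S K0 (j := i + 1) (by omega) (by omega))
    rw [dot_smul_right, hom, hpos, pow_add] at this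
    rw [ev]
    linarith

end Pool.Agent.P.MP_a0f0ad_al.Fi
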