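import Pool.Agent.P.MP_a0f0ad_al.Fi.T.Iface4

/-! Step LHB of the filiform project. -/

namespace Pool.Agent.P.MP_a0f0ad_al.Fi

open Finset MeasureTheory
open scoped Classical

namespace LhbA

theorem core (hP : S_LPOW) {d K : ℕ} (F : Frame d) (hK : 0 < K) {i it : ℕ} (hi : i < F.m)
    (hit : it < F.m) (hν : 0 < F.nu i) (ha : (F.Y i).a ≠ 0) {s0 : ℝ} (h0 : s0 ∈ Set.Icc (0 : ℝ) 1)
    (e0 : F.DvI it = F.Dv (F.Y it) (i + s0))
    (hb : ((F.Y it).b : ℝ) * (F.Y i).a - ((F.Y i).b : ℝ) * (F.Y it).a ≠ 0) :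
    ∃ (β : Fin d → ℝ) (ρ : ℝ), 0 < ρ ∧ F.HasB K β ρ ∧ ‖β‖ ≤ 1 := by
  have ha' : ((F.Y i).a : ℝ) ≠ 0 := by exact_mod_cast ha
  obtain ⟨c, hc⟩ : ∃ c : ℝ, c = (K : ℝ) ^ 2 *
    (((F.Y it).b : ℝ) - ((F.Y i).b : ℝ) / ((F.Y i).a : ℝ) * (F.Y it).a) := ⟨_, rfl⟩
  have hc0 : c ≠ 0 := by
    rw [hc]
    refine mul_ne_zero (by positivity) fun e => hb ?_
    field_simp at e
    linarith
  have key : ∀ s ∈ Set.Icc (0 : ℝ) 1, ((K : ℝ) ^ 2) • (F.Dv (F.Y it) (i + s) - F.DvI it) =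
      c • ((Vd 0 (F.pt i s) : Fin d → ℝ) - Vd 0 (F.pt i s0)) := fun s hs => by
    rw [e0, F.Dv_sea hi ha _ hs.1 hs.2, F.Dv_sea hi ha _ h0.1 h0.2, hc]
    module
  have hO : IsOpen {s : ℝ | ‖c • ((Vd 0 (F.pt i s) : Fin d → ℝ) - Vd 0 (F.pt i s0))‖ <
      1 / ((d : ℝ) + 1)} := isOpen_lt (by fun_prop) continuous_const
  have hcl : s0 ∈ closure (Set.Ioo (0 : ℝ) 1) := by rwa [closure_Ioo zero_ne_one]
  obtain ⟨s, hs1, hs2⟩ := mem_closure_iff.1 hcl _ hO (by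
    simp only [Set.mem_ofPred_eq, sub_self, smul_zero, norm_zero]
    positivity)
  obtain ⟨s1, s2, -, k1, k2⟩ :=
    exists_Icc_mem_subset_of_mem_nhds ((hO.inter isOpen_Ioo).mem_nhds ⟨hs1, hs2⟩)
  have h12 : s1 < s2 := (Icc_mem_nhds_iff.1 k1).1.trans (Icc_mem_nhds_iff.1 k1).2
  have hne : F.pt i s1 ≠ F.pt i s2 := fun e => by
    simp only [Frame.pt, add_right_inj] at e
    exact h12.ne (mul_right_cancel₀ (mul_ne_zero hν.ne' ha') e)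
  obtain ⟨t, ρ, hρ, ht, hx⟩ := hP d _ _ (min_lt_max.2 hne)
  have lift : ∀ x, min (F.pt i s1) (F.pt i s2) ≤ x ∧ x ≤ max (F.pt i s1) (F.pt i s2) →
      ∃ s ∈ Set.Icc s1 s2, F.pt i s = x := fun x h => by
    rw [← Set.uIcc_of_le h12.le]
    exact intermediate_value_uIcc (F.continuous_pt i).continuousOn h
  refine ⟨∑ l ∈ range (d - 1), c • ((Vd 0 (t l) : Fin d → ℝ) - Vd 0 (F.pt i s0)), ρ * |c|,
    mul_pos hρ (abs_pos.2 hc0), ⟨d - 1, fun _ => it, fun _ => i + s1, fun _ => i + s2,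
      fun _ _ => ⟨hit, i, hi, ?_, ?_⟩, fun e he1 he2 => ?_⟩, ?_⟩
  · exact lt_add_of_pos_right _ (k2 ⟨le_rfl, h12.le⟩).2.1
  · exact add_lt_add_right (k2 ⟨h12.le, le_rfl⟩).2.2 _
  · obtain ⟨x, a, b⟩ := hx (c⁻¹ • e) (by rw [co_smul, he1, mul_zero]) (by
      rw [norm_smul, norm_inv, Real.norm_eq_abs, inv_mul_le_iff₀ (abs_pos.2 hc0), mul_comm]
      exact he2)
    choose σ m1 m2 using fun l => lift (x l) (a l)
    refine ⟨fun l => i + σ l, fun l _ => ⟨by linarith [(m1 l).1], by linarith [(m1 l).2]⟩, ?_⟩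
    rw [sum_congr rfl fun l _ => key (σ l) (Set.Ioo_subset_Icc_self (k2 (m1 l)).2)]
    simp only [m2, ← smul_sum, sum_sub_distrib, b, smul_sub, smul_add, smul_inv_smul₀ hc0]
    abel
  · refine (norm_sum_le_of_le _ (n := fun _ => 1 / ((d : ℝ) + 1)) fun l _ => ?_).trans ?_
    · obtain ⟨s, a, b⟩ := lift (t l) (ht l)
      rw [← b]
      exact (k2 a).1.le
    · rw [sum_const, card_range, nsmul_eq_mul, mul_one_div, div_le_one (by positivity)]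
      have : ((d - 1 : ℕ) : ℝ) ≤ d := by exact_mod_cast Nat.sub_le d 1
      linarith

end LhbA

theorem p_LHB (hLPOW : S_LPOW) :
    S_LHB := by
  rintro d S K0 K F hK hF ⟨j, h1, h2, h3⟩
  obtain ⟨i, rfl⟩ : ∃ i, j = i + 1 := ⟨j - 1, by omega⟩
  have hi : i < F.m := by omega
  simp only [Frame.om, Nat.add_sub_cancel] at h3
  have h4 : ((F.Y i).b : ℝ) * (F.Y (i + 1)).a - ((F.Y (i + 1)).b : ℝ) * (F.Y i).a ≠ 0 := by
    exact_mod_cast h3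
  by_cases ha : (F.Y i).a = 0
  · refine LhbA.core hLPOW F hK h2 hi (hF _ h2).1 (fun e => h3 (by simp [ha, e])) (s0 := 0)
      ⟨le_rfl, zero_le_one⟩ ?_ h4
    rw [← F.Dv_item hi zero_le_one le_rfl]
    simp
  · refine LhbA.core hLPOW F hK hi h2 (hF _ hi).1 ha (s0 := 1) ⟨zero_le_one, le_rfl⟩ ?_
      fun e => h4 (by linarith)
    simp [Frame.DvI]

end Pool.Agent.P.MP_a0f0ad_al.Fi
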