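import Pool.Agent.P.MP_a0f0ad_al.Fi.T.Iface4
import Pool.Agent.P.MP_a0f0ad_al.Fi.T.LBase

/-! Step LNQ of the filiform project. -/

namespace Pool.Agent.P.MP_a0f0ad_al.Fi

open Finset MeasureTheory
open scoped Classical

namespace LnqA

abbrev PP (n1 n2 n3 n4 I : ℕ) : Type :=
  ℝ × (Fin n1 → ℝ) × (Fin n2 → ℝ) × (Fin n3 → ℝ) × (Fin n4 → ℝ) × (Fin I → ℝ) × (Fin I → ℝ)

noncomputable def Phi (d : ℕ) (κ1 κ2 : ℝ) (n1 n2 n3 n4 I : ℕ) (x : PP n1 n2 n3 n4 I) : E d :=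
  (x.1, κ1 • (Wv (x.1 + ∑ i, x.2.2.1 i) - Wv (∑ i, x.2.1 i)) -
    κ2 • ((Wv 0 - Wv (∑ i, x.2.1 i)) + (Wv (x.1 + ∑ i, x.2.2.1 i) - Wv x.1)) +
    ((∑ i, x.2.2.2.1 i) • Vd 0 (∑ i, x.2.1 i) +
      (∑ i, x.2.2.2.2.1 i) • Vd 0 (x.1 + ∑ i, x.2.2.1 i) +
      ∑ i, x.2.2.2.2.2.2 i • Vd 0 (x.2.2.2.2.2.1 i)))

theorem smooth (d : ℕ) (κ1 κ2 : ℝ) (n1 n2 n3 n4 I : ℕ) :
    ContDiff ℝ 1 (Phi d κ1 κ2 n1 n2 n3 n4 I) := by
  refine ContDiff.prodMk contDiff_fst (contDiff_pi.2 fun j => ?_)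
  simp only [Pi.add_apply, Pi.sub_apply, Pi.smul_apply, Finset.sum_apply, Wv, Vd, smul_eq_mul]
  fun_prop

theorem flag (p : Prop) [Decidable p] (r : ℝ) (h : ¬ p → r = 0) :
    ∑ _i : Fin (if p then 1 else 0), r = r := by
  by_cases hp : p
  · simp [hp]
  · simp [h hp]

theorem split {M : Type} [AddCommMonoid M] (Z Z' : Finset ℝ) {m m' : ℝ} (h : m ≠ m')
    (hZ : ∀ z, z ∈ Z' ↔ z ∈ Z ∧ ¬ (z = m ∨ z = m')) (f : ℝ → M) :
    ∑ z ∈ Z, f z = (if m ∈ Z then f m else 0) + (if m' ∈ Z then f m' else 0) +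
      ∑ z ∈ Z', f z := by
  have e : Z' = Z.filter (fun z => ¬ (z = m ∨ z = m')) := by
    ext z; rw [hZ, mem_filter]
  rw [e, ← Finset.sum_filter_add_sum_filter_not Z (fun z => z = m ∨ z = m'), Finset.filter_or,
    Finset.sum_union, Finset.sum_filter, Finset.sum_filter, Finset.sum_ite_eq', Finset.sum_ite_eq']
  rw [Finset.disjoint_filter]
  rintro x _ rfl h'
  exact h h'

end LnqA

open LnqA in
theorem p_LNQ (hLNUL : S_LNUL) :
    S_LNQ := by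
  intro d κ1 κ2
  have key : ∀ᵐ u : E d, ∀ n : ℕ × ℕ × ℕ × ℕ × ℕ,
      1 + n.1 + n.2.1 + n.2.2.1 + n.2.2.2.1 + n.2.2.2.2 + n.2.2.2.2 ≤ d →
      u ∉ Set.range (Phi d κ1 κ2 n.1 n.2.1 n.2.2.1 n.2.2.2.1 n.2.2.2.2) := by
    rw [ae_all_iff]
    rintro ⟨n1, n2, n3, n4, I⟩
    by_cases h : 1 + n1 + n2 + n3 + n4 + I + I ≤ d
    · have := hLNUL d _ _ (smooth d κ1 κ2 n1 n2 n3 n4 I)
        (by simp only [Module.finrank_prod, Module.finrank_self, Module.finrank_fin_fun]; omega)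
      filter_upwards [this] with u hu _ using hu
    · exact Filter.Eventually.of_forall fun u h' => absurd h' h
  filter_upwards [key] with u hu m M Z mu hm hM hmM he
  by_contra hlt
  obtain ⟨Z', hZ'⟩ : ∃ Z' : Finset ℝ, ∀ z, z ∈ Z' ↔ z ∈ Z ∧ ¬ (z = m ∨ z = M) :=
    ⟨Z.filter (fun z => ¬ (z = m ∨ z = M)), fun z => mem_filter⟩
  refine hu (if m < 0 then 1 else 0, if u.1 < M then 1 else 0, if m ∈ Z then 1 else 0,
    if M ∈ Z then 1 else 0, Z'.card) ?_ ⟨(u.1, fun _ => m, fun _ => M - u.1,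
      fun _ => if m ∈ Z then mu m else 0, fun _ => if M ∈ Z then mu M else 0,
      fun i => (Z'.equivFin.symm i : ℝ), fun i => mu (Z'.equivFin.symm i : ℝ)), ?_⟩
  · rw [split Z Z' hmM.ne hZ', Finset.sum_congr rfl (g := fun _ => 2)
      (fun z hz => if_neg ((hZ' z).1 hz).2)] at hlt
    simp only [true_or, or_true, if_true, Finset.sum_const, smul_eq_mul] at hlt
    simp only
    omega
  · have e1 := flag (m < 0) m fun h => le_antisymm hm (not_lt.1 h)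
    have e2 := flag (u.1 < M) (M - u.1) fun h => by linarith [not_lt.1 h]
    have e3 := flag (m ∈ Z) (if m ∈ Z then mu m else 0) fun h => if_neg h
    have e4 := flag (M ∈ Z) (if M ∈ Z then mu M else 0) fun h => if_neg h
    have e5 : ∑ i : Fin Z'.card, mu (Z'.equivFin.symm i : ℝ) • (Vd 0 (Z'.equivFin.symm i : ℝ) :
        Fin d → ℝ) = ∑ z ∈ Z', mu z • Vd 0 z := by
      rw [Equiv.sum_comp Z'.equivFin.symm fun z : Z' => mu z • (Vd 0 (z : ℝ) : Fin d → ℝ),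
        Finset.sum_coe_sort Z' fun z => mu z • (Vd 0 z : Fin d → ℝ)]
    refine Prod.ext rfl ?_
    simp only [Phi]
    rw [e1, e2, e3, e4, e5, add_sub_cancel, he, split Z Z' hmM.ne hZ', ite_smul, ite_smul,
      zero_smul, zero_smul]

end Pool.Agent.P.MP_a0f0ad_al.Fi
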