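import Pool.Agent.P.MP_a0f0ad_al.Fi.T.Iface4

/-! Step LNUL of the filiform project. -/

namespace Pool.Agent.P.MP_a0f0ad_al.Fi

open Finset MeasureTheory
open scoped Classical

theorem p_LNUL :
    S_LNUL := by
  intro d P _ _ _ Φ hΦ hP
  have hf : Module.finrank ℝ (E d) = d + 1 := by
    simp [Module.finrank_prod, add_comm]
  have h1 : dimH (Set.range Φ) < ((Module.finrank ℝ (E d) : NNReal) : ENNReal) := by
    refine hΦ.dimH_range_le.trans_lt ?_
    rw [hf]
    exact_mod_cast Nat.lt_succ_of_le hP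
  have h2 := hausdorffMeasure_of_dimH_lt h1
  have : (volume : Measure (E d)).IsAddHaarMeasure := Measure.prod.instIsAddHaarMeasure _ _
  have h3 : (volume : Measure (E d)) ≪ Measure.hausdorffMeasure (Module.finrank ℝ (E d) : ℝ) :=
    Measure.absolutelyContinuous_isAddHaarMeasure _ _
  have h4 : (volume : Measure (E d)) (Set.range Φ) = 0 := h3 (by simpa using h2)
  exact measure_eq_zero_iff_ae_notMem.1 h4

end Pool.Agent.P.MP_a0f0ad_al.Fi
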