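import Pool.Agent.P.MP_a0f0ad_al.Fi.T.Iface4

/-! Step LPOW of the filiform project. -/

namespace Pool.Agent.P.MP_a0f0ad_al.Fi

open Finset MeasureTheory
open scoped Classical

namespace LpowA

/-- the power sums of orders `1, ..., n` -/
def ps (n : ℕ) (x : Fin n → ℝ) : Fin n → ℝ := fun j => ∑ l, x l ^ ((j : ℕ) + 1)

/-- the derivative of the power sums -/
noncomputable def dps (n : ℕ) (t : Fin n → ℝ) : (Fin n → ℝ) →L[ℝ] (Fin n → ℝ) :=
  ContinuousLinearMap.pi fun j => ∑ l, ((((j : ℕ) + 1 : ℕ) : ℝ) * t l ^ (j : ℕ)) •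
    ContinuousLinearMap.proj (R := ℝ) (φ := fun _ : Fin n => ℝ) l

theorem strict (n : ℕ) (t : Fin n → ℝ) : HasStrictFDerivAt (ps n) (dps n t) t := by
  unfold ps dps
  refine hasStrictFDerivAt_pi.2 fun j => ?_
  refine HasStrictFDerivAt.fun_sum fun l _ => ?_
  have h := (hasStrictDerivAt_pow ((j : ℕ) + 1) (t l)).comp_hasStrictFDerivAt t
    (ContinuousLinearMap.proj (R := ℝ) (φ := fun _ : Fin n => ℝ) l).hasStrictFDerivAt
  simpa [Function.comp_def] using h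

theorem surj (n : ℕ) (t : Fin n → ℝ) (ht : Function.Injective t) : (dps n t).range = ⊤ := by
  refine LinearMap.range_eq_top.2 fun v => ?_
  have hd : IsUnit (Matrix.vandermonde t).transpose := by
    rw [Matrix.isUnit_iff_isUnit_det, Matrix.det_transpose]
    exact (Matrix.det_vandermonde_ne_zero_iff.2 ht).isUnit
  obtain ⟨h, hh⟩ := Matrix.mulVec_surjective_iff_isUnit.2 hd
    (fun j => v j / (((j : ℕ) + 1 : ℕ) : ℝ))
  refine ⟨h, funext fun j => ?_⟩
  have h1 := congrFun hh j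
  have h0 : ((((j : ℕ) + 1 : ℕ) : ℝ)) ≠ 0 := by positivity
  simp only [Matrix.mulVec, dotProduct, Matrix.transpose_apply, Matrix.vandermonde_apply] at h1
  rw [eq_div_iff h0, Finset.sum_mul] at h1
  rw [← h1]
  simp only [dps, ContinuousLinearMap.coe_coe, ContinuousLinearMap.pi_apply,
    ContinuousLinearMap.sum_apply, ContinuousLinearMap.smul_apply, ContinuousLinearMap.proj_apply,
    smul_eq_mul]
  exact Finset.sum_congr rfl fun l _ => by ring

theorem ball (n : ℕ) (lo hi : ℝ) (t : Fin n → ℝ) (ht : Function.Injective t)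
    (hm : ∀ l, t l ∈ Set.Ioo lo hi) : ∃ ρ : ℝ, 0 < ρ ∧ ∀ e : Fin n → ℝ, ‖e‖ ≤ ρ →
      ∃ x : Fin n → ℝ, (∀ l, x l ∈ Set.Ioo lo hi) ∧ ps n x = ps n t + e := by
  have hU : {x : Fin n → ℝ | ∀ l, x l ∈ Set.Ioo lo hi} ∈ nhds t := by
    have : ∀ᶠ x in nhds t, ∀ l, (x : Fin n → ℝ) l ∈ Set.Ioo lo hi :=
      Filter.eventually_all.2 fun l =>
        (continuous_apply l).continuousAt.preimage_mem_nhds (isOpen_Ioo.mem_nhds (hm l))
    exact this
  have h := Filter.image_mem_map (m := ps n) hU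
  rw [(strict n t).map_nhds_eq_of_surj (surj n t ht)] at h
  obtain ⟨ρ, hρ, hs⟩ := Metric.nhds_basis_closedBall.mem_iff.1 h
  refine ⟨ρ, hρ, fun e he => ?_⟩
  obtain ⟨x, hx, hx'⟩ := hs (show ps n t + e ∈ Metric.closedBall (ps n t) ρ by simpa using he)
  exact ⟨x, hx, hx'⟩

/-- extension of a finite family by a constant -/
noncomputable def ext {n : ℕ} (c : ℝ) (x : Fin n → ℝ) : ℕ → ℝ :=
  fun l => if h : l < n then x ⟨l, h⟩ else c

theorem ext_mem {n : ℕ} {lo hi : ℝ} (h : lo < hi) {x : Fin n → ℝ} (hx : ∀ l, x l ∈ Set.Ioo lo hi)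
    (l : ℕ) : lo ≤ ext lo x l ∧ ext lo x l ≤ hi := by
  unfold ext
  split_ifs with hl
  · exact ⟨(hx _).1.le, (hx _).2.le⟩
  · exact ⟨le_rfl, h.le⟩

theorem sum_ext {n : ℕ} (c : ℝ) (x : Fin n → ℝ) (j : Fin (n + 1)) :
    (∑ l ∈ range n, (Vd 0 (ext c x l) : Fin (n + 1) → ℝ)) j = ∑ l, x l ^ (j : ℕ) := by
  rw [Finset.sum_apply, ← Fin.sum_univ_eq_sum_range
    (fun l => (Vd 0 (ext c x l) : Fin (n + 1) → ℝ) j)]
  exact Finset.sum_congr rfl fun l _ => by simp [Vd, ext]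

end LpowA

open LpowA in
theorem p_LPOW :
    S_LPOW := by
  intro d lo hi h
  rcases d with _ | n
  · exact ⟨fun _ => lo, 1, one_pos, fun _ => ⟨le_rfl, h.le⟩, fun e _ _ =>
      ⟨fun _ => lo, fun _ => ⟨le_rfl, h.le⟩, Subsingleton.elim _ _⟩⟩
  have hn : (0 : ℝ) < (n : ℝ) + 1 := by positivity
  have hδ : 0 < (hi - lo) / ((n : ℝ) + 1) := div_pos (sub_pos.2 h) hn
  let t : Fin n → ℝ := fun l => lo + (((l : ℕ) : ℝ) + 1) * ((hi - lo) / ((n : ℝ) + 1))
  have ht : Function.Injective t := fun l l' e => by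
    have e1 := mul_right_cancel₀ hδ.ne' (add_left_cancel e)
    exact Fin.ext (by exact_mod_cast add_right_cancel e1)
  have hm : ∀ l, t l ∈ Set.Ioo lo hi := fun l => by
    have h1 : ((l : ℕ) : ℝ) < n := by exact_mod_cast l.2
    have h2 : (0 : ℝ) ≤ ((l : ℕ) : ℝ) := Nat.cast_nonneg _
    have h3 : ((n : ℝ) + 1) * ((hi - lo) / ((n : ℝ) + 1)) = hi - lo := by field_simp
    constructor
    · show lo < lo + (((l : ℕ) : ℝ) + 1) * ((hi - lo) / ((n : ℝ) + 1))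
      nlinarith
    · show lo + (((l : ℕ) : ℝ) + 1) * ((hi - lo) / ((n : ℝ) + 1)) < hi
      nlinarith
  obtain ⟨ρ, hρ, hb⟩ := ball n lo hi t ht hm
  refine ⟨ext lo t, ρ, hρ, ext_mem h hm, fun e he0 he => ?_⟩
  obtain ⟨x, hx, hx'⟩ := hb (fun j => e j.succ)
    ((pi_norm_le_iff_of_nonneg hρ.le).2 fun j => (norm_le_pi_norm e _).trans he)
  refine ⟨ext lo x, ext_mem h hx, funext fun j => ?_⟩
  rw [Nat.add_sub_cancel, Pi.add_apply, sum_ext, sum_ext]
  refine Fin.cases ?_ (fun i => ?_) j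
  · have : e 0 = 0 := by simpa [co] using he0
    simp [this]
  · exact congrFun hx' i

end Pool.Agent.P.MP_a0f0ad_al.Fi
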