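import Pool.Agent.P.MP_a0f0ad_al.Fi.T.Iface4
import Pool.Agent.P.MP_a0f0ad_al.Fi.T.LBase

/-! Step LQE of the filiform project. -/

namespace Pool.Agent.P.MP_a0f0ad_al.Fi

open Finset MeasureTheory
open scoped Classical

namespace LqeA

theorem count (Z : Finset ℝ) {m M : ℝ} (h : m < M) :
    (∑ z ∈ Z, if z = m ∨ z = M then 1 else 2 : ℕ) + (if m ∈ Z then 1 else 0) +
      (if M ∈ Z then 1 else 0) = 2 * Z.card := by
  rw [← Finset.sum_ite_eq' Z m (fun _ => (1 : ℕ)), ← Finset.sum_ite_eq' Z M (fun _ => (1 : ℕ)),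
    ← Finset.sum_add_distrib, ← Finset.sum_add_distrib, mul_comm, ← smul_eq_mul,
    ← Finset.sum_const]
  refine Finset.sum_congr rfl fun z _ => ?_
  by_cases h1 : z = m
  · have h2 : z ≠ M := by rw [h1]; exact h.ne
    simp [h1, h.ne]
  · by_cases h2 : z = M
    · simp [h2, h.ne']
    · simp [h1, h2]

/-- the frame for three given blocks -/
theorem core (hLALT : S_LALT) (hLFQ : S_LFQ) {d K tp tm : ℕ} {S YY : Finset (G d)} {Up Dn : G d}
    {u : E d} {w pa m M κ κ' : ℝ} {Z : Finset ℝ} {mu : ℝ → ℝ} (hd : 3 ≤ d) (hS : Sym S)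
    (hK : 0 < K) (hUa : Up.a = K) (hDa : Dn.a = -(K : ℤ)) (hUb : (Up.b : ℝ) = K * κ)
    (hDb : (Dn.b : ℝ) = -(K * κ')) (hUl : len S Up ≤ tp) (hDl : len S Dn ≤ tm)
    (hUt : (tp : ℝ) = w * (Up.b : ℝ) + pa * (Up.a : ℝ))
    (hDt : (tm : ℝ) = w * (Dn.b : ℝ) + pa * (Dn.a : ℝ))
    (hUY : Up ∈ YY) (hDY : Dn ∈ YY) (hAY : Up * Dn ∈ YY) (hb : (Up * Dn).b ≠ 0)
    (hu : 0 < u.1) (hm : m ≤ 0) (hM : u.1 ≤ M) (hZ : Z.card ≤ d)
    (hz : ∀ z ∈ Z, m ≤ z ∧ z ≤ M ∧ 0 < mu z * ((Up * Dn).b : ℝ))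
    (hy : u.2 = κ • (Wv M - Wv m) - κ' • ((Wv 0 - Wv m) + (Wv M - Wv u.1)) +
      ∑ z ∈ Z, mu z • Vd 0 z)
    (hc : d ≤ (if m < 0 then 1 else 0) + (if u.1 < M then 1 else 0) +
      ∑ z ∈ Z, if z = m ∨ z = M then 1 else 2) :
    ∃ F : Frame d, F.FC S K YY (2 * d + 3) (M - m) w pa u := by
  have hmM : m < M := by linarith
  have hKR : (0 : ℝ) < K := by exact_mod_cast hK
  have hKZ : (0 : ℤ) < K := by exact_mod_cast hK
  have hAa : (Up * Dn).a = 0 := by rw [G.mul_a, hUa, hDa, add_neg_cancel]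
  obtain ⟨tt, htt⟩ : ∃ tt : G d → ℕ,
      tt = fun g => if g.a = 0 then tp + tm else if 0 < g.a then tp else tm := ⟨_, rfl⟩
  have tU : tt Up = tp := by
    rw [htt]
    simp only [hUa]
    rw [if_neg hKZ.ne', if_pos hKZ]
  have tD : tt Dn = tm := by
    rw [htt]
    simp only [hDa]
    rw [if_neg (by omega), if_neg (by omega)]
  have tA : tt (Up * Dn) = tp + tm := by
    rw [htt]
    simp only [hAa, if_true]
  obtain ⟨F, f1, f2, f3, f4, f5, f6, f7, f8⟩ := hLFQ d K Up (Up * Dn) Dn tt m M u.1 Z mu hK hUa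
    hAa hDa hm hu.le hM hmM hz
  have hne : Z.Nonempty := by
    by_contra h
    rw [Finset.not_nonempty_iff_eq_empty] at h
    rw [h, Finset.sum_empty] at hc
    split_ifs at hc <;> omega
  have hfree : ∀ i < F.m, F.Y i = Up * Dn → F.Free S K i := fun i hi e =>
    ⟨hi, by rw [e, hAa], Or.inl ⟨(f2 i hi).1, Up, Dn, tp, tm, e, hUa, hDa, hUl, hDl,
      by rw [(f2 i hi).2.1, e, tA]⟩⟩
  have hlen : ∀ i < F.m, len S (F.Y i) ≤ F.t i := fun i hi => by
    obtain ⟨-, e1, -, e | e | ⟨e, -⟩⟩ := f2 i hi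
    · rw [e1, e, tU]; exact hUl
    · rw [e1, e, tA]; exact (hS.len_mul _ _).trans (add_le_add hUl hDl)
    · rw [e1, e, tD]; exact hDl
  refine ⟨F, fun i hi => ?_, ?_, ?_, f4, by omega, fun i hi => ?_, fun i hi => ?_, fun f hf => ?_⟩
  · obtain ⟨e0, -, e2, e3⟩ := f2 i hi
    refine ⟨e2, hlen i hi, by rw [e0]; exact hlen i hi, by rw [e0], by rw [e0], by rw [e0], ?_⟩
    rcases e3 with e | e | ⟨e, -⟩
    · exact Or.inr (Or.inl (by rw [e, hUa]))
    · exact Or.inl ⟨by rw [e, hAa], by rw [e]; exact hb⟩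
    · exact Or.inr (Or.inr (by rw [e, hDa]))
  · obtain ⟨z, hzZ⟩ := hne
    obtain ⟨i, hi, e1, -, e3, e4⟩ := f6 z hzZ
    by_cases h : m < z
    · obtain ⟨g1, g2⟩ := e3 h
      refine ⟨i, g1, hi, ?_⟩
      rw [Frame.om, g2, e1, hAa, hUa, mul_zero, zero_sub, neg_ne_zero]
      exact mul_ne_zero hb hKZ.ne'
    · obtain ⟨g1, g2⟩ := e4 (by linarith [not_lt.1 h])
      refine ⟨i + 1, by omega, g1, ?_⟩
      rw [Frame.om, Nat.add_sub_cancel, g2, e1, hAa, hUa, mul_zero, sub_zero]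
      exact mul_ne_zero hb hKZ.ne'
  · have a1 : (Up.b : ℝ) / K = κ := by rw [hUb]; field_simp
    have a2 : (Dn.b : ℝ) / K = -κ' := by rw [hDb]; field_simp
    rw [f5, hy, a1, a2, neg_smul, ← sub_eq_add_neg]
  · obtain ⟨g1, g2⟩ := f3 i hi
    rw [abs_le]
    constructor <;> linarith
  · obtain ⟨-, e1, -, e | e | ⟨e, -⟩⟩ := f2 i hi
    · rw [e1, e, tU]; exact ⟨hUY, hUt⟩
    · rw [e1, e, tA]
      refine ⟨hAY, ?_⟩
      rw [G.mul_a, G.mul_b]
      push_cast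
      rw [hUt, hDt]
      ring
    · rw [e1, e, tD]; exact ⟨hDY, hDt⟩
  · have hsum : ((Up * Dn).b : ℝ) = (Up.b : ℝ) + (Dn.b : ℝ) := by rw [G.mul_b]; push_cast; rfl
    refine hLALT d f ((Up * Dn).b : ℝ) Z (if m < 0 ∧ m ∉ Z then {m} else ∅)
      (if u.1 < M ∧ M ∉ Z then {M} else ∅) (by exact_mod_cast hb) ?_ ?_ ?_ ?_ hne ?_ ?_ ?_ ?_
    · split_ifs <;> simp
    · split_ifs <;> simp
    · intro x hx z hzZ
      split_ifs at hx with h
      · rw [mem_singleton.1 hx]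
        exact lt_of_le_of_ne (hz z hzZ).1 fun e => h.2 (e ▸ hzZ)
      · simp at hx
    · intro x hx z hzZ
      split_ifs at hx with h
      · rw [mem_singleton.1 hx]
        exact lt_of_le_of_ne (hz z hzZ).2.1 fun e => h.2 (e ▸ hzZ)
      · simp at hx
    · intro z hzZ
      obtain ⟨i, hi, e1, e2, -, -⟩ := f6 z hzZ
      have g1 := hf _ (F.free_mem_cone (hfree i hi e1) 1).1
      have g2 := hf _ (F.free_mem_cone (hfree i hi e1) (-1)).1
      have g3 := hf _ (F.free_mem_cone (hfree i hi e1) 1).2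
      rw [dot_smul_right, e2] at g1 g2 g3
      rw [e1] at g3
      exact ⟨by unfold ev; linarith, g3⟩
    · intro x hx
      split_ifs at hx with h
      · rw [mem_singleton.1 hx]
        obtain ⟨j, j1, j2, j3, j4, j5⟩ := f7 h.1 h.2
        have g := hf _ (F.junction_mem_cone S K j1 j2)
        rw [dot_smul_right, j3, Frame.om, j4, j5, hUa, hDa] at g
        push_cast at g
        rw [hsum]
        unfold ev
        by_contra hh
        nlinarith [mul_pos hKR (not_le.1 hh)]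
      · simp at hx
    · intro x hx
      split_ifs at hx with h
      · rw [mem_singleton.1 hx]
        obtain ⟨j, j1, j2, j3, j4, j5⟩ := f8 h.1 h.2
        have g := hf _ (F.junction_mem_cone S K j1 j2)
        rw [dot_smul_right, j3, Frame.om, j4, j5, hUa, hDa] at g
        push_cast at g
        rw [hsum]
        unfold ev
        by_contra hh
        nlinarith [mul_pos hKR (neg_pos.2 (not_le.1 hh))]
      · simp at hx
    · have g := count Z hmM
      by_cases h1 : m < 0 <;> by_cases h2 : u.1 < M <;> by_cases h3 : m ∈ Z <;>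
        by_cases h4 : M ∈ Z <;>
        simp only [h1, h2, h3, h4, if_true, if_false, not_true, not_false_iff, and_true,
          and_false, card_singleton, card_empty] at g hc ⊢ <;> omega

end LqeA

theorem p_LQE (hLALT : S_LALT) (hLFQ : S_LFQ) :
    S_LQE := by
  intro d S D hd h h0
  obtain ⟨U, t, hU⟩ := h.exists_blk
  refine ⟨(range (D.n + 1) ×ˢ range (D.n + 1)).biUnion
    fun k => {U k.1, (U k.2)⁻¹, U k.1 * (U k.2)⁻¹}, fun u w m M Z mu hu hw hm hM hZ hz hy hc => ?_⟩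
  obtain ⟨a1, a2, a3, a4⟩ := hU _ (D.idx_le w)
  obtain ⟨b1, b2, b3, b4⟩ := hU _ (D.idx_le (-w))
  have hKR : (0 : ℝ) < D.K0 := by exact_mod_cast h.K0_pos
  have hmem : (D.idx w, D.idx (-w)) ∈ range (D.n + 1) ×ˢ range (D.n + 1) :=
    mem_product.2 ⟨mem_range.2 (Nat.lt_succ_of_le (D.idx_le _)),
      mem_range.2 (Nat.lt_succ_of_le (D.idx_le _))⟩
  have hom : D.lp w + D.lp (-w) = 0 := LD.Spec.om_of_abs h0 hw
  have hbw : 0 < D.be w * w := by
    have g1 := h.be_Q_pos h0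
    have g2 := h.Qpos
    rcases abs_cases w with e | e
    · have : w = D.Q := by linarith [e.1]
      rw [this]; positivity
    · have : w = -D.Q := by linarith [e.1]
      rw [this, D.be_neg, neg_mul_neg]; positivity
  have hAb : (((U (D.idx w) * (U (D.idx (-w)))⁻¹).b : ℤ) : ℝ) = D.K0 * D.be w := by
    rw [G.mul_b, G.inv_b]
    push_cast
    rw [a2, b2, LD.be, LD.kp, LD.kp]
    ring
  have l1 := D.lp_eq w
  have l2 := D.lp_eq (-w)
  refine LqeA.core hLALT hLFQ (tp := t (D.idx w)) (tm := t (D.idx (-w))) (Up := U (D.idx w))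
    (Dn := (U (D.idx (-w)))⁻¹) hd h.sym h.K0_pos a1 (by rw [G.inv_a, b1]) a2
    (by rw [G.inv_b]; push_cast; rw [b2]; rfl) a3 (by rw [h.sym.len_inv]; exact b3) ?_ ?_
    (mem_biUnion.2 ⟨_, hmem, by simp⟩) (mem_biUnion.2 ⟨_, hmem, by simp⟩)
    (mem_biUnion.2 ⟨_, hmem, by simp⟩) ?_ hu hm hM hZ (fun z hzZ => ?_) hy hc
  · rw [a4, a2, a1, l1, LD.kp]
    push_cast
    ring
  · rw [G.inv_a, G.inv_b, b1]
    push_cast
    rw [b4, b2, (by linarith : D.lp w = -D.lp (-w)), l2, LD.kp]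
    ring
  · intro e
    rw [e, Int.cast_zero] at hAb
    have : D.be w = 0 := by
      rcases mul_eq_zero.1 hAb.symm with g | g
      · exact absurd g hKR.ne'
      · exact g
    rw [this, zero_mul] at hbw
    exact lt_irrefl _ hbw
  · obtain ⟨g1, g2, g3⟩ := hz z hzZ
    refine ⟨g1, g2, ?_⟩
    rw [hAb]
    have g4 : 0 < mu z * D.be w := by
      by_contra hh
      nlinarith [mul_pos g3 hbw, mul_nonneg (neg_nonneg.2 (not_lt.1 hh)) (sq_nonneg w)]
    nlinarith [mul_pos hKR g4]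

end Pool.Agent.P.MP_a0f0ad_al.Fi
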