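import Pool.Agent.P.MP_a0f0ad_al.Fi.T.Iface4
import Pool.Agent.P.MP_a0f0ad_al.Fi.V.Iface
import Pool.Agent.P.MP_a0f0ad_al.Fi.T.LBase

/-! Step LQR of the filiform project. -/

namespace Pool.Agent.P.MP_a0f0ad_al.Fi

open Finset MeasureTheory
open scoped Classical

theorem p_LQR (hKKT : S_KKT) (hLNQ : S_LNQ) :
    S_LQR := by
  intro d S D hD
  filter_upwards [hLNQ d (D.kp D.Q) (D.kp (-D.Q)), hLNQ d (D.kp (-D.Q)) (D.kp D.Q)] with
    u h1 h2 hu q m M hq hQ hm hM hB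
  have e : ∀ x, ev q 0 x = co q 0 := fun x => (not_nonconst hq x).1
  obtain ⟨Z, mu, hZ, -, -, mM, -, r1, r2⟩ := hKKT d S D hD u q m M hm hu.le hM (by linarith)
    (fun x _ => by rw [e, hQ]) hB (Or.inr fun k hk => by
      have := abs_lt.2 (hD.thQ k hk)
      rw [e]
      constructor <;> intro h <;> simp [h] at hQ <;> linarith)
  have r3 : u.2 = D.kp (co q 0) • (Wv M - Wv m) -
      D.kp (-co q 0) • ((Wv 0 - Wv m) + (Wv M - Wv u.1)) + ∑ z ∈ Z, mu z • Vd 0 z := by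
    refine r2.trans (congrArg (· + _) (funext fun j => ?_))
    simp only [LD.Yq, e, intervalIntegral.integral_const_mul, integral_Vd, Pi.sub_apply,
      Pi.add_apply, Pi.smul_apply, smul_eq_mul]
    ring
  refine ⟨Z, mu, hZ, fun z hz => ⟨(r1 z hz).1, (r1 z hz).2.1, e z ▸ (r1 z hz).2.2.2⟩, r3, ?_⟩
  rcases (abs_eq hD.Qpos.le).1 hQ with h | h
  · exact h1 m M Z mu hm hM mM (h ▸ r3)
  · exact h2 m M Z mu hm hM mM (by rwa [h, neg_neg] at r3)

end Pool.Agent.P.MP_a0f0ad_al.Fi
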