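import Pool.Agent.P.MP_a0f0ad_al.Fi.T.Iface4
import Pool.Agent.P.MP_a0f0ad_al.Fi.T.LBase

/-! Step LQV of the filiform project. -/

namespace Pool.Agent.P.MP_a0f0ad_al.Fi

open Finset MeasureTheory
open scoped Classical

theorem p_LQV (hLALT : S_LALT) (hLFQ : S_LFQ) :
    S_LQV := by
  intro d S D hd hS hom
  obtain ⟨U, t, hU⟩ := hS.exists_blk
  obtain ⟨c1, c2, c3⟩ := hS.wait hom
  refine ⟨(range (D.n + 1)).image U ∪ {D.C, D.C⁻¹}, fun u w Z mu hu hw hZ hz hy hc => ?_⟩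
  obtain ⟨u1, u2, u3, u4⟩ := hU _ (D.idx_le w)
  have hK := hS.K0_pos
  have hK' : (0 : ℝ) < D.K0 := by exact_mod_cast hK
  have hK0 : (D.K0 : ℤ) ≠ 0 := by exact_mod_cast hK.ne'
  obtain ⟨At, a1, a2, a3, a4⟩ : ∃ At : G d, At ∈ ({D.C, D.C⁻¹} : Finset (G d)) ∧ At ∈ S ∧
      At.a = 0 ∧ w * (At.b : ℝ) = 1 := by
    rcases abs_cases w with e | e
    · exact ⟨D.C, by simp, c1, c2, by rw [← e.1, hw, c3]⟩
    · refine ⟨D.C⁻¹, by simp, hS.sym.2.1 _ c1, by rw [G.inv_a, c2, neg_zero], ?_⟩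
      rw [G.inv_b, Int.cast_neg, mul_neg, ← neg_mul, ← e.1, hw, c3]
  have hb : (At.b : ℝ) ≠ 0 := right_ne_zero_of_mul (a4.symm ▸ one_ne_zero)
  have hb' : At.b ≠ 0 := by exact_mod_cast hb
  obtain ⟨F, f1, f2, f3, f4, f5, f6, -⟩ := hLFQ d D.K0 (U (D.idx w)) At (U (D.idx w))⁻¹
    (fun g => if g.a = 0 then 1 else t (D.idx w)) 0 u.1 u.1 Z mu hK u1 a3 (by rw [G.inv_a, u1])
    le_rfl hu.le le_rfl hu fun z h => ⟨(hz z h).1, (hz z h).2.1, by
      have := mul_pos (hz z h).2.2 (mul_self_pos.2 hb)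
      rwa [mul_assoc, ← mul_assoc w, a4, one_mul] at this⟩
  have hY : ∀ i < F.m, (F.Y i = U (D.idx w) ∧ F.t i = t (D.idx w)) ∨ (F.Y i = At ∧ F.t i = 1) :=
    fun i hi => by
      obtain ⟨-, b2, -, e | e | e⟩ := f2 i hi
      · exact Or.inl ⟨e, by rw [b2, e, if_neg (u1.symm ▸ hK0)]⟩
      · exact Or.inr ⟨e, by rw [b2, e, if_pos a3]⟩
      · simp at e
  have j1 : ∀ z ∈ Z, z < u.1 → ∃ j, 1 ≤ j ∧ j < F.m ∧ F.pos j = z ∧ F.om j = At.b * D.K0 :=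
    fun z h hl => by
      obtain ⟨i, -, b2, b3, -, b5⟩ := f6 z h
      refine ⟨i + 1, by omega, (b5 hl).1, by simp [F.pos_succ, b2, a3, b3], ?_⟩
      rw [Frame.om, Nat.add_sub_cancel, b2, (b5 hl).2, u1, a3, mul_zero, sub_zero]
  have j2 : ∀ z ∈ Z, 0 < z → ∃ j, 1 ≤ j ∧ j < F.m ∧ F.pos j = z ∧ F.om j = -(At.b * D.K0) :=
    fun z h hl => by
      obtain ⟨i, b1, b2, b3, b4, -⟩ := f6 z h
      refine ⟨i, (b4 hl).1, b1, b3, ?_⟩
      rw [Frame.om, b2, (b4 hl).2, u1, a3, mul_zero, zero_sub]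
  have hA : (Z.filter fun z => z = 0).card ≤ 1 :=
    card_le_one.2 fun x hx y hy => (mem_filter.1 hx).2.trans (mem_filter.1 hy).2.symm
  have hB : (Z.filter fun z => z = u.1).card ≤ 1 :=
    card_le_one.2 fun x hx y hy => (mem_filter.1 hx).2.trans (mem_filter.1 hy).2.symm
  have hI : ∀ z ∈ Z.filter fun z => ¬ (z = 0 ∨ z = u.1), z ∈ Z ∧ 0 < z ∧ z < u.1 := fun z h => by
    obtain ⟨h1, h2⟩ := mem_filter.1 h
    exact ⟨h1, (hz z h1).1.lt_of_ne fun e => h2 (Or.inl e.symm),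
      (hz z h1).2.1.lt_of_ne fun e => h2 (Or.inr e)⟩
  have hcard : d ≤ 2 * (Z.filter fun z => ¬ (z = 0 ∨ z = u.1)).card +
      (Z.filter fun z => z = 0).card + (Z.filter fun z => z = u.1).card := by
    rw [sum_ite, sum_const, sum_const, smul_eq_mul, smul_eq_mul, filter_or] at hc
    have := card_union_le (Z.filter fun z => z = 0) (Z.filter fun z => z = u.1)
    omega
  have hne : (Z.filter fun z => ¬ (z = 0 ∨ z = u.1)).Nonempty := card_pos.1 (by omega)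
  refine ⟨F, fun i hi => ?_, ?_, ?_, f4, by omega, fun i hi => ?_, fun i hi => ?_, fun f hf => ?_⟩
  · obtain ⟨b1, -, b3, -⟩ := f2 i hi
    rw [b1]
    rcases hY i hi with ⟨e, e'⟩ | ⟨e, e'⟩ <;> rw [e, e']
    · exact ⟨b3, u3, u3, rfl, rfl, le_rfl, Or.inr (Or.inl u1)⟩
    · exact ⟨b3, len_mem a2, len_mem a2, rfl, rfl, le_rfl, Or.inl ⟨a3, hb'⟩⟩
  · obtain ⟨z, h⟩ := hne
    obtain ⟨j, b1, b2, -, b4⟩ := j1 z (hI z h).1 (hI z h).2.2
    exact ⟨j, b1, b2, b4 ▸ mul_ne_zero hb' hK0⟩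
  · rw [f5, hy, u2, mul_div_cancel_left₀ _ hK'.ne']
    simp [LD.kp]
  · rw [abs_of_nonneg (f3 i hi).1]
    exact (f3 i hi).2
  · rcases hY i hi with ⟨e, e'⟩ | ⟨e, e'⟩ <;> rw [e, e']
    · refine ⟨mem_union_left _ (mem_image_of_mem _ (mem_range.2 (Nat.lt_succ_of_le (D.idx_le w)))),
        ?_⟩
      rw [u4, u2, u1, D.lp_eq, LD.kp]
      push_cast
      ring
    · exact ⟨mem_union_right _ a1, by simp [a3, a4]⟩
  · refine hLALT d f At.b _ _ _ hb hA hB (fun x hx z h => ?_) (fun x hx z h => ?_) hne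
      (fun z h => ?_) (fun x hx => ?_) (fun x hx => ?_) hcard
    · rw [(mem_filter.1 hx).2]; exact (hI z h).2.1
    · rw [(mem_filter.1 hx).2]; exact (hI z h).2.2
    · obtain ⟨i, b1, b2, b3, b4, b5⟩ := f6 z (hI z h).1
      have b6 := b4 (hI z h).2.1
      have b7 := b5 (hI z h).2.2
      have fr : F.Free S D.K0 i := ⟨b1, by rw [b2, a3], Or.inr ⟨b6.1, b7.1, by rw [b6.2, b7.2],
        by rw [b7.2, u1]; exact hK0⟩⟩
      have e1 := hf _ (F.free_mem_cone fr 1).1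
      have e2 := hf _ (F.free_mem_cone fr (-1)).1
      have e3 := hf _ (F.free_mem_cone fr 1).2
      rw [dot_smul_right, b3] at e1 e2 e3
      rw [b2] at e3
      exact ⟨by unfold ev; linarith, e3⟩
    · obtain ⟨h1, h2⟩ := mem_filter.1 hx
      obtain ⟨j, b1, b2, b3, b4⟩ := j1 x h1 (h2 ▸ hu)
      have e := hf _ (F.junction_mem_cone S D.K0 b1 b2)
      rw [dot_smul_right, b3, b4] at e
      push_cast at e
      refine le_of_mul_le_mul_left ?_ hK'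
      unfold ev
      linarith
    · obtain ⟨h1, h2⟩ := mem_filter.1 hx
      obtain ⟨j, b1, b2, b3, b4⟩ := j2 x h1 (h2 ▸ hu)
      have e := hf _ (F.junction_mem_cone S D.K0 b1 b2)
      rw [dot_smul_right, b3, b4] at e
      push_cast at e
      refine le_of_mul_le_mul_left ?_ hK'
      unfold ev
      linarith

end Pool.Agent.P.MP_a0f0ad_al.Fi
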