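import Pool.Agent.P.MP_a0f0ad_al.Fi.T.Iface
import Pool.Agent.P.MP_a0f0ad_al.Fi.V.Iface
import Pool.Agent.P.MP_a0f0ad_al.Fi.Z.Bm

/-! Chapter T: the steps of the proof of TCP. -/

namespace Pool.Agent.P.MP_a0f0ad_al.Fi

open Finset MeasureTheory

variable {d : ℕ}

/-- `w` is a threshold or the negative of a threshold -/
def LD.Lv (D : LD d) (w : ℝ) : Prop := ∃ l < D.n, w = D.th l ∨ w = -D.th l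

/-- the setting of two competing ranges -/
structure TS (D : LD d) (v α m z M : ℝ) (q : Fin d → ℝ) (Z L1 L2 : Finset ℝ) : Prop where
  v0 : 0 < v
  v1 : v ≤ 1
  hα : -D.Lam ≤ α
  αm : α < m
  mz : m < z
  zM : z < M
  hM : M ≤ D.Lam
  feas : D.Feas q α M
  qα : |ev q 0 α| = D.Q
  qM : |ev q 0 M| = D.Q
  mZ : m ∈ Z
  zZ : z ∈ Z
  hZ : ∀ x ∈ Z, m ≤ x ∧ x ≤ z ∧ |ev q 0 x| = D.Q ∧ ev q 1 x = 0 ∧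
    ∀ y, |y - x| ≤ v → v ≤ |ev q 2 y|
  r2 : ∀ x, |x| ≤ D.Lam → ∀ w ∈ D.ThA, |ev q 0 x - w| ≤ v →
    v ^ 2 ≤ |ev q 1 x| ∨ ∃ y ∈ Z, |x - y| ≤ v ∧ ev q 0 y = w
  hq : v * ‖q‖ ≤ 1
  hl : v ≤ (M - α) ^ d
  dα : ev q 1 α ≠ 0
  dM : ev q 1 M ≠ 0
  h1 : ∀ x, x ∈ L1 ↔ α < x ∧ x < m ∧ D.Lv (ev q 0 x)
  h2 : ∀ x, x ∈ L2 ↔ z < x ∧ x < M ∧ D.Lv (ev q 0 x)

/-- the first variation is at least `c` -/
def TX (D : LD d) (c α m z M : ℝ) (q : Fin d → ℝ) (Z : Finset ℝ) (ν : ℝ → ℝ) : Prop :=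
  ∃ f : Fin d → ℝ, ‖f‖ ≤ 1 ∧ c ≤ |rhoF D q α m z M Z ν f|

/-- the second variation is at least `c` -/
def TH (D : LD d) (c α M : ℝ) (q : Fin d → ℝ) (Z L1 L2 : Finset ℝ) (ν : ℝ → ℝ) : Prop :=
  ∃ f g : Fin d → ℝ, ‖f‖ ≤ 1 ∧ ‖g‖ ≤ 1 ∧ (∀ x ∈ Z, ev f 0 x = 0 ∧ ev g 0 x = 0) ∧
    c ≤ |hess D q α M L1 L2 Z ν f g|

-- deps:
/-- operations on coefficient vectors with norm control -/
def S_TOPS : Prop :=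
  ∀ (d : ℕ) (L : ℝ), ∃ C : ℝ, 1 ≤ C ∧
    (∀ (f : Fin d → ℝ) (c : ℝ), |c| ≤ L → ∃ g : Fin d → ℝ, ‖g‖ ≤ C * ‖f‖ ∧
      ∀ x, ev f 0 x = ev f 0 c + (x - c) * ev g 0 x) ∧
    (∀ f : Fin d → ℝ, ∃ g : Fin d → ℝ, ‖g‖ ≤ C * ‖f‖ ∧ ∀ k x, ev g k x = ev f (k + 1) x) ∧
    (∀ (f : Fin d → ℝ) (c : ℝ), |c| ≤ L → ∃ g : Fin d → ℝ, ‖g‖ ≤ C * ‖f‖ ∧
      ∀ x, ev g 0 x = (x - c) * ev f 1 x) ∧
    (∀ s : Multiset ℝ, s.card < d → (∀ y ∈ s, |y| ≤ L) → ∃ g : Fin d → ℝ, ‖g‖ ≤ C ∧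
      ∀ x, ev g 0 x = (s.map fun y => x - y).prod) ∧
    (∀ (f : Fin d → ℝ) (Z : Finset ℝ), (∀ y ∈ Z, |y| ≤ L ∧ ev f 0 y = 0) →
      ∃ g : Fin d → ℝ, ‖g‖ ≤ C * ‖f‖ ∧ ∀ x, ev f 0 x = (∏ y ∈ Z, (x - y)) * ev g 0 x) ∧
    ∀ (f : Fin d → ℝ) (W : Finset ℝ), (∃ x, ev f 1 x ≠ 0) → (∀ y ∈ W, ev f 1 y = 0) →
      W.card + 2 ≤ d ∧ (W.card + 2 = d → ∃ A : ℝ, A ≠ 0 ∧ ∀ x, ev f 1 x = A * ∏ y ∈ W, (x - y))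

-- deps: MARK TOPS
-- imports: Pool.Agent.P.MP_a0f0ad_al.Fi.T.Base
/-- basic quantitative facts -/
def S_TBAS : Prop :=
  ∀ (d : ℕ) (S : Finset (G d)) (D : LD d), D.Spec S → ∃ c : ℝ, 0 < c ∧ c ≤ 1 ∧
    ∀ (v α m z M : ℝ) (q : Fin d → ℝ) (Z L1 L2 : Finset ℝ), TS D v α m z M q Z L1 L2 →
      (∀ x ∈ Set.Icc α M, ∀ y ∈ Set.Icc α M, c * (M - α) * |ev q 0 x - ev q 0 y| ≤ |x - y|) ∧
      (∀ x ∈ Set.Icc α M, x ∉ Z → ev q 0 x ∈ D.ThA → v ^ 2 ≤ |ev q 1 x|) ∧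
      (∀ y ∈ Z, ∀ x, x ≠ y → ev q 1 x = 0 → v ≤ |x - y|) ∧
      (ev q 0 α * ev q 1 α < 0 ∧ 0 < ev q 0 M * ev q 1 M ∧ ∀ y ∈ Z, ev q 0 y * ev q 2 y < 0) ∧
      (c * v ^ 3 ≤ ∏ y ∈ Z, (y - α) ∧ c * v ^ 2 ≤ ∏ y ∈ Z.erase m, (y - m)) ∧
      (c * v ≤ m - α ∧ v ≤ M - α) ∧
      ∀ x, |x| ≤ D.Lam → ∀ k, c * v * |ev q k x| ≤ 1

-- deps: TBAS
-- imports: Pool.Agent.P.MP_a0f0ad_al.Fi.T.Base
/-- a full swing of `q` carries a definite amount of `om` -/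
def S_TPC : Prop :=
  ∀ (d : ℕ) (S : Finset (G d)) (D : LD d), D.Spec S → ∃ c : ℝ, 0 < c ∧
    ∀ (v α m z M : ℝ) (q : Fin d → ℝ) (Z L1 L2 : Finset ℝ), TS D v α m z M q Z L1 L2 →
      ∀ (s t b : ℝ) (h : ℝ → ℝ), α ≤ s → s < t → t ≤ M → |ev q 0 t| = D.Q →
        ev q 0 s = -ev q 0 t → ContinuousOn h (Set.Icc s t) → (∀ x ∈ Set.Icc s t, 0 ≤ h x) →
        0 ≤ b → (∀ x ∈ Set.Icc (s + c * (M - α)) (t - c * (M - α)), b ≤ h x) →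
        c * (M - α) * b ≤ ∫ x in s..t, D.om (ev q 0 x) * h x

-- deps:
/-- integration by parts along `q` on an interval -/
def S_TIBP : Prop :=
  ∀ (d : ℕ) (S : Finset (G d)) (D : LD d), D.Spec S → ∀ (q : Fin d → ℝ) (s t : ℝ), s ≤ t →
    (∀ g : ℝ → ℝ, ContinuousOn g (Set.Icc s t) →
      IntervalIntegrable (fun x => D.be (ev q 0 x) * g x) volume s t) ∧
    ∀ g g' : ℝ → ℝ, (∀ x ∈ Set.Icc s t, HasDerivAt g (g' x) x) → ContinuousOn g' (Set.Icc s t) →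
      ∫ x in s..t, D.be (ev q 0 x) * (ev q 1 x * g x) =
        D.om (ev q 0 s) * g s - D.om (ev q 0 t) * g t + ∫ x in s..t, D.om (ev q 0 x) * g' x

-- deps:
-- imports: Pool.Agent.P.MP_a0f0ad_al.Fi.T.Base
/-- integration by parts against the jumps of `be (q)` -/
def S_TJMP : Prop :=
  ∀ (d : ℕ) (S : Finset (G d)) (D : LD d), D.Spec S → ∀ (q : Fin d → ℝ) (L : Finset ℝ)
    (a b : ℝ) (H g : ℝ → ℝ), a ≤ b → (∀ x, x ∈ L ↔ a < x ∧ x < b ∧ D.Lv (ev q 0 x)) →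
    (∀ x ∈ L, ev q 1 x ≠ 0) → ¬ D.Lv (ev q 0 a) → ¬ D.Lv (ev q 0 b) →
    (∀ x ∈ Set.Icc a b, HasDerivAt H (g x) x) → ContinuousOn g (Set.Icc a b) →
    ∫ x in a..b, D.be (ev q 0 x) * g x = D.be (ev q 0 b) * H b - D.be (ev q 0 a) * H a -
      ∑ x ∈ L, D.Jb (ev q 0 x) * (ev q 1 x / |ev q 1 x|) * H x

-- deps:
/-- sign changes of a polynomial on an interval, and the count of Rolle -/
def S_TSGN : Prop :=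
  ∀ (d : ℕ) (q : Fin d → ℝ) (a b : ℝ),
    (∃ (A : Finset ℝ) (σ : ℝ), (∀ y ∈ A, a < y ∧ y < b ∧ ev q 0 y = 0) ∧ (σ = 1 ∨ σ = -1) ∧
      ∀ x ∈ Set.Icc a b, 0 ≤ σ * ev q 0 x * ∏ y ∈ A, (x - y)) ∧
    ∀ A C : Finset ℝ, (∀ y ∈ A, a < y ∧ y < b ∧ ev q 0 y = 0) →
      (∀ x, a < x → x < b → ev q 1 x = 0 → x ∈ C) → A.card ≤ C.card + 1

-- deps:
/-- the joint count of the sign changes of two sign patterns on the atoms -/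
def S_TMID : Prop :=
  ∀ (Z C : Finset ℝ) (m z : ℝ) (s r : ℝ → ℝ), m ∈ Z → z ∈ Z → (∀ x ∈ Z, m ≤ x ∧ x ≤ z) →
    (∀ x ∈ Z, (s x = 1 ∨ s x = -1) ∧ (r x = 1 ∨ r x = -1)) →
    (∀ x ∈ Z, ∀ y ∈ Z, x < y → (∀ t ∈ Z, ¬ (x < t ∧ t < y)) → s x = s y →
      ∃ c ∈ C, x < c ∧ c < y) →
    ∃ K K' : Finset ℝ, K ⊆ Z.erase m ∧ K' ⊆ Z.erase m ∧
      K.card + K'.card + 1 ≤ Z.card + (C.filter fun c => m < c ∧ c < z).card ∧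
      (∀ x ∈ Z, 0 ≤ r m * r x * ∏ y ∈ K, (y - x)) ∧ (-1 : ℝ) ^ K.card = r m * r z ∧
      (∀ x ∈ Z, 0 ≤ (r m * s m) * (r x * s x) * ∏ y ∈ K', (y - x)) ∧
      (-1 : ℝ) ^ K'.card = (r m * s m) * (r z * s z)

-- deps: TOPS TBAS
-- imports: Pool.Agent.P.MP_a0f0ad_al.Fi.T.Base
/-- few sign changes of the first variation -/
def S_TXL : Prop :=
  ∃ k : ℕ, 0 < k ∧ ∀ (d : ℕ) (S : Finset (G d)) (D : LD d), D.Spec S → D.om D.Q = 0 →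
    ∃ c : ℝ, 0 < c ∧ ∀ (v α m z M : ℝ) (q : Fin d → ℝ) (Z L1 L2 : Finset ℝ) (ν : ℝ → ℝ),
      TS D v α m z M q Z L1 L2 → ∀ (A K : Finset ℝ) (a e : ℕ) (σ : ℝ) (F : ℝ → ℝ),
      a ≤ 1 → e ≤ 1 → (σ = 1 ∨ σ = -1) → (∀ y ∈ A, α ≤ y ∧ y ≤ M ∧ ev q 0 y = 0) →
      K ⊆ Z.erase m → A.card + K.card + a + e < d →
      (∀ x, F x = σ * (∏ y ∈ A, (x - y)) * (∏ y ∈ K, (y - x)) * (m - x) ^ a * (z - x) ^ e) →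
      (∀ x ∈ Set.Icc α m, 0 ≤ ev q 0 x * F x) → (∀ x ∈ Set.Icc z M, ev q 0 x * F x ≤ 0) →
      (∀ x ∈ Z, 0 ≤ ν x * F x) → TX D (c * v ^ k) α m z M q Z ν

-- deps: TOPS TBAS
-- imports: Pool.Agent.P.MP_a0f0ad_al.Fi.T.Base
/-- few sign changes of the second variation -/
def S_THL : Prop :=
  ∃ k : ℕ, 0 < k ∧ ∀ (d : ℕ) (S : Finset (G d)) (D : LD d), D.Spec S → D.om D.Q = 0 →
    ∃ c : ℝ, 0 < c ∧ ∀ (v α m z M : ℝ) (q : Fin d → ℝ) (Z L1 L2 : Finset ℝ) (ν : ℝ → ℝ),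
      TS D v α m z M q Z L1 L2 → ∀ (K : Finset ℝ) (a e : ℕ) (p1 p2 : ℝ) (ψ : ℝ → ℝ),
      a ≤ 1 → e ≤ 1 → (p1 ∈ L1 ∨ p1 = m) → (p2 ∈ L2 ∨ p2 = M) → K ⊆ Z →
      K.card + a + e + 2 * Z.card + 4 ≤ 2 * d →
      (∀ x, ψ x = (p1 - x) * (m - x) ^ a * (∏ y ∈ K, (y - x)) * (p2 - x) ^ e * (M - x)) →
      (∀ x ∈ L1, ψ x ≤ 0) → (∀ x ∈ Z, ν x * ev q 0 x * ψ x ≤ 0) → (∀ x ∈ L2, 0 ≤ ψ x) →
      TH D (c * v ^ k) α M q Z L1 L2 ν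

-- deps: TOPS TSGN TMID TXL THL
-- imports: Pool.Agent.P.MP_a0f0ad_al.Fi.T.Base
/-- the counting argument -/
def S_TCNT : Prop :=
  ∃ k : ℕ, 0 < k ∧ ∀ (d : ℕ) (S : Finset (G d)) (D : LD d), D.Spec S → D.om D.Q = 0 →
    ∃ c : ℝ, 0 < c ∧ ∀ (v α m z M : ℝ) (q : Fin d → ℝ) (Z L1 L2 : Finset ℝ) (ν : ℝ → ℝ),
      TS D v α m z M q Z L1 L2 → Z.card + 2 < d →
      (Z.card + 3 = d → ∀ x, α < x → x < M → ev q 1 x = 0 → x ∈ Z) →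
      TX D (c * v ^ k) α m z M q Z ν ∨ TH D (c * v ^ k) α M q Z L1 L2 ν

-- deps:
/-- alternation of the odd part around a critical point -/
def S_TODD : Prop :=
  ∀ (d : ℕ) (q : Fin d → ℝ) (c σ : ℝ) (W : Finset ℝ), Even d → ev q 1 c = 0 → σ ≠ 0 →
    (∀ η ∈ W, 0 < η) → d ≤ 2 * W.card →
    (∀ η ∈ W, 0 ≤ σ * (-1) ^ (W.filter fun t => η < t).card *
      (ev q 0 (c + η) - ev q 0 (c - η))) →
    ∀ η, ev q 0 (c + η) = ev q 0 (c - η)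

-- deps: TOPS TBAS TODD
-- imports: Pool.Agent.P.MP_a0f0ad_al.Fi.T.Base
/-- one extra critical point between the atoms: the two ranges are nested around it -/
def S_TSYM : Prop :=
  ∀ (d : ℕ) (S : Finset (G d)) (D : LD d), Even d → D.Spec S →
    ∀ (v α m z M c : ℝ) (q : Fin d → ℝ) (Z L1 L2 : Finset ℝ), TS D v α m z M q Z L1 L2 →
      Z.card + 3 = d → m < c → c < z → c ∉ Z → ev q 1 c = 0 →
      ev q 0 α = -ev q 0 m ∧ ev q 0 M = -ev q 0 z ∧ (M - c ≤ c - m ∨ c - α ≤ z - c)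

-- deps: TOPS TBAS TPC TIBP
-- imports: Pool.Agent.P.MP_a0f0ad_al.Fi.T.Base
/-- the explicit test in the nested case -/
def S_TONE : Prop :=
  ∃ k : ℕ, 0 < k ∧ ∀ (d : ℕ) (S : Finset (G d)) (D : LD d), D.Spec S → D.om D.Q = 0 →
    ∃ c0 : ℝ, 0 < c0 ∧ ∀ (v α m z M c : ℝ) (q : Fin d → ℝ) (Z L1 L2 : Finset ℝ) (ν : ℝ → ℝ),
      TS D v α m z M q Z L1 L2 → m < c → c < z → c ∉ Z → ev q 1 c = 0 →
      ev q 0 α = -ev q 0 m → M - c ≤ c - m → TX D (c0 * v ^ k) α m z M q Z ν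

-- deps:
/-- the product inequality around the extra critical point -/
def S_TPOL : Prop :=
  ∀ (φ : ℝ → ℝ) (Z : Finset ℝ) (B c α m : ℝ), 0 < B → α < c → c < m → (∀ y ∈ Z, m ≤ y) →
    Z.Nonempty → (∀ x, HasDerivAt φ (B * (x - c) * ∏ y ∈ Z, (1 - (x - c) / (y - c))) x) →
    φ α ≤ φ m → ∀ x ∈ Set.Icc α m,
      (∏ y ∈ Z, (1 - (x - c) / (y - c))) * (1 + (∑ y ∈ Z, 1 / (y - c)) * (x - c) / 2) ^ 2 ≤ 1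

-- deps: TIBP TJMP
-- imports: Pool.Agent.P.MP_a0f0ad_al.Fi.T.Base
/-- the finite part at a minimum of `q` -/
def S_TFP : Prop :=
  ∀ (d : ℕ) (S : Finset (G d)) (D : LD d), D.Spec S → ∀ (q : Fin d → ℝ) (L : Finset ℝ)
    (a c b : ℝ) (H g : ℝ → ℝ), a < c → c < b →
    (∀ x, x ∈ L ↔ a < x ∧ x < b ∧ D.Lv (ev q 0 x)) → (∀ x ∈ L, ev q 1 x ≠ 0) →
    ¬ D.Lv (ev q 0 a) → ¬ D.Lv (ev q 0 b) → ¬ D.Lv (ev q 0 c) →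
    (∀ x ∈ Set.Icc a b, ev q 0 c ≤ ev q 0 x) →
    (∀ x ∈ Set.Icc a b, x ≠ c → HasDerivAt H (g x) x ∧ 0 ≤ g x ∧ ContinuousAt g x) →
    D.be (ev q 0 c) * (H b - H a) ≤ D.be (ev q 0 b) * H b - D.be (ev q 0 a) * H a -
      ∑ x ∈ L, D.Jb (ev q 0 x) * (ev q 1 x / |ev q 1 x|) * H x

-- deps: TBAS
-- imports: Pool.Agent.P.MP_a0f0ad_al.Fi.T.Base
/-- the shape of `q` when the extra critical point lies in the left range -/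
def S_TSHP : Prop :=
  ∀ (d : ℕ) (S : Finset (G d)) (D : LD d), D.Spec S →
    ∀ (v α m z M c A : ℝ) (q : Fin d → ℝ) (Z L1 L2 : Finset ℝ), TS D v α m z M q Z L1 L2 →
      α < c → c < m → 0 < A → (∀ x, ev q 1 x = (x - c) * (A * ∏ y ∈ Z, (y - x))) →
      ev q 0 α = D.Q ∧ ev q 0 m = D.Q ∧ (∀ x ∈ Set.Icc α m, ev q 0 c ≤ ev q 0 x) ∧
        ev q 0 z = -ev q 0 M ∧ ¬ D.Lv (ev q 0 c)

-- deps: TOPS TBAS TPC TIBP TSHP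
-- imports: Pool.Agent.P.MP_a0f0ad_al.Fi.T.Base
/-- a shallow dip in the left range -/
def S_TTWA : Prop :=
  ∃ k : ℕ, 0 < k ∧ ∀ (d : ℕ) (S : Finset (G d)) (D : LD d), D.Spec S → D.om D.Q = 0 →
    ∃ c0 : ℝ, 0 < c0 ∧ ∀ (v α m z M c A : ℝ) (q : Fin d → ℝ) (Z L1 L2 : Finset ℝ) (ν : ℝ → ℝ),
      TS D v α m z M q Z L1 L2 → α < c → c < m → 0 < A →
      (∀ x, ev q 1 x = (x - c) * (A * ∏ y ∈ Z, (y - x))) → 0 ≤ D.be (ev q 0 c) →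
      TX D (c0 * v ^ k) α m z M q Z ν

-- deps: TOPS TBAS TPOL TSHP
-- imports: Pool.Agent.P.MP_a0f0ad_al.Fi.T.Base
/-- the test functions for a deep dip -/
def S_TTWC : Prop :=
  ∀ (d : ℕ) (S : Finset (G d)) (D : LD d), D.Spec S → ∃ C : ℝ, 0 < C ∧
    ∀ (v α m z M c A : ℝ) (q : Fin d → ℝ) (Z L1 L2 : Finset ℝ), TS D v α m z M q Z L1 L2 →
      α < c → c < m → 0 < A → (∀ x, ev q 1 x = (x - c) * (A * ∏ y ∈ Z, (y - x))) →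
      ∃ (P f : Fin d → ℝ) (p : ℝ → ℝ) (s : ℝ), 0 ≤ s ∧ v * ‖P‖ ≤ C ∧ v ^ 3 * ‖f‖ ≤ C ∧
        (∀ x, ev P 0 x = A * ∏ y ∈ Z, (y - x)) ∧ (∀ x, HasDerivAt p (ev f 0 x) x) ∧
        (∀ x, x ≠ c → ev f 0 x = (ev P 1 x / (x - c) - ev P 0 x / (x - c) ^ 2) +
          ev P 0 x * (1 + s * (x - c) / 2) ^ 2 / (x - c) ^ 2) ∧
        p m - ev P 0 m / (m - c) ≤ p α - ev P 0 α / (α - c)

-- deps: TBAS TPC TIBP TJMP TFP TSHP TTWC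
-- imports: Pool.Agent.P.MP_a0f0ad_al.Fi.T.Base
/-- a deep dip in the left range -/
def S_TTWB : Prop :=
  ∃ k : ℕ, 0 < k ∧ ∀ (d : ℕ) (S : Finset (G d)) (D : LD d), D.Spec S → D.om D.Q = 0 →
    ∃ c0 : ℝ, 0 < c0 ∧ ∀ (v α m z M c A : ℝ) (q : Fin d → ℝ) (Z L1 L2 : Finset ℝ) (ν : ℝ → ℝ),
      TS D v α m z M q Z L1 L2 → α < c → c < m → 0 < A →
      (∀ x, ev q 1 x = (x - c) * (A * ∏ y ∈ Z, (y - x))) → D.be (ev q 0 c) ≤ 0 →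
      TX D (c0 * v ^ k) α m z M q Z ν ∨ TH D (c0 * v ^ k) α M q Z L1 L2 ν

-- deps:
-- imports: Pool.Agent.P.MP_a0f0ad_al.Fi.T.Base
/-- the two symmetries: change of sign and reflection -/
def S_TREF : Prop :=
  ∀ (d : ℕ) (D : LD d) (v α m z M : ℝ) (q : Fin d → ℝ) (Z L1 L2 : Finset ℝ) (ν : ℝ → ℝ),
    TS D v α m z M q Z L1 L2 →
    (TS D v α m z M (-q) Z L1 L2 ∧ ∀ c,
      (TX D c α m z M (-q) Z (fun x => -ν x) → TX D c α m z M q Z ν) ∧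
      (TH D c α M (-q) Z L1 L2 (fun x => -ν x) → TH D c α M q Z L1 L2 ν)) ∧
    ∃ (q' : Fin d → ℝ) (Z' L1' L2' : Finset ℝ), (∀ k x, ev q' k x = (-1) ^ k * ev q k (-x)) ∧
      (∀ x, x ∈ Z' ↔ -x ∈ Z) ∧ Z'.card = Z.card ∧
      TS D v (-M) (-z) (-m) (-α) q' Z' L1' L2' ∧ ∀ c,
      (TX D c (-M) (-z) (-m) (-α) q' Z' (fun x => -ν (-x)) → TX D c α m z M q Z ν) ∧
      (TH D c (-M) (-α) q' Z' L1' L2' (fun x => -ν (-x)) → TH D c α M q Z L1 L2 ν)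

end Pool.Agent.P.MP_a0f0ad_al.Fi
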