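import Pool.Agent.P.MP_a0f0ad_al.Fi.T.Iface4
import Pool.Agent.P.MP_a0f0ad_al.Fi.T.Iface2
import Pool.Agent.P.MP_a0f0ad_al.Fi.Z.Bq

/-! Step LSW of the filiform project. -/

namespace Pool.Agent.P.MP_a0f0ad_al.Fi

open Finset MeasureTheory
open scoped Classical

namespace LswA

theorem sort_pts (A : Finset ℝ) : ∀ a : ℝ, 0 < a → (∀ y ∈ A, 0 < y ∧ y < a) →
    ∃ x : ℕ → ℝ, x 0 = 0 ∧ x (A.card + 1) = a ∧ (∀ i ≤ A.card, x i < x (i + 1)) ∧
      (∀ i ≤ A.card + 1, 0 ≤ x i ∧ x i ≤ a) ∧
      ∀ i ≤ A.card, ∀ t, x i < t → t < x (i + 1) →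
        0 < (-1 : ℝ) ^ (A.card + i) * ∏ y ∈ A, (t - y) := by
  induction A using Finset.induction_on_max with
  | empty =>
    intro a ha _
    refine ⟨fun i => if i = 0 then 0 else a, by simp, by simp, ?_, ?_, ?_⟩
    · intro i hi
      have : i = 0 := by simpa using hi
      subst this; simpa using ha
    · intro i _
      by_cases h : i = 0 <;> simp [h, ha.le]
    · intro i hi t _ _
      have : i = 0 := by simpa using hi
      subst this; simp
  | insert m A hm ih =>
    intro a ha hA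
    have hmA : m ∉ A := fun h => lt_irrefl _ (hm m h)
    obtain ⟨hm0, hma⟩ := hA m (mem_insert_self _ _)
    obtain ⟨x, x0, x1, hx, hb, hs⟩ := ih m hm0 fun y hy =>
      ⟨(hA y (mem_insert_of_mem hy)).1, hm y hy⟩
    rw [card_insert_of_notMem hmA]
    refine ⟨fun i => if i ≤ A.card + 1 then x i else a, by simp [x0], by simp, ?_, ?_, ?_⟩
    · intro i hi
      rcases hi.lt_or_eq with h | h
      · simp only [if_pos hi, if_pos (Nat.succ_le_of_lt h)]
        exact hx i (by omega)
      · subst h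
        simp [x1, hma]
    · intro i _
      by_cases h : i ≤ A.card + 1
      · simp only [if_pos h]
        exact ⟨(hb i h).1, (hb i h).2.trans hma.le⟩
      · simp [h, ha.le]
    · intro i hi t h1 h2
      rw [prod_insert hmA]
      rcases hi.lt_or_eq with h | h
      · simp only [if_pos hi, if_pos (Nat.succ_le_of_lt h)] at h1 h2
        have h3 := hs i (by omega) t h1 h2
        have h4 : t < m := h2.trans_le (hb (i + 1) (by omega)).2
        have e : (-1 : ℝ) ^ (A.card + 1 + i) * ((t - m) * ∏ y ∈ A, (t - y)) =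
            (m - t) * ((-1 : ℝ) ^ (A.card + i) * ∏ y ∈ A, (t - y)) := by ring
        rw [e]
        exact mul_pos (by linarith) h3
      · subst h
        simp only [le_refl, if_true, x1] at h1
        rw [← two_mul, pow_mul, neg_one_sq, one_pow, one_mul]
        exact mul_pos (by linarith) (prod_pos fun y hy => by linarith [hm y hy])

end LswA

open LswA

theorem p_LSW (hTSGN : S_TSGN) :
    S_LSW := by
  intro n φ a hφ ha
  obtain ⟨A, σ, hA, hσ, hsg⟩ := (hTSGN (n + 1) φ 0 a).1
  have hP : pol φ ≠ 0 := fun h => hφ (pol_eq_zero.1 h)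
  have hev : ∀ t, ev φ 0 t = (pol φ).eval t := fun t => ev_eq_eval φ 0 t
  have hcard : A.card ≤ n := by
    by_contra hlt
    exact hP (eq_zero_of_zeros (degree_pol_lt φ) A ∅ (empty_subset _)
      (fun y hy => by rw [← hev]; exact (hA y hy).2.2) (by simp) (by simp; omega))
  obtain ⟨x, x0, x1, hx, hb, hs⟩ := sort_pts A a ha fun y hy => ⟨(hA y hy).1, (hA y hy).2.1⟩
  obtain ⟨ε, hε⟩ : ∃ ε : ℕ, σ = (-1 : ℝ) ^ (A.card + ε) := by
    rcases hσ with h | h
    · exact ⟨A.card, by rw [h, ← two_mul, pow_mul]; simp⟩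
    · exact ⟨A.card + 1, by rw [h, ← add_assoc, ← two_mul, pow_succ, pow_mul]; simp⟩
  refine ⟨A.card, ε, x, hcard, x0, x1, hx, fun j => ?_⟩
  have hae : ∀ i ≤ A.card, ∀ᵐ t : ℝ, t ∈ Set.uIoc (x i) (x (i + 1)) →
      (if 0 < ev φ 0 t then t ^ j else 0) = (if Even (i + ε) then (1 : ℝ) else 0) * t ^ j := by
    intro i hi
    have hz : ∀ᵐ t : ℝ, t ∉ {t | (pol φ).eval t = 0} :=
      measure_eq_zero_iff_ae_notMem.1 ((zeros_card hP).1.measure_zero _)
    have hz' : ∀ᵐ t : ℝ, t ∉ ({x (i + 1)} : Set ℝ) :=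
      measure_eq_zero_iff_ae_notMem.1 (measure_singleton _)
    filter_upwards [hz, hz'] with t h1 h2 ht
    rw [Set.uIoc_of_le (hx i hi).le] at ht
    have h3 : t < x (i + 1) := lt_of_le_of_ne ht.2 h2
    have h4 := hs i hi t ht.1 h3
    have h5 := hsg t ⟨(hb i (by omega)).1.trans ht.1.le, h3.le.trans (hb (i + 1) (by omega)).2⟩
    have h6 : ev φ 0 t ≠ 0 := by rw [hev]; exact h1
    have h7 : 0 ≤ (-1 : ℝ) ^ (i + ε) * ev φ 0 t := by
      have e : σ * ev φ 0 t * ∏ y ∈ A, (t - y) = ((-1 : ℝ) ^ (i + ε) * ev φ 0 t) *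
          ((-1 : ℝ) ^ (A.card + i) * ∏ y ∈ A, (t - y)) := by
        have : (-1 : ℝ) ^ (i + ε) * (-1 : ℝ) ^ (A.card + i) = σ := by
          rw [hε, ← pow_add, show i + ε + (A.card + i) = 2 * i + (A.card + ε) by ring, pow_add,
            pow_mul]
          simp
        rw [← this]; ring
      rw [e] at h5
      exact nonneg_of_mul_nonneg_left h5 h4
    by_cases he : Even (i + ε)
    · rw [he.neg_one_pow, one_mul] at h7
      rw [if_pos he, if_pos (lt_of_le_of_ne h7 h6.symm), one_mul]
    · rw [(Nat.not_even_iff_odd.1 he).neg_one_pow] at h7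
      rw [if_neg he, if_neg (by linarith), zero_mul]
  have hint : ∀ i < A.card + 1, IntervalIntegrable
      (fun t => if 0 < ev φ 0 t then t ^ j else 0) volume (x i) (x (i + 1)) := by
    intro i hi
    have : IntervalIntegrable (fun t : ℝ => (if Even (i + ε) then (1 : ℝ) else 0) * t ^ j)
        volume (x i) (x (i + 1)) := Continuous.intervalIntegrable (by fun_prop) _ _
    refine this.congr_ae ?_
    rw [Filter.EventuallyEq, ae_restrict_iff' measurableSet_uIoc]
    filter_upwards [hae i (by omega)] with t h ht using (h ht).symm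
  have hsum := intervalIntegral.sum_integral_adjacent_intervals hint
  rw [x0, x1] at hsum
  rw [← hsum]
  refine sum_congr rfl fun i hi => ?_
  rw [intervalIntegral.integral_congr_ae (hae i (by simpa [Nat.lt_succ_iff] using hi)),
    intervalIntegral.integral_const_mul, integral_pow]
  ring

end Pool.Agent.P.MP_a0f0ad_al.Fi
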