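import Pool.Agent.P.MP_a0f0ad_al.Fi.T.Iface4
import Pool.Agent.P.MP_a0f0ad_al.Fi.T.LBase

/-! Step LTH of the filiform project. -/

namespace Pool.Agent.P.MP_a0f0ad_al.Fi

open Finset MeasureTheory
open scoped Classical

theorem p_LTH (hLNB : S_LNB) (hLBB : S_LBB) (hLSW : S_LSW) (hLVAR : S_LVAR) (hLFT : S_LFT) :
    S_LTH := by
  intro d S D hd h
  obtain ⟨U, t, hU⟩ := h.exists_blk
  refine ⟨(range (D.n + 1)).image U, ?_⟩
  have h1 := ae_all_iff.2 fun k : ℕ => hLNB d fun _ => D.kap k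
  have h2 := ae_all_iff.2 fun k : ℕ => ae_all_iff.2 fun ε : ℕ =>
    hLNB d fun i => if Even (i + ε) then D.kap (k + 1) else D.kap k
  filter_upwards [h1, h2] with u h1 h2 hu q hq hQ hB
  obtain ⟨k, k', hk, hk', hkk, e1, e2, hv⟩ := hLVAR d S D h u q hu hq hQ hB
  rcases hkk with rfl | rfl
  · exfalso
    have h3 : u.2 - D.kap k' • Wv u.1 = 0 := eq_of_dot_eq fun f => by
      have a := hv f
      have b := hv (-f)
      rw [sub_self, zero_mul] at a b
      rw [dot_neg_left] at b
      rw [dot_zero_right]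
      linarith
    have h4 := h1 k' 0 (fun i => if i = 0 then 0 else u.1) rfl (by simp) (by
      rw [sub_eq_zero.1 h3]
      funext j
      simp [Wv])
    omega
  · have hΔ : 0 < D.kap (k + 1) - D.kap k := sub_pos.2 (h.kapmono k (by omega))
    obtain ⟨φ, hφ, hy⟩ := hLBB d u.1 ((D.kap (k + 1) - D.kap k)⁻¹ • (u.2 - D.kap k • Wv u.1)) hu
      fun f => by
        rw [dot_smul_right, inv_mul_le_iff₀ hΔ]
        exact hv f
    obtain ⟨r, ε, x, hr, x0, xr, xm, hI⟩ := hLSW d φ u.1 hφ hu
    have key : u.2 = ∑ i ∈ range (r + 1), (if Even (i + ε) then D.kap (k + 1) else D.kap k) •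
        (Wv (x (i + 1)) - Wv (x i)) := by
      funext j
      have a := hy j
      rw [hI j] at a
      have b : ∑ i ∈ range (r + 1), ((Wv (x (i + 1)) : Fin d → ℝ) j - Wv (x i) j) =
          (Wv u.1 : Fin d → ℝ) j := by
        rw [Finset.sum_range_sub fun i => (Wv (x i) : Fin d → ℝ) j, xr, x0]
        simp [Wv]
      simp only [Pi.smul_apply, Pi.sub_apply, smul_eq_mul, Finset.sum_apply] at a ⊢
      rw [inv_mul_eq_iff_eq_mul₀ hΔ.ne', sub_eq_iff_eq_add', ← b, mul_sum, mul_sum,
        ← sum_add_distrib] at a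
      rw [a]
      refine Finset.sum_congr rfl fun i _ => ?_
      simp only [Wv]
      split_ifs <;> ring
    obtain rfl : r = d := le_antisymm hr (h2 k ε r x x0 xr key)
    obtain ⟨a0, b0, l0, t0⟩ := hU k hk
    obtain ⟨a1, b1, l1, t1⟩ := hU (k + 1) hk'
    have hK : (0 : ℝ) < D.K0 := by exact_mod_cast h.K0_pos
    obtain ⟨F, hF⟩ := hLFT r S D.K0 (t k) (t (k + 1)) ε (U k) (U (k + 1)) (co q 0)
      (D.lp (co q 0)) x u hd h.K0_pos a0 a1
      (fun e => by
        rw [e, b1] at b0
        have := mul_left_cancel₀ hK.ne' b0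
        linarith)
      l0 l1 (by rw [t0, b0, e1]; ring) (by rw [t1, b1, e2]; ring) x0 xr xm
      (by
        rw [key]
        refine Finset.sum_congr rfl fun i _ => ?_
        congr 1
        rw [b0, b1]
        split_ifs <;> field_simp)
    refine ⟨F, hF.mono ?_ le_rfl le_rfl⟩
    intro g hg
    rw [mem_insert, mem_singleton] at hg
    rcases hg with rfl | rfl
    · exact mem_image_of_mem U (mem_range.2 (by omega))
    · exact mem_image_of_mem U (mem_range.2 (by omega))

end Pool.Agent.P.MP_a0f0ad_al.Fi
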