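import Pool.Agent.P.MP_a0f0ad_al.Fi.T.Iface4
import Pool.Agent.P.MP_a0f0ad_al.Fi.V.Iface
import Pool.Agent.P.MP_a0f0ad_al.Fi.T.LBase

/-! Step LVAR of the filiform project. -/

namespace Pool.Agent.P.MP_a0f0ad_al.Fi

open Finset MeasureTheory
open scoped Classical

namespace LvarA

theorem loc {d : ℕ} {S : Finset (G d)} {D : LD d} (h : D.Spec S) (w : ℝ) :
    ∃ k k', k ≤ D.n ∧ k' ≤ D.n ∧ (k' = k ∨ k' = k + 1) ∧ D.lp w = D.aff k w ∧
      D.lp w = D.aff k' w ∧ ∀ᶠ u in nhds w, (u ≤ w → D.idx u = k) ∧ (w < u → D.idx u = k') := by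
  by_cases c : ∀ k < D.n, w ≠ D.th k
  · exact ⟨_, _, D.idx_le w, D.idx_le w, Or.inl rfl, D.lp_eq_aff w, D.lp_eq_aff w,
      (h.idx_eventually c).mono fun u e => ⟨fun _ => e, fun _ => e⟩⟩
  push Not at c
  obtain ⟨k, hk, rfl⟩ := c
  have e : D.lp (D.th k) = D.aff k (D.th k) := by rw [D.lp_eq_aff, h.idx_th hk]
  have e' := h.aff_succ hk (D.th k)
  refine ⟨k, k + 1, hk.le, hk, Or.inr rfl, e, by rw [sub_self, mul_zero] at e'; linarith, ?_⟩
  have a : ∀ᶠ u in nhds (D.th k), ∀ l ∈ range k, D.th l < u :=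
    (Filter.eventually_all_finset _).2 fun l hl => lt_mem_nhds (h.th_lt (mem_range.1 hl) hk)
  have b : ∀ᶠ u in nhds (D.th k), k + 1 < D.n → u ≤ D.th (k + 1) := by
    by_cases c : k + 1 < D.n
    · exact (gt_mem_nhds (h.thmono k c)).mono fun u a _ => a.le
    · exact Filter.Eventually.of_forall fun u a => absurd a c
  filter_upwards [a, b] with u a b
  exact ⟨fun c => (h.idx_eq_iff hk.le u).2 ⟨fun l hl => a l (mem_range.2 hl), fun _ => c⟩,
    fun c => (h.idx_eq_iff hk u).2 ⟨fun l hl => (Nat.lt_succ_iff_lt_or_eq.1 hl).elim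
      (fun e => a l (mem_range.2 e)) fun e => e ▸ c, b⟩⟩

end LvarA

theorem p_LVAR (hPEN : S_PEN) :
    S_LVAR := by
  intro d S D hD u q u0 hq hQ hB
  obtain ⟨k, k', k1, k2, k3, k4, k5, k6⟩ := LvarA.loc hD (co q 0)
  refine ⟨k, k', k1, k2, k3, k4, k5, fun f => ?_⟩
  have e0 : ∀ x, ev q 0 x = co q 0 := fun x => (not_nonconst hq x).1
  generalize co q 0 = w at *
  obtain ⟨δ, δ0, hδ⟩ := Metric.eventually_nhds_iff.1 (k6.and
    (continuous_abs.continuousAt.eventually (gt_mem_nhds hQ)))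
  obtain ⟨C, C1, hC⟩ := exists_Vd_bound d u.1
  have p : 0 < C * ‖f‖ + 1 := by positivity
  obtain ⟨ε, ε0, hε⟩ : ∃ ε : ℝ, 0 < ε ∧ ε * (C * ‖f‖ + 1) = δ :=
    ⟨δ / (C * ‖f‖ + 1), by positivity, div_mul_cancel₀ _ p.ne'⟩
  have e1 : ∀ x, ev (q + ε • f) 0 x = w + ε * ev f 0 x := fun x => by rw [ev_add, ev_smul, e0]
  have h1 : ∀ x ∈ Set.Icc 0 u.1, dist (w + ε * ev f 0 x) w < δ := fun x hx => by
    have := (hC 0 x (by rw [abs_of_nonneg hx.1]; exact hx.2)).2 f
    rw [Real.dist_eq, add_sub_cancel_left, abs_mul, abs_of_pos ε0, ← hε]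
    exact mul_lt_mul_of_pos_left (by linarith) ε0
  have h2 := (hPEN d S D hD 0 u.1 u le_rfl u0.le le_rfl u0).1 (q + ε • f) fun x hx => by
    rw [e1]
    exact (hδ (h1 x hx)).2.le
  have h3 : ∫ x in (0 : ℝ)..u.1, D.lp (ev (q + ε • f) 0 x) = ∫ x in (0 : ℝ)..u.1,
      (D.lp (ev q 0 x) - ε * D.kap k * ev f 0 x -
        ε * (D.kap k' - D.kap k) * max (ev f 0 x) 0) := by
    refine intervalIntegral.integral_congr fun x hx => ?_
    rw [Set.uIcc_of_le u0.le] at hx
    obtain ⟨⟨a, b⟩, -⟩ := hδ (h1 x hx)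
    simp only [e0, e1]
    rw [D.lp_eq_aff (w + _)]
    rcases le_or_gt (ev f 0 x) 0 with c | c
    · rw [a (by nlinarith), max_eq_right c, k4]
      simp only [LD.aff]
      ring
    · rw [b (by nlinarith), max_eq_left c.le, k5]
      simp only [LD.aff]
      ring
  have := hD.continuous_lp
  rw [intervalIntegral.integral_sub (Continuous.intervalIntegrable (by fun_prop) _ _)
    (Continuous.intervalIntegrable (by fun_prop) _ _), intervalIntegral.integral_sub
    (Continuous.intervalIntegrable (by fun_prop) _ _)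
    (Continuous.intervalIntegrable (by fun_prop) _ _), intervalIntegral.integral_const_mul,
    intervalIntegral.integral_const_mul, ← dot_Wv, Wv_zero, sub_zero] at h3
  rw [← hB] at h2
  simp only [LD.Bf, intervalIntegral.integral_same, add_zero, h3, dot_add_left,
    dot_smul_left] at h2
  rw [dot_sub_right, dot_smul_right]
  exact le_of_mul_le_mul_left (by linarith) ε0

end Pool.Agent.P.MP_a0f0ad_al.Fi
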