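import Pool.Agent.P.MP_a0f0ad_al.Fi.T.Iface2
import Pool.Agent.P.MP_a0f0ad_al.Fi.T.Base

/-! Step TSGN of the filiform project. -/

namespace Pool.Agent.P.MP_a0f0ad_al.Fi

open Finset MeasureTheory

namespace TsgnA

open Polynomial

theorem weak {f : ℝ → ℝ} (hf : Continuous f) {a b : ℝ} (h : ∀ t, a < t → t < b → f t ≠ 0) :
    ∃ σ : ℝ, (σ = 1 ∨ σ = -1) ∧ ∀ x ∈ Set.Icc a b, 0 ≤ σ * f x := by
  by_contra hn
  push Not at hn
  obtain ⟨x, hx, h1⟩ := hn 1 (Or.inl rfl)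
  obtain ⟨y, hy, h2⟩ := hn (-1) (Or.inr rfl)
  rcases le_total x y with e | e
  · obtain ⟨t, ht, h0⟩ := intermediate_value_Ioo e hf.continuousOn
      (show (0 : ℝ) ∈ Set.Ioo (f x) (f y) from ⟨by linarith, by linarith⟩)
    exact h t (hx.1.trans_lt ht.1) (ht.2.trans_le hy.2) h0
  · obtain ⟨t, ht, h0⟩ := intermediate_value_Ioo' e hf.continuousOn
      (show (0 : ℝ) ∈ Set.Ioo (f x) (f y) from ⟨by linarith, by linarith⟩)
    exact h t (hy.1.trans_lt ht.1) (ht.2.trans_le hx.2) h0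

theorem sgn (a b : ℝ) (n : ℕ) : ∀ P : ℝ[X], P.natDegree = n →
    ∃ (A : Finset ℝ) (σ : ℝ), (∀ y ∈ A, a < y ∧ y < b ∧ P.eval y = 0) ∧ (σ = 1 ∨ σ = -1) ∧
      ∀ x ∈ Set.Icc a b, 0 ≤ σ * P.eval x * ∏ y ∈ A, (x - y) := by
  induction n using Nat.strong_induction_on with
  | _ n ih =>
    intro P hP
    by_cases h0 : P = 0
    · exact ⟨∅, 1, by simp, Or.inl rfl, by simp [h0]⟩
    by_cases h : ∀ t, a < t → t < b → P.eval t ≠ 0
    · obtain ⟨σ, h1, h2⟩ := weak P.continuous h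
      exact ⟨∅, σ, by simp, h1, by simpa using h2⟩
    push Not at h
    obtain ⟨t, t1, t2, ht⟩ := h
    obtain ⟨P1, e⟩ := dvd_iff_isRoot.2 ht
    have h1 : P1 ≠ 0 := fun k => h0 (by rw [e, k, mul_zero])
    obtain ⟨A, σ, a1, a2, a3⟩ := ih P1.natDegree (by
      rw [← hP, e, natDegree_mul (X_sub_C_ne_zero t) h1, natDegree_X_sub_C]
      omega) P1 rfl
    have ev : ∀ x, P.eval x = (x - t) * P1.eval x := fun x => by simp [e]
    have a4 : ∀ y ∈ A, a < y ∧ y < b ∧ P.eval y = 0 := fun y hy =>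
      ⟨(a1 y hy).1, (a1 y hy).2.1, by rw [ev, (a1 y hy).2.2, mul_zero]⟩
    by_cases hA : t ∈ A
    · refine ⟨A.erase t, σ, fun y hy => a4 y (mem_of_mem_erase hy), a2, fun x hx => ?_⟩
      have := a3 x hx
      rw [← mul_prod_erase A _ hA] at this
      rw [ev]
      linarith
    · refine ⟨insert t A, σ, forall_mem_insert _ _ _ |>.2 ⟨⟨t1, t2, ht⟩, a4⟩, a2, fun x hx => ?_⟩
      have := mul_nonneg (mul_self_nonneg (x - t)) (a3 x hx)
      rw [ev, prod_insert hA]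
      linarith

end TsgnA

theorem p_TSGN :
    S_TSGN := by
  intro d q a b
  refine ⟨?_, fun A C hA hC => card_le_of_interleaved fun x hx y hy hxy _ => ?_⟩
  · simpa only [ev_eq_eval, Function.iterate_zero_apply] using TsgnA.sgn a b _ (pol q) rfl
  · obtain ⟨c, c1, c2, c3⟩ := ev_rolle q 0 hxy ((hA x hx).2.2.trans (hA y hy).2.2.symm)
    exact ⟨c, hC c ((hA x hx).1.trans c1) (c2.trans (hA y hy).2.1) c3, c1, c2⟩

end Pool.Agent.P.MP_a0f0ad_al.Fi
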