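import Pool.Agent.P.MP_a0f0ad_al.Fi.Z.Defs

/-! Chapter T: two competing ranges. -/

namespace Pool.Agent.P.MP_a0f0ad_al.Fi

open Finset MeasureTheory

-- deps: MARK
/-- unless all critical points are common touches, the competition is nondegenerate -/
def S_TCP : Prop :=
  ∃ k : ℕ, 0 < k ∧ ∀ (d : ℕ) (S : Finset (G d)) (D : LD d), Even d → D.Spec S → D.om D.Q = 0 →
    ∃ c : ℝ, 0 < c ∧ ∀ (v α m z M : ℝ) (q : Fin d → ℝ) (Z L1 L2 : Finset ℝ) (ν : ℝ → ℝ),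
      0 < v → v ≤ 1 → -D.Lam ≤ α → α < m → m < z → z < M → M ≤ D.Lam → D.Feas q α M →
      |ev q 0 α| = D.Q → |ev q 0 M| = D.Q → m ∈ Z → z ∈ Z →
      (∀ x ∈ Z, m ≤ x ∧ x ≤ z ∧ |ev q 0 x| = D.Q ∧ ev q 1 x = 0 ∧
        ∀ y, |y - x| ≤ v → v ≤ |ev q 2 y|) →
      (∀ x, |x| ≤ D.Lam → ∀ w ∈ D.ThA, |ev q 0 x - w| ≤ v →
        v ^ 2 ≤ |ev q 1 x| ∨ ∃ y ∈ Z, |x - y| ≤ v ∧ ev q 0 y = w) →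
      v * ‖q‖ ≤ 1 → v ≤ (M - α) ^ d → ev q 1 α ≠ 0 → ev q 1 M ≠ 0 →
      (∀ x, x ∈ L1 ↔ α < x ∧ x < m ∧ ∃ l < D.n, ev q 0 x = D.th l ∨ ev q 0 x = -D.th l) →
      (∀ x, x ∈ L2 ↔ z < x ∧ x < M ∧ ∃ l < D.n, ev q 0 x = D.th l ∨ ev q 0 x = -D.th l) →
      Z.card + 2 < d →
      (∃ f : Fin d → ℝ, ‖f‖ ≤ 1 ∧ c * v ^ k ≤ |rhoF D q α m z M Z ν f|) ∨
      ∃ f g : Fin d → ℝ, ‖f‖ ≤ 1 ∧ ‖g‖ ≤ 1 ∧ (∀ x ∈ Z, ev f 0 x = 0 ∧ ev g 0 x = 0) ∧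
        c * v ^ k ≤ |hess D q α M L1 L2 Z ν f g|

end Pool.Agent.P.MP_a0f0ad_al.Fi
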