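import Pool.Agent.P.MP_a0f0ad_al.Fi.T.Iface3
import Pool.Agent.P.MP_a0f0ad_al.Fi.N.Basic
import Pool.Agent.P.MP_a0f0ad_al.Fi.Z.Bm

/-! Chapter T, part three: toolbox. -/

namespace Pool.Agent.P.MP_a0f0ad_al.Fi

open Finset MeasureTheory Filter Topology

variable {d : ℕ} {S : Finset (G d)} {D : LD d} {ρ ρ₀ : RD d} {u u₀ : E d}

/-- the set of thresholds -/
def eTh (D : LD d) : Set ℝ := {w | ∃ k < D.n, w = D.th k}

theorem eTh_sub (D : LD d) : eTh D ⊆ D.ThA := fun _ ⟨k, hk, e⟩ =>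
  Or.inr (Or.inr ⟨k, hk, Or.inl e⟩)

theorem eTh_finite (D : LD d) : (eTh D).Finite := D.finite_ThA.subset (eTh_sub D)

theorem LD.Spec.eTh_lt (h : D.Spec S) {w : ℝ} (hw : w ∈ eTh D) : |w| < D.Q := by
  obtain ⟨k, hk, rfl⟩ := hw
  exact abs_lt.2 (h.thQ k hk)

theorem mem_ThA_of_abs {w : ℝ} (h : |w| = D.Q) : w ∈ D.ThA := by
  rcases abs_cases w with k | k
  · exact Or.inl (k.1.symm.trans h)
  · exact Or.inr (Or.inl (by linarith [k.1]))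

theorem LD.Spec.om_pos' (h : D.Spec S) {w : ℝ} (hw : |w| < D.Q) : 0 < D.om w := by
  obtain ⟨c, hc, -, k, -⟩ := h.exists_slack
  exact (mul_pos hc (sub_pos.2 hw)).trans_le (k w hw.le)

theorem LD.Spec.om_nonneg' (h : D.Spec S) {w : ℝ} (hw : |w| ≤ D.Q) : 0 ≤ D.om w := by
  obtain ⟨c, hc, -, k, -⟩ := h.exists_slack
  exact (mul_nonneg hc.le (sub_nonneg.2 hw)).trans (k w hw)

/-- the levels of a representation with the shortest range -/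
theorem lev_eq {a : ℝ} (hm : ρ.m = 0) (hM : ρ.M = a) : ρ.lev D a = eSet ρ.q 0 (eTh D) a := by
  ext x
  simp only [RD.lev, eSet, eTh, hm, hM, Set.mem_ofPred_eq, lt_irrefl, false_and, and_false,
    or_false]
  refine ⟨fun h => h.elim id fun k => ?_, Or.inl⟩
  rcases k.1 with k | k <;> exact absurd (k.1.trans k.2) (lt_irrefl _)

theorem eN_eq {a : ℝ} (h : ∀ z ∈ ρ.Z, ¬ ρ.Pin a z) :
    ρ.eN D a = (ρ.lev D a).ncard + 2 * ρ.Z.card := by
  classical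
  rw [RD.eN, Finset.sum_congr rfl fun z hz => if_neg (h z hz)]
  simp [mul_comm]

@[fun_prop] theorem Continuous.ev {X : Type} [TopologicalSpace X] {f : X → Fin d → ℝ} {g : X → ℝ}
    (hf : Continuous f) (hg : Continuous g) (k : ℕ) : Continuous fun x => ev (f x) k (g x) :=
  (continuous_ev_uncurry k).comp (hf.prodMk hg)

/-- the constant polynomial -/
def eC (d : ℕ) (w : ℝ) : Fin d → ℝ := fun j => if (j : ℕ) = 0 then w else 0

theorem dot_eC (w : ℝ) (y : Fin d → ℝ) : dot (eC d w) y = w * co y 0 := by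
  rcases Nat.eq_zero_or_pos d with rfl | hd
  · simp [dot, co]
  · rw [dot, co, dif_pos hd, Finset.sum_eq_single ⟨0, hd⟩]
    · simp [eC]
    · intro j _ hj
      have : (j : ℕ) ≠ 0 := fun e => hj (Fin.ext e)
      simp [eC, this]
    · simp

theorem ev_eC (hd : 1 ≤ d) (w x : ℝ) : ev (eC d w) 0 x = w := by
  rw [ev, dot_eC, co_Vd_zero hd, mul_one]

theorem ev_eC_succ (w : ℝ) (k : ℕ) (x : ℝ) : ev (eC d w) (k + 1) x = 0 := by
  rw [ev, dot_eC, co_Vd_succ, mul_zero]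

theorem Bf_eC (hd : 1 ≤ d) (D : LD d) (w m M : ℝ) (u : E d) :
    D.Bf (eC d w) m M u = w * co u.2 0 + u.1 * D.lp w + D.om w * (M - u.1 - m) := by
  simp only [LD.Bf, LD.om, dot_eC, ev_eC hd, intervalIntegral.integral_const, smul_eq_mul]
  ring

theorem continuous_co0 : Continuous fun y : Fin d → ℝ => co y 0 := by
  have : (fun y : Fin d → ℝ => co y 0) = fun y => dot (eC d 1) y := funext fun y => by
    rw [dot_eC, one_mul]
  rw [this]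
  unfold dot
  fun_prop

namespace EBase

theorem nonconst (h : EBase D ρ u) : Nonconst ρ.q := by
  by_contra k
  exact (h.crit 0 ((not_nonconst k 0).2 0)).1.false

theorem feas (h : EBase D ρ u) : D.Feas ρ.q 0 u.1 := h.m0 ▸ h.M0 ▸ h.rep.2.2.2.1

theorem lt0 (h : EBase D ρ u) : |ev ρ.q 0 0| < D.Q :=
  (h.feas 0 ⟨le_rfl, h.pos.le⟩).lt_of_ne fun e => h.e0 (mem_ThA_of_abs e)

theorem lt1 (h : EBase D ρ u) : |ev ρ.q 0 u.1| < D.Q :=
  (h.feas u.1 ⟨h.pos.le, le_rfl⟩).lt_of_ne fun e => h.e1 (mem_ThA_of_abs e)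

theorem atom (h : EBase D ρ u) {z : ℝ} (hz : z ∈ ρ.Z) :
    0 < z ∧ z < u.1 ∧ |ev ρ.q 0 z| = D.Q ∧ ρ.mu z ≠ 0 ∧ ev ρ.q 1 z = 0 ∧ ev ρ.q 2 z ≠ 0 ∧
      ¬ ρ.Pin u.1 z := by
  obtain ⟨h1, h2, h3, h4⟩ := h.rep.2.2.2.2.1 z hz
  rw [h.m0] at h1
  rw [h.M0] at h2
  have a : 0 < z := h1.lt_of_ne fun e => h.lt0.ne (e ▸ h3)
  have b : z < u.1 := h2.lt_of_ne fun e => h.lt1.ne (e ▸ h3)
  have c := n_crit h.feas a b h3
  exact ⟨a, b, h3, fun e => by simp [e] at h4, c, (h.crit z c).2.2.1,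
    fun k => k.elim (fun k => a.ne' k.1) fun k => b.ne k.1⟩

theorem lev (h : EBase D ρ u) : ρ.lev D u.1 = eSet ρ.q 0 (eTh D) u.1 := lev_eq h.m0 h.M0

theorem count (h : EBase D ρ u) : (eSet ρ.q 0 (eTh D) u.1).ncard + 2 * ρ.Z.card = d + 2 := by
  rw [← h.cnt, eN_eq fun z hz => (h.atom hz).2.2.2.2.2.2, h.lev]

theorem lev_finite (h : EBase D ρ u) : (eSet ρ.q 0 (eTh D) u.1).Finite :=
  ((eTh_finite D).biUnion fun w _ => (h.nonconst.finite_level w).1).subset fun _ hx =>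
    Set.mem_biUnion hx.2.2 rfl

theorem crit_finite (h : EBase D ρ u) : (eSet ρ.q 1 {0} u.1).Finite :=
  h.nonconst.finite_crit.1.subset fun _ hx => hx.2.2

/-- the levels are simple and inside -/
theorem lev_simple (hS : D.Spec S) (h : EBase D ρ u) (x : ℝ) (h0 : 0 ≤ x) (h1 : x ≤ u.1)
    (hx : ev ρ.q 0 x ∈ eTh D) : 0 < x ∧ x < u.1 ∧ ev ρ.q (0 + 1) x ≠ 0 := by
  refine ⟨h0.lt_of_ne fun e => h.e0 (e ▸ eTh_sub D hx),
    h1.lt_of_ne fun e => h.e1 (e ▸ eTh_sub D hx), fun c => ?_⟩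
  rcases (h.crit x c).2.2.2 with k | k
  · exact (hS.eTh_lt hx).ne (h.atom k).2.2.1
  · exact k (eTh_sub D hx)

/-- the critical points are simple and inside -/
theorem crit_simple (h : EBase D ρ u) (x : ℝ) (_ : 0 ≤ x) (_ : x ≤ u.1)
    (hx : ev ρ.q 1 x ∈ ({0} : Set ℝ)) : 0 < x ∧ x < u.1 ∧ ev ρ.q (1 + 1) x ≠ 0 :=
  ⟨(h.crit x hx).1, (h.crit x hx).2.1, (h.crit x hx).2.2.1⟩

theorem lev_disjoint (hS : D.Spec S) (h : EBase D ρ u) :
    Disjoint h.lev_finite.toFinset ρ.Z := by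
  rw [Finset.disjoint_left]
  intro x hx hz
  exact (hS.eTh_lt (h.lev_finite.mem_toFinset.1 hx).2.2).ne (h.atom hz).2.2.1

/-- the representation, tested against `f` -/
theorem test (hS : D.Spec S) (hr : ρ.Rep D u) (hm : ρ.m = 0) (hM : ρ.M = u.1) (f : Fin d → ℝ) :
    dot f u.2 = (∫ x in (0 : ℝ)..u.1, D.kp (ev ρ.q 0 x) * ev f 0 x) +
      ∑ z ∈ ρ.Z, ρ.mu z * ev f 0 z := by
  rw [hr.2.2.2.2.2, dot_add_right, hS.dot_Yq, dot_sum_right, hm, hM]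
  simp only [intervalIntegral.integral_same, sub_zero, dot_smul_right, ev]

end EBase

namespace ENear

variable {P P' : RD d → E d → Prop}

theorem and (h : ENear D ρ₀ u₀ P) (k : ENear D ρ₀ u₀ P') :
    ENear D ρ₀ u₀ fun ρ u => P ρ u ∧ P' ρ u := by
  filter_upwards [h, k] with p a b ρ h1 h2 h3 h4 h5
  exact ⟨a ρ h1 h2 h3 h4 h5, b ρ h1 h2 h3 h4 h5⟩

theorem mono (h : ENear D ρ₀ u₀ P) (k : ∀ ρ u, ρ.Rep D u → ρ.m = 0 → ρ.M = u.1 →
    D.Q * ∑ z ∈ ρ.Z, |ρ.mu z| ≤ 1 → P ρ u → P' ρ u) : ENear D ρ₀ u₀ P' := by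
  filter_upwards [h] with p a ρ h1 h2 h3 h4 h5
  exact k _ _ h2 h3 h4 h5 (a ρ h1 h2 h3 h4 h5)

/-- properties of the polynomial and the point -/
theorem of_nhds {R : (Fin d → ℝ) × E d → Prop} (h : ∀ᶠ p in 𝓝 (ρ₀.q, u₀), R p) :
    ENear D ρ₀ u₀ fun ρ u => R (ρ.q, u) := by
  filter_upwards [h] with p a ρ h1 _ _ _ _
  rwa [h1]

/-- properties of the polynomial and the height -/
theorem of_nhds' {R : (Fin d → ℝ) × ℝ → Prop} (h : ∀ᶠ p in 𝓝 (ρ₀.q, u₀.1), R p) :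
    ENear D ρ₀ u₀ fun ρ u => R (ρ.q, u.1) :=
  of_nhds (R := fun p => R (p.1, p.2.1))
    ((show ContinuousAt (fun p : (Fin d → ℝ) × E d => (p.1, p.2.1)) (ρ₀.q, u₀) by
      fun_prop).eventually h)

end ENear

end Pool.Agent.P.MP_a0f0ad_al.Fi
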