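import Pool.Agent.P.MP_a0f0ad_al.Fi.T.Iface3
import Pool.Agent.P.MP_a0f0ad_al.Fi.T.EBasic

/-! Step EAT of the filiform project. -/

namespace Pool.Agent.P.MP_a0f0ad_al.Fi

open Finset MeasureTheory Filter Topology

namespace EatA

theorem loc {X : Type} [TopologicalSpace X] {x₀ : X} {c : ℝ} {R : X → ℝ → Prop}
    (h : ∀ᶠ p : X × ℝ in 𝓝 (x₀, c), R p.1 p.2) :
    ∀ᶠ e in 𝓝 (0 : ℝ), ∀ᶠ x in 𝓝 x₀, ∀ y, |y - c| ≤ e → R x y := by
  rw [nhds_prod_eq, eventually_prod_iff] at h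
  obtain ⟨pa, ha, pb, hb, h⟩ := h
  filter_upwards [eventually_closedBall_subset hb] with e he
  filter_upwards [ha] with x hx y hy
  exact h hx (he (by rwa [Metric.mem_closedBall, Real.dist_eq]))

theorem lag {d : ℕ} (Z : Finset ℝ) (h : Z.card ≤ d) : ∃ f : ℝ → Fin d → ℝ,
    ∀ z ∈ Z, ev (f z) 0 z = 1 ∧ ∀ c ∈ Z, c ≠ z → ev (f z) 0 c = 0 := by
  classical
  refine ⟨fun z => cf d (Lagrange.basis Z id z), fun z hz => ?_⟩
  have hi : Set.InjOn id (Z : Set ℝ) := Function.injective_id.injOn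
  have hc := card_pos.2 ⟨z, hz⟩
  have hdeg : (Lagrange.basis Z id z).degree < d := by
    rw [Lagrange.degree_basis hi hz]
    exact_mod_cast (by omega : Z.card - 1 < d)
  simp only [ev_cf hdeg, Function.iterate_zero, id]
  exact ⟨Lagrange.eval_basis_self hi hz, fun c hc hcz => 
    Lagrange.eval_basis_of_ne (v := id) hcz.symm hc⟩

end EatA

open EatA in
theorem p_EAT (hECB : S_ECB) (hESR : S_ESR) :
    S_EAT := by
  classical
  intro d S D ρ₀ u₀ η hd hS hb hη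
  have Q0 := hS.Qpos
  obtain ⟨f, hf⟩ := lag (d := d) ρ₀.Z (by have := hb.count; omega)
  obtain ⟨K, K1, hK⟩ := n_bd d (u₀.1 + 1)
  have he : ∀ᶠ e in 𝓝 (0 : ℝ), e < η ∧ e < 1 ∧
      (∀ z ∈ ρ₀.Z, e + K * ‖f z‖ * e / D.Q < min η |ρ₀.mu z|) ∧
      ∀ c ∈ eSet ρ₀.q 1 {0} u₀.1, ∀ᶠ q in 𝓝 ρ₀.q, ∀ y, |y - c| ≤ e →
        c ∉ ρ₀.Z → |ev q 0 y| ≠ D.Q := by
    refine (gt_mem_nhds hη).and ((gt_mem_nhds one_pos).and (Eventually.and
      ((eventually_all_finset _).2 fun z hz => ?_)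
      ((hb.crit_finite.eventually_all).2 fun c hc => ?_)))
    · refine ContinuousAt.eventually_lt (by fun_prop) continuousAt_const ?_
      simpa using ⟨hη, (hb.atom hz).2.2.2.1⟩
    · refine loc ?_
      by_cases h : c ∈ ρ₀.Z
      · exact Eventually.of_forall fun _ k => absurd h k
      · refine (ContinuousAt.eventually_ne (g := fun p : (Fin d → ℝ) × ℝ => |ev p.1 0 p.2|)
          (Continuous.continuousAt (by fun_prop)) fun k => ?_).mono fun _ a _ => a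
        exact ((hb.crit c hc.2.2).2.2.2.resolve_left h) (mem_ThA_of_abs k)
  obtain ⟨e, ⟨e1, e2, e3, e4⟩, e0⟩ := ((he.filter_mono
    (nhdsWithin_le_nhds (s := Set.Ioi 0))).and self_mem_nhdsWithin).exists
  replace e0 : 0 < e := e0
  have n1 := ENear.of_nhds' (D := D)
    (hESR d 1 ρ₀.q {0} u₀.1 e (Set.finite_singleton 0) hb.crit_finite hb.crit_simple e0)
  have n2 : ∀ᶠ p : (Fin d → ℝ) × E d in 𝓝 (ρ₀.q, u₀),
      (∀ c ∈ eSet ρ₀.q 1 {0} u₀.1, ∀ y, |y - c| ≤ e → c ∉ ρ₀.Z → |ev p.1 0 y| ≠ D.Q) ∧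
      |ev p.1 0 0| < D.Q ∧ |ev p.1 0 p.2.1| < D.Q ∧
      ∀ z ∈ ρ₀.Z, |dot (f z) (p.2.2 - D.Yq p.1 0 p.2.1 p.2.1) -
        dot (f z) (u₀.2 - D.Yq ρ₀.q 0 u₀.1 u₀.1)| < e := by
    refine ((continuousAt_fst (p := (ρ₀.q, u₀))).eventually
      (hb.crit_finite.eventually_all.2 e4)).and
      (Eventually.and ?_ (Eventually.and ?_ ((eventually_all_finset _).2 fun z _ => ?_)))
    · exact ContinuousAt.eventually_lt (Continuous.continuousAt (by fun_prop))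
        continuousAt_const hb.lt0
    · exact ContinuousAt.eventually_lt (Continuous.continuousAt (by fun_prop))
        continuousAt_const hb.lt1
    · have c1 : ContinuousAt (fun p : (Fin d → ℝ) × E d => D.Yq p.1 0 p.2.1 p.2.1) (ρ₀.q, u₀) :=
        ((hECB d S D hS).2 ρ₀.q 0 u₀.1 u₀.1 hb.nonconst).comp_of_eq (x := (ρ₀.q, u₀))
          (f := fun p : (Fin d → ℝ) × E d => (p.1, (0 : ℝ), p.2.1, p.2.1)) (by fun_prop) rfl
      have c2 : Continuous (dot (f z)) := by unfold dot; fun_prop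
      refine ContinuousAt.eventually_lt ?_ continuousAt_const (by simpa using e0)
      exact ((c2.continuousAt.comp (continuousAt_snd.snd.sub c1)).sub continuousAt_const).abs
  refine (n1.and (ENear.of_nhds n2)).mono ?_
  rintro ρ u hr hm hM hs ⟨⟨ψ, hψ, hc⟩, a1, a2, a3, a4⟩
  dsimp only at hψ a1 a2 a3 a4
  have hF : D.Feas ρ.q 0 u.1 := hm ▸ hM ▸ hr.2.2.2.1
  have z0 : ∀ z ∈ ρ₀.Z, z ∈ eSet ρ₀.q 1 {0} u₀.1 := fun z hz =>
    ⟨(hb.atom hz).1, (hb.atom hz).2.1, (hb.atom hz).2.2.2.2.1⟩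
  have hz : ∀ z ∈ ρ.Z, ∃ c ∈ ρ₀.Z, ψ c = z := fun z hz => by
    obtain ⟨h1, h2, h3, -⟩ := hr.2.2.2.2.1 z hz
    rw [hm] at h1
    rw [hM] at h2
    have a : 0 < z := h1.lt_of_ne fun k => a2.ne (k ▸ h3)
    have b : z < u.1 := h2.lt_of_ne fun k => a3.ne (k ▸ h3)
    obtain ⟨c, k1, rfl⟩ := hψ.surjOn (show z ∈ eSet ρ.q 1 {0} u.1 from ⟨a, b, n_crit hF a b h3⟩)
    exact ⟨c, by_contra fun k => a1 c k1 _ (hc c k1) k h3, rfl⟩
  have inj : Set.InjOn ψ ρ₀.Z := hψ.injOn.mono z0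
  have sm : ∀ g : ℝ → ℝ → ℝ, (∀ x, g 0 x = 0) →
      ∑ z ∈ ρ.Z, g (ρ.mu z) z = ∑ c ∈ ρ₀.Z, g (ρ.muAt (ψ c)) (ψ c) := fun g g0 => by
    rw [← sum_image (f := fun z => g (ρ.muAt z) z) inj]
    refine (sum_congr rfl fun z k => by rw [RD.muAt, if_pos k]).trans (sum_subset ?_ ?_)
    · exact fun z k => mem_image.2 (hz z k)
    · exact fun z _ k => by rw [RD.muAt, if_neg k, g0]
  have ms : ∀ z ∈ ρ₀.Z, |ρ.muAt (ψ z) - ρ₀.mu z| < min η |ρ₀.mu z| := fun z k => by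
    have t1 : dot (f z) (u.2 - D.Yq ρ.q 0 u.1 u.1) =
        ∑ c ∈ ρ₀.Z, ρ.muAt (ψ c) * ev (f z) 0 (ψ c) := by
      rw [hr.2.2.2.2.2, hm, hM, add_sub_cancel_left, dot_sum_right,
        ← sm (fun m x => m * ev (f z) 0 x) fun _ => zero_mul _]
      simp only [dot_smul_right, ev]
    have t2 : dot (f z) (u₀.2 - D.Yq ρ₀.q 0 u₀.1 u₀.1) = ρ₀.mu z := by
      rw [hb.rep.2.2.2.2.2, hb.m0, hb.M0, add_sub_cancel_left, dot_sum_right,
        sum_eq_single_of_mem z k fun c k1 k2 => by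
          rw [dot_smul_right, ← ev, (hf z k).2 c k1 k2, mul_zero],
        dot_smul_right, ← ev, (hf z k).1, mul_one]
    have t3 : ρ.muAt (ψ z) = ∑ c ∈ ρ₀.Z, ρ.muAt (ψ c) * ev (f z) 0 c := by
      rw [sum_eq_single_of_mem z k fun c k1 k2 => by rw [(hf z k).2 c k1 k2, mul_zero],
        (hf z k).1, mul_one]
    have t4 : ∑ c ∈ ρ₀.Z, |ρ.muAt (ψ c)| ≤ 1 / D.Q := by
      rw [← sm (fun m _ => |m|) fun _ => abs_zero, le_div_iff₀ Q0]
      linarith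
    have t5 : |∑ c ∈ ρ₀.Z, ρ.muAt (ψ c) * ev (f z) 0 (ψ c) - ρ.muAt (ψ z)| ≤
        K * ‖f z‖ * e / D.Q := by
      conv_lhs => rw [t3, ← sum_sub_distrib]
      refine (abs_sum_le_sum_abs _ _).trans ((sum_le_sum (g := fun c =>
        |ρ.muAt (ψ c)| * (K * ‖f z‖ * e)) fun c k1 => ?_).trans ?_)
      · rw [← mul_sub, abs_mul]
        have b1 := abs_le.1 (hc c (z0 c k1))
        obtain ⟨b2, b3, -⟩ := hb.atom k1
        refine mul_le_mul_of_nonneg_left ((hK (f z) 0 c (ψ c) (abs_le.2 ⟨by linarith, by linarith⟩)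
          (abs_le.2 ⟨by linarith [b1.1], by linarith [b1.2]⟩)).2.1.trans ?_) (abs_nonneg _)
        exact mul_le_mul_of_nonneg_left (hc c (z0 c k1)) (by positivity)
      · rw [← sum_mul, div_eq_inv_mul, ← one_div]
        exact mul_le_mul_of_nonneg_right t4 (by positivity)
    have t6 := a4 z k
    rw [t1, t2] at t6
    refine lt_of_le_of_lt ?_ (e3 z k)
    rw [abs_le] at t5 ⊢
    rw [abs_lt] at t6
    constructor <;> linarith [t5.1, t5.2, t6.1, t6.2]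
  have mem : ∀ z ∈ ρ₀.Z, ψ z ∈ ρ.Z := fun z k => by
    by_contra h
    have := (ms z k).trans_le (min_le_right _ _)
    rw [RD.muAt, if_neg h, zero_sub, abs_neg] at this
    exact this.false
  refine ⟨ψ, ⟨mem, inj, fun z k => hz z k⟩, fun z k => ⟨(hc z (z0 z k)).trans e1.le, ?_, ?_⟩⟩
  · have := ((ms z k).trans_le (min_le_left _ _)).le
    rwa [RD.muAt, if_pos (mem z k)] at this
  · obtain ⟨b1, b2, b3⟩ := hψ.mapsTo (z0 z k)
    exact ⟨mem z k, fun h => h.elim (fun h => b1.ne' h.1) fun h => b2.ne h.1, b3⟩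

end Pool.Agent.P.MP_a0f0ad_al.Fi
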