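import Pool.Agent.P.MP_a0f0ad_al.Fi.T.Iface3
import Pool.Agent.P.MP_a0f0ad_al.Fi.T.EBasic

/-! Step EBS of the filiform project. -/

namespace Pool.Agent.P.MP_a0f0ad_al.Fi

open Finset MeasureTheory Filter Topology

namespace EbsA

variable {d : ℕ} {S : Finset (G d)} {D : LD d}

theorem ev0 (hd : 1 ≤ d) (t : Fin d → ℝ) (α β x : ℝ) :
    ev (eC d α + β • t) 0 x = α + β * ev t 0 x := by rw [ev_add, ev_smul, ev_eC hd]

theorem evs (t : Fin d → ℝ) (α β x : ℝ) (k : ℕ) :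
    ev (eC d α + β • t) (k + 1) x = β * ev t (k + 1) x := by
  rw [ev_add, ev_smul, ev_eC_succ, zero_add]

theorem base (hS : D.Spec S) (hd : 1 ≤ d) {t : Fin d → ℝ} {α β κ δ : ℝ} {Z : Finset ℝ}
    (hβ : 0 < β) (hκ : 0 < κ) (hδ : 0 < δ)
    (hb : ∀ x ∈ Set.Icc (-δ) (1 / 2 + δ), |ev t 0 x| ≤ 1) (t0 : ev t 0 0 = 0)
    (t1 : ev t 0 (1 / 2) = 0) (hQ : α + β = D.Q) (hlo : -D.Q ≤ α - β)
    (hZ : ∀ z ∈ Z, 0 < z ∧ z < 1 / 2 ∧ (ev t 0 z = 1 ∨ (ev t 0 z = -1 ∧ α - β = -D.Q)))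
    (hc : ∀ x, ev t 1 x = 0 → 0 < x ∧ x < 1 / 2 ∧ ev t 2 x ≠ 0 ∧
      (x ∈ Z ∨ α + β * ev t 0 x ∉ D.ThA)) (hα : α ∉ D.ThA)
    (cnt : {x | 0 < x ∧ x < 1 / 2 ∧ α + β * ev t 0 x ∈ eTh D}.ncard + 2 * Z.card = d + 2) :
    EBase D ⟨eC d α + β • t, 0, 1 / 2, Z, fun z => κ * ev t 0 z⟩
      (1 / 2, D.Yq (eC d α + β • t) 0 (1 / 2) (1 / 2) + ∑ z ∈ Z, (κ * ev t 0 z) • Vd 0 z) ∧
      D.Feas (eC d α + β • t) (-δ) (1 / 2 + δ) := by
  have Q0 := hS.Qpos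
  have hF : D.Feas (eC d α + β • t) (-δ) (1 / 2 + δ) := fun x hx => by
    rw [ev0 hd]
    have := abs_le.1 (hb x hx)
    rw [abs_le]
    constructor <;> nlinarith [this.1, this.2]
  refine ⟨⟨by norm_num, ⟨le_rfl, le_rfl, by norm_num, fun x hx => hF x ⟨?_, ?_⟩, fun z hz => ?_,
    rfl⟩, rfl, rfl, fun x hx => ?_, ?_, ?_, ?_⟩, hF⟩
  · exact le_trans (by linarith) hx.1
  · exact le_trans hx.2 (by simp only; linarith)
  · obtain ⟨a, b, c⟩ := hZ z hz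
    refine ⟨a.le, b.le, ?_⟩
    simp only [ev0 hd]
    rcases c with c | ⟨c, e⟩
    · rw [c, mul_one, hQ, abs_of_pos Q0, mul_one]
      exact ⟨rfl, by positivity⟩
    · rw [c, show α + β * -1 = -D.Q by linarith, abs_neg, abs_of_pos Q0]
      exact ⟨rfl, by nlinarith [mul_pos hκ Q0]⟩
  · simp only [evs t α β x 0, evs t α β x 1, ev0 hd] at hx ⊢
    obtain ⟨a, b, c, e⟩ := hc x ((mul_eq_zero.1 hx).resolve_left hβ.ne')
    exact ⟨a, b, mul_ne_zero hβ.ne' c, e⟩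
  · simpa only [ev0 hd, t0, mul_zero, add_zero] using hα
  · simpa only [ev0 hd, t1, mul_zero, add_zero] using hα
  · rw [eN_eq, lev_eq rfl rfl, ← cnt]
    · simp only [eSet, ev0 hd]
    · intro z hz h
      obtain ⟨a, b, -⟩ := hZ z hz
      exact h.elim (fun k => a.ne' k.1) fun k => b.ne k.1

theorem avoid (D : LD d) {f : ℝ → ℝ} (hf : Function.Injective f) :
    ∀ᶠ e in 𝓝[>] (0 : ℝ), f e ∉ D.ThA := by
  have h : (f ⁻¹' D.ThA \ {0}).Finite := (D.finite_ThA.preimage hf.injOn).subset Set.sdiff_subset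
  have k : ∀ᶠ e in 𝓝 (0 : ℝ), e ∉ f ⁻¹' D.ThA \ {0} :=
    h.isClosed.isOpen_compl.mem_nhds fun a => a.2 rfl
  filter_upwards [nhdsWithin_le_nhds k, self_mem_nhdsWithin] with e a b c
  exact a ⟨c, ne_of_gt b⟩

end EbsA

open EbsA in
theorem p_EBS (hECH : S_ECH) (hEXS : S_EXS) :
    S_EBS := by
  classical
  intro d S D hd he hS
  obtain ⟨r, rfl⟩ := he
  obtain ⟨t, δ, P, N, hδ, hb, t0, t1, hc, hP, hN, hcr, hl⟩ :=
    hECH (r + r) (r + 2) (by omega) (by omega)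
  have hd1 : 1 ≤ r + r := by omega
  have Q0 := hS.Qpos
  obtain ⟨lo, lo1, lo2, lo3, lo4⟩ : ∃ lo : ℝ, -D.Q ≤ lo ∧ lo < D.Q ∧ (∀ k < D.n, D.th k ≤ lo) ∧
      ((D.n = 0 ∧ lo = -D.Q) ∨ ∃ k, k + 1 = D.n ∧ lo = D.th k) := by
    rcases Nat.eq_zero_or_pos D.n with h | h
    · exact ⟨-D.Q, le_rfl, by linarith, fun k hk => by omega, Or.inl ⟨h, rfl⟩⟩
    · have := hS.thQ (D.n - 1) (by omega)
      refine ⟨D.th (D.n - 1), this.1.le, this.2, fun k hk => ?_, Or.inr ⟨D.n - 1, by omega, rfl⟩⟩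
      rcases (show k ≤ D.n - 1 by omega).eq_or_lt with e | e
      · rw [e]
      · exact (hS.th_lt e (by omega)).le
  set w := (D.Q + lo) / 2 with hw
  have w1 : |w| < D.Q := abs_lt.2 ⟨by linarith, by linarith⟩
  have w2 := hS.om_pos' w1
  have hin : ∀ x, ev t 1 x = 0 → 0 < x ∧ x < 1 / 2 := fun x hx =>
    (hcr x hx).1.elim (fun h => ⟨(hP x h).1, (hP x h).2.1⟩) fun h => ⟨(hN x h).1, (hN x h).2.1⟩
  set q : ℝ → Fin (r + r) → ℝ := fun e =>
    eC (r + r) ((D.Q + lo - e) / 2) + ((D.Q - lo + e) / 2) • t with hq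
  have qc : Continuous q := by
    refine Continuous.add (continuous_pi fun j => ?_) (by fun_prop)
    unfold eC
    split_ifs <;> fun_prop
  have qn : Nonconst (q 0) := by
    by_contra h
    have := (not_nonconst h 0).2 0
    rw [hq, evs] at this
    exact (hin 0 ((mul_eq_zero.1 this).resolve_left (by linarith))).1.false
  have key : ∀ Z : Finset ℝ, ∀ᶠ e in 𝓝 (0 : ℝ), ∀ᶠ κ in 𝓝 (0 : ℝ), ∀ u : E (r + r),
      u = (1 / 2, D.Yq (q e) 0 (1 / 2) (1 / 2) + ∑ z ∈ Z, (κ * ev t 0 z) • Vd 0 z) →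
      D.Bf (q e) 0 (1 / 2) u < 1 ∧
        D.Bf (q e) 0 (1 / 2) u < w * co u.2 0 + 1 / 2 * D.lp w + D.om w * δ := fun Z => by
    have h := hEXS _ S D (q 0) (1 / 2) w (min (1 / 2) (D.om w * δ)) Z (ev t 0) hd1 hS qn
      (by norm_num) (lt_min (by norm_num) (by positivity)) fun k hk =>
        ⟨by linarith [lo3 k hk], fun x hx => by
          have := abs_le.1 (hb x ⟨by linarith [hx.1], by linarith [hx.2]⟩)
          rw [hq, ev0 hd1]
          nlinarith [lo3 k hk, this.1]⟩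
    have h2 : ContinuousAt (fun p : ℝ × ℝ => (q p.1, p.2)) (0, 0) := by fun_prop
    refine (h2.eventually h).curry_nhds.mono fun e a => a.mono fun κ b u hu => ?_
    obtain ⟨b1, b2⟩ := b u hu
    exact ⟨by linarith [min_le_left (1 / 2 : ℝ) (D.om w * δ)],
      by linarith [min_le_right (1 / 2 : ℝ) (D.om w * δ)]⟩
  have fin : ∀ (Z : Finset ℝ) (e : ℝ), (∀ᶠ κ in 𝓝 (0 : ℝ), ∀ u : E (r + r),
      u = (1 / 2, D.Yq (q e) 0 (1 / 2) (1 / 2) + ∑ z ∈ Z, (κ * ev t 0 z) • Vd 0 z) →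
      D.Bf (q e) 0 (1 / 2) u < 1 ∧
        D.Bf (q e) 0 (1 / 2) u < w * co u.2 0 + 1 / 2 * D.lp w + D.om w * δ) →
      (∀ κ, 0 < κ → EBase D ⟨q e, 0, 1 / 2, Z, fun z => κ * ev t 0 z⟩
        (1 / 2, D.Yq (q e) 0 (1 / 2) (1 / 2) + ∑ z ∈ Z, (κ * ev t 0 z) • Vd 0 z) ∧
        D.Feas (q e) (-δ) (1 / 2 + δ)) → ∃ ρ u, EBase D ρ u ∧ EIso D ρ u := fun Z e h1 h2 => by
    obtain ⟨κ, k1, k2⟩ := ((h1.filter_mono (nhdsWithin_le_nhds (s := Set.Ioi 0))).and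
      self_mem_nhdsWithin).exists
    obtain ⟨a, b⟩ := h2 κ k2
    obtain ⟨c, f⟩ := k1 _ rfl
    exact ⟨_, _, a, c, w, δ, hδ, w1, b, f⟩
  rcases lo4 with ⟨n0, rfl⟩ | ⟨k, hk, rfl⟩
  · refine fin (P ∪ N) 0 (key _).self_of_nhds fun κ hκ => base hS hd1 (by linarith) hκ hδ hb t0 t1
      (by ring) (by linarith) (fun z hz => ?_) (fun x hx => ?_) ?_ ?_
    · rcases mem_union.1 hz with h | h
      · exact ⟨(hP z h).1, (hP z h).2.1, Or.inl (hP z h).2.2⟩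
      · exact ⟨(hN z h).1, (hN z h).2.1, Or.inr ⟨(hN z h).2.2, by ring⟩⟩
    · exact ⟨(hin x hx).1, (hin x hx).2, (hcr x hx).2, Or.inl (mem_union.2 (hcr x hx).1)⟩
    · rintro (h | h | ⟨k, hk, -⟩)
      · linarith
      · linarith
      · omega
    · have e : {x | 0 < x ∧ x < 1 / 2 ∧ (D.Q + -D.Q - 0) / 2 + (D.Q - -D.Q + 0) / 2 * ev t 0 x ∈
          eTh D} = ∅ := Set.eq_empty_of_forall_notMem fun x ⟨_, _, k, hk, _⟩ => by omega
      rw [e, Set.ncard_empty, card_union_of_disjoint]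
      · omega
      · rw [disjoint_left]
        intro z h1 h2
        linarith [(hP z h1).2.2, (hN z h2).2.2]
  · have a1 := avoid D (f := fun e => D.th k - e) fun x y h => by linarith
    have a2 := avoid D (f := fun e => (D.Q + D.th k - e) / 2) fun x y h => by linarith
    have a3 : ∀ᶠ e in 𝓝 (0 : ℝ), e < D.Q - D.th k ∧ e < D.Q + D.th k ∧
        ∀ l ∈ range k, e < D.th k - D.th l := by
      refine (gt_mem_nhds (by linarith)).and ((gt_mem_nhds ?_).and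
        ((eventually_all_finset _).2 fun l hl => gt_mem_nhds ?_))
      · linarith [(hS.thQ k (by omega)).1]
      · exact sub_pos.2 (hS.th_lt (mem_range.1 hl) (by omega))
    obtain ⟨e, ⟨⟨b1, b2⟩, ⟨b3, b4, b5⟩, b6⟩, b0⟩ := (((a1.and a2).and
      (nhdsWithin_le_nhds (a3.and (key P)))).and self_mem_nhdsWithin).exists
    have e0 : 0 < e := b0
    have β0 : 0 < (D.Q - D.th k + e) / 2 := by linarith
    refine fin P e b6 fun κ hκ => base hS hd1 β0 hκ hδ hb t0 t1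
      (by ring) (by linarith) (fun z hz => ?_) (fun x hx => ?_) b2 ?_
    · exact ⟨(hP z hz).1, (hP z hz).2.1, Or.inl (hP z hz).2.2⟩
    · refine ⟨(hin x hx).1, (hin x hx).2, (hcr x hx).2, (hcr x hx).1.imp_right fun h => ?_⟩
      rw [(hN x h).2.2]
      convert b1 using 2
      ring
    · have e1 : {x | 0 < x ∧ x < 1 / 2 ∧ (D.Q + D.th k - e) / 2 +
          (D.Q - D.th k + e) / 2 * ev t 0 x ∈ eTh D} =
          eSet t 0 {(D.th k - D.Q + e) / (D.Q - D.th k + e)} (1 / 2) := by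
        ext x
        refine and_congr_right fun x0 => and_congr_right fun x1 => ?_
        rw [Set.mem_singleton_iff, eq_div_iff (by linarith)]
        refine ⟨fun ⟨l, hl, h⟩ => ?_, fun h => ⟨k, by omega, by linarith⟩⟩
        rcases (show l ≤ k by omega).eq_or_lt with rfl | h2
        · linarith
        · have := abs_le.1 (hb x ⟨by linarith, by linarith⟩)
          nlinarith [b5 l (mem_range.2 h2), this.1]
      rw [e1, hl _ ((lt_div_iff₀ (by linarith)).2 (by linarith))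
        (div_neg_of_neg_of_pos (by linarith) (by linarith))]
      omega

end Pool.Agent.P.MP_a0f0ad_al.Fi
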