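import Pool.Agent.P.MP_a0f0ad_al.Fi.T.Iface3
import Pool.Agent.P.MP_a0f0ad_al.Fi.T.EBasic

/-! Step ECB of the filiform project. -/

namespace Pool.Agent.P.MP_a0f0ad_al.Fi

open Finset MeasureTheory Filter Topology

namespace EcbA

theorem cont_int {X : Type} [TopologicalSpace X] {f : X → ℝ → ℝ}
    (hf : Continuous f.uncurry) {s t : X → ℝ} (hs : Continuous s) (ht : Continuous t) :
    Continuous fun x => ∫ y in s x..t x, f x y := by
  have hi : ∀ x a b, IntervalIntegrable (f x) volume a b := fun x a b =>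
    (hf.comp (Continuous.prodMk_right x)).intervalIntegrable a b
  have e : (fun x => ∫ y in s x..t x, f x y) =
      fun x => (∫ y in (0 : ℝ)..t x, f x y) - ∫ y in (0 : ℝ)..s x, f x y :=
    funext fun x => (intervalIntegral.integral_interval_sub_left (hi x 0 _) (hi x 0 _)).symm
  rw [e]
  exact (intervalIntegral.continuous_parametric_intervalIntegral_of_continuous hf ht).sub
    (intervalIntegral.continuous_parametric_intervalIntegral_of_continuous hf hs)

variable {d : ℕ} {S : Finset (G d)} {D : LD d}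

theorem prim (h : D.Spec S) {q : Fin d → ℝ} (hq : Nonconst q) {σ : ℝ} (hσ : σ ≠ 0) {g : ℝ → ℝ}
    (hg : Continuous g) (b : ℝ) :
    ContinuousAt (fun p : (Fin d → ℝ) × ℝ => ∫ x in (0 : ℝ)..p.2, D.kp (σ * ev p.1 0 x) * g x)
      (q, b) := by
  obtain ⟨C, -, hC, -⟩ := h.exists_bound
  have h1 := le_abs_self b
  have h2 := neg_abs_le b
  have h3 := abs_nonneg b
  refine intervalIntegral.continuousAt_parametric_primitive_of_dominated
    (F := fun (q : Fin d → ℝ) x => D.kp (σ * ev q 0 x) * g x) (fun x => C * |g x|)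
    (-|b| - 1) (|b| + 1) (fun q => ?_) (Eventually.of_forall fun q => Eventually.of_forall fun x => ?_)
    ((by fun_prop : Continuous fun x => C * |g x|).intervalIntegrable _ _) ?_
    ⟨by linarith, by linarith⟩ ⟨by linarith, by linarith⟩ (by simp)
  · exact ((h.measurable_kp.comp (by fun_prop : Continuous fun x => σ * ev q 0 x).measurable).mul
      hg.measurable).aestronglyMeasurable
  · rw [Real.norm_eq_abs, abs_mul]
    exact mul_le_mul_of_nonneg_right (hC _) (abs_nonneg _)
  · have hf : (⋃ k ∈ Set.Iio D.n, {x | ev q 0 x = D.th k / σ}).Finite :=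
      (Set.finite_Iio D.n).biUnion fun k _ => (hq.finite_level _).1
    refine ae_restrict_of_ae ?_
    filter_upwards [hf.countable.ae_notMem volume] with x hx
    have hk : ∀ k < D.n, σ * ev q 0 x ≠ D.th k := fun k hk e =>
      hx (Set.mem_biUnion hk (by
        show ev q 0 x = D.th k / σ
        rw [← e]
        field_simp))
    have hc : ContinuousAt (fun q' : Fin d → ℝ => σ * ev q' 0 x) q :=
      (by fun_prop : Continuous fun q' : Fin d → ℝ => σ * ev q' 0 x).continuousAt
    refine (continuousAt_const (y := D.kp (σ * ev q 0 x) * g x)).congr ?_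
    filter_upwards [hc.eventually (h.idx_eventually hk)] with q' e
    simp only [LD.kp, e]

theorem prim2 (h : D.Spec S) {q : Fin d → ℝ} (hq : Nonconst q) {σ : ℝ} (hσ : σ ≠ 0) {g : ℝ → ℝ}
    (hg : Continuous g) {X : Type} [TopologicalSpace X] {f : X → Fin d → ℝ} {s t : X → ℝ}
    (hf : Continuous f) (hs : Continuous s) (ht : Continuous t) {x₀ : X} (e0 : f x₀ = q) :
    ContinuousAt (fun x => ∫ y in s x..t x, D.kp (σ * ev (f x) 0 y) * g y) x₀ := by
  have hi : ∀ x a b, IntervalIntegrable (fun y => D.kp (σ * ev (f x) 0 y) * g y) volume a b :=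
    fun x a b => h.ii_kp (by fun_prop) hg a b
  have e : (fun x => ∫ y in s x..t x, D.kp (σ * ev (f x) 0 y) * g y) =
      fun x => (∫ y in (0 : ℝ)..t x, D.kp (σ * ev (f x) 0 y) * g y) -
        ∫ y in (0 : ℝ)..s x, D.kp (σ * ev (f x) 0 y) * g y :=
    funext fun x => (intervalIntegral.integral_interval_sub_left (hi x 0 _) (hi x 0 _)).symm
  rw [e]
  subst e0
  exact ((prim h hq hσ hg (t x₀)).comp (f := fun x => (f x, t x))
      (hf.prodMk ht).continuousAt).sub
    ((prim h hq hσ hg (s x₀)).comp (f := fun x => (f x, s x)) (hf.prodMk hs).continuousAt)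

end EcbA

theorem p_ECB :
    S_ECB := by
  intro d S D h
  have hl := h.continuous_lp
  refine ⟨?_, fun q m M a hq => ?_⟩
  · unfold LD.Bf
    refine ((Continuous.add ?_ ?_).add ?_).add ?_
    · unfold dot
      fun_prop
    · exact EcbA.cont_int (f := fun (x : (Fin d → ℝ) × ℝ × ℝ × E d) y => D.lp (ev x.1 0 y))
        (hl.comp (by fun_prop)) (by fun_prop) (by fun_prop)
    · exact EcbA.cont_int (f := fun (x : (Fin d → ℝ) × ℝ × ℝ × E d) y => D.lp (-ev x.1 0 y))
        (hl.comp (by fun_prop)) (by fun_prop) (by fun_prop)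
    · exact EcbA.cont_int (f := fun (x : (Fin d → ℝ) × ℝ × ℝ × E d) y => D.lp (-ev x.1 0 y))
        (hl.comp (by fun_prop)) (by fun_prop) (by fun_prop)
  · refine continuousAt_pi.2 fun j => ?_
    have hg : Continuous fun x : ℝ => (Vd 0 x : Fin d → ℝ) j := by fun_prop
    have k := fun (σ : ℝ) (hσ : σ ≠ 0) (s t : (Fin d → ℝ) × ℝ × ℝ × ℝ → ℝ) (hs : Continuous s)
        (ht : Continuous t) =>
      EcbA.prim2 h hq hσ hg (f := Prod.fst) continuous_fst hs ht (x₀ := (q, m, M, a)) rfl
    have k1 := k 1 one_ne_zero (fun x => x.2.1) (fun x => x.2.2.1) (by fun_prop) (by fun_prop)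
    have k2 := k (-1) (by norm_num) (fun x => x.2.1) (fun _ => 0) (by fun_prop) (by fun_prop)
    have k3 := k (-1) (by norm_num) (fun x => x.2.2.2) (fun x => x.2.2.1) (by fun_prop)
      (by fun_prop)
    simp only [one_mul, neg_mul] at k1 k2 k3
    exact (k1.sub k2).sub k3

end Pool.Agent.P.MP_a0f0ad_al.Fi
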