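import Pool.Agent.P.MP_a0f0ad_al.Fi.T.Iface3
import Pool.Agent.P.MP_a0f0ad_al.Fi.T.EBasic

/-! Step ECH of the filiform project. -/

namespace Pool.Agent.P.MP_a0f0ad_al.Fi

open Finset MeasureTheory Filter Topology

namespace EchA

open Polynomial Polynomial.Chebyshev Real

lemma crit {s : ℕ} (hs : 2 ≤ s) (y : ℝ) (hy : (derivative (T ℝ s)).eval y = 0) :
    (∃ k ∈ Ioo 0 s, y = cos (k * π / s)) ∧ (derivative (derivative (T ℝ s))).eval y ≠ 0 := by
  obtain ⟨n, rfl⟩ : ∃ n, s = n + 1 := ⟨s - 1, by omega⟩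
  have e : derivative (T ℝ (n + 1 : ℕ)) = C ((n : ℝ) + 1) * U ℝ n := by
    rw [T_derivative_eq_U]; simp
  have hn : (n : ℝ) + 1 ≠ 0 := by positivity
  have hU : U ℝ n ≠ 0 := U_ne_zero ℝ n (by omega)
  rw [e, eval_mul, eval_C, mul_eq_zero, or_iff_right hn] at hy
  have := (mem_roots hU).2 hy
  rw [roots_U_real] at this
  obtain ⟨k, hk, rfl⟩ := mem_image.1 (Finset.mem_def.2 this)
  refine ⟨⟨k + 1, by simpa using hk, by push_cast; rfl⟩, fun h => ?_⟩
  rw [e, derivative_C_mul, eval_mul, eval_C, mul_eq_zero, or_iff_right hn] at h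
  exact absurd ((one_lt_rootMultiplicity_iff_isRoot hU).2 ⟨hy, h⟩)
    (rootMultiplicity_U_real (mem_range.1 hk)).not_gt

end EchA

open Polynomial Polynomial.Chebyshev Real EchA in
theorem p_ECH :
    S_ECH := by
  intro d s hs hd
  have hs0 : (0 : ℝ) < s := by exact_mod_cast (by omega : 0 < s)
  have hs2 : (2 : ℝ) ≤ s := by exact_mod_cast hs
  have hpi := pi_pos
  set A := π / s with hA
  have hA0 : 0 < A := by positivity
  have hsA : s * A = π := by rw [hA]; field_simp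
  have hA2 : 2 * A ≤ π := by nlinarith
  set c := cos (A / 2)
  have hc : 0 < c := cos_pos_of_mem_Ioo ⟨by linarith, by linarith⟩
  have hc1 : c < 1 := cos_zero ▸ cos_lt_cos_of_nonneg_of_le_pi le_rfl (by linarith) (by linarith)
  set R : ℝ[X] := (T ℝ s).comp (C (4 * c) * X - C c)
  have hR : R.degree < d := by
    refine degree_le_natDegree.trans_lt (Nat.cast_lt.2 (natDegree_comp_le.trans_lt ?_))
    have : (C (4 * c) * X - C c : ℝ[X]).natDegree ≤ 1 := by compute_degree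
    rw [natDegree_T, Int.natAbs_natCast]
    nlinarith
  have e0 : ∀ x, ev (cf d R) 0 x = (T ℝ s).eval (4 * c * x - c) := fun x => by
    rw [ev_cf hR]; simp [R, eval_comp]
  have e1 : ∀ x, ev (cf d R) 1 x = 4 * c * (derivative (T ℝ s)).eval (4 * c * x - c) := fun x => by
    rw [ev_cf hR]; simp [R, eval_comp, derivative_comp]
  have e2 : ∀ x, ev (cf d R) 2 x =
      4 * c * (4 * c * (derivative (derivative (T ℝ s))).eval (4 * c * x - c)) := fun x => by
    rw [ev_cf hR]; simp [R, eval_comp, derivative_comp]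
  set X0 : ℝ → ℝ := fun θ => (cos θ + c) / (4 * c)
  have x1 : ∀ θ, 4 * c * X0 θ - c = cos θ := fun θ => by simp only [X0]; field_simp; ring
  have x2 : ∀ θ, ev (cf d R) 0 (X0 θ) = cos (s * θ) := fun θ => by
    rw [e0, x1, T_real_cos, Int.cast_natCast]
  have x3 : ∀ θ ∈ Set.Icc 0 π, ∀ θ' ∈ Set.Icc 0 π, X0 θ = X0 θ' → θ = θ' := fun θ h θ' h' e =>
    injOn_cos h h' (by rw [← x1, e, x1])
  have x4 : ∀ θ ∈ Set.Icc 0 π, (0 < X0 θ ∧ X0 θ < 1 / 2) ↔ (A / 2 < θ ∧ θ < π - A / 2) := by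
    intro θ h
    have a1 := strictAntiOn_cos.lt_iff_gt h (⟨by linarith, by linarith⟩ : A / 2 ∈ Set.Icc 0 π)
    have a2 := strictAntiOn_cos.lt_iff_gt (⟨by linarith, by linarith⟩ : π - A / 2 ∈ Set.Icc 0 π) h
    rw [← a1, ← a2, cos_pi_sub, ← x1 θ]
    constructor <;> rintro ⟨b1, b2⟩ <;> constructor <;> nlinarith
  have rg : ∀ k ∈ Ioo 0 s, ∀ h : ℝ, |h| < π / 2 →
      A / 2 < (k * π + h) / s ∧ (k * π + h) / s < π - A / 2 := fun k hk h hh => by
    obtain ⟨k1, k2⟩ := mem_Ioo.1 hk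
    have k1 : (1 : ℝ) ≤ k := by exact_mod_cast k1
    have k2 : (k : ℝ) + 1 ≤ s := by exact_mod_cast k2
    obtain ⟨h1, h2⟩ := abs_lt.1 hh
    rw [lt_div_iff₀ hs0, div_lt_iff₀ hs0]
    constructor <;> nlinarith
  have rg' : ∀ k ∈ Ioo 0 s, ∀ h : ℝ, |h| < π / 2 → (k * π + h) / s ∈ Set.Icc 0 π :=
    fun k hk h hh => ⟨by linarith [(rg k hk h hh).1], by linarith [(rg k hk h hh).2]⟩
  have z0 : |(0 : ℝ)| < π / 2 := by simpa using hpi
  set Y : ℕ → ℝ := fun k => X0 ((k * π + 0) / s)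
  have y1 : ∀ k ∈ Ioo 0 s, ∀ k' ∈ Ioo 0 s, Y k = Y k' → k = k' := fun k hk k' hk' e => by
    have := x3 _ (rg' k hk 0 z0) _ (rg' k' hk' 0 z0) e
    rw [div_left_inj' hs0.ne'] at this
    simpa [hpi.ne'] using this
  have y2 : ∀ k ∈ Ioo 0 s, 0 < Y k ∧ Y k < 1 / 2 ∧ ev (cf d R) 0 (Y k) = (-1) ^ k := fun k hk => by
    have := (x4 _ (rg' k hk 0 z0)).2 (rg k hk 0 z0)
    refine ⟨this.1, this.2, ?_⟩
    rw [x2, mul_div_cancel₀ _ hs0.ne', add_zero, cos_nat_mul_pi]
  have cd : ∀ p : ℕ → Prop, ∀ [DecidablePred p],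
      (((Ioo 0 s).filter p).image Y).card = ((Ioo 0 s).filter p).card := fun p _ =>
    card_image_of_injOn fun k hk k' hk' => y1 k (mem_filter.1 hk).1 k' (mem_filter.1 hk').1
  refine ⟨cf d R, (1 - c) / (4 * c), ((Ioo 0 s).filter Even).image Y,
    ((Ioo 0 s).filter fun k => ¬Even k).image Y, div_pos (by linarith) (by linarith),
    fun x hx => ?_, ?_, ?_, ?_, fun z hz => ?_, fun z hz => ?_, fun x hx => ?_, fun l l1 l2 => ?_⟩
  · have h4 : 4 * c * ((1 - c) / (4 * c)) = 1 - c := by field_simp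
    rw [e0]
    exact abs_eval_T_real_le_one _ (abs_le.2 ⟨by nlinarith [hx.1], by nlinarith [hx.2]⟩)
  · rw [e0, mul_zero, zero_sub, ← cos_pi_sub, T_real_cos, Int.cast_natCast, mul_sub,
      show s * (A / 2) = π / 2 by linarith, cos_nat_mul_pi_sub, cos_pi_div_two, mul_zero]
  · rw [e0, show 4 * c * (1 / 2) - c = c by ring, T_real_cos, Int.cast_natCast,
      show s * (A / 2) = π / 2 by linarith, cos_pi_div_two]
  · rw [cd, cd, card_filter_add_card_filter_not, Nat.card_Ioo]; omega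
  · obtain ⟨k, hk, rfl⟩ := mem_image.1 hz
    simpa only [(mem_filter.1 hk).2.neg_one_pow] using y2 k (mem_filter.1 hk).1
  · obtain ⟨k, hk, rfl⟩ := mem_image.1 hz
    simpa only [(Nat.not_even_iff_odd.1 (mem_filter.1 hk).2).neg_one_pow] using
      y2 k (mem_filter.1 hk).1
  · rw [e1, mul_eq_zero, or_iff_right (by positivity)] at hx
    obtain ⟨⟨k, hk, e⟩, h2⟩ := crit hs _ hx
    have : Y k = x := by simp only [Y, X0, add_zero, ← e]; field_simp; ring
    refine ⟨?_, by rw [e2]; positivity⟩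
    by_cases hE : Even k
    exacts [Or.inl (mem_image.2 ⟨k, mem_filter.2 ⟨hk, hE⟩, this⟩),
      Or.inr (mem_image.2 ⟨k, mem_filter.2 ⟨hk, hE⟩, this⟩)]
  · set h := arccos (-l)
    have h1 : cos h = -l := cos_arccos (by linarith) (by linarith)
    have h2 : 0 < h := arccos_pos.2 (by linarith)
    have h3 : h < π / 2 := arccos_lt_pi_div_two.2 (by linarith)
    set sg : Bool → ℝ := fun b => if b then h else -h
    have h4 : ∀ b, |sg b| < π / 2 := fun b => by cases b <;> simpa [sg, abs_of_pos h2] using h3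
    have h5 : ∀ b, cos (sg b) = -l := fun b => by cases b <;> simpa [sg] using h1
    have key : eSet (cf d R) 0 {l} (1 / 2) = ↑((((Ioo 0 s).filter fun k => ¬Even k) ×ˢ univ).image
        fun p : ℕ × Bool => X0 ((p.1 * π + sg p.2) / s)) := by
      ext x
      simp only [eSet, Set.mem_ofPred_eq, Set.mem_singleton_iff, coe_image, Set.mem_image, mem_coe,
        mem_product, mem_filter, mem_univ, and_true]
      constructor
      · rintro ⟨a1, a2, a3⟩
        set θ := arccos (4 * c * x - c)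
        have b1 : X0 θ = x := by
          simp only [X0, θ]
          rw [cos_arccos (by nlinarith) (by nlinarith)]; field_simp; ring
        obtain ⟨b2, b3⟩ := (x4 θ ⟨arccos_nonneg _, arccos_le_pi _⟩).1 (b1 ▸ ⟨a1, a2⟩)
        have b4 : cos (π - h) = cos (s * θ) := by rw [cos_pi_sub, h1, neg_neg, ← x2, b1, a3]
        obtain ⟨k, b, hk, e⟩ : ∃ (k : ℤ) (b : Bool), Odd k ∧ s * θ = k * π + sg b := by
          obtain ⟨k, e | e⟩ := cos_eq_cos_iff.1 b4
          · exact ⟨2 * k + 1, false, by simp, by simp [sg, e]; ring⟩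
          · exact ⟨2 * k - 1, true, by simp, by simp [sg, e]; ring⟩
        obtain ⟨c1, c2⟩ := abs_lt.1 (h4 b)
        have c3 : (0 : ℝ) < k := lt_of_mul_lt_mul_right (a := π) (by nlinarith) hpi.le
        have c4 : (k : ℝ) < s := lt_of_mul_lt_mul_right (a := π) (by nlinarith) hpi.le
        lift k to ℕ using (by exact_mod_cast c3.le)
        refine ⟨(k, b), ⟨mem_Ioo.2 ⟨by exact_mod_cast c3, by exact_mod_cast c4⟩,
          Nat.not_even_iff_odd.2 (by exact_mod_cast hk)⟩, ?_⟩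
        rw [← b1, show ((k : ℝ) * π + sg b) / s = θ by
          rw [div_eq_iff hs0.ne', mul_comm θ, e, Int.cast_natCast]]
      · rintro ⟨⟨k, b⟩, ⟨hk, hE⟩, rfl⟩
        have := (x4 _ (rg' k hk _ (h4 b))).2 (rg k hk _ (h4 b))
        refine ⟨this.1, this.2, ?_⟩
        rw [x2, mul_div_cancel₀ _ hs0.ne', add_comm, cos_add_nat_mul_pi, h5,
          (Nat.not_even_iff_odd.1 hE).neg_one_pow]
        ring
    rw [key, Set.ncard_coe_finset, card_image_of_injOn, card_product, cd, mul_comm]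
    · rfl
    rintro ⟨k, b⟩ hk ⟨k', b'⟩ hk' e
    have := x3 _ (rg' k (mem_filter.1 (mem_product.1 hk).1).1 _ (h4 b)) _
      (rg' k' (mem_filter.1 (mem_product.1 hk').1).1 _ (h4 b')) e
    rw [div_left_inj' hs0.ne'] at this
    obtain ⟨c1, c2⟩ := abs_lt.1 (h4 b)
    obtain ⟨c3, c4⟩ := abs_lt.1 (h4 b')
    have c5 : (k : ℝ) < k' + 1 := lt_of_mul_lt_mul_right (a := π) (by nlinarith) hpi.le
    have c6 : (k' : ℝ) < k + 1 := lt_of_mul_lt_mul_right (a := π) (by nlinarith) hpi.le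
    obtain rfl : k = k' := by
      have : k < k' + 1 := by exact_mod_cast c5
      have : k' < k + 1 := by exact_mod_cast c6
      omega
    rw [add_right_inj] at this
    cases b <;> cases b' <;> simp [sg] at this ⊢ <;> linarith

end Pool.Agent.P.MP_a0f0ad_al.Fi
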