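import Pool.Agent.P.MP_a0f0ad_al.Fi.T.Iface3
import Pool.Agent.P.MP_a0f0ad_al.Fi.V.Iface
import Pool.Agent.P.MP_a0f0ad_al.Fi.T.EBasic

/-! Step ECP of the filiform project. -/

namespace Pool.Agent.P.MP_a0f0ad_al.Fi

open Finset MeasureTheory Filter Topology

namespace EcpA

theorem feas_iff {d : ℕ} (D : LD d) (q : Fin d → ℝ) {m M : ℝ} (h : m < M) :
    D.Feas q m M ↔ ∀ t ∈ Set.Icc (0 : ℝ) 1, |ev q 0 (m + t * (M - m))| ≤ D.Q := by
  have hp : 0 < M - m := sub_pos.2 h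
  constructor
  · intro hf t ht
    refine hf _ ⟨?_, ?_⟩
    · nlinarith [ht.1]
    · nlinarith [ht.2]
  · intro hf x hx
    have e : x = m + (x - m) / (M - m) * (M - m) := by field_simp; ring
    rw [e]
    refine hf _ ⟨div_nonneg (sub_nonneg.2 hx.1) hp.le, ?_⟩
    rw [div_le_one hp]
    linarith [hx.2]

end EcpA

theorem p_ECP (hMARK : S_MARK) :
    S_ECP := by
  intro d D l L hl
  obtain ⟨C, hC, hM⟩ := hMARK d L
  apply Metric.isCompact_of_isClosed_isBounded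
  · have e : {x : (Fin d → ℝ) × ℝ × ℝ | -L ≤ x.2.1 ∧ x.2.1 ≤ 0 ∧ l ≤ x.2.2 ∧ x.2.2 ≤ L ∧
        D.Feas x.1 x.2.1 x.2.2} =
        {x : (Fin d → ℝ) × ℝ × ℝ | -L ≤ x.2.1} ∩ ({x | x.2.1 ≤ 0} ∩ ({x | l ≤ x.2.2} ∩
          ({x | x.2.2 ≤ L} ∩ ⋂ t ∈ Set.Icc (0 : ℝ) 1,
            {x | |ev x.1 0 (x.2.1 + t * (x.2.2 - x.2.1))| ≤ D.Q}))) := by
      ext x
      simp only [Set.mem_ofPred_eq, Set.mem_inter_iff, Set.mem_iInter]
      constructor
      · rintro ⟨a, b, c, e, f⟩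
        exact ⟨a, b, c, e, (EcpA.feas_iff D x.1 (by linarith)).1 f⟩
      · rintro ⟨a, b, c, e, f⟩
        exact ⟨a, b, c, e, (EcpA.feas_iff D x.1 (by linarith)).2 f⟩
    rw [e]
    refine (isClosed_le (by fun_prop) (by fun_prop)).inter
      ((isClosed_le (by fun_prop) (by fun_prop)).inter
        ((isClosed_le (by fun_prop) (by fun_prop)).inter
          ((isClosed_le (by fun_prop) (by fun_prop)).inter
            (isClosed_biInter fun t _ => isClosed_le ?_ continuous_const))))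
    fun_prop
  · rw [isBounded_iff_forall_norm_le]
    refine ⟨max (C * D.Q / l ^ d) |L|, ?_⟩
    rintro ⟨q, m, M⟩ ⟨a, b, c, e, f⟩
    simp only at a b c e f
    have h1 := (hM q m M D.Q (by linarith) a e f).1
    have h2 : l ^ d ≤ (M - m) ^ d := pow_le_pow_left₀ hl.le (by linarith) d
    have h3 : ‖q‖ ≤ C * D.Q / l ^ d := by
      rw [le_div_iff₀ (by positivity)]
      exact (mul_le_mul_of_nonneg_left h2 (norm_nonneg q)).trans h1
    have h4 := le_abs_self L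
    rw [Prod.norm_def, Prod.norm_def]
    refine max_le_max h3 (max_le ?_ ?_)
    · exact abs_le.2 ⟨by linarith, by linarith⟩
    · exact abs_le.2 ⟨by linarith, by linarith⟩

end Pool.Agent.P.MP_a0f0ad_al.Fi
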