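import Pool.Agent.P.MP_a0f0ad_al.Fi.T.Iface3
import Pool.Agent.P.MP_a0f0ad_al.Fi.V.Iface
import Pool.Agent.P.MP_a0f0ad_al.Fi.T.EBasic

/-! Step ECV of the filiform project. -/

namespace Pool.Agent.P.MP_a0f0ad_al.Fi

open Finset MeasureTheory Filter Topology

namespace EcvA

theorem zero {f : ℝ → ℝ} {s t c : ℝ} (hf : Continuous f) (hst : s ≤ t)
    (h0 : ∀ x ∈ Set.Icc s t, 0 ≤ f x) (hc : c ∈ Set.Icc s t) (h1 : 0 < f c) :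
    0 ≤ ∫ x in s..t, f x ∧ (∫ x in s..t, f x ≤ 0 → s = t) :=
  ⟨intervalIntegral.integral_nonneg hst h0, fun h => by
    by_contra k
    exact h.not_gt (intervalIntegral.integral_pos (hst.lt_of_ne k) hf.continuousOn
      (fun x hx => h0 x (Set.Ioc_subset_Icc_self hx)) ⟨c, hc, h1⟩)⟩

theorem pin {d : ℕ} {S : Finset (G d)} {D : LD d} {ρ : RD d} {u : E d} (hD : D.Spec S)
    (hb : EBase D ρ u) {m M : ℝ} (hm : m ≤ 0) (hM : u.1 ≤ M) (hf : D.Feas ρ.q m M)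
    (h : D.Bf ρ.q m M u ≤ D.Bf ρ.q 0 u.1 u) : m = 0 ∧ u.1 = M := by
  have e := hD.Bf_sub ρ.q 0 u.1 m M u
  have hc : Continuous fun x => D.om (ev ρ.q 0 x) := hD.continuous_om.comp (by fun_prop)
  have p := hb.pos
  have h1 := zero hc hM (fun x hx => hD.om_nonneg' (hf x ⟨by linarith [hx.1], hx.2⟩))
    ⟨le_rfl, hM⟩ (hD.om_pos' hb.lt1)
  have h2 := zero hc hm (fun x hx => hD.om_nonneg' (hf x ⟨hx.1, by linarith [hx.2]⟩))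
    ⟨hm, le_rfl⟩ (hD.om_pos' hb.lt0)
  exact ⟨h2.2 (by linarith [h1.1]), h1.2 (by linarith [h2.1])⟩

end EcvA

theorem p_ECV (hPEN : S_PEN) (hECB : S_ECB) (hECP : S_ECP) (hEUQ : S_EUQ) (hEUS : S_EUS) :
    S_ECV := by
  intro d S D ρ u₀ hd hD hb hi s hs
  obtain ⟨us, ub⟩ := hEUS d S D ρ u₀ hd hD hb
  obtain ⟨δ, δ0, fe, ub⟩ := ub hi
  have p := hb.pos
  have fe' : ∀ m M, -δ ≤ m → M ≤ u₀.1 + δ → D.Feas ρ.q m M := fun m M h1 h2 x hx =>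
    fe x ⟨h1.trans hx.1, hx.2.trans h2⟩
  have hcl : IsClosed {x : (Fin d → ℝ) × ℝ × ℝ | -δ ≤ x.2.1} :=
    isClosed_le (by fun_prop) (by fun_prop)
  have hK := ((hECP d D (u₀.1 / 2) (u₀.1 + δ) (by linarith)).inter_right hcl).diff
    (isOpen_interior (s := s))
  have cB := (hECB d S D hD).1
  have c1 : Continuous fun z : (ℝ × E d) × (Fin d → ℝ) × ℝ × ℝ =>
      D.Bf ρ.q z.2.2.1 z.2.2.2 z.1.2 :=
    cB.comp (f := fun z : (ℝ × E d) × (Fin d → ℝ) × ℝ × ℝ => (ρ.q, z.2.2.1, z.2.2.2, z.1.2))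
      (by fun_prop)
  have c2 : Continuous fun z : (ℝ × E d) × (Fin d → ℝ) × ℝ × ℝ =>
      D.Bf z.2.1 z.2.2.1 z.2.2.2 z.1.2 :=
    cB.comp (f := fun z : (ℝ × E d) × (Fin d → ℝ) × ℝ × ℝ => (z.2.1, z.2.2.1, z.2.2.2, z.1.2))
      (by fun_prop)
  have hC : IsClosed {z : (ℝ × E d) × (Fin d → ℝ) × ℝ × ℝ | z.1.2.1 ≤ z.2.2.2 ∧
      D.Bf ρ.q z.2.2.1 z.2.2.2 z.1.2 ≤ D.Bf z.2.1 z.2.2.1 z.2.2.2 z.1.2 ∧
      D.Bf z.2.1 z.2.2.1 z.2.2.2 z.1.2 ≤ D.Bf ρ.q 0 u₀.1 u₀ + z.1.1} :=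
    IsClosed.and (isClosed_le (by fun_prop) (by fun_prop))
      (IsClosed.and (isClosed_le c1 c2) (isClosed_le c2 (by fun_prop)))
  have key := hK.eventually_forall_of_forall_eventually (x₀ := ((0 : ℝ), u₀))
    (P := fun (y : ℝ × E d) x => ¬ (y.2.1 ≤ x.2.2 ∧
      D.Bf ρ.q x.2.1 x.2.2 y.2 ≤ D.Bf x.1 x.2.1 x.2.2 y.2 ∧
      D.Bf x.1 x.2.1 x.2.2 y.2 ≤ D.Bf ρ.q 0 u₀.1 u₀ + y.1)) (by
      rintro ⟨q, m, M⟩ ⟨⟨⟨-, h1, -, h2, h3⟩, h4⟩, h5⟩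
      refine hC.isOpen_compl.mem_nhds ?_
      rintro ⟨k1, k2, k3⟩
      simp only [add_zero] at k1 k2 k3 h1 h2 h3
      obtain ⟨rfl, rfl⟩ := EcvA.pin hD hb h1 k1 (fe' m M h4 h2) (k2.trans k3)
      obtain rfl := hEUQ d S D ρ u₀ hD hb q h3 k2
      exact h5 (mem_interior_iff_mem_nhds.2 hs))
  obtain ⟨γ, hγ, γ0⟩ := ((key.curry_nhds.filter_mono (nhdsWithin_le_nhds (s := Set.Ioi 0))).and
    self_mem_nhdsWithin).exists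
  have lo : ∀ᶠ u : E d in 𝓝 u₀, u₀.1 / 2 < u.1 :=
    continuousAt_const.eventually_lt continuousAt_fst (by linarith)
  filter_upwards [hγ, us γ γ0, ub, lo] with u a1 a2 a3 a4 q m M h1 h2 h3 h4 h5 h6
  obtain ⟨b1, b2⟩ := a3 m M h1 h2 h3 h5
  by_contra hn
  refine a1 (q, m, M) ⟨⟨⟨by linarith, h1, by linarith, b2, h4⟩, b1⟩,
    fun k => hn (interior_subset k)⟩ ⟨h2, ?_, (h6.trans_lt a2).le⟩
  exact ((hPEN d S D hD m M u h1 (by linarith) h2 h3).1 _ (fe' m M b1 b2)).trans_eq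
    (h5.trans h6.symm)

end Pool.Agent.P.MP_a0f0ad_al.Fi
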