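import Pool.Agent.P.MP_a0f0ad_al.Fi.T.Iface3
import Pool.Agent.P.MP_a0f0ad_al.Fi.T.EBasic

/-! Step EDN of the filiform project. -/

namespace Pool.Agent.P.MP_a0f0ad_al.Fi

open Finset MeasureTheory Filter Topology

theorem p_EDN :
    S_EDN := by
  classical
  intro d A B hAB hd
  let L : (Fin d → ℝ) →ₗ[ℝ] (↥(A ∪ B) → ℝ) × (B → ℝ) :=
    { toFun := fun f => (fun x => ev f 0 x, fun x => ev f 1 x)
      map_add' := fun f g => Prod.ext (funext fun x => ev_add f g 0 x) (funext fun x => ev_add f g 1 x)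
      map_smul' := fun c f =>
        Prod.ext (funext fun x => ev_smul c f 0 x) (funext fun x => ev_smul c f 1 x) }
  have hL : LinearMap.ker L = ⊥ := LinearMap.ker_eq_bot'.2 fun f hf => by
    refine pol_eq_zero.1 (eq_zero_of_zeros (degree_pol_lt f) (A ∪ B) B subset_union_right
      (fun x hx => ?_) (fun x hx => ?_) (by rw [card_union_of_disjoint hAB]; omega))
    · exact (ev_eq_eval f 0 x).symm.trans (congrFun (congrArg Prod.fst hf) ⟨x, hx⟩)
    · exact (ev_eq_eval f 1 x).symm.trans (congrFun (congrArg Prod.snd hf) ⟨x, hx⟩)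
  obtain ⟨c, c0, hc⟩ := L.exists_antilipschitzWith hL
  have c0' : (0 : ℝ) < c := c0
  obtain ⟨K, K1, hK⟩ := n_bd d (∑ x ∈ A ∪ B, |x| + 1)
  refine ⟨1 / (2 * c), min 1 (1 / (2 * c * K)), by positivity, by positivity,
    fun f e e0 hA hB => ?_⟩
  have key : ∀ x ∈ A ∪ B, ∀ y k, |y - x| ≤ min 1 (1 / (2 * c * K)) → |ev f k y| ≤ e →
      ‖ev f k x‖ ≤ e + 1 / (2 * c) * ‖f‖ := fun x hx y k h1 h2 => by
    have a1 := single_le_sum (f := fun x : ℝ => |x|) (fun _ _ => abs_nonneg _) hx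
    have a2 := abs_sub_abs_le_abs_sub y x
    have a3 := (hK f k x y (by linarith) (by linarith [h1.trans (min_le_left _ _)])).2.1
    have a4 : K * ‖f‖ * |y - x| ≤ K * ‖f‖ * (1 / (2 * c * K)) :=
      mul_le_mul_of_nonneg_left (h1.trans (min_le_right _ _)) (by positivity)
    have a5 : K * ‖f‖ * (1 / (2 * c * K)) = 1 / (2 * c) * ‖f‖ := by field_simp
    have a6 := abs_sub_abs_le_abs_sub (ev f k x) (ev f k y)
    rw [abs_sub_comm] at a6
    rw [Real.norm_eq_abs]
    linarith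
  have h0 : 0 ≤ e + 1 / (2 * c) * ‖f‖ := by positivity
  have h1 : ‖L f‖ ≤ e + 1 / (2 * c) * ‖f‖ := by
    refine norm_prod_le_iff.2 ⟨(pi_norm_le_iff_of_nonneg h0).2 fun x => ?_,
      (pi_norm_le_iff_of_nonneg h0).2 fun x => ?_⟩
    · rcases mem_union.1 x.2 with h | h
      · obtain ⟨y, h1, h2⟩ := hA x h
        exact key x x.2 y 0 h1 h2
      · obtain ⟨y, h1, h2, -⟩ := hB x h
        exact key x x.2 y 0 h1 h2
    · obtain ⟨y, h1, -, h2⟩ := hB x x.2
      exact key x (mem_union_right _ x.2) y 1 h1 h2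
  have h2 := (ZeroHomClass.bound_of_antilipschitz L hc f).trans
    (mul_le_mul_of_nonneg_left h1 c0'.le)
  have h3 : (c : ℝ) * (1 / (2 * c) * ‖f‖) = ‖f‖ / 2 := by field_simp
  refine le_of_mul_le_mul_left ?_ c0'
  linarith

end Pool.Agent.P.MP_a0f0ad_al.Fi
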