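import Pool.Agent.P.MP_a0f0ad_al.Fi.T.Iface3
import Pool.Agent.P.MP_a0f0ad_al.Fi.T.EBasic
import Pool.Agent.P.MP_a0f0ad_al.Fi.T.Eat

/-! Step EMG of the filiform project. -/

namespace Pool.Agent.P.MP_a0f0ad_al.Fi

open Finset MeasureTheory Filter Topology

namespace EmgA

theorem slope {d : ℕ} {q : Fin d → ℝ} {c e z₀ z x : ℝ} (h : ∀ y, |y - z₀| ≤ e → c < |ev q 2 y|)
    (hz : |z - z₀| ≤ e) (hx : |x - z₀| ≤ e) (h0 : ev q 1 z = 0) : c * |x - z| ≤ |ev q 1 x| := by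
  have key : ∀ a b, a < b → |a - z₀| ≤ e → |b - z₀| ≤ e →
      c * |b - a| ≤ |ev q 1 b - ev q 1 a| := fun a b hab ha hb => by
    obtain ⟨y, hy, k⟩ := exists_hasDerivAt_eq_slope (ev q 1) (ev q 2) hab
      (continuous_ev q 1).continuousOn fun y _ => hasDerivAt_ev q 1 y
    rw [eq_div_iff (sub_pos.2 hab).ne'] at k
    rw [← k, abs_mul]
    rw [abs_le] at ha hb
    exact mul_le_mul_of_nonneg_right
      (h y (abs_le.2 ⟨by linarith [hy.1, ha.1], by linarith [hy.2, hb.2]⟩)).le (abs_nonneg _)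
  rcases lt_trichotomy z x with k | rfl | k
  · simpa [h0] using key z x k hz hx
  · simp
  · have := key x z k hx hz
    rwa [h0, zero_sub, abs_neg, abs_sub_comm] at this

end EmgA

open EmgA in
theorem p_EMG (hEAT : S_EAT) :
    S_EMG := by
  intro d S D ρ₀ u₀ hd hS hb
  obtain ⟨g, g0, -, -, -, hg, -⟩ := hS.exists_slack
  obtain ⟨K, K1, hK⟩ := n_bd d u₀.1
  have hc : ∀ᶠ c in 𝓝 (0 : ℝ), ∀ z ∈ ρ₀.Z, c < |ρ₀.mu z| ∧ c < |ev ρ₀.q 2 z| :=
    (eventually_all_finset _).2 fun z hz =>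
      (gt_mem_nhds (abs_pos.2 (hb.atom hz).2.2.2.1)).and
        (gt_mem_nhds (abs_pos.2 (hb.atom hz).2.2.2.2.2.1))
  obtain ⟨c, hc, c0⟩ := ((hc.filter_mono
    (nhdsWithin_le_nhds (s := Set.Ioi 0))).and self_mem_nhdsWithin).exists
  replace c0 : 0 < c := c0
  have he : ∀ᶠ e in 𝓝 (0 : ℝ), ∀ z ∈ ρ₀.Z, (c + e < |ρ₀.mu z| ∧ 2 * e < z ∧ z + 2 * e < u₀.1) ∧
      ∀ᶠ q in 𝓝 ρ₀.q, ∀ y, |y - z| ≤ e → c < |ev q 2 y| :=
    (eventually_all_finset _).2 fun z hz => by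
      refine Eventually.and (Eventually.and ?_ (Eventually.and ?_ ?_)) (EatA.loc ?_)
      · exact ContinuousAt.eventually_lt (by fun_prop) continuousAt_const
          (by simpa using (hc z hz).1)
      · exact ContinuousAt.eventually_lt (by fun_prop) continuousAt_const
          (by simpa using (hb.atom hz).1)
      · exact ContinuousAt.eventually_lt (by fun_prop) continuousAt_const
          (by simpa using (hb.atom hz).2.1)
      · exact ContinuousAt.eventually_lt continuousAt_const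
          (Continuous.continuousAt (by fun_prop)) (hc z hz).2
  obtain ⟨e, he, e0⟩ := ((he.filter_mono
    (nhdsWithin_le_nhds (s := Set.Ioi 0))).and self_mem_nhdsWithin).exists
  replace e0 : 0 < e := e0
  have hcp : IsCompact (Set.Icc (-D.Lam) D.Lam \ ⋃ z ∈ ρ₀.Z, Metric.ball z (e / 2)) :=
    isCompact_Icc.diff (isOpen_biUnion fun _ _ => Metric.isOpen_ball)
  have h1 : ∀ᶠ p : ℝ × (Fin d → ℝ) in 𝓝 (0, ρ₀.q),
      ∀ x ∈ Set.Icc (-D.Lam) D.Lam \ ⋃ z ∈ ρ₀.Z, Metric.ball z (e / 2),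
        ∀ w ∈ D.ThA, |ev p.2 0 x - w| ≤ p.1 → p.1 ^ 2 ≤ |ev p.2 1 x| := by
    refine hcp.eventually_forall_of_forall_eventually fun x hx => ?_
    by_cases h : ev ρ₀.q 1 x = 0
    · have k := (hb.crit x h).2.2.2.resolve_left fun k =>
        hx.2 (Set.mem_biUnion k (Metric.mem_ball_self (by positivity)))
      refine D.finite_ThA.eventually_all.2 fun w hw => (ContinuousAt.eventually_lt
        (f := fun z : (ℝ × (Fin d → ℝ)) × ℝ => z.1.1) (g := fun z => |ev z.1.2 0 z.2 - w|)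
        (by fun_prop) (Continuous.continuousAt (by fun_prop)) ?_).mono fun z a b => absurd b a.not_ge
      exact abs_pos.2 (sub_ne_zero.2 fun a => k (a ▸ hw))
    · refine (ContinuousAt.eventually_lt
        (f := fun z : (ℝ × (Fin d → ℝ)) × ℝ => z.1.1 ^ 2) (g := fun z => |ev z.1.2 1 z.2|)
        (by fun_prop) (Continuous.continuousAt (by fun_prop)) ?_).mono fun z a _ _ _ => a.le
      simpa using h
  have h2 : ∀ᶠ v in 𝓝 (0 : ℝ), v < c ∧ v < e / 4 ∧ v + K * (‖ρ₀.q‖ + 1) * v < g :=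
    (gt_mem_nhds c0).and ((gt_mem_nhds (by positivity)).and
      (ContinuousAt.eventually_lt (by fun_prop) continuousAt_const (by simpa using g0)))
  filter_upwards [nhdsWithin_le_nhds h1.curry_nhds, nhdsWithin_le_nhds h2, self_mem_nhdsWithin]
    with v h1 ⟨v1, v2, v3⟩ v0
  replace v0 : 0 < v := v0
  have n2 : ∀ᶠ p : (Fin d → ℝ) × ℝ in 𝓝 (ρ₀.q, u₀.1),
      ((∀ x ∈ Set.Icc (-D.Lam) D.Lam \ ⋃ z ∈ ρ₀.Z, Metric.ball z (e / 2),
        ∀ w ∈ D.ThA, |ev p.1 0 x - w| ≤ v → v ^ 2 ≤ |ev p.1 1 x|) ∧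
      ∀ z ∈ ρ₀.Z, ∀ y, |y - z| ≤ e → c < |ev p.1 2 y|) ∧
      ‖p.1‖ < ‖ρ₀.q‖ + 1 ∧ u₀.1 - e / 2 < p.2 := by
    refine ((continuousAt_fst (p := (ρ₀.q, u₀.1))).eventually
      (h1.and ((eventually_all_finset _).2 fun z hz => (he z hz).2))).and (Eventually.and ?_ ?_)
    · exact ContinuousAt.eventually_lt (by fun_prop) continuousAt_const (by simp)
    · exact ContinuousAt.eventually_lt continuousAt_const (by fun_prop) (by simpa using e0)
  refine ((hEAT d S D ρ₀ u₀ (e / 2) hd hS hb (by positivity)).and (ENear.of_nhds' n2)).mono ?_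
  rintro ρ u hr hm hM - ⟨⟨ψ, hψ, hc⟩, ⟨a1, a2⟩, a3, a4⟩
  dsimp only at a1 a2 a3 a4
  refine ⟨fun z hz => ?_, fun x hx w hw hv => ?_⟩
  · obtain ⟨z₀, k, rfl⟩ := hψ.surjOn hz.1
    obtain ⟨⟨b1, b2, b3⟩, -⟩ := he z₀ k
    obtain ⟨b4, b5, -⟩ := hc z₀ k
    have b6 := abs_sub_abs_le_abs_sub (ρ₀.mu z₀) (ρ.mu (ψ z₀))
    rw [abs_sub_comm] at b6
    rw [abs_le] at b4
    refine ⟨by linarith, le_abs.2 (Or.inl (by linarith [b4.1])),
      le_abs.2 (Or.inr (by linarith [b4.2])), fun x hx => v1.le.trans (a2 z₀ k x ?_).le⟩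
    rw [abs_le] at hx ⊢
    constructor <;> linarith [hx.1, hx.2, b4.1, b4.2]
  by_cases h : x ∈ ⋃ z ∈ ρ₀.Z, Metric.ball z (e / 2)
  · obtain ⟨z₀, k, hx0⟩ := Set.mem_iUnion₂.1 h
    rw [Metric.mem_ball, Real.dist_eq] at hx0
    obtain ⟨⟨-, b2, b3⟩, -⟩ := he z₀ k
    obtain ⟨b4, -, b5⟩ := hc z₀ k
    rcases le_or_gt |x - ψ z₀| v with k1 | k1
    · refine Or.inr ⟨ψ z₀, b5, k1, by_contra fun k2 => ?_⟩
      have k3 := hg _ (mem_ThA_of_abs (hr.2.2.2.2.1 _ b5.1).2.2.1) w hw k2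
      rw [abs_le] at b4
      rw [abs_lt] at hx0
      have k4 := (hK ρ.q 0 (ψ z₀) x (abs_le.2 ⟨by linarith [b4.1], by linarith [b4.2]⟩)
        (abs_le.2 ⟨by linarith [hx0.1], by linarith [hx0.2]⟩)).2.1
      have k5 : K * ‖ρ.q‖ * |x - ψ z₀| ≤ K * (‖ρ₀.q‖ + 1) * v := by gcongr
      have k6 := abs_sub_le (ev ρ.q 0 (ψ z₀)) (ev ρ.q 0 x) w
      rw [abs_sub_comm (ev ρ.q 0 (ψ z₀)) (ev ρ.q 0 x)] at k6
      linarith
    · refine Or.inl (le_trans ?_ (slope (a2 z₀ k) (by linarith) (by linarith) b5.2.2))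
      rw [sq]
      gcongr
  · exact Or.inl (a1 x ⟨abs_le.1 hx, h⟩ w hw hv)

end Pool.Agent.P.MP_a0f0ad_al.Fi
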