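import Pool.Agent.P.MP_a0f0ad_al.Fi.T.Iface3
import Pool.Agent.P.MP_a0f0ad_al.Fi.T.EBasic

/-! Step ESR of the filiform project. -/

namespace Pool.Agent.P.MP_a0f0ad_al.Fi

open Finset MeasureTheory Filter Topology

namespace EsrA

theorem inj {f f' : ℝ → ℝ} (hf : ∀ x, HasDerivAt f (f' x) x) {a b : ℝ}
    (h : ∀ x ∈ Set.Icc a b, f' x ≠ 0) : Set.InjOn f (Set.Icc a b) := by
  have k : ∀ x ∈ Set.Icc a b, ∀ y ∈ Set.Icc a b, x < y → f x ≠ f y := fun x hx y hy hxy e => by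
    obtain ⟨c, hc, e'⟩ := exists_hasDerivAt_eq_zero hxy
      (fun z _ => (hf z).continuousAt.continuousWithinAt) e fun z _ => hf z
    exact h c ⟨hx.1.trans hc.1.le, hc.2.le.trans hy.2⟩ e'
  intro x hx y hy e
  rcases lt_trichotomy x y with c | c | c
  · exact absurd e (k x hx y hy c)
  · exact c
  · exact absurd e.symm (k y hy x hx c)

variable {X : Type} [TopologicalSpace X] {f f' : X → ℝ → ℝ}

theorem loc (hc : Continuous f.uncurry) (hc' : Continuous f'.uncurry)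
    (hd : ∀ p x, HasDerivAt (f p) (f' p x) x) {W : Set ℝ} (hW : W.Finite) {p₀ : X} {x₀ : ℝ}
    (h0 : f p₀ x₀ ∈ W) (h1 : f' p₀ x₀ ≠ 0) :
    ∀ᶠ e in 𝓝[>] (0 : ℝ), ∀ᶠ p in 𝓝 p₀, (∃ x, |x - x₀| < e ∧ f p x ∈ W) ∧
      ∀ x y, |x - x₀| < e → |y - x₀| < e → f p x ∈ W → f p y ∈ W → x = y := by
  have hO : IsOpen {z : X × ℝ | f' z.1 z.2 ≠ 0 ∧ f z.1 z.2 ∈ (W \ {f p₀ x₀})ᶜ} :=
    (isOpen_ne_fun hc' continuous_const).inter
      (hW.sdiff.isClosed.isOpen_compl.preimage hc)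
  have h2 : ∀ᶠ x in 𝓝 x₀, f' p₀ x ≠ 0 ∧ f p₀ x ∈ (W \ {f p₀ x₀})ᶜ :=
    (hO.preimage (Continuous.prodMk_right p₀)).mem_nhds ⟨h1, fun k => k.2 rfl⟩
  obtain ⟨ε, hε, h3⟩ := Metric.eventually_nhds_iff.1 h2
  filter_upwards [Ioo_mem_nhdsGT hε] with e he
  have h4 : ∀ x ∈ Set.Icc (x₀ - e) (x₀ + e), f' p₀ x ≠ 0 ∧ f p₀ x ∈ (W \ {f p₀ x₀})ᶜ :=
    fun x hx => h3 (by
      rw [Real.dist_eq, abs_lt]
      constructor <;> linarith [hx.1, hx.2, he.2])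
  have h5 : ∀ᶠ p in 𝓝 p₀, ∀ x ∈ Set.Icc (x₀ - e) (x₀ + e),
      f' p x ≠ 0 ∧ f p x ∈ (W \ {f p₀ x₀})ᶜ :=
    isCompact_Icc.eventually_forall_of_forall_eventually fun x hx => hO.mem_nhds (h4 x hx)
  have hle : x₀ - e ≤ x₀ + e := by linarith [he.1]
  have hcp : ∀ p, Continuous (f p) := fun p => hc.comp (Continuous.prodMk_right p)
  have hcx : ∀ x, Continuous fun p => f p x := fun x => hc.comp (Continuous.prodMk_left x)
  have m1 : x₀ - e ∈ Set.Icc (x₀ - e) (x₀ + e) := ⟨le_rfl, hle⟩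
  have m2 : x₀ + e ∈ Set.Icc (x₀ - e) (x₀ + e) := ⟨hle, le_rfl⟩
  have m0 : x₀ ∈ Set.Icc (x₀ - e) (x₀ + e) := ⟨by linarith [he.1], by linarith [he.1]⟩
  have h6 : ∀ᶠ p in 𝓝 p₀, ∃ x ∈ Set.Ioo (x₀ - e) (x₀ + e), f p x = f p₀ x₀ := by
    rcases (hcp p₀).continuousOn.strictMonoOn_of_injOn_Icc' hle
      (inj (hd p₀) fun x hx => (h4 x hx).1) with k | k
    · filter_upwards [(hcx _).continuousAt.eventually_lt continuousAt_const
        (k m1 m0 (by linarith [he.1])), continuousAt_const.eventually_lt (hcx _).continuousAt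
        (k m0 m2 (by linarith [he.1]))] with p a b
      exact intermediate_value_Ioo hle (hcp p).continuousOn ⟨a, b⟩
    · filter_upwards [(hcx _).continuousAt.eventually_lt continuousAt_const
        (k m0 m2 (by linarith [he.1])), continuousAt_const.eventually_lt (hcx _).continuousAt
        (k m1 m0 (by linarith [he.1]))] with p a b
      exact intermediate_value_Ioo' hle (hcp p).continuousOn ⟨a, b⟩
  filter_upwards [h5, h6] with p a b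
  obtain ⟨x, hx, ex⟩ := b
  have hm : ∀ y, |y - x₀| < e → y ∈ Set.Icc (x₀ - e) (x₀ + e) := fun y hy =>
    ⟨by linarith [(abs_lt.1 hy).1], by linarith [(abs_lt.1 hy).2]⟩
  have hw : ∀ y, |y - x₀| < e → f p y ∈ W → f p y = f p₀ x₀ := fun y hy k => by
    by_contra c
    exact (a y (hm y hy)).2 ⟨k, c⟩
  refine ⟨⟨x, abs_lt.2 ⟨by linarith [hx.1], by linarith [hx.2]⟩, ex ▸ h0⟩,
    fun y z hy hz ky kz => inj (hd p) (fun w hw => (a w hw).1) (hm y hy) (hm z hz) ?_⟩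
  rw [hw y hy ky, hw z hz kz]

theorem glob (hc : Continuous f.uncurry) (hc' : Continuous f'.uncurry)
    (hd : ∀ p x, HasDerivAt (f p) (f' p x) x) {W : Set ℝ} (hW : W.Finite) {a : X → ℝ}
    (ha : Continuous a) {p₀ : X} {η : ℝ} (hη : 0 < η)
    (hA : {x | 0 < x ∧ x < a p₀ ∧ f p₀ x ∈ W}.Finite)
    (hs : ∀ x, 0 ≤ x → x ≤ a p₀ → f p₀ x ∈ W → 0 < x ∧ x < a p₀ ∧ f' p₀ x ≠ 0) :
    ∀ᶠ p in 𝓝 p₀, ∃ ψ : ℝ → ℝ,
      Set.BijOn ψ {x | 0 < x ∧ x < a p₀ ∧ f p₀ x ∈ W} {x | 0 < x ∧ x < a p ∧ f p x ∈ W} ∧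
        ∀ x ∈ {x | 0 < x ∧ x < a p₀ ∧ f p₀ x ∈ W}, |ψ x - x| ≤ η := by
  set A := {x | 0 < x ∧ x < a p₀ ∧ f p₀ x ∈ W} with hAe
  have small : ∀ c : ℝ, 0 < c → ∀ᶠ e in 𝓝[>] (0 : ℝ), e < c := fun c h =>
    nhdsWithin_le_nhds (gt_mem_nhds h)
  have e1 : ∀ᶠ e in 𝓝[>] (0 : ℝ), ∀ x ∈ A, (e < x ∧ e < a p₀ - x ∧
      ∀ y ∈ A, x ≠ y → e < |x - y| / 2) ∧ ∀ᶠ p in 𝓝 p₀, (∃ z, |z - x| < e ∧ f p z ∈ W) ∧
      ∀ z y, |z - x| < e → |y - x| < e → f p z ∈ W → f p y ∈ W → z = y := by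
    refine (eventually_all_finite hA).2 fun x hx => ((small _ hx.1).and
      ((small _ (sub_pos.2 hx.2.1)).and ((eventually_all_finite hA).2 fun y _ => ?_))).and
      (loc hc hc' hd hW hx.2.2 (hs x hx.1.le hx.2.1.le hx.2.2).2.2)
    by_cases e : x = y
    · exact Eventually.of_forall fun _ k => absurd e k
    · exact (small _ (half_pos (abs_pos.2 (sub_ne_zero.2 e)))).mono fun _ k _ => k
  obtain ⟨e, ⟨he, he0⟩, heη⟩ := ((e1.and self_mem_nhdsWithin).and (small η hη)).exists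
  have he0 : 0 < e := he0
  have e2 := (eventually_all_finite hA).2 fun x hx => (he x hx).2
  have e3 : ∀ᶠ p in 𝓝 p₀, ∀ x ∈ A, x + e < a p := (eventually_all_finite hA).2 fun x hx =>
    continuousAt_const.eventually_lt ha.continuousAt (by linarith [(he x hx).1.2.1])
  have e4 : ∀ᶠ p in 𝓝 p₀, a p < a p₀ + 1 :=
    ha.continuousAt.eventually_lt continuousAt_const (lt_add_one _)
  have e5 : ∀ᶠ p in 𝓝 p₀, ∀ y ∈ Set.Icc 0 (a p₀ + 1),
      (∃ x ∈ A, |y - x| < e) ∨ a p < y ∨ f p y ∈ Wᶜ := by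
    refine isCompact_Icc.eventually_forall_of_forall_eventually fun y hy => ?_
    by_cases c1 : a p₀ < y
    · filter_upwards [(ha.comp continuous_fst).continuousAt.eventually_lt
        continuous_snd.continuousAt (x₀ := (p₀, y)) c1] with z hz
      exact Or.inr (Or.inl hz)
    by_cases c2 : f p₀ y ∈ W
    · obtain ⟨k1, k2, -⟩ := hs y hy.1 (not_lt.1 c1) c2
      filter_upwards [(by fun_prop : Continuous fun z : X × ℝ => |z.2 - y|).continuousAt.eventually_lt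
        continuousAt_const (x₀ := (p₀, y)) (by simpa using he0)] with z hz
      exact Or.inl ⟨y, ⟨k1, k2, c2⟩, hz⟩
    · filter_upwards [(hW.isClosed.isOpen_compl.preimage hc).mem_nhds
        (show (p₀, y) ∈ f.uncurry ⁻¹' Wᶜ from c2)] with z hz
      exact Or.inr (Or.inr hz)
  filter_upwards [e2, e3, e4, e5] with p k2 k3 k4 k5
  choose! ψ hψ using fun x hx => (k2 x hx).1
  refine ⟨ψ, ⟨fun x hx => ⟨?_, ?_, (hψ x hx).2⟩, fun x hx y hy c => ?_, fun y hy => ?_⟩,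
    fun x hx => ((hψ x hx).1.trans heη).le⟩
  · linarith [(abs_lt.1 (hψ x hx).1).1, (he x hx).1.1]
  · linarith [(abs_lt.1 (hψ x hx).1).2, k3 x hx]
  · by_contra n
    have a1 := abs_lt.1 (hψ x hx).1
    have a2 := abs_lt.1 (hψ y hy).1
    have a3 := (he x hx).1.2.2 y hy n
    have : |x - y| < 2 * e := abs_lt.2 ⟨by linarith, by linarith⟩
    linarith
  · rcases k5 y ⟨hy.1.le, by linarith [hy.2.1]⟩ with ⟨x, hx, c⟩ | c | c
    · exact ⟨x, hx, (k2 x hx).2 _ _ (hψ x hx).1 c (hψ x hx).2 hy.2.2⟩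
    · exact absurd hy.2.1 c.not_gt
    · exact absurd hy.2.2 c

end EsrA

theorem p_ESR :
    S_ESR := by
  intro d k q₀ W a₀ η hW hA hs hη
  exact EsrA.glob (X := (Fin d → ℝ) × ℝ) (f := fun p x => ev p.1 k x)
    (f' := fun p x => ev p.1 (k + 1) x) (by fun_prop) (by fun_prop)
    (fun p x => hasDerivAt_ev p.1 k x) hW (a := Prod.snd) continuous_snd (p₀ := (q₀, a₀)) hη hA hs

end Pool.Agent.P.MP_a0f0ad_al.Fi
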