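import Pool.Agent.P.MP_a0f0ad_al.Fi.T.Iface3
import Pool.Agent.P.MP_a0f0ad_al.Fi.T.EBasic

/-! Step EUQ of the filiform project. -/

namespace Pool.Agent.P.MP_a0f0ad_al.Fi

open Finset MeasureTheory Filter Topology

namespace EuqA

variable {d : ℕ} {S : Finset (G d)} {D : LD d}

/-- the gap of the concavity inequality vanishes away from the thresholds -/
theorem gap (hS : D.Spec S) {f g : ℝ → ℝ} (hf : Continuous f) (hg : Continuous g) {a x : ℝ}
    (hi : IntervalIntegrable (fun x => D.aff (D.idx (f x)) (g x) - D.lp (g x)) volume 0 a)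
    (h0 : ∫ x in (0 : ℝ)..a, (D.aff (D.idx (f x)) (g x) - D.lp (g x)) ≤ 0)
    (hx : x ∈ Set.Ioo 0 a) (ht : ∀ k < D.n, f x ≠ D.th k) :
    D.aff (D.idx (f x)) (g x) ≤ D.lp (g x) := by
  by_contra hn
  refine h0.not_gt ((intervalIntegral.integral_pos_iff_support_of_nonneg_ae
    (Eventually.of_forall fun y => sub_nonneg.2 (hS.lp_le (D.idx_le _) _)) hi).2
    ⟨hx.1.trans hx.2, Measure.measure_pos_of_mem_nhds volume (x := x) ?_⟩)
  have c : Continuous fun y => D.aff (D.idx (f x)) (g y) := by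
    unfold LD.aff
    fun_prop
  filter_upwards [Ioo_mem_nhds hx.1 hx.2, hf.continuousAt.eventually (hS.idx_eventually ht),
    (hS.continuous_lp.comp hg).continuousAt.eventually_lt c.continuousAt (not_le.1 hn)]
    with y h1 h2 h3
  refine ⟨?_, h1.1, h1.2.le⟩
  rw [Function.mem_support, h2]
  exact (sub_pos.2 h3).ne'

/-- the levels are preserved -/
theorem level (hS : D.Spec S) {f g : ℝ → ℝ} (hf : Continuous f) (hg : Continuous g) {a x e : ℝ}
    (H : ∀ x ∈ Set.Ioo 0 a, (∀ k < D.n, f x ≠ D.th k) → D.aff (D.idx (f x)) (g x) ≤ D.lp (g x))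
    (hx : x ∈ Set.Ioo 0 a) {k : ℕ} (hk : k < D.n) (h : f x = D.th k) (hd : HasDerivAt f e x)
    (he : e ≠ 0) : g x = D.th k := by
  have e1 : ∀ᶠ y in 𝓝 x, ∀ l ∈ range D.n, (l < k → D.th l < f y) ∧ (k < l → f y < D.th l) := by
    refine (eventually_all_finset _).2 fun l hl => Eventually.and ?_ ?_
    · by_cases c : l < k
      · exact (continuousAt_const.eventually_lt hf.continuousAt
          (h ▸ hS.th_lt c hk)).mono fun _ a _ => a
      · exact Eventually.of_forall fun _ a => absurd a c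
    · by_cases c : k < l
      · exact (hf.continuousAt.eventually_lt continuousAt_const
          (h ▸ hS.th_lt c (mem_range.1 hl))).mono fun _ a _ => a
      · exact Eventually.of_forall fun _ a => absurd a c
  have e2 := e1.and (Ioo_mem_nhds hx.1 hx.2)
  have ne : ∀ y, (∀ l ∈ range D.n, (l < k → D.th l < f y) ∧ (k < l → f y < D.th l)) →
      f y ≠ D.th k → ∀ l < D.n, f y ≠ D.th l := fun y a b l hl => by
    rcases lt_trichotomy l k with c | rfl | c
    · exact ((a l (mem_range.2 hl)).1 c).ne'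
    · exact b
    · exact ((a l (mem_range.2 hl)).2 c).ne
  have km := sub_pos.2 (hS.kapmono k hk)
  apply le_antisymm
  · have f1 : ∃ᶠ y in 𝓝 x, ¬ f x ≤ f y :=
      not_eventually.1 fun c => he (IsLocalMin.hasDerivAt_eq_zero c hd)
    refine (isClosed_le hg continuous_const).mem_of_frequently_of_tendsto
      ((f1.and_eventually e2).mono fun y ⟨a, b, c⟩ => (?_ : g y ≤ D.th k)) tendsto_id
    rw [h, not_le] at a
    have i := H y c (ne y b a.ne)
    rw [(hS.idx_eq_iff hk.le _).2 ⟨fun l hl => (b l (mem_range.2 (hl.trans hk))).1 hl,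
      fun _ => a.le⟩] at i
    have j : D.lp (g y) ≤ D.aff (k + 1) (g y) := hS.lp_le hk _
    have m := hS.aff_succ hk (g y)
    exact sub_nonneg.1 (nonneg_of_mul_nonneg_right (by linarith) km)
  · have f1 : ∃ᶠ y in 𝓝 x, ¬ f y ≤ f x :=
      not_eventually.1 fun c => he (IsLocalMax.hasDerivAt_eq_zero c hd)
    refine (isClosed_le continuous_const hg).mem_of_frequently_of_tendsto
      ((f1.and_eventually e2).mono fun y ⟨a, b, c⟩ => (?_ : D.th k ≤ g y)) tendsto_id
    rw [h, not_le] at a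
    have i := H y c (ne y b a.ne')
    rw [(hS.idx_eq_iff (k := k + 1) hk _).2 ⟨fun l hl => ?_,
      fun hl => ((b _ (mem_range.2 hl)).2 k.lt_succ_self).le⟩] at i
    · have j : D.lp (g y) ≤ D.aff k (g y) := hS.lp_le hk.le _
      have m := hS.aff_succ hk (g y)
      exact sub_nonpos.1 (nonpos_of_mul_nonpos_right (by linarith) km)
    · rcases (Nat.lt_succ_iff.1 hl).eq_or_lt with rfl | c
      · exact a
      · exact (b l (mem_range.2 (c.trans hk))).1 c

end EuqA

open EuqA in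
theorem p_EUQ :
    S_EUQ := by
  intro d S D ρ u hS h q hq hB
  have c0 := continuous_ev ρ.q 0
  have c1 := continuous_ev q 0
  have i1 := hS.ii_kp c0 c0 0 u.1
  have i2 := hS.ii_kp c0 c1 0 u.1
  have i3 := (hS.continuous_lp.comp' c0).intervalIntegrable (μ := volume) 0 u.1
  have i4 := (hS.continuous_lp.comp' c1).intervalIntegrable (μ := volume) 0 u.1
  have e : (fun x => D.aff (D.idx (ev ρ.q 0 x)) (ev q 0 x) - D.lp (ev q 0 x)) = fun x =>
      D.kp (ev ρ.q 0 x) * ev ρ.q 0 x + D.lp (ev ρ.q 0 x) -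
        (D.kp (ev ρ.q 0 x) * ev q 0 x + D.lp (ev q 0 x)) := funext fun x => by
    rw [D.lp_eq (ev ρ.q 0 x), LD.aff, LD.kp]
    ring
  have hi : IntervalIntegrable (fun x => D.aff (D.idx (ev ρ.q 0 x)) (ev q 0 x) - D.lp (ev q 0 x))
      volume 0 u.1 := by
    rw [e]
    exact (i1.add i3).sub (i2.add i4)
  have h1 : (∫ x in (0 : ℝ)..u.1, (D.aff (D.idx (ev ρ.q 0 x)) (ev q 0 x) - D.lp (ev q 0 x))) +
      ∑ z ∈ ρ.Z, ρ.mu z * (ev ρ.q 0 z - ev q 0 z) ≤ 0 := by
    rw [e, intervalIntegral.integral_sub (i1.add i3) (i2.add i4),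
      intervalIntegral.integral_add i1 i3, intervalIntegral.integral_add i2 i4]
    simp only [LD.Bf, EBase.test hS h.rep h.m0 h.M0, intervalIntegral.integral_same] at hB
    simp only [mul_sub, sum_sub_distrib]
    linarith
  have h2 : 0 ≤ ∫ x in (0 : ℝ)..u.1, (D.aff (D.idx (ev ρ.q 0 x)) (ev q 0 x) - D.lp (ev q 0 x)) :=
    intervalIntegral.integral_nonneg h.pos.le fun x _ => sub_nonneg.2 (hS.lp_le (D.idx_le _) _)
  have h3 : ∀ z ∈ ρ.Z, 0 ≤ ρ.mu z * (ev ρ.q 0 z - ev q 0 z) := fun z hz => by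
    obtain ⟨a, b, c, -⟩ := h.atom hz
    have k := abs_le.1 (hq z ⟨a.le, b.le⟩)
    rcases mul_pos_iff.1 (h.rep.2.2.2.2.1 z hz).2.2.2 with m | m
    · rw [abs_of_pos m.2] at c
      exact mul_nonneg m.1.le (by linarith)
    · rw [abs_of_neg m.2] at c
      exact mul_nonneg_of_nonpos_of_nonpos m.1.le (by linarith)
  have h4 := sum_nonneg h3
  have h5 : ∀ z ∈ ρ.Z, ev q 0 z = ev ρ.q 0 z := fun z hz =>
    (sub_eq_zero.1 ((mul_eq_zero.1 ((sum_eq_zero_iff_of_nonneg h3).1 (by linarith) z hz)).resolve_left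
      (h.atom hz).2.2.2.1)).symm
  refine sub_eq_zero.1 (pol_eq_zero.1 (eq_zero_of_zeros (degree_pol_lt _)
    (h.lev_finite.toFinset ∪ ρ.Z) ρ.Z subset_union_right (fun x hx => ?_) (fun x hx => ?_) ?_))
  · refine (ev_eq_eval _ 0 x).symm.trans ?_
    rw [ev_sub, sub_eq_zero]
    rcases mem_union.1 hx with hx | hx
    · obtain ⟨a, b, k, hk, c⟩ := h.lev_finite.mem_toFinset.1 hx
      rw [c]
      exact level hS c0 c1 (fun y => gap hS c0 c1 hi (by linarith)) ⟨a, b⟩ hk c
        (hasDerivAt_ev _ 0 x) (h.lev_simple hS x a.le b.le ⟨k, hk, c⟩).2.2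
    · exact h5 x hx
  · refine (ev_eq_eval _ 1 x).symm.trans ?_
    obtain ⟨a, b, c, -, c', -⟩ := h.atom hx
    rw [ev_sub, c', n_crit hq a b (by rw [h5 x hx, c]), sub_zero]
  · have := h.count
    rw [Set.ncard_eq_toFinset_card _ h.lev_finite] at this
    rw [card_union_of_disjoint (h.lev_disjoint hS)]
    omega

end Pool.Agent.P.MP_a0f0ad_al.Fi
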