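import Pool.Agent.P.MP_a0f0ad_al.Fi.T.Iface3
import Pool.Agent.P.MP_a0f0ad_al.Fi.V.Iface
import Pool.Agent.P.MP_a0f0ad_al.Fi.T.EBasic

/-! Step EUS of the filiform project. -/

namespace Pool.Agent.P.MP_a0f0ad_al.Fi

open Finset MeasureTheory Filter Topology

theorem p_EUS (hPEN : S_PEN) (hHOM : S_HOM) (hPUB : S_PUB) (hECB : S_ECB) (hECP : S_ECP) :
    S_EUS := by
  intro d S D ρ₀ u₀ hd hS hB
  have hN : D.Psi 0 u₀.1 u₀ = D.Bf ρ₀.q 0 u₀.1 u₀ := by
    have := (hPUB d S D hS u₀ ρ₀ hB.pos.le hB.rep).1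
    rwa [hB.m0, hB.M0] at this
  have hc := (hECB d S D hS).1
  have hpos := hB.pos
  have e1 : ∀ᶠ u : E d in 𝓝 u₀, u₀.1 / 2 < u.1 :=
    continuousAt_const.eventually_lt continuousAt_fst (by linarith)
  have e2 : ∀ᶠ u : E d in 𝓝 u₀, u.1 < u₀.1 + 1 :=
    continuousAt_fst.eventually_lt continuousAt_const (by linarith)
  have part1 : ∀ γ : ℝ, 0 < γ → ∀ᶠ u in 𝓝 u₀, D.NN u < D.Bf ρ₀.q 0 u₀.1 u₀ + γ := by
    intro γ hγ
    have key := (hECP d D (u₀.1 / 2) (u₀.1 + 1) (by linarith)).eventually_forall_of_forall_eventually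
      (x₀ := u₀) (P := fun u x => x.2.1 = 0 → x.2.2 = u.1 →
        D.Bf x.1 x.2.1 x.2.2 u < D.Bf ρ₀.q 0 u₀.1 u₀ + γ) fun y hy => by
      by_cases h0 : y.2.1 = 0
      · by_cases h1 : y.2.2 = u₀.1
        · have h2 : D.Bf y.1 y.2.1 y.2.2 u₀ ≤ D.Bf ρ₀.q 0 u₀.1 u₀ := by
            have h3 := hy.2.2.2.2
            rw [h0, h1] at h3 ⊢
            exact hN ▸ (hPEN d S D hS 0 u₀.1 u₀ le_rfl hpos.le le_rfl hpos).1 _ h3
          have h4 : Continuous fun z : E d × (Fin d → ℝ) × ℝ × ℝ =>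
              D.Bf z.2.1 z.2.2.1 z.2.2.2 z.1 :=
            hc.comp (f := fun z : E d × (Fin d → ℝ) × ℝ × ℝ => (z.2.1, z.2.2.1, z.2.2.2, z.1))
              (by fun_prop)
          filter_upwards [h4.continuousAt.eventually_lt (x₀ := (u₀, y)) continuousAt_const
            (h2.trans_lt (lt_add_of_pos_right _ hγ))] with z hz _ _
          exact hz
        · have h4 : ContinuousAt (fun z : E d × (Fin d → ℝ) × ℝ × ℝ => z.2.2.2 - z.1.1) (u₀, y) := by
            fun_prop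
          filter_upwards [h4.eventually_ne (sub_ne_zero.2 h1)] with z hz _ h5
          exact absurd (sub_eq_zero.2 h5) hz
      · have h4 : ContinuousAt (fun z : E d × (Fin d → ℝ) × ℝ × ℝ => z.2.2.1) (u₀, y) := by
          fun_prop
        filter_upwards [h4.eventually_ne h0] with z hz h5 _
        exact absurd h5 hz
    filter_upwards [key, e1, e2] with u hu a b
    have hu0 : 0 < u.1 := by linarith
    obtain ⟨q, hq, e⟩ := (hPEN d S D hS 0 u.1 u le_rfl hu0.le le_rfl hu0).2 0 0 le_rfl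
    simp only [zero_smul, sub_zero, Prod.mk.eta] at e
    have h1 := ((hHOM d S D hS).2.2.1 u 0 u.1 le_rfl hu0.le le_rfl hu0).1
    have h2 := hu (q, 0, u.1) ⟨by simp only; linarith, le_rfl, a.le, b.le, hq⟩ rfl rfl
    exact h1.trans_lt (e ▸ h2)
  refine ⟨part1, fun ⟨_, w, δ, hδ, hw, hf, hlt⟩ => ⟨δ, hδ, hf, ?_⟩⟩
  have ho := hS.om_pos' hw
  obtain ⟨γ, hγ, hg⟩ : ∃ γ : ℝ, 0 < γ ∧
      D.Bf ρ₀.q 0 u₀.1 u₀ + γ < w * co u₀.2 0 + u₀.1 * D.lp w + D.om w * δ :=
    ⟨(w * co u₀.2 0 + u₀.1 * D.lp w + D.om w * δ - D.Bf ρ₀.q 0 u₀.1 u₀) / 2, by linarith,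
      by linarith⟩
  have hr : Continuous fun u : E d =>
      D.Bf ρ₀.q 0 u₀.1 u₀ + γ - w * co u.2 0 - u.1 * D.lp w :=
    (continuous_const.sub (continuous_const.mul (continuous_co0.comp continuous_snd))).sub
      (continuous_fst.mul continuous_const)
  have hr' : Continuous fun u : E d =>
      D.om w * u.1 + (D.Bf ρ₀.q 0 u₀.1 u₀ + γ - w * co u.2 0 - u.1 * D.lp w) :=
    (continuous_const.mul continuous_fst).add hr
  have e3 := hr.continuousAt.eventually_lt (x₀ := u₀) (g := fun _ => D.om w * δ)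
    continuousAt_const (by linarith)
  have e4 := hr'.continuousAt.eventually_lt (x₀ := u₀) (g := fun _ => D.om w * (u₀.1 + δ))
    continuousAt_const (by linarith)
  filter_upwards [part1 γ hγ, e1, e3, e4] with u hu a h3 h4 m M hm hM hmM e
  have h1 := (hPEN d S D hS m M u hm (by linarith) hM hmM).1 (eC d w) fun x _ => by
    rw [ev_eC hd]; exact hw.le
  rw [Bf_eC hd, e] at h1
  have h5 := mul_nonneg ho.le (sub_nonneg.2 hM)
  have h6 := mul_nonneg ho.le (neg_nonneg.2 hm)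
  constructor
  · exact neg_le.1 (le_of_mul_le_mul_left (by linarith) ho)
  · exact le_of_mul_le_mul_left (by linarith) ho

end Pool.Agent.P.MP_a0f0ad_al.Fi
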