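import Pool.Agent.P.MP_a0f0ad_al.Fi.T.Iface3
import Pool.Agent.P.MP_a0f0ad_al.Fi.V.Iface
import Pool.Agent.P.MP_a0f0ad_al.Fi.T.EBasic

/-! Step EXRA of the filiform project. -/

namespace Pool.Agent.P.MP_a0f0ad_al.Fi

open Finset MeasureTheory Filter Topology

theorem p_EXRA (hATT : S_ATT) (hSUBG : S_SUBG) (hPUB : S_PUB) (hENC : S_ENC) (hEUS : S_EUS) (hECV : S_ECV) (hEBS : S_EBS) :
    S_EXRA := by
  intro d S D hd he hS
  obtain ⟨ρ₀, u₀, hb, hi⟩ := hEBS d S D hd he hS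
  obtain ⟨v, v0, v1, hn⟩ := hENC d S D ρ₀ u₀ (by omega) hS hb
  obtain ⟨us, -⟩ := hEUS d S D ρ₀ u₀ (by omega) hS hb
  rw [ENear, nhds_prod_eq, eventually_prod_iff] at hn
  obtain ⟨pa, ha, pb, hpb, hn⟩ := hn
  obtain ⟨j, hj, hq⟩ := hb.nonconst
  have hs : ∀ᶠ x : (Fin d → ℝ) × ℝ × ℝ in 𝓝 (ρ₀.q, 0, u₀.1), pa x.1 ∧ x.1 j ≠ 0 ∧
      |ev x.1 0 x.2.1| < D.Q ∧ |ev x.1 0 x.2.2| < D.Q := by
    refine (continuousAt_fst.eventually ha).and (Eventually.and ?_ (Eventually.and ?_ ?_))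
    · exact ContinuousAt.eventually_ne (by fun_prop) hq
    · exact ContinuousAt.eventually_lt (Continuous.continuousAt (by fun_prop))
        continuousAt_const hb.lt0
    · exact ContinuousAt.eventually_lt (Continuous.continuousAt (by fun_prop))
        continuousAt_const hb.lt1
  have hc := hECV d S D ρ₀ u₀ (by omega) hS hb hi _ hs
  have h1 : ∀ᶠ u in 𝓝 u₀, D.NN u < 1 :=
    (us _ (sub_pos.2 hi.1)).mono fun u hu => by linarith
  have h0 : ∀ᶠ u : E d in 𝓝 u₀, 0 < u.1 :=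
    ContinuousAt.eventually_lt continuousAt_const continuousAt_fst hb.pos
  refine ⟨interior {u : E d | 0 < u.1 ∧ D.NN u < 1 ∧ (∀ p, Grad D.NN p u → Nonconst p.2) ∧
      ∀ (pa : ℝ) (ρ : RD d), ρ.Opt D u pa → Nonconst ρ.q → ρ.Nice D u v}, v, isOpen_interior,
    ⟨u₀, mem_interior_iff_mem_nhds.2 ?_⟩, v0, v1, fun u hu => (interior_subset hu :)⟩
  filter_upwards [hc, h1, h0, hpb] with u hc h1 h0 hpb
  refine ⟨h0, h1, fun p hp => ?_, fun a ρ ho _ => ?_⟩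
  · have hl : 0 < ell u := (abs_pos.2 h0.ne').trans_le (le_max_left _ _)
    obtain ⟨m, M, k1, k2, k3, k4⟩ := hATT d S D hS u h0.le hl
    obtain ⟨k5, k6⟩ := hSUBG d S D hS u p m M h0 hp k1 k2 k4
    exact ⟨j, hj, (hc p.2 m M k1 k2 k3 k5 k4 k6).2.1⟩
  · obtain ⟨hr, hB, -, kM, -, km, -⟩ := ho
    obtain ⟨k1, k2⟩ := hPUB d S D hS u ρ h0.le hr
    obtain ⟨a1, -, a3, a4⟩ := hc ρ.q ρ.m ρ.M hr.1 hr.2.1 hr.2.2.1 hr.2.2.2.1 (k1.trans hB) hB
    have nz : ∀ x, |ev ρ.q 0 x| < D.Q → ρ.muAt x = 0 := fun x hx =>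
      if_neg fun hz => hx.ne (hr.2.2.2.2.1 x hz).2.2.1
    have em : ρ.m = 0 := hr.1.eq_of_not_lt fun h => by
      have := km h
      rw [RD.Dm, nz _ a3, zero_mul, add_zero] at this
      exact (hS.om_pos' a3).ne' this
    have eM : ρ.M = u.1 := (hr.2.1.eq_of_not_lt fun h => by
      have := kM h
      rw [RD.DM, nz _ a4, zero_mul, sub_zero] at this
      exact (hS.om_pos' a4).ne' this).symm
    exact hn a1 hpb ρ rfl hr em eM (by linarith)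

end Pool.Agent.P.MP_a0f0ad_al.Fi
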