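import Pool.Agent.P.MP_a0f0ad_al.Fi.T.Iface3
import Pool.Agent.P.MP_a0f0ad_al.Fi.T.EBasic

/-! Step EXS of the filiform project. -/

namespace Pool.Agent.P.MP_a0f0ad_al.Fi

open Finset MeasureTheory Filter Topology

namespace ExsA

variable {d : ℕ} {S : Finset (G d)} {D : LD d} {q : Fin d → ℝ} {a w : ℝ}

theorem idx_ae (h : D.Spec S) (hq : Nonconst q) (ha : 0 ≤ a)
    (hth : ∀ k < D.n, ∀ x ∈ Set.Icc 0 a, D.th k ≤ ev q 0 x) :
    ∀ᵐ x : ℝ, x ∈ Set.uIoc 0 a → D.idx (ev q 0 x) = D.n := by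
  have hf : {x | ev q 0 x ∈ eTh D}.Finite :=
    ((eTh_finite D).biUnion fun w _ => (hq.finite_level w).1).subset fun _ hx =>
      Set.mem_biUnion hx rfl
  filter_upwards [hf.countable.ae_notMem volume] with x hx hx'
  rw [Set.uIoc_of_le ha] at hx'
  exact (h.idx_eq_iff le_rfl _).2 ⟨fun l hl => (hth l hl x ⟨hx'.1.le, hx'.2⟩).lt_of_ne
    fun e => hx ⟨l, hl, e.symm⟩, fun k => absurd k (lt_irrefl _)⟩

theorem bf (h : D.Spec S) (hq : Nonconst q) (ha : 0 ≤ a)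
    (hth : ∀ k < D.n, ∀ x ∈ Set.Icc 0 a, D.th k ≤ ev q 0 x) :
    D.Bf q 0 a (a, D.Yq q 0 a a) = a * ((D.A D.n).a : ℝ)⁻¹ := by
  have c : Continuous (ev q 0) := continuous_ev q 0
  have c' : Continuous fun x => D.lp (ev q 0 x) := h.continuous_lp.comp c
  simp only [LD.Bf, h.dot_Yq, intervalIntegral.integral_same, sub_zero, add_zero]
  rw [← intervalIntegral.integral_add (h.ii_kp c c 0 a) (c'.intervalIntegrable 0 a),
    intervalIntegral.integral_congr_ae (g := fun _ => ((D.A D.n).a : ℝ)⁻¹)]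
  · simp
  · filter_upwards [idx_ae h hq ha hth] with x hx hx'
    rw [D.lp_eq, hx hx']
    ring

theorem cst (hd : 1 ≤ d) (h : D.Spec S) (hq : Nonconst q) (ha : 0 ≤ a)
    (hth : ∀ k < D.n, ∀ x ∈ Set.Icc 0 a, D.th k ≤ ev q 0 x) (hw : ∀ k < D.n, D.th k < w) :
    w * co (D.Yq q 0 a a) 0 + a * D.lp w = a * ((D.A D.n).a : ℝ)⁻¹ := by
  have e : D.idx w = D.n := (h.idx_eq_iff le_rfl _).2 ⟨hw, fun k => absurd k (lt_irrefl _)⟩
  rw [← dot_eC, h.dot_Yq]
  simp only [intervalIntegral.integral_same, sub_zero, ev_eC hd]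
  rw [intervalIntegral.integral_congr_ae (g := fun _ => D.kap D.n * w), D.lp_eq, LD.kp, e]
  · simp only [intervalIntegral.integral_const, sub_zero, smul_eq_mul]
    ring
  · filter_upwards [idx_ae h hq ha hth] with x hx hx'
    rw [LD.kp, hx hx']

end ExsA

theorem p_EXS (hECB : S_ECB) :
    S_EXS := by
  intro d S D q₀ a w γ Z τ hd h hq ha hγ hth
  obtain ⟨c1, c2⟩ := hECB d S D h
  let U : (Fin d → ℝ) × ℝ → E d := fun p => (a, D.Yq p.1 0 a a + ∑ z ∈ Z, (p.2 * τ z) • Vd 0 z)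
  have cY : ContinuousAt (fun p : (Fin d → ℝ) × ℝ => D.Yq p.1 0 a a) (q₀, 0) :=
    ContinuousAt.comp (g := fun x : (Fin d → ℝ) × ℝ × ℝ × ℝ => D.Yq x.1 x.2.1 x.2.2.1 x.2.2.2)
      (f := fun p : (Fin d → ℝ) × ℝ => (p.1, 0, a, a)) (c2 q₀ 0 a a hq) (by fun_prop)
  have cU : ContinuousAt U (q₀, 0) := continuousAt_const.prodMk (cY.add (by fun_prop))
  have cB : ContinuousAt (fun p : (Fin d → ℝ) × ℝ => D.Bf p.1 0 a (U p)) (q₀, 0) :=
    ContinuousAt.comp (g := fun x : (Fin d → ℝ) × ℝ × ℝ × E d => D.Bf x.1 x.2.1 x.2.2.1 x.2.2.2)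
      (f := fun p : (Fin d → ℝ) × ℝ => (p.1, 0, a, U p)) c1.continuousAt
      (continuousAt_fst.prodMk (continuousAt_const.prodMk (continuousAt_const.prodMk cU)))
  have cC : ContinuousAt (fun p : (Fin d → ℝ) × ℝ => w * co (U p).2 0 + a * D.lp w + γ) (q₀, 0) :=
    ((continuousAt_const.mul (continuous_co0.continuousAt.comp cU.snd)).add
      continuousAt_const).add continuousAt_const
  have e : U (q₀, 0) = (a, D.Yq q₀ 0 a a) := by simp [U]
  have b := ExsA.bf h hq ha fun k hk => (hth k hk).2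
  have c := ExsA.cst hd h hq ha (fun k hk => (hth k hk).2) fun k hk => (hth k hk).1
  have h1 : (1 : ℝ) ≤ (D.A D.n).a := by exact_mod_cast (h.memA _ le_rfl).2
  have h2 := mul_le_of_le_one_right ha (inv_le_one_of_one_le₀ h1)
  filter_upwards [cB.eventually_lt (continuousAt_const (y := a + γ)) (by rw [e, b]; linarith),
    cB.eventually_lt cC (by rw [e, b, c]; linarith)] with p p1 p2 u hu
  subst hu
  exact ⟨p1, p2⟩

end Pool.Agent.P.MP_a0f0ad_al.Fi
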