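import Pool.Agent.P.MP_a0f0ad_al.Fi.T.Iface3
import Pool.Agent.P.MP_a0f0ad_al.Fi.T.EBasic

/-! Step ENC of the filiform project. -/

namespace Pool.Agent.P.MP_a0f0ad_al.Fi

open Finset MeasureTheory Filter Topology

namespace EncA

variable {d : ℕ} {D : LD d} {ρ₀ : RD d} {u₀ : E d}

/-- the margins that depend on the polynomial and the height only -/
theorem joint (h : EBase D ρ₀ u₀) :
    ∀ᶠ x : ℝ × ((Fin d → ℝ) × ℝ) in 𝓝 (0, (ρ₀.q, u₀.1)),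
      (x.1 < x.2.2 ∧ x.1 < x.2.2 ^ d ∧ x.1 * ‖x.2.1‖ < 1 ∧ x.1 < 1 ∧ x.2.2 < u₀.1 + 1) ∧
      ((∀ w ∈ D.ThA, x.1 < |ev x.2.1 0 0 - w|) ∧ ∀ w ∈ D.ThA, x.1 < |ev x.2.1 0 x.2.2 - w|) ∧
      ∀ y ∈ Set.Icc 0 (u₀.1 + 1), |ev x.2.1 1 y| ≤ x.1 → x.1 ≤ |ev x.2.1 2 y| := by
  refine Eventually.and (Eventually.and ?_ (Eventually.and ?_ (Eventually.and ?_
    (Eventually.and ?_ ?_)))) (Eventually.and (Eventually.and ?_ ?_) ?_)
  · exact ContinuousAt.eventually_lt (by fun_prop) (by fun_prop) h.pos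
  · exact ContinuousAt.eventually_lt (by fun_prop) (by fun_prop) (pow_pos h.pos d)
  · exact ContinuousAt.eventually_lt (by fun_prop) (by fun_prop) (by simp)
  · exact ContinuousAt.eventually_lt (by fun_prop) (by fun_prop) zero_lt_one
  · exact ContinuousAt.eventually_lt (by fun_prop) (by fun_prop) (lt_add_one _)
  · refine (eventually_all_finite D.finite_ThA).2 fun w hw => ?_
    refine Continuous.continuousAt ?_ |>.eventually_lt (Continuous.continuousAt ?_)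
      (abs_pos.2 (sub_ne_zero.2 fun e => h.e0 (e ▸ hw))) <;> fun_prop
  · refine (eventually_all_finite D.finite_ThA).2 fun w hw => ?_
    refine Continuous.continuousAt ?_ |>.eventually_lt (Continuous.continuousAt ?_)
      (abs_pos.2 (sub_ne_zero.2 fun e => h.e1 (e ▸ hw))) <;> fun_prop
  · refine isCompact_Icc.eventually_forall_of_forall_eventually
      (P := fun (x : ℝ × ((Fin d → ℝ) × ℝ)) (y : ℝ) => |ev x.2.1 1 y| ≤ x.1 → x.1 ≤ |ev x.2.1 2 y|)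
      fun y _ => ?_
    have key : ∀ k, ev ρ₀.q k y ≠ 0 → ∀ᶠ z : (ℝ × ((Fin d → ℝ) × ℝ)) × ℝ in
        𝓝 ((0, (ρ₀.q, u₀.1)), y), z.1.1 < |ev z.1.2.1 k z.2| := fun k hk => by
      refine Continuous.continuousAt ?_ |>.eventually_lt (Continuous.continuousAt ?_)
        (abs_pos.2 hk) <;> fun_prop
    by_cases hy : ev ρ₀.q 1 y = 0
    · filter_upwards [key 2 (h.crit y hy).2.2.1] with z hz _ using hz.le
    · filter_upwards [key 1 hy] with z hz k using absurd k hz.not_ge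

end EncA

theorem p_ENC (hESR : S_ESR) (hEAT : S_EAT) (hEDN : S_EDN) (hEMG : S_EMG) :
    S_ENC := by
  intro d S D ρ₀ u₀ hd hS h
  have hc : h.lev_finite.toFinset.card + 2 * ρ₀.Z.card = d + 2 := by
    rw [← h.count, Set.ncard_eq_toFinset_card _ h.lev_finite]
  obtain ⟨v0, η, hv0, hη, hden⟩ :=
    hEDN d h.lev_finite.toFinset ρ₀.Z (h.lev_disjoint hS) (by omega)
  have h1 := ENear.of_nhds' (D := D) (ρ₀ := ρ₀) (u₀ := u₀)
    (hESR d 0 ρ₀.q (eTh D) u₀.1 η (eTh_finite D) h.lev_finite (h.lev_simple hS) hη)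
  have h2 := hEAT d S D ρ₀ u₀ η hd hS h hη
  have h3 := (EncA.joint h).curry_nhds.filter_mono (nhdsWithin_le_nhds (s := Set.Ioi 0))
  have h4 : ∀ᶠ v in 𝓝[>] (0 : ℝ), v ∈ Set.Ioo 0 v0 := Ioo_mem_nhdsGT hv0
  obtain ⟨v, ⟨hv, hvv⟩, k3, k4⟩ := (h4.and (h3.and (hEMG d S D ρ₀ u₀ hd hS h))).exists
  refine ⟨v, hv, k3.self_of_nhds.1.2.2.2.1.le, ?_⟩
  refine ((h1.and h2).and ((ENear.of_nhds' k3).and k4)).mono ?_
  rintro ρ u hr hm hM - ⟨⟨⟨ψ, b1, c1⟩, φ, b2, c2⟩, ⟨⟨a1, a2, a3, -, a5⟩, ⟨e0, e1⟩, e2⟩, r1, r2⟩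
  dsimp only at b1 a1 a2 a3 a5 e0 e1 e2
  have hT : ∀ z ∈ ρ.Z, ρ.IsT u.1 z := fun z hz => by
    obtain ⟨y, hy, rfl⟩ := b2.surjOn hz
    exact (c2 y hy).2.2
  have hN : ρ.eN D u.1 = d + 2 := by
    rw [eN_eq fun z hz => (hT z hz).2.1, lev_eq hm hM, ← h.count, ← b1.ncard_eq,
      ← Set.ncard_coe_finset, ← b2.ncard_eq, Set.ncard_coe_finset]
  have hu : 0 < u.1 := hv.trans a1
  refine ⟨⟨a1.le, a2.le.trans ?_, ?_, a3.le, r1, r2, ?_, ?_⟩, ?_, hm, hM, hT, by omega, hN.le⟩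
  · exact pow_le_pow_left₀ hu.le ((le_abs_self _).trans (le_max_left _ _)) d
  · rw [hm, hM, sub_zero]
    exact a2.le
  · rintro x (rfl | rfl)
    · exact Or.inr fun w hw => (e0 w hw).le
    · exact Or.inr fun w hw => (e1 w hw).le
  · intro f e he f1 f2
    refine (mul_le_mul_of_nonneg_right hvv.le (norm_nonneg _)).trans (hden f e he ?_ ?_)
    · intro x hx
      have hx' := h.lev_finite.mem_toFinset.1 hx
      exact ⟨ψ x, c1 x hx', f1 _ (by rw [lev_eq hm hM]; exact b1.mapsTo hx')⟩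
    · intro x hx
      have k := b2.mapsTo hx
      exact ⟨φ x, (c2 x hx).1, (f2 _ k).1, (f2 _ k).2 (hT _ k).2.1⟩
  · rintro x ⟨x1, x2⟩
    exact e2 x ⟨hm ▸ x1, (hM ▸ x2 : x ≤ u.1).trans a5.le⟩

end Pool.Agent.P.MP_a0f0ad_al.Fi
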