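import Pool.Agent.P.MP_a0f0ad_al.Fi.N.Iface

/-! Chapter T, part three: the steps for the open set of the strict gain. -/

namespace Pool.Agent.P.MP_a0f0ad_al.Fi

open Finset MeasureTheory Filter Topology

/-- the centre of the nice set -/
structure EBase {d : ℕ} (D : LD d) (ρ : RD d) (u : E d) : Prop where
  pos : 0 < u.1
  rep : ρ.Rep D u
  m0 : ρ.m = 0
  M0 : ρ.M = u.1
  crit : ∀ x, ev ρ.q 1 x = 0 →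
    0 < x ∧ x < u.1 ∧ ev ρ.q 2 x ≠ 0 ∧ (x ∈ ρ.Z ∨ ev ρ.q 0 x ∉ D.ThA)
  e0 : ev ρ.q 0 0 ∉ D.ThA
  e1 : ev ρ.q 0 u.1 ∉ D.ThA
  cnt : ρ.eN D u.1 = d + 2

/-- the range of the centre is isolated among the best ranges -/
def EIso {d : ℕ} (D : LD d) (ρ : RD d) (u : E d) : Prop :=
  D.Bf ρ.q 0 u.1 u < 1 ∧ ∃ w δ : ℝ, 0 < δ ∧ |w| < D.Q ∧ D.Feas ρ.q (-δ) (u.1 + δ) ∧
    D.Bf ρ.q 0 u.1 u < w * co u.2 0 + u.1 * D.lp w + D.om w * δ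

/-- `P` holds for the representations with the shortest range near the centre -/
def ENear {d : ℕ} (D : LD d) (ρ₀ : RD d) (u₀ : E d) (P : RD d → E d → Prop) : Prop :=
  ∀ᶠ p : (Fin d → ℝ) × E d in 𝓝 (ρ₀.q, u₀), ∀ ρ : RD d, ρ.q = p.1 → ρ.Rep D p.2 → ρ.m = 0 →
    ρ.M = p.2.1 → D.Q * ∑ z ∈ ρ.Z, |ρ.mu z| ≤ 1 → P ρ p.2

/-- the points of `(0, a)` where the derivative of order `k` takes a value in `W` -/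
def eSet {d : ℕ} (q : Fin d → ℝ) (k : ℕ) (W : Set ℝ) (a : ℝ) : Set ℝ :=
  {x | 0 < x ∧ x < a ∧ ev q k x ∈ W}

-- deps:
-- imports: Pool.Agent.P.MP_a0f0ad_al.Fi.T.EBasic
/-- a rescaled Chebyshev polynomial -/
def S_ECH : Prop :=
  ∀ d s : ℕ, 2 ≤ s → s < d → ∃ (t : Fin d → ℝ) (δ : ℝ) (P N : Finset ℝ), 0 < δ ∧
    (∀ x ∈ Set.Icc (-δ) (1 / 2 + δ), |ev t 0 x| ≤ 1) ∧ ev t 0 0 = 0 ∧ ev t 0 (1 / 2) = 0 ∧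
    P.card + N.card + 1 = s ∧ (∀ z ∈ P, 0 < z ∧ z < 1 / 2 ∧ ev t 0 z = 1) ∧
    (∀ z ∈ N, 0 < z ∧ z < 1 / 2 ∧ ev t 0 z = -1) ∧
    (∀ x, ev t 1 x = 0 → (x ∈ P ∨ x ∈ N) ∧ ev t 2 x ≠ 0) ∧
    ∀ l : ℝ, -1 < l → l < 0 → (eSet t 0 {l} (1 / 2)).ncard = 2 * N.card

-- deps:
-- imports: Pool.Agent.P.MP_a0f0ad_al.Fi.T.EBasic
/-- continuity of the dual functional and of the deposit -/
def S_ECB : Prop :=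
  ∀ (d : ℕ) (S : Finset (G d)) (D : LD d), D.Spec S →
    (Continuous fun x : (Fin d → ℝ) × ℝ × ℝ × E d => D.Bf x.1 x.2.1 x.2.2.1 x.2.2.2) ∧
    ∀ (q : Fin d → ℝ) (m M a : ℝ), Nonconst q →
      ContinuousAt (fun x : (Fin d → ℝ) × ℝ × ℝ × ℝ => D.Yq x.1 x.2.1 x.2.2.1 x.2.2.2)
        (q, m, M, a)

-- deps:
-- imports: Pool.Agent.P.MP_a0f0ad_al.Fi.T.EBasic
/-- simple roots are stable -/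
def S_ESR : Prop :=
  ∀ (d k : ℕ) (q₀ : Fin d → ℝ) (W : Set ℝ) (a₀ η : ℝ), W.Finite → (eSet q₀ k W a₀).Finite →
    (∀ x, 0 ≤ x → x ≤ a₀ → ev q₀ k x ∈ W → 0 < x ∧ x < a₀ ∧ ev q₀ (k + 1) x ≠ 0) → 0 < η →
    ∀ᶠ p : (Fin d → ℝ) × ℝ in 𝓝 (q₀, a₀), ∃ ψ : ℝ → ℝ,
      Set.BijOn ψ (eSet q₀ k W a₀) (eSet p.1 k W p.2) ∧ ∀ x ∈ eSet q₀ k W a₀, |ψ x - x| ≤ η

-- deps: ECB ESR
-- imports: Pool.Agent.P.MP_a0f0ad_al.Fi.T.EBasic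
/-- the atoms are stable -/
def S_EAT : Prop :=
  ∀ (d : ℕ) (S : Finset (G d)) (D : LD d) (ρ₀ : RD d) (u₀ : E d) (η : ℝ), 2 ≤ d → D.Spec S →
    EBase D ρ₀ u₀ → 0 < η →
    ENear D ρ₀ u₀ fun ρ u => ∃ ψ : ℝ → ℝ, Set.BijOn ψ ρ₀.Z ρ.Z ∧
      ∀ z ∈ ρ₀.Z, |ψ z - z| ≤ η ∧ |ρ.mu (ψ z) - ρ₀.mu z| ≤ η ∧ ρ.IsT u.1 (ψ z)

-- deps:
-- imports: Pool.Agent.P.MP_a0f0ad_al.Fi.T.EBasic
/-- stable Hermite interpolation -/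
def S_EDN : Prop :=
  ∀ (d : ℕ) (A B : Finset ℝ), Disjoint A B → d ≤ A.card + 2 * B.card →
    ∃ v η : ℝ, 0 < v ∧ 0 < η ∧ ∀ (f : Fin d → ℝ) (e : ℝ), 0 ≤ e →
      (∀ x ∈ A, ∃ y, |y - x| ≤ η ∧ |ev f 0 y| ≤ e) →
      (∀ x ∈ B, ∃ y, |y - x| ≤ η ∧ |ev f 0 y| ≤ e ∧ |ev f 1 y| ≤ e) → v * ‖f‖ ≤ e

-- deps: EAT
-- imports: Pool.Agent.P.MP_a0f0ad_al.Fi.T.EBasic
/-- the margins at the atoms and at the levels -/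
def S_EMG : Prop :=
  ∀ (d : ℕ) (S : Finset (G d)) (D : LD d) (ρ₀ : RD d) (u₀ : E d), 2 ≤ d → D.Spec S →
    EBase D ρ₀ u₀ → ∀ᶠ v : ℝ in 𝓝[>] 0, ENear D ρ₀ u₀ fun ρ u =>
      (∀ z, ρ.IsT u.1 z → v ≤ |ρ.mu z| ∧ 2 * v ≤ |z| ∧ 2 * v ≤ |z - u.1| ∧
        ∀ x, |x - z| ≤ v → v ≤ |ev ρ.q 2 x|) ∧
      ∀ x, |x| ≤ D.Lam → ∀ w ∈ D.ThA, |ev ρ.q 0 x - w| ≤ v →
        v ^ 2 ≤ |ev ρ.q 1 x| ∨ ∃ z, ρ.IsT u.1 z ∧ |x - z| ≤ v ∧ ev ρ.q 0 z = w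

-- deps: ESR EAT EDN EMG
-- imports: Pool.Agent.P.MP_a0f0ad_al.Fi.T.EBasic
/-- representations near the centre are nice -/
def S_ENC : Prop :=
  ∀ (d : ℕ) (S : Finset (G d)) (D : LD d) (ρ₀ : RD d) (u₀ : E d), 2 ≤ d → D.Spec S →
    EBase D ρ₀ u₀ → ∃ v : ℝ, 0 < v ∧ v ≤ 1 ∧ ENear D ρ₀ u₀ fun ρ u => ρ.Nice D u v

-- deps:
-- imports: Pool.Agent.P.MP_a0f0ad_al.Fi.T.EBasic
/-- the dual optimum at the centre is unique -/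
def S_EUQ : Prop :=
  ∀ (d : ℕ) (S : Finset (G d)) (D : LD d) (ρ₀ : RD d) (u₀ : E d), D.Spec S →
    EBase D ρ₀ u₀ → ∀ q, D.Feas q 0 u₀.1 → D.Bf ρ₀.q 0 u₀.1 u₀ ≤ D.Bf q 0 u₀.1 u₀ → q = ρ₀.q

-- deps: MARK
-- imports: Pool.Agent.P.MP_a0f0ad_al.Fi.T.EBasic
/-- feasible polynomials with their ranges form a compact set -/
def S_ECP : Prop :=
  ∀ (d : ℕ) (D : LD d) (l L : ℝ), 0 < l →
    IsCompact {x : (Fin d → ℝ) × ℝ × ℝ | -L ≤ x.2.1 ∧ x.2.1 ≤ 0 ∧ l ≤ x.2.2 ∧ x.2.2 ≤ L ∧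
      D.Feas x.1 x.2.1 x.2.2}

-- deps: PEN HOM PUB ECB ECP
-- imports: Pool.Agent.P.MP_a0f0ad_al.Fi.T.EBasic
/-- upper semicontinuity of the limit length, and a bound for the best ranges -/
def S_EUS : Prop :=
  ∀ (d : ℕ) (S : Finset (G d)) (D : LD d) (ρ₀ : RD d) (u₀ : E d), 1 ≤ d → D.Spec S →
    EBase D ρ₀ u₀ →
    (∀ γ : ℝ, 0 < γ → ∀ᶠ u in 𝓝 u₀, D.NN u < D.Bf ρ₀.q 0 u₀.1 u₀ + γ) ∧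
    (EIso D ρ₀ u₀ → ∃ δ : ℝ, 0 < δ ∧ D.Feas ρ₀.q (-δ) (u₀.1 + δ) ∧ ∀ᶠ u : E d in 𝓝 u₀,
      ∀ m M, m ≤ 0 → u.1 ≤ M → m < M → D.Psi m M u = D.NN u → -δ ≤ m ∧ M ≤ u₀.1 + δ)

-- deps: PEN ECB ECP EUQ EUS
-- imports: Pool.Agent.P.MP_a0f0ad_al.Fi.T.EBasic
/-- best ranges and dual optima converge -/
def S_ECV : Prop :=
  ∀ (d : ℕ) (S : Finset (G d)) (D : LD d) (ρ₀ : RD d) (u₀ : E d), 1 ≤ d → D.Spec S →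
    EBase D ρ₀ u₀ → EIso D ρ₀ u₀ → ∀ s ∈ 𝓝 (ρ₀.q, (0 : ℝ), u₀.1), ∀ᶠ u : E d in 𝓝 u₀,
      ∀ q m M, m ≤ 0 → u.1 ≤ M → m < M → D.Feas q m M → D.Psi m M u = D.NN u →
        D.Bf q m M u = D.NN u → (q, m, M) ∈ s

-- deps: ECB
-- imports: Pool.Agent.P.MP_a0f0ad_al.Fi.T.EBasic
/-- near a polynomial with values above all thresholds the constants are almost optimal -/
def S_EXS : Prop :=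
  ∀ (d : ℕ) (S : Finset (G d)) (D : LD d) (q₀ : Fin d → ℝ) (a w γ : ℝ) (Z : Finset ℝ)
    (τ : ℝ → ℝ), 1 ≤ d → D.Spec S → Nonconst q₀ → 0 ≤ a → 0 < γ →
    (∀ k < D.n, D.th k < w ∧ ∀ x ∈ Set.Icc 0 a, D.th k ≤ ev q₀ 0 x) →
    ∀ᶠ p : (Fin d → ℝ) × ℝ in 𝓝 (q₀, 0), ∀ u : E d,
      u = (a, D.Yq p.1 0 a a + ∑ z ∈ Z, (p.2 * τ z) • Vd 0 z) →
      D.Bf p.1 0 a u < a + γ ∧ D.Bf p.1 0 a u < w * co u.2 0 + a * D.lp w + γ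

-- deps: ECH EXS
-- imports: Pool.Agent.P.MP_a0f0ad_al.Fi.T.EBasic
/-- a centre exists -/
def S_EBS : Prop :=
  ∀ (d : ℕ) (S : Finset (G d)) (D : LD d), 6 ≤ d → Even d → D.Spec S →
    ∃ (ρ : RD d) (u : E d), EBase D ρ u ∧ EIso D ρ u

-- deps: ATT SUBG PUB ENC EUS ECV EBS
-- imports: Pool.Agent.P.MP_a0f0ad_al.Fi.T.EBasic
def S_EXRA : Prop := S_EXR

end Pool.Agent.P.MP_a0f0ad_al.Fi
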