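import Pool.Agent.P.MP_a0f0ad_al.Fi.T.Iface2
import Pool.Agent.P.MP_a0f0ad_al.Fi.F.Iface
import Pool.Agent.P.MP_a0f0ad_al.Fi.Z.Bf

/-! Chapter T: the steps of the proof of FLAT. -/

namespace Pool.Agent.P.MP_a0f0ad_al.Fi

open Finset MeasureTheory
open scoped Classical

variable {d : ℕ}

/-- the primitive of the moment curve -/
noncomputable def Wv (x : ℝ) : Fin d → ℝ := fun j => x ^ ((j : ℕ) + 1) / (((j : ℕ) : ℝ) + 1)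

/-- a frame for the constant dual polynomial `w` and the height component `pa` -/
def Frame.FC (F : Frame d) (S : Finset (G d)) (K0 : ℕ) (YY : Finset (G d)) (N : ℕ)
    (L w pa : ℝ) (u : E d) : Prop :=
  F.OK S K0 ∧ F.HasJ ∧ F.yF = u.2 ∧ F.pos F.m = u.1 ∧ F.m ≤ N ∧ (∀ i ≤ F.m, |F.pos i| ≤ L) ∧
    (∀ i < F.m, F.Y i ∈ YY ∧ (F.t i : ℝ) = w * ((F.Y i).b : ℝ) + pa * ((F.Y i).a : ℝ)) ∧
    ∀ f : Fin d → ℝ, (∀ c ∈ F.Cone S K0, dot f c ≤ 0) → ¬ Nonconst f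

-- deps:
/-- from the short list of properties to an ideal path -/
def S_LFP : Prop :=
  ∀ (d : ℕ) (S YY : Finset (G d)) (N : ℕ) (L B : ℝ), 1 ≤ d → Sym S → ∃ C : ℝ,
    ∀ (F : Frame d) (K0 : ℕ) (u p : E d) (Nu : ℝ), F.FC S K0 YY N L (co p.2 0) p.1 u →
      ¬ Nonconst p.2 → |co p.2 0| ≤ B → |p.1| ≤ B → Nu = co p.2 0 * co u.2 0 + p.1 * u.1 →
      Nu ≤ 1 → F.FP S K0 YY C u p Nu

-- deps:
/-- a convex cone whose polar consists of constants fills the hyperplane -/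
def S_LCON : Prop :=
  ∀ (d : ℕ) (C : Set (Fin d → ℝ)), 0 ∈ C → (∀ x ∈ C, ∀ y ∈ C, x + y ∈ C) →
    (∀ x ∈ C, ∀ t : ℝ, 0 ≤ t → t • x ∈ C) → (∀ x ∈ C, co x 0 = 0) →
    (∀ f : Fin d → ℝ, (∀ c ∈ C, dot f c ≤ 0) → ¬ Nonconst f) →
    ∀ e : Fin d → ℝ, co e 0 = 0 → e ∈ C

-- deps:
/-- power sums of movable points cover a ball -/
def S_LPOW : Prop :=
  ∀ (d : ℕ) (lo hi : ℝ), lo < hi → ∃ (t : ℕ → ℝ) (ρ : ℝ), 0 < ρ ∧ (∀ l, lo ≤ t l ∧ t l ≤ hi) ∧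
    ∀ e : Fin d → ℝ, co e 0 = 0 → ‖e‖ ≤ ρ → ∃ x : ℕ → ℝ, (∀ l, lo ≤ x l ∧ x l ≤ hi) ∧
      ∑ l ∈ range (d - 1), (Vd 0 (x l) : Fin d → ℝ) = ∑ l ∈ range (d - 1), Vd 0 (t l) + e

-- deps: LPOW
/-- a junction gives movable units -/
def S_LHB : Prop :=
  ∀ (d : ℕ) (S : Finset (G d)) (K0 K : ℕ) (F : Frame d), 0 < K → F.OK S K0 → F.HasJ →
    ∃ (β : Fin d → ℝ) (ρ : ℝ), 0 < ρ ∧ F.HasB K β ρ ∧ ‖β‖ ≤ 1

-- deps: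
/-- smooth images of smaller dimension are null -/
def S_LNUL : Prop :=
  ∀ (d : ℕ) (P : Type) [NormedAddCommGroup P] [NormedSpace ℝ P] [FiniteDimensional ℝ P]
    (Φ : P → E d), ContDiff ℝ 1 Φ → Module.finrank ℝ P ≤ d → ∀ᵐ u : E d, u ∉ Set.range Φ

-- deps: LNUL
-- imports: Pool.Agent.P.MP_a0f0ad_al.Fi.T.LBase
/-- few switches: a null set -/
def S_LNB : Prop :=
  ∀ (d : ℕ) (κ : ℕ → ℝ), ∀ᵐ u : E d, ∀ (r : ℕ) (x : ℕ → ℝ), x 0 = 0 → x (r + 1) = u.1 →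
    u.2 = ∑ i ∈ range (r + 1), κ i • (Wv (x (i + 1)) - Wv (x i)) → d ≤ r

-- deps: LNUL
-- imports: Pool.Agent.P.MP_a0f0ad_al.Fi.T.LBase
/-- few atoms: a null set -/
def S_LNQ : Prop :=
  ∀ (d : ℕ) (κ1 κ2 : ℝ), ∀ᵐ u : E d, ∀ (m M : ℝ) (Z : Finset ℝ) (mu : ℝ → ℝ),
    m ≤ 0 → u.1 ≤ M → m < M →
    u.2 = κ1 • (Wv M - Wv m) - κ2 • ((Wv 0 - Wv m) + (Wv M - Wv u.1)) +
      ∑ z ∈ Z, mu z • Vd 0 z →
    d ≤ (if m < 0 then 1 else 0) + (if u.1 < M then 1 else 0) +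
      ∑ z ∈ Z, if z = m ∨ z = M then 1 else 2

-- deps:
/-- the moment problem with a bounded density has a bang-bang solution -/
def S_LBB : Prop :=
  ∀ (d : ℕ) (a : ℝ) (y : Fin d → ℝ), 0 < a →
    (∀ f : Fin d → ℝ, dot f y ≤ ∫ x in (0 : ℝ)..a, max (ev f 0 x) 0) →
    ∃ φ : Fin (d + 1) → ℝ, φ ≠ 0 ∧
      ∀ j : Fin d, y j = ∫ x in (0 : ℝ)..a, if 0 < ev φ 0 x then x ^ (j : ℕ) else 0

-- deps: TSGN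
/-- the switch points of a polynomial -/
def S_LSW : Prop :=
  ∀ (n : ℕ) (φ : Fin (n + 1) → ℝ) (a : ℝ), φ ≠ 0 → 0 < a →
    ∃ (r ε : ℕ) (x : ℕ → ℝ), r ≤ n ∧ x 0 = 0 ∧ x (r + 1) = a ∧ (∀ i ≤ r, x i < x (i + 1)) ∧
      ∀ j : ℕ, (∫ t in (0 : ℝ)..a, if 0 < ev φ 0 t then t ^ j else 0) =
        ∑ i ∈ range (r + 1), (if Even (i + ε) then (1 : ℝ) else 0) *
          (x (i + 1) ^ (j + 1) / ((j : ℝ) + 1) - x i ^ (j + 1) / ((j : ℝ) + 1))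

-- deps: PEN
-- imports: Pool.Agent.P.MP_a0f0ad_al.Fi.T.LBase
/-- the first variation at an interior constant -/
def S_LVAR : Prop :=
  ∀ (d : ℕ) (S : Finset (G d)) (D : LD d), D.Spec S → ∀ (u : E d) (q : Fin d → ℝ), 0 < u.1 →
    ¬ Nonconst q → |co q 0| < D.Q → D.Bf q 0 u.1 u = D.Psi 0 u.1 u →
    ∃ k k', k ≤ D.n ∧ k' ≤ D.n ∧ (k' = k ∨ k' = k + 1) ∧
      D.lp (co q 0) = (((D.A k).a : ℝ))⁻¹ - D.kap k * co q 0 ∧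
      D.lp (co q 0) = (((D.A k').a : ℝ))⁻¹ - D.kap k' * co q 0 ∧
      ∀ f : Fin d → ℝ, dot f (u.2 - D.kap k • Wv u.1) ≤
        (D.kap k' - D.kap k) * ∫ x in (0 : ℝ)..u.1, max (ev f 0 x) 0

-- deps:
-- imports: Pool.Agent.P.MP_a0f0ad_al.Fi.T.LBase
/-- the frame of a bang-bang path -/
def S_LFT : Prop :=
  ∀ (d : ℕ) (S : Finset (G d)) (K0 t0 t1 ε : ℕ) (U0 U1 : G d) (w pa : ℝ) (x : ℕ → ℝ) (u : E d),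
    1 ≤ d → 0 < K0 → U0.a = K0 → U1.a = K0 → U0.b ≠ U1.b → len S U0 ≤ t0 → len S U1 ≤ t1 →
    (t0 : ℝ) = w * (U0.b : ℝ) + pa * K0 → (t1 : ℝ) = w * (U1.b : ℝ) + pa * K0 →
    x 0 = 0 → x (d + 1) = u.1 → (∀ i ≤ d, x i < x (i + 1)) →
    u.2 = ∑ i ∈ range (d + 1), ((if Even (i + ε) then (U1.b : ℝ) else (U0.b : ℝ)) / K0) •
      (Wv (x (i + 1)) - Wv (x i)) →
    ∃ F : Frame d, F.FC S K0 {U0, U1} (d + 1) u.1 w pa u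

-- deps: LNB LBB LSW LVAR LFT
-- imports: Pool.Agent.P.MP_a0f0ad_al.Fi.T.LBase
/-- the case of an interior constant -/
def S_LTH : Prop :=
  ∀ (d : ℕ) (S : Finset (G d)) (D : LD d), 1 ≤ d → D.Spec S → ∃ YY : Finset (G d),
    ∀ᵐ u : E d, 0 < u.1 → ∀ q : Fin d → ℝ, ¬ Nonconst q → |co q 0| < D.Q →
      D.Bf q 0 u.1 u = D.Psi 0 u.1 u →
      ∃ F : Frame d, F.FC S D.K0 YY (d + 1) u.1 (co q 0) (D.lp (co q 0)) u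

-- deps:
/-- alternation with double nodes -/
def S_LALT : Prop :=
  ∀ (d : ℕ) (f : Fin d → ℝ) (s : ℝ) (I A B : Finset ℝ), s ≠ 0 → A.card ≤ 1 → B.card ≤ 1 →
    (∀ x ∈ A, ∀ z ∈ I, x < z) → (∀ x ∈ B, ∀ z ∈ I, z < x) → I.Nonempty →
    (∀ z ∈ I, ev f 1 z = 0 ∧ s * ev f 2 z ≤ 0) → (∀ x ∈ A, s * ev f 1 x ≤ 0) →
    (∀ x ∈ B, 0 ≤ s * ev f 1 x) → d ≤ 2 * I.card + A.card + B.card → ¬ Nonconst f

-- deps: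
-- imports: Pool.Agent.P.MP_a0f0ad_al.Fi.T.LBase
/-- the frame of a path with atoms -/
def S_LFQ : Prop :=
  ∀ (d K0 : ℕ) (U At Dn : G d) (tt : G d → ℕ) (m M a : ℝ) (Z : Finset ℝ) (mu : ℝ → ℝ),
    0 < K0 → U.a = K0 → At.a = 0 → Dn.a = -(K0 : ℤ) → m ≤ 0 → 0 ≤ a → a ≤ M → m < M →
    (∀ z ∈ Z, m ≤ z ∧ z ≤ M ∧ 0 < mu z * (At.b : ℝ)) →
    ∃ F : Frame d, F.m ≤ 2 * Z.card + 3 ∧
      (∀ i < F.m, F.Yh i = F.Y i ∧ F.t i = tt (F.Y i) ∧ 0 < F.nu i ∧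
        (F.Y i = U ∨ F.Y i = At ∨ (F.Y i = Dn ∧ (m < 0 ∨ a < M)))) ∧
      (∀ i ≤ F.m, m ≤ F.pos i ∧ F.pos i ≤ M) ∧ F.pos F.m = a ∧
      F.yF = ((U.b : ℝ) / K0) • (Wv M - Wv m) +
        ((Dn.b : ℝ) / K0) • ((Wv 0 - Wv m) + (Wv M - Wv a)) + ∑ z ∈ Z, mu z • Vd 0 z ∧
      (∀ z ∈ Z, ∃ i < F.m, F.Y i = At ∧ F.pos i = z ∧ (m < z → 1 ≤ i ∧ F.Y (i - 1) = U) ∧
        (z < M → i + 1 < F.m ∧ F.Y (i + 1) = U)) ∧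
      (m < 0 → m ∉ Z → ∃ j, 1 ≤ j ∧ j < F.m ∧ F.pos j = m ∧ F.Y (j - 1) = Dn ∧ F.Y j = U) ∧
      (a < M → M ∉ Z → ∃ j, 1 ≤ j ∧ j < F.m ∧ F.pos j = M ∧ F.Y (j - 1) = U ∧ F.Y j = Dn)

-- deps: KKT LNQ
-- imports: Pool.Agent.P.MP_a0f0ad_al.Fi.T.LBase
/-- the atoms of an extreme constant -/
def S_LQR : Prop :=
  ∀ (d : ℕ) (S : Finset (G d)) (D : LD d), D.Spec S →
    ∀ᵐ u : E d, 0 < u.1 → ∀ (q : Fin d → ℝ) (m M : ℝ), ¬ Nonconst q → |co q 0| = D.Q →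
      m ≤ 0 → u.1 ≤ M → D.Bf q m M u = D.Psi m M u →
      ∃ (Z : Finset ℝ) (mu : ℝ → ℝ), Z.card ≤ d ∧
        (∀ z ∈ Z, m ≤ z ∧ z ≤ M ∧ 0 < mu z * co q 0) ∧
        u.2 = D.kp (co q 0) • (Wv M - Wv m) -
          D.kp (-co q 0) • ((Wv 0 - Wv m) + (Wv M - Wv u.1)) + ∑ z ∈ Z, mu z • Vd 0 z ∧
        d ≤ (if m < 0 then 1 else 0) + (if u.1 < M then 1 else 0) +
          ∑ z ∈ Z, if z = m ∨ z = M then 1 else 2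

-- deps: LALT LFQ
-- imports: Pool.Agent.P.MP_a0f0ad_al.Fi.T.LBase
/-- an extreme constant with a waiting letter -/
def S_LQV : Prop :=
  ∀ (d : ℕ) (S : Finset (G d)) (D : LD d), 3 ≤ d → D.Spec S → 0 < D.om D.Q →
    ∃ YY : Finset (G d), ∀ (u : E d) (w : ℝ) (Z : Finset ℝ) (mu : ℝ → ℝ), 0 < u.1 → |w| = D.Q →
      Z.card ≤ d → (∀ z ∈ Z, 0 ≤ z ∧ z ≤ u.1 ∧ 0 < mu z * w) →
      u.2 = D.kp w • Wv u.1 + ∑ z ∈ Z, mu z • Vd 0 z →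
      (d ≤ ∑ z ∈ Z, if z = 0 ∨ z = u.1 then 1 else 2) →
      ∃ F : Frame d, F.FC S D.K0 YY (2 * d + 3) u.1 w (D.lp w) u

-- deps: LALT LFQ
-- imports: Pool.Agent.P.MP_a0f0ad_al.Fi.T.LBase
/-- an extreme constant without a waiting letter -/
def S_LQE : Prop :=
  ∀ (d : ℕ) (S : Finset (G d)) (D : LD d), 3 ≤ d → D.Spec S → D.om D.Q = 0 →
    ∃ YY : Finset (G d), ∀ (u : E d) (w m M : ℝ) (Z : Finset ℝ) (mu : ℝ → ℝ), 0 < u.1 →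
      |w| = D.Q → m ≤ 0 → u.1 ≤ M → Z.card ≤ d → (∀ z ∈ Z, m ≤ z ∧ z ≤ M ∧ 0 < mu z * w) →
      u.2 = D.kp w • (Wv M - Wv m) - D.kp (-w) • ((Wv 0 - Wv m) + (Wv M - Wv u.1)) +
        ∑ z ∈ Z, mu z • Vd 0 z →
      (d ≤ (if m < 0 then 1 else 0) + (if u.1 < M then 1 else 0) +
        ∑ z ∈ Z, if z = m ∨ z = M then 1 else 2) →
      ∃ F : Frame d, F.FC S D.K0 YY (2 * d + 3) (M - m) w (D.lp w) u

end Pool.Agent.P.MP_a0f0ad_al.Fi
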