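import Pool.Agent.P.MP_a0f0ad_al.Fi.T.LBase

/-! The assembly of FLAT from its steps. -/

namespace Pool.Agent.P.MP_a0f0ad_al.Fi

open Finset MeasureTheory
open scoped Classical

theorem flat_glue (hHOM : S_HOM) (hOPTC : S_OPTC) (hFP : S_LFP) (hCON : S_LCON) (hHB : S_LHB)
    (hTH : S_LTH) (hQR : S_LQR) (hQV : S_LQV) (hQE : S_LQE) : S_FLAT := by
  intro d S D hd hD
  obtain ⟨Y1, hTH⟩ := hTH d S D (by omega) hD
  have hl := hD.lp_zero_pos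
  have hQ : ∃ YY : Finset (G d), ∀ᵐ u : E d, 0 < u.1 → ∀ (q : Fin d → ℝ) (m M : ℝ),
      ¬ Nonconst q → |co q 0| = D.Q → m ≤ 0 → u.1 ≤ M → D.Bf q m M u = D.Psi m M u →
      (0 < D.om (co q 0) → m = 0 ∧ M = u.1) →
      ∃ F : Frame d, F.FC S D.K0 YY (2 * d + 3) (M - m) (co q 0) (D.lp (co q 0)) u := by
    rcases hD.om_Q_nonneg.eq_or_lt with h0 | h0
    · obtain ⟨YY, h⟩ := hQE d S D hd hD h0.symm
      refine ⟨YY, (hQR d S D hD).mono fun u hu ha q m M h1 h2 h3 h4 h5 _ => ?_⟩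
      obtain ⟨Z, mu, a1, a2, a3, a4⟩ := hu ha q m M h1 h2 h3 h4 h5
      exact h u _ m M Z mu ha h2 h3 h4 a1 a2 a3 a4
    · obtain ⟨YY, h⟩ := hQV d S D hd hD h0
      refine ⟨YY, (hQR d S D hD).mono fun u hu ha q m M h1 h2 h3 h4 h5 h6 => ?_⟩
      obtain ⟨Z, mu, a1, a2, a3, a4⟩ := hu ha q m M h1 h2 h3 h4 h5
      have : D.om (co q 0) = D.om D.Q := by
        rcases abs_cases (co q 0) with e | e
        · rw [← e.1, h2]
        · rw [← D.om_neg, ← e.1, h2]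
      obtain ⟨rfl, rfl⟩ := h6 (this ▸ h0)
      rw [sub_zero]
      exact h u _ Z mu ha h2 a1 a2 (by simpa using a3) (by simpa using a4)
  obtain ⟨Y2, hQ⟩ := hQ
  obtain ⟨C0, -, -, -, -, -, hb, -⟩ := hD.exists_bound
  obtain ⟨C, hC⟩ := hFP d S (Y1 ∪ Y2) (2 * d + 3) (1 / D.lp 0) (max D.Q C0) (by omega) hD.sym
  refine ⟨Y1 ∪ Y2, C, ?_⟩
  filter_upwards [hTH, hQ] with u hT hQ ha hN p hG hc
  obtain ⟨m, M, h1, h2, h3, h4, h5, h6, h7⟩ := hOPTC d S D hD u p ha hG hc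
  have hw : ∀ x, ev p.2 0 x = co p.2 0 := fun x => (not_nonconst hc x).1
  rw [hw] at h6 h7
  have hwQ : |co p.2 0| ≤ D.Q := hw 0 ▸ h3 0 ⟨h1, ha.le.trans h2⟩
  have hlen : M - m ≤ 1 / D.lp 0 := by
    have := ((hHOM d S D hD).2.2.1 u m M h1 ha.le h2 (by linarith)).2
    rw [le_div_iff₀ hl]; linarith
  have hom : D.om (co p.2 0) * (M - m - u.1) = 0 := by
    rcases (hD.om_nn hwQ).eq_or_lt with e | e
    · rw [← e, zero_mul]
    · rw [(h7 e).1, (h7 e).2]; ring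
  have hNu : D.NN u = co p.2 0 * co u.2 0 + p.1 * u.1 := by
    rw [← h5, h6]
    simp only [LD.Bf, hw, intervalIntegral.integral_const, smul_eq_mul, dot_of_const hc]
    rw [LD.om] at hom
    linear_combination hom
  obtain ⟨F, hF⟩ : ∃ F : Frame d,
      F.FC S D.K0 (Y1 ∪ Y2) (2 * d + 3) (1 / D.lp 0) (co p.2 0) p.1 u := by
    rw [h6]
    rcases hwQ.eq_or_lt with e | e
    · obtain ⟨F, hF⟩ := hQ ha p.2 m M hc e h1 h2 (h5.trans h4.symm) h7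
      exact ⟨F, hF.mono subset_union_right le_rfl hlen⟩
    · obtain ⟨c, hc0, -, hs, -⟩ := hD.exists_slack
      obtain ⟨rfl, rfl⟩ := h7 ((mul_pos hc0 (sub_pos.2 e)).trans_le (hs _ hwQ))
      obtain ⟨F, hF⟩ := hT ha p.2 hc e (h5.trans h4.symm)
      exact ⟨F, hF.mono subset_union_left (by omega) (by linarith)⟩
  refine ⟨F, hC F D.K0 u p _ hF hc (hwQ.trans (le_max_left _ _))
    (h6 ▸ (hb _ (by linarith)).trans (le_max_right _ _)) hNu hN, ?_,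
    fun K hK => hHB d S D.K0 K F hK hF.1 hF.2.1⟩
  exact hCON d _ (F.zero_mem_cone S D.K0) (fun x hx y hy => F.add_mem_cone hx hy)
    (fun x hx t ht => F.smul_mem_cone hx ht) (fun x hx => F.co_cone hx) hF.2.2.2.2.2.2.2

end Pool.Agent.P.MP_a0f0ad_al.Fi
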