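import Pool.Agent.P.MP_a0f0ad_al.Fi.T.Iface4
import Pool.Agent.P.MP_a0f0ad_al.Fi.T.LBase

/-! Step LNB of the filiform project. -/

namespace Pool.Agent.P.MP_a0f0ad_al.Fi

open Finset MeasureTheory
open scoped Classical

namespace LnbA

/-- the switching points -/
noncomputable def X {n : ℕ} (p : Fin n → ℝ) : ℕ → ℝ
  | 0 => 0
  | i + 1 => co p i

theorem contDiff_X (n i : ℕ) : ContDiff ℝ 1 fun p : Fin n → ℝ => X p i := by
  rcases i with _ | i
  · exact contDiff_const
  · by_cases h : i < n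
    · simp only [X, co, dif_pos h]
      fun_prop
    · simp only [X, co, dif_neg h]
      fun_prop

end LnbA

open LnbA

theorem p_LNB (hLNUL : S_LNUL) :
    S_LNB := by
  intro d κ
  refine ae_all_iff.2 fun r => ?_
  by_cases hr : d ≤ r
  · exact ae_of_all _ fun _ _ _ _ _ => hr
  have h := hLNUL d (Fin (r + 1) → ℝ) (fun p => (X p (r + 1),
    ∑ i ∈ range (r + 1), κ i • (Wv (X p (i + 1)) - Wv (X p i))))
    ((contDiff_X _ _).prodMk (ContDiff.sum fun i _ => ((contDiff_Wv.comp (contDiff_X _ _)).sub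
      (contDiff_Wv.comp (contDiff_X _ _))).const_smul _)) (by simp; omega)
  filter_upwards [h] with u hu x h0 h1 h2
  have e : ∀ i ≤ r + 1, X (fun j : Fin (r + 1) => x (j + 1)) i = x i := by
    rintro (_ | i) hi
    · exact h0.symm
    · exact dif_pos hi
  refine absurd ⟨fun j => x (j + 1), Prod.ext ((e _ le_rfl).trans h1) ?_⟩ hu
  refine (Finset.sum_congr rfl fun i hi => ?_).trans h2.symm
  have := mem_range.1 hi
  rw [e _ (by omega), e _ (by omega)]

end Pool.Agent.P.MP_a0f0ad_al.Fi
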