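import Pool.Agent.P.MP_a0f0ad_al.Fi.T.Iface2
import Pool.Agent.P.MP_a0f0ad_al.Fi.V.Iface
import Pool.Agent.P.MP_a0f0ad_al.Fi.T.Base

/-! Step TBAS of the filiform project. -/

namespace Pool.Agent.P.MP_a0f0ad_al.Fi

open Finset MeasureTheory

namespace TbasA

variable {d : ℕ} {D : LD d} {v α m z M : ℝ} {q : Fin d → ℝ} {Z L1 L2 : Finset ℝ}

theorem rolle (q : Fin d → ℝ) (k : ℕ) {a b : ℝ} (hab : a ≠ b) (h : ev q k a = ev q k b) :
    ∃ c, c ≠ b ∧ |c - b| < |a - b| ∧ ev q (k + 1) c = 0 := by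
  rcases lt_or_gt_of_ne hab with e | e
  · obtain ⟨c, h1, h2, h3⟩ := ev_rolle q k e h
    exact ⟨c, h2.ne, by rw [abs_of_neg (by linarith), abs_of_neg (by linarith)]; linarith, h3⟩
  · obtain ⟨c, h1, h2, h3⟩ := ev_rolle q k e h.symm
    exact ⟨c, h1.ne', by rw [abs_of_pos (by linarith), abs_of_pos (by linarith)]; linarith, h3⟩

theorem der_nonpos {φ : ℝ → ℝ} {t a b : ℝ} (h : HasDerivAt φ t a) (hab : a < b)
    (hφ : ∀ x ∈ Set.Ioo a b, φ x ≤ φ a) : t ≤ 0 := by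
  refine le_of_tendsto (hasDerivAt_iff_tendsto_slope_left_right.1 h).2 ?_
  filter_upwards [Ioo_mem_nhdsGT hab] with x hx
  rw [slope_def_field]
  exact div_nonpos_of_nonpos_of_nonneg (sub_nonpos.2 (hφ x hx)) (sub_pos.2 hx.1).le

theorem der_nonneg {φ : ℝ → ℝ} {t a b : ℝ} (h : HasDerivAt φ t b) (hab : a < b)
    (hφ : ∀ x ∈ Set.Ioo a b, φ x ≤ φ b) : 0 ≤ t := by
  refine ge_of_tendsto (hasDerivAt_iff_tendsto_slope_left_right.1 h).1 ?_
  filter_upwards [Ioo_mem_nhdsLT hab] with x hx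
  rw [slope_def_field]
  exact div_nonneg_of_nonpos (sub_nonpos.2 (hφ x hx)) (sub_neg.2 hx.2).le

theorem top (h : TS D v α m z M q Z L1 L2) {x y : ℝ} (hy : |ev q 0 y| = D.Q)
    (hx : x ∈ Set.Icc α M) : ev q 0 y * ev q 0 x ≤ ev q 0 y * ev q 0 y := by
  refine (le_abs_self _).trans ?_
  rw [abs_mul, ← abs_mul_abs_self]
  exact mul_le_mul_of_nonneg_left ((h.feas x hx).trans hy.ge) (abs_nonneg _)

theorem p3 (h : TS D v α m z M q Z L1 L2) :
    ∀ y ∈ Z, ∀ x, x ≠ y → ev q 1 x = 0 → v ≤ |x - y| := by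
  intro y hy x hxy hx
  obtain ⟨c, -, h1, h2⟩ := rolle q 1 hxy (hx.trans (h.hZ y hy).2.2.2.1.symm)
  refine not_lt.1 fun e => ?_
  have := (h.hZ y hy).2.2.2.2 c (h1.trans e).le
  rw [h2, abs_zero] at this
  exact this.not_gt h.v0

theorem p2 (h : TS D v α m z M q Z L1 L2) :
    ∀ x ∈ Set.Icc α M, x ∉ Z → ev q 0 x ∈ D.ThA → v ^ 2 ≤ |ev q 1 x| := by
  intro x hx hZ hT
  refine (h.r2 x (h.abs_le hx) _ hT (by simpa using h.v0.le)).resolve_right ?_
  rintro ⟨y, hy, h1, h2⟩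
  obtain ⟨c, h3, h4, h5⟩ := rolle q 0 (fun e : x = y => hZ (e ▸ hy)) h2.symm
  linarith [p3 h y hy c h3 h5]

theorem p4 (hQ : 0 < D.Q) (h : TS D v α m z M q Z L1 L2) :
    ev q 0 α * ev q 1 α < 0 ∧ 0 < ev q 0 M * ev q 1 M ∧ ∀ y ∈ Z, ev q 0 y * ev q 2 y < 0 := by
  have ne : ∀ y, |ev q 0 y| = D.Q → ev q 0 y ≠ 0 := fun y e => abs_pos.1 (e ▸ hQ)
  refine ⟨lt_of_le_of_ne ?_ (mul_ne_zero (ne _ h.qα) h.dα),
    lt_of_le_of_ne ?_ (mul_ne_zero (ne _ h.qM) h.dM).symm, fun y hy => not_le.1 fun e => ?_⟩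
  · exact der_nonpos ((hasDerivAt_ev q 0 α).const_mul _) h.αM fun x hx =>
      top h h.qα ⟨hx.1.le, hx.2.le⟩
  · exact der_nonneg ((hasDerivAt_ev q 0 M).const_mul _) h.αM fun x hx =>
      top h h.qM ⟨hx.1.le, hx.2.le⟩
  obtain ⟨h1, h2, h3, h4, h5⟩ := h.hZ y hy
  have c : ∀ k, Continuous fun x => ev q 0 y * ev q k x := fun k => by fun_prop
  have hb : y < min M (y + v) := lt_min (h2.trans_lt h.zM) (by linarith [h.v0])
  obtain ⟨s, hs, e1⟩ := exists_hasDerivAt_eq_slope _ _ hb (c 0).continuousOn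
    fun x _ => (hasDerivAt_ev q 0 x).const_mul _
  obtain ⟨t, ht, e2⟩ := exists_hasDerivAt_eq_slope _ _ hs.1 (c 1).continuousOn
    fun x _ => (hasDerivAt_ev q 1 x).const_mul _
  have a1 : ev q 0 y * ev q 1 s ≤ 0 := e1.trans_le (div_nonpos_of_nonpos_of_nonneg (sub_nonpos.2
    (top h h3 ⟨by linarith [h.αm], min_le_left _ _⟩)) (sub_pos.2 hb).le)
  have a2 : ev q 0 y * ev q 2 t ≤ 0 := e2.trans_le (div_nonpos_of_nonpos_of_nonneg
    (by rwa [h4, mul_zero, sub_zero]) (sub_pos.2 hs.1).le)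
  obtain ⟨x, hx, e3⟩ := intermediate_value_Icc' ht.1.le (c 2).continuousOn ⟨a2, e⟩
  have := h5 x (abs_le.2 ⟨by linarith [hx.1, h.v0],
    by linarith [hx.2, ht.2, hs.2, min_le_right M (y + v)]⟩)
  rw [(mul_eq_zero.1 e3).resolve_left (ne y h3), abs_zero] at this
  exact this.not_gt h.v0

theorem p5 (h : TS D v α m z M q Z L1 L2) {r : Fin d → ℝ} {B : ℝ}
    (hr : ∀ x, ev q 1 x = (∏ y ∈ Z, (x - y)) * ev r 0 x)
    (hB : ∀ x ∈ Set.Icc α M, v * |ev r 0 x| ≤ B) :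
    v ^ 3 ≤ B * ∏ y ∈ Z, (y - α) ∧ v ^ 2 ≤ B * ∏ y ∈ Z.erase m, (y - m) := by
  have key : ∀ (W : Finset ℝ), ∀ x ∈ Set.Icc α M, (∀ y ∈ W, x ≤ y) →
      v * |(∏ y ∈ W, (x - y)) * ev r 0 x| ≤ B * ∏ y ∈ W, (y - x) := fun W x hx hW => by
    rw [abs_mul, abs_prod, prod_congr rfl fun y hy => abs_of_nonpos (sub_nonpos.2 (hW y hy)),
      mul_left_comm, mul_comm B]
    simp only [neg_sub]
    exact mul_le_mul_of_nonneg_left (hB x hx) (prod_nonneg fun y hy => sub_nonneg.2 (hW y hy))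
  constructor
  · have h1 := p2 h α ⟨le_rfl, h.αM.le⟩ (fun e => (h.hZ α e).1.not_gt h.αm)
      (LD.mem_ThA_of_abs h.qα)
    refine le_trans ?_ (key Z α ⟨le_rfl, h.αM.le⟩ fun y hy => (h.mem_Icc hy).1)
    rw [← hr, pow_succ']
    exact mul_le_mul_of_nonneg_left h1 h.v0.le
  · have hR : DifferentiableAt ℝ (fun x => (∏ y ∈ Z.erase m, (x - y)) * ev r 0 x) m :=
      (DifferentiableAt.fun_finsetProd fun y _ => by fun_prop).mul
        (hasDerivAt_ev r 0 m).differentiableAt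
    have h1 := ((hasDerivAt_id' m).sub_const m).fun_mul hR.hasDerivAt
    have e : ev q 1 = fun x => (x - m) * ((∏ y ∈ Z.erase m, (x - y)) * ev r 0 x) :=
      funext fun x => by rw [hr, ← mul_prod_erase Z _ h.mZ, mul_assoc]
    rw [← e] at h1
    have h2 := (hasDerivAt_ev q 1 m).unique h1
    rw [sub_self, zero_mul, add_zero, one_mul] at h2
    refine le_trans ?_ (key _ m (h.mem_Icc h.mZ) fun y hy => (h.hZ y (mem_of_mem_erase hy)).1)
    rw [← h2, sq]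
    exact mul_le_mul_of_nonneg_left ((h.hZ m h.mZ).2.2.2.2 m (by simpa using h.v0.le)) h.v0.le

theorem p6 (hQ : 0 < D.Q) (h : TS D v α m z M q Z L1 L2) : v ≤ M - α := by
  rcases le_total 1 (M - α) with e | e
  · exact h.v1.trans e
  · refine h.hl.trans (pow_le_of_le_one (sub_pos.2 h.αM).le e ?_)
    rintro rfl
    have := h.qα
    simp only [ev, dot, univ_eq_empty, sum_empty, abs_zero] at this
    exact hQ.ne this

end TbasA

open TbasA in
theorem p_TBAS (hMARK : S_MARK) (hTOPS : S_TOPS) :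
    S_TBAS := by
  intro d S D hD
  obtain ⟨CM, hCM, hM⟩ := hMARK d D.Lam
  obtain ⟨C, hC, -, T2, -, -, T5, -⟩ := hTOPS d D.Lam
  obtain ⟨C', hC', hV⟩ := exists_Vd_bound d D.Lam
  have hQ := hD.Qpos
  have k1 : 0 < CM * D.Q := by positivity
  have k2 : C' ≤ C' * (C * C) := le_mul_of_one_le_right (by linarith) (by nlinarith)
  obtain ⟨B, hB⟩ : ∃ B, B = CM * D.Q + CM + C' * (C * C) := ⟨_, rfl⟩
  have hB1 : 1 ≤ B := by linarith
  have hB0 : 0 < B := by linarith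
  have fin : ∀ {x y A : ℝ}, 0 ≤ y → A ≤ B → x ≤ A * y → B⁻¹ * x ≤ y := fun hy hA h =>
    (inv_mul_le_iff₀ hB0).2 (h.trans (mul_le_mul_of_nonneg_right hA hy))
  refine ⟨B⁻¹, by positivity, inv_le_one_of_one_le₀ hB1, fun v α m z M q Z L1 L2 h => ?_⟩
  have hl : 0 < M - α := sub_pos.2 h.αM
  have h1 : ∀ x ∈ Set.Icc α M, ∀ y ∈ Set.Icc α M,
      (M - α) * |ev q 0 x - ev q 0 y| ≤ CM * D.Q * |x - y| := fun x hx y hy => by
    have := Convex.norm_image_sub_le_of_norm_hasDerivWithin_le (f := ev q 0) (f' := ev q 1)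
      (C := CM * D.Q / (M - α)) (fun t _ => (hasDerivAt_ev q 0 t).hasDerivWithinAt)
      (fun t ht => (le_div_iff₀ hl).2
        (by simpa using (hM q α M D.Q h.αM h.hα h.hM h.feas).2 1 t ht)) (convex_Icc α M) hy hx
    rwa [div_mul_eq_mul_div, le_div_iff₀' hl] at this
  obtain ⟨g, g1, g2⟩ := T2 q
  obtain ⟨r, r1, r2⟩ := T5 g Z fun y hy =>
    ⟨h.abs_le (h.mem_Icc hy), (g2 0 y).trans (h.hZ y hy).2.2.2.1⟩
  obtain ⟨a1, a2⟩ := p5 h (r := r) (B := C' * (C * C)) (fun x => (g2 0 x).symm.trans (r2 x))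
    fun x hx => by
      have v0 := h.v0.le
      calc v * |ev r 0 x| ≤ v * (C' * (C * (C * ‖q‖))) := by
            gcongr
            refine ((hV 0 x (h.abs_le hx)).2 r).trans ?_
            gcongr
            refine r1.trans ?_
            gcongr
        _ = C' * (C * C) * (v * ‖q‖) := by ring
        _ ≤ _ := mul_le_of_le_one_right (by positivity) h.hq
  have hm : 0 < m - α := sub_pos.2 h.αm
  refine ⟨fun x hx y hy => ?_, p2 h, p3 h, p4 hQ h,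
    ⟨fin (prod_nonneg fun y hy => sub_nonneg.2 (h.mem_Icc hy).1) (by linarith) a1,
      fin (prod_nonneg fun y hy => sub_nonneg.2 (h.hZ y (mem_of_mem_erase hy)).1) (by linarith) a2⟩,
    ⟨?_, p6 hQ h⟩, fun x hx k => ?_⟩
  · rw [mul_assoc]
    exact fin (abs_nonneg _) (by linarith) (h1 x hx y hy)
  · have hm' := (h.hZ m h.mZ).2.2.1
    rcases abs_eq_abs.1 (h.qα.trans hm'.symm) with e | e
    · obtain ⟨c, c1, c2, c3⟩ := rolle q 0 h.αm.ne e
      rw [abs_sub_comm α, abs_of_pos hm] at c2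
      exact fin hm.le hB1 (by linarith [p3 h m h.mZ c c1 c3])
    · have := h1 m (h.mem_Icc h.mZ) α ⟨le_rfl, h.αM.le⟩
      rw [e, sub_neg_eq_add, ← two_mul, abs_mul, hm', abs_two, abs_of_pos hm] at this
      refine fin hm.le (show CM ≤ B by linarith) ((p6 hQ h).trans ?_)
      refine le_of_mul_le_mul_left ?_ hQ
      nlinarith [mul_pos hl hQ]
  · rw [mul_assoc]
    refine fin zero_le_one (show C' ≤ B by linarith) ?_
    have := mul_le_mul_of_nonneg_left ((hV k x hx).2 q) h.v0.le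
    nlinarith [mul_le_mul_of_nonneg_left h.hq (show 0 ≤ C' by linarith)]

end Pool.Agent.P.MP_a0f0ad_al.Fi
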