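import Pool.Agent.P.MP_a0f0ad_al.Fi.T.Iface2
import Pool.Agent.P.MP_a0f0ad_al.Fi.T.Base

/-! Step TCNT of the filiform project. -/

namespace Pool.Agent.P.MP_a0f0ad_al.Fi

open Finset MeasureTheory

namespace TcntA

theorem three (C : Finset ℝ) {m z : ℝ} (h : m ≤ z) :
    (C.filter fun c => c < m).card + (C.filter fun c => m < c ∧ c < z).card +
      (C.filter fun c => z < c).card ≤ C.card := by
  simp only [card_filter, ← sum_add_distrib]
  rw [card_eq_sum_ones]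
  refine sum_le_sum fun x _ => ?_
  by_cases h1 : x < m
  · rw [if_pos h1, if_neg (fun e => lt_asymm h1 e.1), if_neg (by linarith)]
  · rw [if_neg h1]
    by_cases h2 : z < x
    · rw [if_pos h2, if_neg (fun e => lt_asymm h2 e.2)]
    · rw [if_neg h2]; split_ifs <;> omega

theorem neg_prod (K : Finset ℝ) (x : ℝ) :
    (-1 : ℝ) ^ K.card * ∏ y ∈ K, (y - x) = ∏ y ∈ K, (x - y) := by
  rw [← prod_const, ← prod_mul_distrib]
  exact prod_congr rfl fun y _ => by ring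

theorem neg_prod' (K : Finset ℝ) (x : ℝ) :
    (-1 : ℝ) ^ K.card * ∏ y ∈ K, (x - y) = ∏ y ∈ K, (y - x) := by
  rw [← prod_const, ← prod_mul_distrib]
  exact prod_congr rfl fun y _ => by ring

theorem up {K : Finset ℝ} {x : ℝ} (h : ∀ y ∈ K, y ≤ x) :
    0 ≤ (-1 : ℝ) ^ K.card * ∏ y ∈ K, (y - x) := by
  rw [neg_prod]; exact prod_nonneg fun y hy => sub_nonneg.2 (h y hy)

theorem dn {K : Finset ℝ} {x : ℝ} (h : ∀ y ∈ K, x ≤ y) :
    0 ≤ (-1 : ℝ) ^ K.card * ∏ y ∈ K, (x - y) := by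
  rw [neg_prod']; exact prod_nonneg fun y hy => sub_nonneg.2 (h y hy)

theorem pw {t : ℝ} (a : ℕ) (h : t ≤ 0) : 0 ≤ (-1 : ℝ) ^ a * t ^ a := by
  rw [← mul_pow]; exact pow_nonneg (by linarith) _

theorem sq1 {u : ℝ} (h : u = 1 ∨ u = -1) : u * u = 1 := by
  rcases h with e | e <;> rw [e] <;> norm_num

theorem sg_eq {σ s t P : ℝ} (h1 : σ = 1 ∨ σ = -1) (h2 : s = 1 ∨ s = -1) (h3 : 0 < s * t)
    (hP : 0 < P) (h : 0 ≤ σ * t * P) : σ = s := by
  have h4 : 0 ≤ σ * t := nonneg_of_mul_nonneg_left h hP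
  rcases h1 with e | e <;> rcases h2 with f | f <;> rw [e, f] <;> rw [e] at h4 <;>
    rw [f] at h3 <;> first | rfl | (exfalso; linarith)

theorem negpow (n : ℕ) : (-1 : ℝ) ^ n = 1 ∨ (-1 : ℝ) ^ n = -1 := neg_one_pow_eq_or ℝ n

theorem pm_mul {u w : ℝ} (h : u = 1 ∨ u = -1) (h' : w = 1 ∨ w = -1) :
    u * w = 1 ∨ u * w = -1 := by
  rcases h with e | e <;> rcases h' with f | f <;> rw [e, f] <;> norm_num

end TcntA

open TcntA in
theorem p_TCNT (hTOPS : S_TOPS) (hTSGN : S_TSGN) (hTMID : S_TMID) (hTXL : S_TXL) (hTHL : S_THL) :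
    S_TCNT := by
  obtain ⟨k1, hk1, hX⟩ := hTXL
  obtain ⟨k2, hk2, hH⟩ := hTHL
  refine ⟨max k1 k2, lt_max_of_lt_left hk1, fun d S D hD h0 => ?_⟩
  obtain ⟨c1, hc1, hX⟩ := hX d S D hD h0
  obtain ⟨c2, hc2, hH⟩ := hH d S D hD h0
  refine ⟨min c1 c2, lt_min hc1 hc2, fun v α m z M q Z L1 L2 ν T hd hlast => ?_⟩
  have hQ := hD.Qpos
  have hmz := T.mz
  have hαm := T.αm
  have hzM := T.zM
  have hnc : Nonconst q := by
    by_contra hn
    exact T.dα ((not_nonconst hn α).2 0)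
  obtain ⟨C, hC⟩ : ∃ C : Finset ℝ, ∀ x, x ∈ C ↔ α < x ∧ x < M ∧ ev q 1 x = 0 ∧ x ∉ Z :=
    ⟨(hnc.finite_crit.1.subset (s := {x | ev q 1 x = 0})
      (t := {x | α < x ∧ x < M ∧ ev q 1 x = 0 ∧ x ∉ Z}) fun x hx => hx.2.2.1).toFinset,
      fun x => by simp⟩
  have hcard : C.card + Z.card + 2 ≤ d := by
    obtain ⟨_, -, -, -, -, -, -, h6⟩ := hTOPS d 0
    have h1 := (h6 q (C ∪ Z) ⟨α, T.dα⟩ fun y hy => by
      rcases mem_union.1 hy with e | e
      · exact ((hC y).1 e).2.2.1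
      · exact (T.hZ y e).2.2.2.1).1
    rwa [card_union_of_disjoint (disjoint_left.2 fun x hx => ((hC x).1 hx).2.2.2)] at h1
  obtain ⟨⟨AL, σL, hAL, hσL, hL⟩, hcL⟩ := hTSGN d q α m
  obtain ⟨⟨AR, σR, hAR, hσR, hR⟩, hcR⟩ := hTSGN d q z M
  have nL := hcL AL (C.filter fun c => c < m) hAL fun x h1 h2 h3 => mem_filter.2
    ⟨(hC x).2 ⟨h1, by linarith, h3, fun e => not_lt.2 (T.hZ x e).1 h2⟩, h2⟩
  have nR := hcR AR (C.filter fun c => z < c) hAR fun x h1 h2 h3 => mem_filter.2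
    ⟨(hC x).2 ⟨by linarith, h2, h3, fun e => not_lt.2 (T.hZ x e).2.1 h1⟩, h1⟩
  have n3 := three C hmz.le
  obtain ⟨s, hs1, hs2⟩ : ∃ s : ℝ → ℝ, (∀ x, s x = 1 ∨ s x = -1) ∧
      ∀ x ∈ Z, s x * ev q 0 x = D.Q := by
    refine ⟨fun x => if 0 < ev q 0 x then 1 else -1, fun x => ?_, fun x hx => ?_⟩
    · by_cases h : 0 < ev q 0 x <;> simp [h]
    · rw [← (T.hZ x hx).2.2.1]
      by_cases h : 0 < ev q 0 x
      · simp only [if_pos h, one_mul, abs_of_pos h]
      · simp only [if_neg h, neg_one_mul, abs_of_nonpos (not_lt.1 h)]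
  obtain ⟨r, hr1, hr2⟩ : ∃ r : ℝ → ℝ, (∀ x, r x = 1 ∨ r x = -1) ∧ ∀ x, 0 ≤ r x * ν x := by
    refine ⟨fun x => if 0 ≤ ν x then 1 else -1, fun x => ?_, fun x => ?_⟩
    · by_cases h : 0 ≤ ν x <;> simp [h]
    · by_cases h : 0 ≤ ν x
      · simp only [if_pos h]; linarith
      · simp only [if_neg h]; linarith
  obtain ⟨K, K', hK, hK', nK, pK, eK, pK', eK'⟩ := hTMID Z C m z s r T.mZ T.zZ
    (fun x hx => ⟨(T.hZ x hx).1, (T.hZ x hx).2.1⟩) (fun x _ => ⟨hs1 x, hr1 x⟩)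
    fun x hx y hy hxy hadj hs => by
      have e : ev q 0 x = ev q 0 y := by
        have a1 := hs2 x hx
        have a2 := hs2 y hy
        rw [← hs] at a2
        rcases hs1 x with f | f <;> rw [f] at a1 a2 <;> linarith
      obtain ⟨c, b1, b2, b3⟩ := ev_rolle q 0 hxy e
      exact ⟨c, (hC c).2 ⟨by linarith [(T.hZ x hx).1], by linarith [(T.hZ y hy).2.1], b3,
        fun f => hadj c f ⟨b1, b2⟩⟩, b1, b2⟩
  obtain ⟨a, ha, ea⟩ : ∃ a : ℕ, a ≤ 1 ∧ (-1 : ℝ) ^ a = r m * s m := by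
    rcases pm_mul (hr1 m) (hs1 m) with f | f
    · exact ⟨0, by omega, by rw [f, pow_zero]⟩
    · exact ⟨1, le_rfl, by rw [f, pow_one]⟩
  obtain ⟨e, he, ee⟩ : ∃ e : ℕ, e ≤ 1 ∧ (-1 : ℝ) ^ e = -(r z * s z) := by
    rcases pm_mul (hr1 z) (hs1 z) with f | f
    · exact ⟨1, le_rfl, by rw [f, pow_one]⟩
    · exact ⟨0, by omega, by rw [f, pow_zero, neg_neg]⟩
  have eL : σL = s m := sg_eq hσL (hs1 m) (by rw [hs2 m T.mZ]; exact hQ)
    (prod_pos fun y hy => sub_pos.2 (hAL y hy).2.1) (hL m ⟨hαm.le, le_rfl⟩)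
  have eR : σR * (-1) ^ AR.card = s z := by
    refine sg_eq (t := ev q 0 z) (pm_mul hσR (negpow _)) (hs1 z) (by rw [hs2 z T.zZ]; exact hQ)
      (prod_pos (s := AR) fun y hy => sub_pos.2 (hAR y hy).1) ?_
    have := hR z ⟨le_rfl, hzM.le⟩
    rw [← neg_prod] at this
    linarith
  have KZ : ∀ y ∈ K, m ≤ y ∧ y ≤ z := fun y hy =>
    ⟨(T.hZ y (mem_of_mem_erase (hK hy))).1, (T.hZ y (mem_of_mem_erase (hK hy))).2.1⟩
  have KZ' : ∀ y ∈ K', m ≤ y ∧ y ≤ z := fun y hy =>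
    ⟨(T.hZ y (mem_of_mem_erase (hK' hy))).1, (T.hZ y (mem_of_mem_erase (hK' hy))).2.1⟩
  have rm := sq1 (hr1 m)
  have rz := sq1 (hr1 z)
  have sm := sq1 (hs1 m)
  have sz := sq1 (hs1 z)
  have nA := sq1 (negpow AR.card)
  by_cases h1 : AL.card + AR.card + K.card + a + e < d
  · left
    have dj : Disjoint AL AR := disjoint_left.2 fun x h h' => by
      linarith [(hAL x h).2.1, (hAR x h').1]
    refine (hX v α m z M q Z L1 L2 ν T (AL ∪ AR) K a e (s m * (-1) ^ AR.card) _ ha he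
      (pm_mul (hs1 m) (negpow _)) (fun y hy => ?_) hK (by rwa [card_union_of_disjoint dj])
      (fun _ => rfl) (fun x hx => ?_) (fun x hx => ?_) fun x hx => ?_).mono
      (T.pow_mono (lt_min hc1 hc2).le (min_le_left _ _) (le_max_left _ _))
    · rcases mem_union.1 hy with f | f
      · exact ⟨(hAL y f).1.le, by linarith [(hAL y f).2.1], (hAL y f).2.2⟩
      · exact ⟨by linarith [(hAR y f).1], (hAR y f).2.1.le, (hAR y f).2.2⟩
    · have b1 := hL x hx
      have b2 := dn (K := AR) (x := x) fun y hy => by linarith [(hAR y hy).1, hx.2]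
      have b3 : 0 ≤ ∏ y ∈ K, (y - x) := prod_nonneg fun y hy => by linarith [(KZ y hy).1, hx.2]
      have b4 : 0 ≤ (m - x) ^ a := pow_nonneg (by linarith [hx.2]) _
      have b5 : 0 ≤ (z - x) ^ e := pow_nonneg (by linarith [hx.2]) _
      rw [prod_union dj, ← eL]
      refine (mul_nonneg (mul_nonneg (mul_nonneg (mul_nonneg b1 b2) b3) b4) b5).trans_eq ?_
      ring
    · have b1 := hR x hx
      have b2 : 0 ≤ ∏ y ∈ AL, (x - y) := prod_nonneg fun y hy => by
        linarith [(hAL y hy).2.1, hx.1]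
      have b3 := up (K := K) (x := x) fun y hy => by linarith [(KZ y hy).2, hx.1]
      have b4 := pw (t := m - x) a (by linarith [hx.1])
      have b5 := pw (t := z - x) e (by linarith [hx.1])
      have b6 : σR * (r m * r z) * (r m * s m) * (-(r z * s z)) = -(s m * (-1) ^ AR.card) := by
        rw [← eR]
        have := sq1 hσR
        calc _ = -((r m * r m) * (r z * r z) * (σR * σR) * (s m * (-1) ^ AR.card)) := by ring
          _ = _ := by rw [rm, rz, this]; ring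
      rw [eK] at b3
      rw [ea] at b4
      rw [ee] at b5
      rw [prod_union dj, ← neg_nonneg]
      refine (mul_nonneg (mul_nonneg (mul_nonneg (mul_nonneg b1 b2) b3) b4) b5).trans_eq ?_
      calc _ = (σR * (r m * r z) * (r m * s m) * (-(r z * s z))) * (ev q 0 x *
            ((∏ y ∈ AL, (x - y)) * (∏ y ∈ AR, (x - y)) * (∏ y ∈ K, (y - x)) * (m - x) ^ a *
              (z - x) ^ e)) := by ring
        _ = _ := by rw [b6]; ring
    · have hx1 := (T.hZ x hx).1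
      have hx2 := (T.hZ x hx).2.1
      have b1 := pK x hx
      have b2 : 0 ≤ ∏ y ∈ AL, (x - y) := prod_nonneg fun y hy => by linarith [(hAL y hy).2.1]
      have b3 := dn (K := AR) (x := x) fun y hy => by linarith [(hAR y hy).1]
      have b4 := pw (t := m - x) a (by linarith)
      have b5 : 0 ≤ (z - x) ^ e := pow_nonneg (by linarith) _
      have rx := sq1 (hr1 x)
      rw [ea] at b4
      rw [prod_union dj]
      refine (mul_nonneg (mul_nonneg (mul_nonneg (mul_nonneg (mul_nonneg b1 b2) b3) b4) b5)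
        (hr2 x)).trans_eq ?_
      calc _ = (r m * r m) * (r x * r x) * (ν x * (s m * (-1) ^ AR.card *
            ((∏ y ∈ AL, (x - y)) * (∏ y ∈ AR, (x - y))) * (∏ y ∈ K, (y - x)) * (m - x) ^ a *
              (z - x) ^ e)) := by ring
        _ = _ := by rw [rm, rx]; ring
  by_cases h2 : K'.card + a + e + 2 * Z.card + 4 ≤ 2 * d
  · right
    obtain ⟨p1, p1a, p1m, p1b⟩ : ∃ p, (p ∈ L1 ∨ p = m) ∧ p ≤ m ∧ ∀ x ∈ L1, p ≤ x :=
      ⟨(insert m L1).min' (insert_nonempty _ _), (mem_insert.1 (min'_mem _ _)).symm,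
        min'_le _ _ (mem_insert_self _ _), fun x hx => min'_le _ _ (mem_insert_of_mem hx)⟩
    obtain ⟨p2, p2a, p2b⟩ : ∃ p, (p ∈ L2 ∨ p = M) ∧ ∀ x ∈ L2, p ≤ x :=
      ⟨(insert M L2).min' (insert_nonempty _ _), (mem_insert.1 (min'_mem _ _)).symm,
        fun x hx => min'_le _ _ (mem_insert_of_mem hx)⟩
    have p2z : z < p2 := p2a.elim (fun f => ((T.h2 _).1 f).1) fun f => f ▸ hzM
    refine (hH v α m z M q Z L1 L2 ν T K' a e p1 p2 _ ha he p1a p2a
      (hK'.trans (erase_subset _ _)) h2 (fun _ => rfl) (fun x hx => ?_) (fun x hx => ?_)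
      fun x hx => ?_).mono
      (T.pow_mono (lt_min hc1 hc2).le (min_le_right _ _) (le_max_right _ _))
    · have hx2 := ((T.h1 x).1 hx).2.1
      have b1 : 0 ≤ x - p1 := sub_nonneg.2 (p1b x hx)
      have b2 : 0 ≤ (m - x) ^ a := pow_nonneg (by linarith) _
      have b3 : 0 ≤ ∏ y ∈ K', (y - x) := prod_nonneg fun y hy => by linarith [(KZ' y hy).1]
      have b4 : 0 ≤ (p2 - x) ^ e := pow_nonneg (by linarith) _
      have b5 : 0 ≤ M - x := by linarith
      rw [← neg_nonneg]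
      refine (mul_nonneg (mul_nonneg (mul_nonneg (mul_nonneg b1 b2) b3) b4) b5).trans_eq ?_
      ring
    · have hx1 := (T.hZ x hx).1
      have hx2 := (T.hZ x hx).2.1
      have b1 : 0 ≤ x - p1 := by linarith
      have b2 := pw (t := m - x) a (by linarith)
      have b3 := pK' x hx
      have b4 : 0 ≤ (p2 - x) ^ e := pow_nonneg (by linarith) _
      have b5 : 0 ≤ M - x := by linarith
      have b6 : 0 ≤ s x * ev q 0 x := by rw [hs2 x hx]; exact hQ.le
      have rx := sq1 (hr1 x)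
      have sx := sq1 (hs1 x)
      rw [ea] at b2
      rw [← neg_nonneg]
      refine (mul_nonneg (mul_nonneg (mul_nonneg (mul_nonneg (mul_nonneg (mul_nonneg b1 b2) b3)
        b4) b5) b6) (hr2 x)).trans_eq ?_
      calc _ = (r m * r m) * (s m * s m) * (r x * r x) * (s x * s x) * -(ν x * ev q 0 x *
            ((p1 - x) * (m - x) ^ a * (∏ y ∈ K', (y - x)) * (p2 - x) ^ e * (M - x))) := by ring
        _ = _ := by rw [rm, sm, rx, sx]; ring
    · have hx1 := ((T.h2 x).1 hx).1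
      have hx2 := ((T.h2 x).1 hx).2.1
      have b1 : 0 ≤ x - p1 := by linarith
      have b2 := pw (t := m - x) a (by linarith)
      have b3 := up (K := K') (x := x) fun y hy => by linarith [(KZ' y hy).2]
      have b4 := pw (t := p2 - x) e (by linarith [p2b x hx])
      have b5 : 0 ≤ M - x := by linarith
      rw [ea] at b2
      rw [eK'] at b3
      rw [ee] at b4
      refine (mul_nonneg (mul_nonneg (mul_nonneg (mul_nonneg b1 b2) b3) b4) b5).trans_eq ?_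
      calc _ = (r m * r m) * (s m * s m) * (r z * r z) * (s z * s z) *
            ((p1 - x) * (m - x) ^ a * (∏ y ∈ K', (y - x)) * (p2 - x) ^ e * (M - x)) := by ring
        _ = _ := by rw [rm, sm, rz, sz]; ring
  exfalso
  obtain ⟨x, hx⟩ : C.Nonempty := card_pos.1 (by omega)
  obtain ⟨b1, b2, b3, b4⟩ := (hC x).1 hx
  exact b4 (hlast (by omega) x b1 b2 b3)

end Pool.Agent.P.MP_a0f0ad_al.Fi
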