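import Pool.Agent.P.MP_a0f0ad_al.Fi.T.Iface2
import Pool.Agent.P.MP_a0f0ad_al.Fi.T.Base

/-! Step TFP of the filiform project. -/

namespace Pool.Agent.P.MP_a0f0ad_al.Fi

open Finset MeasureTheory

namespace TfpA

theorem piece (hTIBP : S_TIBP) (hTJMP : S_TJMP) {d : ℕ} {S : Finset (G d)} {D : LD d}
    (h : D.Spec S) (q : Fin d → ℝ) (L : Finset ℝ) (s t u : ℝ) (H g : ℝ → ℝ) (hst : s ≤ t)
    (hL : ∀ x, x ∈ L ↔ s < x ∧ x < t ∧ D.Lv (ev q 0 x)) (h1 : ∀ x ∈ L, ev q 1 x ≠ 0)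
    (hs : ¬ D.Lv (ev q 0 s)) (ht : ¬ D.Lv (ev q 0 t)) (hu : ∀ x ∈ Set.Icc s t, u ≤ ev q 0 x)
    (hH : ∀ x ∈ Set.Icc s t, HasDerivAt H (g x) x ∧ 0 ≤ g x ∧ ContinuousAt g x) :
    D.be u * (H t - H s) ≤ D.be (ev q 0 t) * H t - D.be (ev q 0 s) * H s -
      ∑ x ∈ L, D.Jb (ev q 0 x) * (ev q 1 x / |ev q 1 x|) * H x := by
  have hg : ContinuousOn g (Set.Icc s t) := fun x hx => (hH x hx).2.2.continuousWithinAt
  have hi : IntervalIntegrable g volume s t := hg.intervalIntegrable_of_Icc hst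
  rw [← hTJMP d S D h q L s t H g hst hL h1 hs ht (fun x hx => (hH x hx).1) hg,
    ← intervalIntegral.integral_eq_sub_of_hasDerivAt
      (fun x hx => (hH x (by rwa [Set.uIcc_of_le hst] at hx)).1) hi,
    ← intervalIntegral.integral_const_mul]
  exact intervalIntegral.integral_mono_on hst (hi.const_mul _) ((hTIBP d S D h q s t hst).1 g hg)
    fun x hx => mul_le_mul_of_nonneg_right (h.be_mono (hu x hx)) (hH x hx).2.1

end TfpA

theorem p_TFP (hTIBP : S_TIBP) (hTJMP : S_TJMP) :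
    S_TFP := by
  intro d S D h q L a c b H g hac hcb hL h1 ha hb hc hu hH
  have e1 := ((continuous_ev q 0).tendsto c).eventually (h.be_eventually hc)
  obtain ⟨ε, hε, e2⟩ := Metric.eventually_nhds_iff.1
    (e1.and ((eventually_gt_nhds hac).and (eventually_lt_nhds hcb)))
  have e3 : ∀ x, c - ε / 2 ≤ x → x ≤ c + ε / 2 → (D.be (ev q 0 x) = D.be (ev q 0 c) ∧
      ¬ D.Lv (ev q 0 x)) ∧ a < x ∧ x < b := fun x h1 h2 =>
    e2 (by rw [Real.dist_eq, abs_lt]; constructor <;> linarith)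
  obtain ⟨⟨s1, s2⟩, s3, -⟩ := e3 (c - ε / 2) le_rfl (by linarith)
  obtain ⟨⟨t1, t2⟩, -, t3⟩ := e3 (c + ε / 2) (by linarith) le_rfl
  have p1 := TfpA.piece hTIBP hTJMP h q (L.filter (· < c)) a (c - ε / 2) (ev q 0 c) H g s3.le
    (fun x => by
      rw [mem_filter, hL]
      constructor
      · rintro ⟨⟨k1, k2, k3⟩, k4⟩
        refine ⟨k1, ?_, k3⟩
        by_contra k5
        exact (e3 x (not_lt.1 k5) (by linarith)).1.2 k3
      · rintro ⟨k1, k2, k3⟩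
        exact ⟨⟨k1, by linarith, k3⟩, by linarith⟩)
    (fun x hx => h1 x (mem_filter.1 hx).1) ha s2
    (fun x hx => hu x ⟨hx.1, by linarith [hx.2]⟩)
    (fun x hx => hH x ⟨hx.1, by linarith [hx.2]⟩ (by linarith [hx.2] : x < c).ne)
  have p2 := TfpA.piece hTIBP hTJMP h q (L.filter fun x => ¬ x < c) (c + ε / 2) b (ev q 0 c) H g
    t3.le
    (fun x => by
      rw [mem_filter, hL]
      constructor
      · rintro ⟨⟨k1, k2, k3⟩, k4⟩
        refine ⟨?_, k2, k3⟩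
        by_contra k5
        exact (e3 x (by linarith [not_lt.1 k4]) (not_lt.1 k5)).1.2 k3
      · rintro ⟨k1, k2, k3⟩
        exact ⟨⟨by linarith, k2, k3⟩, not_lt.2 (by linarith)⟩)
    (fun x hx => h1 x (mem_filter.1 hx).1) t2 hb
    (fun x hx => hu x ⟨by linarith [hx.1], hx.2⟩)
    (fun x hx => hH x ⟨by linarith [hx.1], hx.2⟩ (by linarith [hx.1] : c < x).ne')
  rw [s1] at p1
  rw [t1] at p2
  rw [← sum_filter_add_sum_filter_not L (· < c)]
  linarith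

end Pool.Agent.P.MP_a0f0ad_al.Fi
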