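import Pool.Agent.P.MP_a0f0ad_al.Fi.T.Iface2
import Pool.Agent.P.MP_a0f0ad_al.Fi.T.Base

/-! Step THL of the filiform project. -/

namespace Pool.Agent.P.MP_a0f0ad_al.Fi

open Finset MeasureTheory

namespace ThlA

/-- the monic polynomial with the roots `s` -/
def P (s : Multiset ℝ) (x : ℝ) : ℝ := (s.map fun y => x - y).prod

theorem P_add (s t : Multiset ℝ) (x : ℝ) : P (s + t) x = P s x * P t x := by simp [P]

theorem P_cons (y : ℝ) (s : Multiset ℝ) (x : ℝ) : P (y ::ₘ s) x = (x - y) * P s x := by simp [P]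

theorem P_diff (s : Multiset ℝ) : Differentiable ℝ (P s) := by
  induction s using Multiset.induction_on with
  | empty => exact differentiable_const _
  | cons y s ih =>
    rw [show P (y ::ₘ s) = fun x => (x - y) * P s x from funext (P_cons y s)]
    fun_prop

theorem P_neg (s : Multiset ℝ) (x : ℝ) :
    (s.map fun y => y - x).prod = (-1) ^ s.card * P s x := by
  induction s using Multiset.induction_on with
  | empty => simp [P]
  | cons y s ih => rw [Multiset.map_cons, Multiset.prod_cons, ih, P_cons, Multiset.card_cons]; ring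

theorem split (s : Multiset ℝ) (n : ℕ) (h : s.card ≤ 2 * n) :
    ∃ s1 s2 : Multiset ℝ, s = s1 + s2 ∧ s1.card ≤ n ∧ s2.card ≤ n := by
  induction s using Quotient.inductionOn with | h l =>
  refine ⟨l.take n, l.drop n, by simp, by simp, ?_⟩
  have : l.length ≤ 2 * n := h
  simp only [Multiset.coe_card, List.length_drop]
  omega

theorem atom {d : ℕ} {f : Fin d → ℝ} {Z : Finset ℝ} {s : Multiset ℝ}
    (h : ∀ x, ev f 0 x = P (Z.val + s) x) {y : ℝ} (hy : y ∈ Z) :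
    ev f 0 y = 0 ∧ ev f 1 y = P (Z.val.erase y) y * P s y := by
  classical
  have e : ev f 0 = fun x => (x - y) * P (Z.val.erase y + s) x := funext fun x => by
    rw [h, ← P_cons, ← Multiset.cons_add, Multiset.cons_erase hy]
  refine ⟨by rw [e]; simp, ?_⟩
  have h1 := ((hasDerivAt_id y).sub_const y).mul (P_diff (Z.val.erase y + s) y).hasDerivAt
  have h2 := hasDerivAt_ev f 0 y
  rw [e] at h2
  rw [h2.unique h1, ← P_add]
  simp

theorem pair {d : ℕ} {L C : ℝ} (hC : ∀ s : Multiset ℝ, s.card < d → (∀ y ∈ s, |y| ≤ L) →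
      ∃ g : Fin d → ℝ, ‖g‖ ≤ C ∧ ∀ x, ev g 0 x = (s.map fun y => x - y).prod)
    (Z : Finset ℝ) (s : Multiset ℝ) (hZ : ∀ y ∈ Z, |y| ≤ L) (hs : ∀ y ∈ s, |y| ≤ L)
    (hd : s.card + 2 * Z.card + 2 ≤ 2 * d) :
    ∃ f g : Fin d → ℝ, ‖f‖ ≤ C ∧ ‖g‖ ≤ C ∧ (∀ x ∈ Z, ev f 0 x = 0 ∧ ev g 0 x = 0) ∧
      (∀ x, ev f 0 x * ev g 0 x = (∏ y ∈ Z, (y - x)) ^ 2 * (s.map fun y => y - x).prod) ∧
      ∀ x ∈ Z, ∃ r : ℝ, ev f 1 x * ev g 1 x = r ^ 2 * (s.map fun y => y - x).prod := by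
  obtain ⟨s1, s2, rfl, c1, c2⟩ := split s (d - 1 - Z.card) (by omega)
  have key : ∀ t : Multiset ℝ, t.card ≤ d - 1 - Z.card → (∀ y ∈ t, |y| ≤ L) →
      ∃ g : Fin d → ℝ, ‖g‖ ≤ C ∧ ∀ x, ev g 0 x = P (Z.val + t) x := fun t h1 h2 =>
    hC _ (by rw [Multiset.card_add, Finset.card_val]; omega) fun y hy =>
      (Multiset.mem_add.1 hy).elim (hZ y) (h2 y)
  obtain ⟨f, f1, f2⟩ := key s1 c1 fun y hy => hs y (Multiset.mem_add.2 (Or.inl hy))
  obtain ⟨g, g1, g2⟩ := key s2 c2 fun y hy => hs y (Multiset.mem_add.2 (Or.inr hy))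
  refine ⟨((-1 : ℝ) ^ (s1 + s2).card) • f, g, by simpa [norm_smul] using f1, g1,
    fun x hx => ⟨by rw [ev_smul, (atom f2 hx).1, mul_zero], (atom g2 hx).1⟩, fun x => ?_,
    fun x hx => ⟨P (Z.val.erase x) x, ?_⟩⟩
  · have e : (∏ y ∈ Z, (y - x)) ^ 2 = P Z.val x ^ 2 := by
      rw [Finset.prod_eq_multiset_prod, P_neg, mul_pow, ← pow_mul, mul_comm _ 2, pow_mul]
      simp
    rw [ev_smul, f2, g2, e, P_neg, P_add, P_add, P_add]
    ring
  · rw [ev_smul, (atom f2 hx).2, (atom g2 hx).2, P_neg, P_add]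
    ring

theorem le_pow {t x : ℝ} {a : ℕ} (ha : a ≤ 1) (h1 : t ≤ 1) (h2 : t ≤ x) : t ≤ x ^ a := by
  interval_cases a <;> simpa

end ThlA

theorem p_THL (hTOPS : S_TOPS) (hTBAS : S_TBAS) :
    S_THL := by
  refine ⟨14, by norm_num, fun d S D h h0 => ?_⟩
  obtain ⟨C, hC, -, -, -, hP, -⟩ := hTOPS d D.Lam
  obtain ⟨c, c0, c1, hB⟩ := hTBAS d S D h
  obtain ⟨g, g0, g1, -, -, hgap, -⟩ := h.exists_slack
  have hbe := h.be_Q_pos h0
  obtain ⟨B, hB'⟩ : ∃ B : ℝ, B = max 1 (2 * D.Lam) := ⟨_, rfl⟩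
  have B1 : 1 ≤ B := hB' ▸ le_max_left _ _
  have B2 : 2 * D.Lam ≤ B := hB' ▸ le_max_right _ _
  refine ⟨D.be D.Q * c ^ 7 * g / B ^ d / C ^ 2, by positivity, ?_⟩
  intro v α m z M q Z L1 L2 ν T K a e p1 p2 ψ ha he hp1 hp2 hK hd hψ s1 s2 s3
  obtain ⟨b1, -, -, ⟨b4, -, b4'⟩, ⟨b5, -⟩, ⟨b6, b6'⟩, b7⟩ := hB v α m z M q Z L1 L2 T
  have v0 := T.v0
  have mI := T.mem_Icc T.mZ
  have p1I : α < p1 ∧ p1 ≤ m := by
    rcases hp1 with k | k
    · exact ⟨((T.h1 _).1 k).1, ((T.h1 _).1 k).2.1.le⟩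
    · exact ⟨k ▸ T.αm, k.le⟩
  have p2I : m < p2 ∧ p2 ≤ M := by
    rcases hp2 with k | k
    · exact ⟨T.mz.trans ((T.h2 _).1 k).1, ((T.h2 _).1 k).2.1.le⟩
    · exact ⟨k ▸ T.mz.trans T.zM, k.le⟩
  obtain ⟨f, f', n1, n2, z0, e0, e1⟩ := ThlA.pair hP Z
    ({p1} + Multiset.replicate a m + K.val + Multiset.replicate e p2 + {M})
    (fun y hy => T.abs_le (T.mem_Icc hy)) (fun y hy => T.abs_le (by
      simp only [Multiset.mem_add, Multiset.mem_singleton, Multiset.mem_replicate] at hy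
      rcases hy with (((k | k) | k) | k) | k
      · exact k ▸ ⟨p1I.1.le, p1I.2.trans mI.2⟩
      · exact k.2 ▸ mI
      · exact T.mem_Icc (hK k)
      · exact k.2 ▸ ⟨mI.1.trans p2I.1.le, p2I.2⟩
      · rw [k]; exact ⟨T.αM.le, le_rfl⟩)) (by simp; omega)
  have eψ : ∀ x, (Multiset.map (fun y => y - x)
      ({p1} + Multiset.replicate a m + K.val + Multiset.replicate e p2 + {M})).prod = ψ x :=
    fun x => by
      rw [hψ, Finset.prod_eq_multiset_prod]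
      simp only [Multiset.map_add, Multiset.prod_add, Multiset.map_singleton,
        Multiset.prod_singleton, Multiset.map_replicate, Multiset.prod_replicate]
  simp only [eψ] at e0 e1
  have cv : c * v ≤ 1 := mul_le_one₀ c1 v0.le T.v1
  have a1 : c * v * g ≤ p1 - α := by
    rcases hp1 with k | k
    · have k1 := ((T.h1 _).1 k).2.2
      have k2 := hgap _ k1.mem _ (LD.mem_ThA_of_abs T.qα) fun e => h.not_Lv T.qα (e ▸ k1)
      have k3 := b1 p1 ⟨p1I.1.le, p1I.2.trans mI.2⟩ α ⟨le_rfl, T.αM.le⟩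
      rw [abs_of_pos (sub_pos.2 p1I.1)] at k3
      refine le_trans ?_ k3
      have := sub_pos.2 T.αM
      gcongr
    · have : c * v * g ≤ c * v * 1 := by gcongr
      rw [k]; linarith
  have a2 : c * v ≤ (m - α) ^ a := ThlA.le_pow ha cv b6
  have a4 : c * v ≤ (p2 - α) ^ e := ThlA.le_pow he cv (by linarith [p2I.1])
  have a3 : c * v ^ 3 / B ^ d ≤ ∏ y ∈ K, (y - α) := by
    rw [div_le_iff₀' (by positivity)]
    refine b5.trans (prod_le_pow_mul_prod hK B1 (fun y hy => ?_) (by omega))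
    have := T.mem_Icc hy
    constructor <;> linarith [this.1, this.2, T.len_le]
  have a5 : c * v * g * (c * v) * (c * v ^ 3 / B ^ d) * (c * v) * v ≤ ψ α := by
    rw [hψ]
    have k1 := (by positivity : 0 ≤ c * v * g).trans a1
    have k2 := (by positivity : 0 ≤ c * v).trans a2
    have k3 := (by positivity : 0 ≤ c * v ^ 3 / B ^ d).trans a3
    have k4 := (by positivity : 0 ≤ c * v).trans a4
    gcongr
  have a6 : (c * v ^ 3) ^ 2 ≤ (∏ y ∈ Z, (y - α)) ^ 2 := by gcongr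
  have a7 : D.be D.Q * (c * v) ≤ -D.be (ev q 0 α) / ev q 1 α := by
    have k0 : 0 < |ev q 1 α| := abs_pos.2 T.dα
    have k1 := h.be_mul_nonneg (u := ev q 0 α) (F := -ev q 1 α) (by linarith)
    have k2 : 0 ≤ -D.be (ev q 0 α) / ev q 1 α := by
      have : -D.be (ev q 0 α) / ev q 1 α = D.be (ev q 0 α) * -ev q 1 α / ev q 1 α ^ 2 := by
        have := T.dα
        field_simp
      rw [this]; positivity
    rw [← abs_of_nonneg k2, abs_div, abs_neg, h.abs_be_of_abs T.qα, le_div_iff₀ k0, mul_assoc]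
    exact mul_le_of_le_one_right hbe.le (b7 α (T.abs_le ⟨le_rfl, T.αM.le⟩) 1)
  have a8 : D.be D.Q * (c * v) * ((c * v ^ 3) ^ 2 *
      (c * v * g * (c * v) * (c * v ^ 3 / B ^ d) * (c * v) * v)) ≤
      -D.be (ev q 0 α) / ev q 1 α * ((∏ y ∈ Z, (y - α)) ^ 2 * ψ α) := by
    have k1 := (by positivity : 0 ≤ D.be D.Q * (c * v)).trans a7
    gcongr
  have t1 : ∑ x ∈ L1, D.Jb (ev q 0 x) * (ev f 0 x * ev f' 0 x) / |ev q 1 x| ≤ 0 :=
    sum_nonpos fun x hx => div_nonpos_of_nonpos_of_nonneg (mul_nonpos_of_nonneg_of_nonpos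
      (h.Jb_nonneg _) (e0 x ▸ mul_nonpos_of_nonneg_of_nonpos (sq_nonneg _) (s1 x hx)))
      (abs_nonneg _)
  have t2 : 0 ≤ ∑ x ∈ L2, D.Jb (ev q 0 x) * (ev f 0 x * ev f' 0 x) / |ev q 1 x| :=
    sum_nonneg fun x hx => div_nonneg (mul_nonneg (h.Jb_nonneg _)
      (e0 x ▸ mul_nonneg (sq_nonneg _) (s3 x hx))) (abs_nonneg _)
  have t3 : D.be (ev q 0 M) * (ev f 0 M * ev f' 0 M) / ev q 1 M = 0 := by
    rw [e0, hψ]; simp
  have t4 : 0 ≤ ∑ x ∈ Z, ν x * (ev f 1 x * ev f' 1 x) / ev q 2 x := sum_nonneg fun x hx => by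
    obtain ⟨r, hr⟩ := e1 x hx
    have k1 := b4' x hx
    have k2 : ev q 0 x ≠ 0 := left_ne_zero_of_mul k1.ne
    have k3 : ν x * (r ^ 2 * ψ x) / ev q 2 x =
        r ^ 2 * (ν x * ev q 0 x * ψ x / (ev q 0 x * ev q 2 x)) := by field_simp
    rw [hr, k3]
    exact mul_nonneg (sq_nonneg _) (div_nonneg_of_nonpos (s2 x hx) k1.le)
  have t5 : D.be (ev q 0 α) * (ev f 0 α * ev f' 0 α) / ev q 1 α =
      -(-D.be (ev q 0 α) / ev q 1 α * ((∏ y ∈ Z, (y - α)) ^ 2 * ψ α)) := by rw [e0]; ring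
  refine (TH.of_le f f' (by linarith) n1 n2 z0 (a8.trans (le_trans ?_ (le_abs_self _)))).mono
    (le_of_eq (by ring))
  rw [hess]
  linarith

end Pool.Agent.P.MP_a0f0ad_al.Fi
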