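import Pool.Agent.P.MP_a0f0ad_al.Fi.T.Iface2

/-! Step TIBP of the filiform project. -/

namespace Pool.Agent.P.MP_a0f0ad_al.Fi

open Finset MeasureTheory

namespace TibpA

theorem ext {s t : ℝ} (hst : s ≤ t) {g : ℝ → ℝ} (hg : ContinuousOn g (Set.Icc s t)) :
    ∃ g2 : ℝ → ℝ, Continuous g2 ∧ ∀ x ∈ Set.Icc s t, g2 x = g x := by
  refine ⟨fun x => g (max s (min t x)), hg.comp_continuous (by fun_prop) fun x =>
    ⟨le_max_left _ _, max_le hst (min_le_left _ _)⟩, fun x hx => ?_⟩
  simp only [min_eq_right hx.2, max_eq_right hx.1]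

end TibpA

theorem p_TIBP :
    S_TIBP := by
  intro d S D h q s t hst
  refine ⟨fun g hg => ?_, fun g g' hg hg' => ?_⟩
  · obtain ⟨g2, h1, h2⟩ := TibpA.ext hst hg
    refine (h.ii_be (continuous_ev q 0) h1 s t).congr fun x hx => ?_
    rw [Set.uIoc_of_le hst] at hx
    simp only [h2 x ⟨hx.1.le, hx.2⟩]
  · obtain ⟨k, h1, h2⟩ := TibpA.ext hst hg'
    have h3 : ∀ x, HasDerivAt (fun x => g s + ∫ y in s..x, k y) (k x) x := fun x =>
      (h1.integral_hasStrictDerivAt s x).hasDerivAt.const_add _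
    have h4 : ∀ x ∈ Set.Icc s t, g s + ∫ y in s..x, k y = g x := by
      intro x hx
      have h5 : Set.uIcc s x ⊆ Set.Icc s t := by
        rw [Set.uIcc_of_le hx.1]
        exact Set.Icc_subset_Icc le_rfl hx.2
      rw [intervalIntegral.integral_eq_sub_of_hasDerivAt (f := g)
        (fun y hy => by rw [h2 y (h5 hy)]; exact hg y (h5 hy)) (h1.intervalIntegrable _ _)]
      ring
    have h6 := h.int_be q h3 h1 s t
    rw [h4 s ⟨le_rfl, hst⟩, h4 t ⟨hst, le_rfl⟩] at h6
    have h7 : ∫ x in s..t, D.be (ev q 0 x) * (ev q 1 x * g x) =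
        ∫ x in s..t, D.be (ev q 0 x) * (ev q 1 x * (g s + ∫ y in s..x, k y)) :=
      intervalIntegral.integral_congr fun x hx => by
        rw [Set.uIcc_of_le hst] at hx
        simp only [h4 x hx]
    have h8 : ∫ x in s..t, D.om (ev q 0 x) * g' x = ∫ x in s..t, D.om (ev q 0 x) * k x :=
      intervalIntegral.integral_congr fun x hx => by
        rw [Set.uIcc_of_le hst] at hx
        simp only [h2 x hx]
    rw [h7, h8, h6]

end Pool.Agent.P.MP_a0f0ad_al.Fi
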