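import Pool.Agent.P.MP_a0f0ad_al.Fi.T.Iface2
import Pool.Agent.P.MP_a0f0ad_al.Fi.T.Base

/-! Step TJMP of the filiform project. -/

namespace Pool.Agent.P.MP_a0f0ad_al.Fi

open Finset MeasureTheory

namespace TjmpA

open Filter Topology

theorem ev_lt {y x : ℝ} (h : y ≠ x) : ∀ᶠ z in 𝓝 x, (y < z ↔ y < x) ∧ (y ≤ z ↔ y ≤ x) := by
  rcases lt_or_gt_of_ne h with a | a
  · filter_upwards [lt_mem_nhds a] with z b
    exact ⟨iff_of_true b a, iff_of_true b.le a.le⟩
  · filter_upwards [gt_mem_nhds a] with z b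
    exact ⟨iff_of_false b.not_gt a.not_gt, iff_of_false b.not_ge a.not_ge⟩

theorem level {φ φ' : ℝ → ℝ} (hφ : ∀ x, HasDerivAt φ (φ' x) x) (θ : ℝ) {a b : ℝ} {L : Finset ℝ}
    (h1 : ∀ x ∈ Set.Icc a b, θ = φ x → x ∈ L) (h2 : ∀ y ∈ L, a < y ∧ φ' y ≠ 0) {x : ℝ}
    (hx : x ∈ Set.Icc a b) (hL : x ∉ L) :
    (if θ < φ x then 1 else 0 : ℝ) = (if θ < φ a then 1 else 0) +
      ∑ y ∈ L, if y < x then (if θ = φ y then φ' y / |φ' y| else 0) else 0 := by
  classical
  let t : ℝ → ℝ → ℝ := fun y x => if θ = φ y then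
    (if 0 < φ' y then (if y < x then 1 else 0) else (if y ≤ x then -1 else 0)) else 0
  let γ : ℝ → ℝ := fun x => (if θ < φ x then 1 else 0) - ∑ y ∈ L, t y x
  have A : ∀ x y, y ≠ x → ∀ᶠ z in 𝓝 x, t y z = t y x := fun x y h =>
    (ev_lt h).mono fun z e => by simp only [t, e.1, e.2]
  have B : ∀ x ∈ Set.Icc a b, γ =ᶠ[𝓝 x] fun _ => γ x := fun x hx => by
    by_cases h : θ = φ x
    · have m := h1 x hx h
      have e1 := (eventually_all_finset (L.erase x)).2 fun y hy => A x y (ne_of_mem_erase hy)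
      have e2 : ∀ᶠ z in 𝓝 x, (if θ < φ z then 1 else 0) - t x z =
          (if θ < φ x then 1 else 0) - t x x := by
        have hd := ((hφ x).sub_const θ).deriv
        rcases lt_or_gt_of_ne (h2 x m).2 with c | c
        · filter_upwards [eventually_nhdsWithin_sign_eq_of_deriv_neg (f := fun x => φ x - θ)
            (hd ▸ c) (sub_eq_zero.2 h.symm)] with z hz
          have : θ < φ z ↔ z < x := by
            rw [← sub_pos, ← sign_eq_one_iff, hz, sign_eq_one_iff, sub_pos]
          by_cases e : z < x <;> simp [t, ← h, c.not_gt, this, e, not_lt.1, not_le.2]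
        · filter_upwards [eventually_nhdsWithin_sign_eq_of_deriv_pos (f := fun x => φ x - θ)
            (hd ▸ c) (sub_eq_zero.2 h.symm)] with z hz
          have : θ < φ z ↔ x < z := by
            rw [← sub_pos, ← sign_eq_one_iff, hz, sign_eq_one_iff, sub_pos]
          simp [t, ← h, c, this]
      filter_upwards [e1, e2] with z a1 a2
      simp only [γ, ← add_sum_erase L _ m, ← sub_sub, a2, sum_congr rfl a1]
    · have e1 := (eventually_all_finset L).2 fun y (_ : y ∈ L) =>
        show ∀ᶠ z in 𝓝 x, t y z = t y x by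
          by_cases e : y = x
          · exact Eventually.of_forall fun z => by simp only [t, e, if_neg h]
          · exact A x y e
      filter_upwards [e1, (hφ x).continuousAt.eventually (ev_lt h)] with z a1 a2
      simp only [γ, a2.1, sum_congr rfl a1]
  have C := constant_of_has_deriv_right_zero (f := γ)
    (fun x hx => (continuousAt_const.congr (B x hx).symm).continuousWithinAt)
    (fun x hx => ((hasDerivAt_const x (γ x)).congr_of_eventuallyEq
      (B x (Set.Ico_subset_Icc_self hx))).hasDerivWithinAt) x hx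
  have D : ∑ y ∈ L, t y a = 0 := sum_eq_zero fun y hy => by
    simp [t, (h2 y hy).1.not_gt, (h2 y hy).1.not_ge]
  simp only [γ, D, sub_zero] at C
  rw [← C, ← sub_eq_iff_eq_add', sub_sub_cancel]
  refine sum_congr rfl fun y hy => ?_
  have e : y ≤ x ↔ y < x := ⟨fun h => h.lt_of_ne fun e => hL (e ▸ hy), le_of_lt⟩
  rcases lt_or_gt_of_ne (h2 y hy).2 with c | c
  · simp only [t, e, abs_of_neg c, div_neg, div_self c.ne, if_neg c.not_gt]
    split_ifs <;> rfl
  · simp only [t, abs_of_pos c, div_self c.ne', if_pos c]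
    split_ifs <;> rfl

variable {d : ℕ} {S : Finset (G d)} {D : LD d}

theorem kp_eq (h : D.Spec S) (u : ℝ) : D.kp u = D.kap 0 +
    ∑ k ∈ range D.n, (D.kap (k + 1) - D.kap k) * if D.th k < u then 1 else 0 := by
  have e : (range D.n).filter (fun k => D.th k < u) = range (D.idx u) := by
    ext k
    simp only [mem_filter, mem_range]
    exact ⟨fun a => (h.th_lt_iff a.1 u).1 a.2, fun a =>
      ⟨a.trans_le (D.idx_le u), (h.th_lt_iff (a.trans_le (D.idx_le u)) u).2 a⟩⟩
  simp only [mul_ite, mul_one, mul_zero]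
  rw [← sum_filter, e, sum_range_sub, LD.kp, add_sub_cancel]

theorem key (h : D.Spec S) {q : Fin d → ℝ} {L : Finset ℝ} {a b : ℝ}
    (h1 : ∀ x ∈ Set.Icc a b, D.Lv (ev q 0 x) → x ∈ L) (h2 : ∀ y ∈ L, a < y ∧ ev q 1 y ≠ 0) {x : ℝ}
    (hx : x ∈ Set.Icc a b) (hL : x ∉ L) : D.be (ev q 0 x) = D.be (ev q 0 a) +
      ∑ y ∈ L, if y < x then D.Jb (ev q 0 y) * (ev q 1 y / |ev q 1 y|) else 0 := by
  have e1 : ∀ k ∈ range D.n, _ := fun k hk => level (hasDerivAt_ev q 0) (D.th k)
    (fun x hx e => h1 x hx ⟨k, mem_range.1 hk, Or.inl e.symm⟩) h2 hx hL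
  have e2 : ∀ k ∈ range D.n, _ := fun k hk => level (fun x => (hasDerivAt_ev q 0 x).fun_neg) (D.th k)
    (fun x hx e => h1 x hx ⟨k, mem_range.1 hk, Or.inr (by rw [e, neg_neg])⟩)
    (fun y hy => ⟨(h2 y hy).1, neg_ne_zero.2 (h2 y hy).2⟩) hx hL
  rw [LD.be, LD.be, kp_eq h, kp_eq h, kp_eq h, kp_eq h,
    sum_congr rfl fun k hk => congrArg _ (e1 k hk), sum_congr rfl fun k hk => congrArg _ (e2 k hk)]
  simp only [mul_add, sum_add_distrib, mul_sum]
  rw [add_sub_add_left_eq_sub, add_sub_add_left_eq_sub, add_sub_add_comm]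
  congr 1
  simp only [← sum_sub_distrib]
  rw [sum_comm]
  refine sum_congr rfl fun y _ => ?_
  split_ifs
  · rw [LD.Jb, sum_mul]
    refine sum_congr rfl fun k _ => ?_
    simp only [zero_add, abs_neg, neg_div]
    split_ifs <;> ring
  · simp

end TjmpA

theorem p_TJMP :
    S_TJMP := by
  intro d S D h q L a b H g hab hL h1 ha hb hH hg
  have k1 : ∀ x ∈ Set.Icc a b, D.Lv (ev q 0 x) → x ∈ L := fun x hx e => (hL x).2
    ⟨hx.1.lt_of_ne fun c => ha (c ▸ e), hx.2.lt_of_ne fun c => hb (c ▸ e), e⟩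
  have k2 : ∀ y ∈ L, a < y ∧ ev q 1 y ≠ 0 := fun y hy => ⟨((hL y).1 hy).1, h1 y hy⟩
  have kb := TjmpA.key h k1 k2 (Set.right_mem_Icc.2 hab) fun e => ((hL b).1 e).2.1.false
  rw [sum_congr rfl fun y hy => if_pos ((hL y).1 hy).2.1] at kb
  have ii : IntervalIntegrable g volume a b := hg.intervalIntegrable_of_Icc hab
  have ftc : ∀ y ∈ Set.Icc a b, ∫ x in a..y, g x = H y - H a := fun y hy =>
    have s : Set.Icc a y ⊆ Set.Icc a b := Set.Icc_subset_Icc_right hy.2
    intervalIntegral.integral_eq_sub_of_hasDerivAt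
      (fun x hx => hH x (s (Set.uIcc_of_le hy.1 ▸ hx))) ((hg.mono s).intervalIntegrable_of_Icc hy.1)
  have i2 : ∀ y, IntervalIntegrable (Set.indicator {x | x ≤ y} g) volume a b := fun y =>
    ⟨ii.1.indicator measurableSet_Iic, ii.2.indicator measurableSet_Iic⟩
  have e : ∫ x in a..b, D.be (ev q 0 x) * g x = ∫ x in a..b, (D.be (ev q 0 b) * g x -
      ∑ y ∈ L, D.Jb (ev q 0 y) * (ev q 1 y / |ev q 1 y|) * Set.indicator {x | x ≤ y} g x) := by
    refine intervalIntegral.integral_congr_ae ?_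
    filter_upwards [(L.finite_toSet.countable.ae_notMem volume)] with x hx hx'
    rw [Set.uIoc_of_le hab] at hx'
    rw [kb, TjmpA.key h k1 k2 (Set.Ioc_subset_Icc_self hx') hx, add_mul, add_mul, add_sub_assoc,
      sum_mul, sum_mul, ← sum_sub_distrib]
    refine congrArg _ (sum_congr rfl fun y _ => ?_)
    by_cases c : y < x <;> simp [c, Set.indicator, not_lt.1, not_le.2]
  rw [e, intervalIntegral.integral_sub (ii.const_mul _)
    ⟨integrable_finsetSum _ fun y _ => ((i2 y).const_mul _).1,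
      integrable_finsetSum _ fun y _ => ((i2 y).const_mul _).2⟩,
    intervalIntegral.integral_finsetSum fun y _ => (i2 y).const_mul _,
    intervalIntegral.integral_const_mul, ftc b (Set.right_mem_Icc.2 hab),
    sum_congr rfl fun y hy => by
      have m : y ∈ Set.Icc a b := ⟨((hL y).1 hy).1.le, ((hL y).1 hy).2.1.le⟩
      rw [intervalIntegral.integral_const_mul, intervalIntegral.integral_indicator m, ftc y m]]
  simp only [mul_sub, sum_sub_distrib, ← sum_mul]
  rw [kb]
  ring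

end Pool.Agent.P.MP_a0f0ad_al.Fi
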