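import Pool.Agent.P.MP_a0f0ad_al.Fi.T.Iface2

/-! Step TMID of the filiform project. -/

namespace Pool.Agent.P.MP_a0f0ad_al.Fi

open Finset MeasureTheory

namespace TmidA

theorem step {Z K : Finset ℝ} {m z y : ℝ} {t : ℝ → ℝ} (hy : ∀ x ∈ Z, x < y) (hm : m ∈ Z)
    (hK : K ⊆ Z.erase m) (h1 : ∀ x ∈ Z, 0 ≤ t m * t x * ∏ w ∈ K, (w - x))
    (h2 : (-1 : ℝ) ^ K.card = t m * t z) (h3 : t y = t z ∨ t y = -t z) :
    ∃ K1 : Finset ℝ, K1 ⊆ (insert y Z).erase m ∧ K1.card ≤ K.card + 1 ∧
      (t y = t z → K1.card = K.card) ∧ (∀ x ∈ insert y Z, 0 ≤ t m * t x * ∏ w ∈ K1, (w - x)) ∧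
      (-1 : ℝ) ^ K1.card = t m * t y := by
  have hs : K ⊆ (insert y Z).erase m := hK.trans (erase_subset_erase _ (subset_insert _ _))
  by_cases e : t y = t z
  · refine ⟨K, hs, by omega, fun _ => rfl, forall_mem_insert _ _ _ |>.2 ⟨?_, h1⟩, by rw [e, h2]⟩
    rw [e, ← h2, ← prod_neg]
    exact prod_nonneg fun w hw => by linarith [hy w (mem_of_mem_erase (hK hw))]
  · have hn : y ∉ K := fun h => lt_irrefl y (hy y (mem_of_mem_erase (hK h)))
    refine ⟨insert y K, insert_subset (mem_erase.2 ⟨(hy m hm).ne', mem_insert_self _ _⟩) hs,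
      card_insert_le _ _, fun h => absurd h e, forall_mem_insert _ _ _ |>.2 ⟨?_, fun x hx => ?_⟩, ?_⟩
    · rw [prod_insert hn, sub_self, zero_mul, mul_zero]
    · rw [prod_insert hn, mul_left_comm]
      exact mul_nonneg (by linarith [hy x hx]) (h1 x hx)
    · rw [card_insert_of_notMem hn, pow_succ, h2, h3.resolve_left e]
      ring

theorem sg1 {a b : ℝ} (ha : a = 1 ∨ a = -1) (hb : b = 1 ∨ b = -1) : a = b ∨ a = -b := by
  rcases ha with rfl | rfl <;> rcases hb with rfl | rfl <;> simp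

theorem sg2 {a b : ℝ} (ha : a = 1 ∨ a = -1) (hb : b = 1 ∨ b = -1) : a * b = 1 ∨ a * b = -1 := by
  rcases ha with rfl | rfl <;> rcases hb with rfl | rfl <;> simp

end TmidA

theorem p_TMID :
    S_TMID := by
  intro Z C m z s r
  induction Z using Finset.induction_on_max generalizing z with
  | empty => exact fun h => absurd h (notMem_empty m)
  | insert y Z hy ih =>
    intro hm hz hb hs hC
    obtain rfl : z = y := (mem_insert.1 hz).elim id fun h =>
      absurd (hb y (mem_insert_self _ _)).2 (not_le.2 (hy z h))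
    rcases mem_insert.1 hm with rfl | hm'
    · obtain rfl : Z = ∅ := eq_empty_of_forall_notMem fun x hx =>
        absurd (hb x (mem_insert_of_mem hx)).1 (not_le.2 (hy x hx))
      obtain ⟨a, b⟩ := hs m hm
      refine ⟨∅, ∅, empty_subset _, empty_subset _, by simp, ?_, ?_, ?_, ?_⟩ <;>
        rcases a with a | a <;> rcases b with b | b <;> simp [a, b]
    · obtain ⟨z0, hz0, hmax⟩ := Z.exists_max_image id ⟨m, hm'⟩
      obtain ⟨K, K', k1, k2, k3, k4, k5, k6, k7⟩ := ih z0 hm' hz0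
        (fun x hx => ⟨(hb x (mem_insert_of_mem hx)).1, hmax x hx⟩)
        (fun x hx => hs x (mem_insert_of_mem hx)) fun x hx w hw h1 h2 =>
          hC x (mem_insert_of_mem hx) w (mem_insert_of_mem hw) h1 fun t ht h =>
            (mem_insert.1 ht).elim (fun e => lt_asymm (hy w hw) (e ▸ h.2)) fun ht' => h2 t ht' h
      obtain ⟨a, b⟩ := hs z hz
      obtain ⟨a0, b0⟩ := hs z0 (mem_insert_of_mem hz0)
      obtain ⟨K1, l1, l2, l3, l4, l5⟩ := TmidA.step (t := r) hy hm' k1 k4 k5 (TmidA.sg1 b b0)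
      obtain ⟨K2, n1, n2, n3, n4, n5⟩ := TmidA.step (t := fun x => r x * s x) hy hm' k2 k6 k7
        (TmidA.sg1 (TmidA.sg2 b a) (TmidA.sg2 b0 a0))
      refine ⟨K1, K2, l1, n1, ?_, l4, l5, n4, n5⟩
      rw [card_insert_of_notMem fun h => lt_irrefl z (hy z h)]
      have hsub : (C.filter fun c => m < c ∧ c < z0) ⊆ C.filter fun c => m < c ∧ c < z :=
        fun c hc => mem_filter.2 ⟨(mem_filter.1 hc).1, (mem_filter.1 hc).2.1,
          (mem_filter.1 hc).2.2.trans (hy z0 hz0)⟩
      by_cases e : s z0 = s z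
      · obtain ⟨c, c1, c2, c3⟩ := hC z0 (mem_insert_of_mem hz0) z hz (hy z0 hz0) (fun t ht h =>
          (mem_insert.1 ht).elim (fun e => lt_irrefl z (e ▸ h.2)) fun ht' =>
            absurd (hmax t ht') (not_le.2 h.1)) e
        have := card_lt_card ((ssubset_iff_of_subset hsub).2 ⟨c, mem_filter.2
          ⟨c1, (hmax m hm').trans_lt c2, c3⟩, fun h => lt_asymm c2 (mem_filter.1 h).2.2⟩)
        omega
      · have := card_le_card hsub
        by_cases e' : r z = r z0
        · have := l3 e'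
          omega
        · have := n3 (show r z * s z = r z0 * s z0 by
            rw [(TmidA.sg1 b b0).resolve_left e', (TmidA.sg1 a a0).resolve_left (Ne.symm e),
              neg_mul_neg])
          omega

end Pool.Agent.P.MP_a0f0ad_al.Fi
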