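import Pool.Agent.P.MP_a0f0ad_al.Fi.T.Iface2
import Pool.Agent.P.MP_a0f0ad_al.Fi.T.Base

/-! Step TONE of the filiform project. -/

namespace Pool.Agent.P.MP_a0f0ad_al.Fi

open Finset MeasureTheory

namespace ToneA

theorem der (a c x : ℝ) (h : x - c ≠ 0) :
    HasDerivAt (fun x => x - c + a * (x - c)⁻¹) (1 - a / (x - c) ^ 2) x := by
  have h1 : HasDerivAt (fun x => x - c) 1 x := (hasDerivAt_id x).sub_const c
  exact (h1.add ((h1.inv h).const_mul a)).congr_deriv (by ring)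

theorem cont (a c : ℝ) {s : Set ℝ} (h : ∀ x ∈ s, x - c ≠ 0) :
    ContinuousOn (fun x => 1 - a / (x - c) ^ 2) s :=
  continuousOn_const.sub (continuousOn_const.div (by fun_prop) fun x hx => pow_ne_zero _ (h x hx))

end ToneA

theorem p_TONE (hTOPS : S_TOPS) (hTBAS : S_TBAS) (hTPC : S_TPC) (hTIBP : S_TIBP) :
    S_TONE := by
  refine ⟨2, two_pos, fun d S D hD h0 => ?_⟩
  obtain ⟨C, hC, o1, o2, o3, -⟩ := hTOPS d D.Lam
  obtain ⟨_, -, -, hB⟩ := hTBAS d S D hD
  obtain ⟨c1, hc1, hP⟩ := hTPC d S D hD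
  have hN : 0 < C + (2 * D.Lam) ^ 2 * (C * C) := by positivity
  refine ⟨c1 * c1 / (C + (2 * D.Lam) ^ 2 * (C * C)), by positivity,
    fun v α m z M c q Z L1 L2 ν h hm hz hcZ hc hα hM => ?_⟩
  have v0 := h.v0
  have a1 := h.αm
  have a2 := h.zM
  have hcL : |c| ≤ D.Lam := h.abs_le ⟨by linarith, by linarith⟩
  obtain ⟨q', n1, e1⟩ := o2 q
  obtain ⟨P, n2, e2⟩ := o1 q' c hcL
  obtain ⟨g, n3, e3⟩ := o3 q c hcL
  simp only [e1, zero_add, hc] at e2
  have t0 : 0 < c - m := by linarith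
  have t1 : c - m ≤ 2 * D.Lam := by linarith [h.len_le]
  have ef : ∀ x, x - c ≠ 0 → ev (g + (c - m) ^ 2 • P) 0 x =
      ev q 1 x * (x - c + (c - m) ^ 2 * (x - c)⁻¹) := fun x hx => by
    rw [ev_add, ev_smul, e3, e2]
    field_simp
  have key : ∀ s u, s ≤ u → (∀ x ∈ Set.Icc s u, x - c ≠ 0) → |ev q 0 s| = D.Q →
      |ev q 0 u| = D.Q → D.Ib q (g + (c - m) ^ 2 • P) s u =
        ∫ x in s..u, D.om (ev q 0 x) * (1 - (c - m) ^ 2 / (x - c) ^ 2) := fun s u hsu hx hs hu => by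
    have := (hTIBP d S D hD q s u hsu).2 _ _ (fun x h => ToneA.der ((c - m) ^ 2) c x (hx x h))
      (ToneA.cont _ c hx)
    rw [LD.Spec.om_of_abs h0 hs, LD.Spec.om_of_abs h0 hu, zero_mul, zero_mul, sub_self,
      zero_add] at this
    rw [← this]
    refine intervalIntegral.integral_congr fun x h => ?_
    rw [Set.uIcc_of_le hsu] at h
    simp only [ef x (hx x h)]
  have x1 : ∀ x ∈ Set.Icc α m, x - c ≠ 0 := fun x hx => by linarith [hx.2] |> ne_of_lt
  have x2 : ∀ x ∈ Set.Icc z M, x - c ≠ 0 := fun x hx => by linarith [hx.1] |> ne_of_gt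
  have i1 := hP v α m z M q Z L1 L2 h α m c1 (fun x => 1 - (c - m) ^ 2 / (x - c) ^ 2) le_rfl a1
    (by linarith) (h.hZ m h.mZ).2.2.1 hα (ToneA.cont _ c x1) (fun x hx => by
      rw [sub_nonneg, div_le_one (by have := x1 x hx; positivity)]
      nlinarith [hx.2]) hc1.le fun x hx => by
      have l0 : 0 < c1 * (M - α) := mul_pos hc1 (by linarith)
      have b1 := hx.1
      have b2 := hx.2
      have b3 : 0 < c - x := by linarith
      have b4 : c1 * (c - x) ≤ c1 * (M - α) := mul_le_mul_of_nonneg_left (by linarith) hc1.le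
      have b5 : (c - m) * (c - m) ≤ (c - m) * (c - x) := mul_le_mul_of_nonneg_left (by linarith) t0.le
      have b6 : (c - m) * (c - x) ≤ (1 - c1) * (c - x) * (c - x) :=
        mul_le_mul_of_nonneg_right (by linarith) b3.le
      rw [le_sub_comm, div_le_iff₀ (by nlinarith)]
      nlinarith
  have i2 : 0 ≤ ∫ x in z..M, -(D.om (ev q 0 x) * (1 - (c - m) ^ 2 / (x - c) ^ 2)) :=
    intervalIntegral.integral_nonneg a2.le fun x hx => by
      rw [neg_nonneg]
      refine mul_nonpos_of_nonneg_of_nonpos (hD.om_nn (h.feas x ⟨by linarith [hx.1], hx.2⟩)) ?_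
      rw [sub_nonpos, one_le_div (by have := x2 x hx; positivity)]
      nlinarith [hx.1, hx.2]
  rw [intervalIntegral.integral_neg] at i2
  have nf : ‖g + (c - m) ^ 2 • P‖ ≤ (C + (2 * D.Lam) ^ 2 * (C * C)) / v := by
    have b1 := h.norm_le
    have b2 : ‖P‖ ≤ C * (C * (1 / v)) := n2.trans (by gcongr; exact n1.trans (by gcongr))
    have b3 : ‖g‖ ≤ C * (1 / v) := n3.trans (by gcongr)
    refine (norm_add_le _ _).trans ?_
    rw [norm_smul, Real.norm_of_nonneg (sq_nonneg _)]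
    refine (add_le_add b3 (mul_le_mul (pow_le_pow_left₀ t0.le t1 2) b2 (norm_nonneg _)
      (sq_nonneg _))).trans (le_of_eq (by ring))
  refine (TX.of_le (c := c1 * v * c1) _ (by positivity) nf (le_trans ?_ (le_abs_self _))).mono
    (le_of_eq (by field_simp))
  rw [rhoF, key α m a1.le x1 h.qα (h.hZ m h.mZ).2.2.1, key z M a2.le x2 (h.hZ z h.zZ).2.2.1 h.qM,
    sum_eq_zero fun y hy => by
      rw [ef y (sub_ne_zero.2 fun e => hcZ (e ▸ hy)), (h.hZ y hy).2.2.2.1, zero_mul, mul_zero]]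
  have b1 : c1 * v * c1 ≤ c1 * (M - α) * c1 := by
    have := (hB v α m z M q Z L1 L2 h).2.2.2.2.2.1.2
    gcongr
  linarith

end Pool.Agent.P.MP_a0f0ad_al.Fi
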