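import Pool.Agent.P.MP_a0f0ad_al.Fi.T.Iface2
import Pool.Agent.P.MP_a0f0ad_al.Fi.T.Base

/-! Step TPC of the filiform project. -/

namespace Pool.Agent.P.MP_a0f0ad_al.Fi

open Finset MeasureTheory

theorem p_TPC (hTBAS : S_TBAS) :
    S_TPC := by
  intro d S D hD
  obtain ⟨c1, c1p, -, H⟩ := hTBAS d S D hD
  obtain ⟨c0, c0p, -, hs, -⟩ := hD.exists_slack
  have Qp := hD.Qpos
  refine ⟨min (c1 * D.Q / 2) (c1 * c0 * D.Q ^ 2 / 2), by positivity, ?_⟩
  intro v α m z M q Z L1 L2 hT s t b h hαs hst htM hqt hqs hc h0 hb hh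
  have H1 := (H v α m z M q Z L1 L2 hT).1
  have l0 : 0 < M - α := sub_pos.2 hT.αM
  obtain ⟨x0, hx0, hq0⟩ : ∃ x0 ∈ Set.Icc s t, ev q 0 x0 = 0 := by
    have := intermediate_value_uIcc (a := s) (b := t) (continuous_ev q 0).continuousOn
    rw [Set.uIcc_of_le hst.le] at this
    refine this ?_
    rw [hqs, Set.mem_uIcc]
    rcases le_total 0 (ev q 0 t) with h | h
    · left; constructor <;> linarith
    · right; constructor <;> linarith
  have m0 : x0 ∈ Set.Icc α M := ⟨hαs.trans hx0.1, hx0.2.trans htM⟩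
  set δ := c1 * (M - α) * D.Q / 2 with hδ
  have δp : 0 < δ := by positivity
  have a1 := H1 s ⟨hαs, hst.le.trans htM⟩ x0 m0
  have a2 := H1 t ⟨hαs.trans hst.le, htM⟩ x0 m0
  rw [hq0, sub_zero, hqs, abs_neg, hqt, abs_sub_comm, abs_of_nonneg (sub_nonneg.2 hx0.1)] at a1
  rw [hq0, sub_zero, hqt, abs_of_nonneg (sub_nonneg.2 hx0.2)] at a2
  have cδ : min (c1 * D.Q / 2) (c1 * c0 * D.Q ^ 2 / 2) * (M - α) ≤ δ :=
    (mul_le_mul_of_nonneg_right (min_le_left _ _) l0.le).trans (le_of_eq (by rw [hδ]; ring))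
  have cf : ContinuousOn (fun x => D.om (ev q 0 x) * h x) (Set.Icc s t) :=
    (hD.continuous_om.comp (continuous_ev q 0)).continuousOn.mul hc
  have i1 : IntervalIntegrable (fun x => D.om (ev q 0 x) * h x) volume s t :=
    cf.intervalIntegrable_of_Icc hst.le
  have i2 : IntervalIntegrable (fun x => D.om (ev q 0 x) * h x) volume (x0 - δ) (x0 + δ) :=
    (cf.mono (Set.Icc_subset_Icc (by linarith) (by linarith))).intervalIntegrable_of_Icc
      (by linarith)
  refine le_trans ?_ (intervalIntegral.integral_mono_interval (c := s) (d := t) (a := x0 - δ)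
    (b := x0 + δ) (by linarith) (by linarith) (by linarith) ?_ i1)
  · have key := intervalIntegral.integral_mono_on (by linarith : x0 - δ ≤ x0 + δ)
      (intervalIntegrable_const (c := c0 * (D.Q / 2) * b)) i2 fun x hx => by
        have mx : x ∈ Set.Icc α M := ⟨by linarith [hx.1], by linarith [hx.2]⟩
        have b1 := H1 x mx x0 m0
        rw [hq0, sub_zero] at b1
        have b2 : |x - x0| ≤ δ := abs_le.2 ⟨by linarith [hx.1], by linarith [hx.2]⟩
        have b3 : |ev q 0 x| ≤ D.Q / 2 :=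
          le_of_mul_le_mul_left (a := c1 * (M - α)) (by linarith) (by positivity)
        have b4 := hs _ (hT.feas x mx)
        have b5 : c0 * (D.Q / 2) ≤ D.om (ev q 0 x) :=
          (mul_le_mul_of_nonneg_left (by linarith) c0p.le).trans b4
        exact mul_le_mul b5 (hh x ⟨by linarith [hx.1], by linarith [hx.2]⟩) hb
          (le_trans (by positivity) b5)
    rw [intervalIntegral.integral_const, smul_eq_mul] at key
    refine le_trans ?_ key
    refine (mul_le_mul_of_nonneg_right (mul_le_mul_of_nonneg_right (min_le_right _ _) l0.le)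
      hb).trans (le_of_eq ?_)
    rw [hδ]
    ring
  · refine (ae_restrict_iff' measurableSet_Ioc).2 (Filter.Eventually.of_forall fun x hx => ?_)
    exact mul_nonneg (hD.om_nn (hT.feas x ⟨hαs.trans hx.1.le, hx.2.trans htM⟩))
      (h0 x ⟨hx.1.le, hx.2⟩)

end Pool.Agent.P.MP_a0f0ad_al.Fi
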