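import Pool.Agent.P.MP_a0f0ad_al.Fi.T.Iface2

/-! Step TPOL of the filiform project. -/

namespace Pool.Agent.P.MP_a0f0ad_al.Fi

open Finset MeasureTheory

namespace TpolA

theorem anti {F f : ℝ → ℝ} {a b : ℝ} (hab : a ≤ b) (h : ∀ x, HasDerivAt F (f x) x)
    (h0 : ∀ x ∈ Set.Icc a b, f x ≤ 0) : F b ≤ F a :=
  antitoneOn_of_deriv_nonpos (convex_Icc a b) (fun x _ => (h x).continuousAt.continuousWithinAt)
    (fun x _ => (h x).differentiableAt.differentiableWithinAt)
    (fun x hx => by rw [(h x).deriv]; exact h0 x (interior_subset hx))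
    (Set.left_mem_Icc.2 hab) (Set.right_mem_Icc.2 hab) hab

theorem prod_le {Z : Finset ℝ} {c m x : ℝ} (hc : c < m) (hZ : ∀ y ∈ Z, m ≤ y) (hx : x ≤ m) :
    ∏ y ∈ Z, (1 - (x - c) / (y - c)) ≤ Real.exp (-((∑ y ∈ Z, 1 / (y - c)) * (x - c))) := by
  rw [sum_mul, ← sum_neg_distrib, Real.exp_sum]
  refine prod_le_prod (fun y hy => ?_) fun y _ => ?_
  · have := hZ y hy
    rw [sub_nonneg, div_le_one (by linarith)]
    linarith
  · have := Real.add_one_le_exp (-(1 / (y - c) * (x - c)))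
    rw [div_eq_mul_one_div (x - c)]
    linarith

theorem one_le {Z : Finset ℝ} {c m x : ℝ} (hc : c < m) (hZ : ∀ y ∈ Z, m ≤ y) (hx : x ≤ c) :
    1 ≤ ∏ y ∈ Z, (1 - (x - c) / (y - c)) := by
  refine le_trans (by simp) (prod_le_prod (f := fun _ => (1 : ℝ)) (fun _ _ => zero_le_one)
    fun y hy => ?_)
  have := hZ y hy
  have := div_nonpos_of_nonpos_of_nonneg (sub_nonpos.2 hx) (show 0 ≤ y - c by linarith)
  linarith

end TpolA

open TpolA

theorem p_TPOL :
    S_TPOL := by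
  intro φ Z B c α m hB hα hc hZ hne hφ hm x hx
  have hP := fun x => prod_le (x := x) hc hZ
  have hs : 0 < ∑ y ∈ Z, 1 / (y - c) :=
    sum_pos (fun y hy => one_div_pos.2 (by linarith [hZ y hy])) hne
  generalize ∑ y ∈ Z, 1 / (y - c) = s at *
  obtain ⟨u, hu, e⟩ : ∃ u : ℝ, 0 < u ∧ s * u = 1 := ⟨s⁻¹, inv_pos.2 hs, mul_inv_cancel₀ hs.ne'⟩
  have h1 := anti (F := fun x => φ x + B * (((x - c) * u + u ^ 2) * Real.exp (-(s * (x - c)))))
    (f := fun x => B * (x - c) * (∏ y ∈ Z, (1 - (x - c) / (y - c)) - Real.exp (-(s * (x - c)))))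
    hc.le (fun x => ?_) fun x hx => ?_
  rotate_left
  · have a := (hasDerivAt_id x).sub_const c
    refine ((hφ x).add ((((a.mul_const u).add_const (u ^ 2)).mul
      (a.const_mul s).neg.exp).const_mul B)).congr_deriv ?_
    simp only [id, Pi.neg_apply]
    linear_combination (-(B * (x - c + u) * Real.exp (-(s * (x - c))))) * e
  · exact mul_nonpos_of_nonneg_of_nonpos (mul_nonneg hB.le (sub_nonneg.2 hx.1))
      (sub_nonpos.2 (hP x hx.2))
  have h2 := anti (F := fun x => φ x - B * ((x - c) ^ 2 / 2))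
    (f := fun x => B * (x - c) * (∏ y ∈ Z, (1 - (x - c) / (y - c)) - 1))
    hα.le (fun x => ?_) fun x hx => ?_
  rotate_left
  · have a := (hasDerivAt_id x).sub_const c
    refine ((hφ x).sub (((a.pow 2).div_const 2).const_mul B)).congr_deriv ?_
    simp only [id]
    ring
  · exact mul_nonpos_of_nonpos_of_nonneg
      (mul_nonpos_of_nonneg_of_nonpos hB.le (sub_nonpos.2 hx.2)) (sub_nonneg.2 (one_le hc hZ hx.2))
  simp only [sub_self, mul_zero, zero_mul, neg_zero, Real.exp_zero, zero_add, mul_one] at h1 h2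
  have h3 : 0 ≤ B * (((m - c) * u + u ^ 2) * Real.exp (-(s * (m - c)))) := by
    have : 0 < m - c := sub_pos.2 hc
    positivity
  have h4 : (α - c) ^ 2 / 2 ≤ u ^ 2 := le_of_mul_le_mul_left (by nlinarith) hB
  have h5 : c - α ≤ 2 * u := by nlinarith
  have h6 : 0 ≤ 1 + s * (x - c) / 2 := by
    have := mul_le_mul_of_nonneg_left (show c - x ≤ 2 * u by linarith [hx.1]) hs.le
    nlinarith
  have h7 : (1 + s * (x - c) / 2) ^ 2 ≤ Real.exp (s * (x - c)) := by
    have := Real.add_one_le_exp (s * (x - c) / 2)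
    calc _ ≤ Real.exp (s * (x - c) / 2) ^ 2 := pow_le_pow_left₀ h6 (by linarith) 2
      _ = _ := by rw [sq, ← Real.exp_add, add_halves]
  calc _ ≤ Real.exp (-(s * (x - c))) * Real.exp (s * (x - c)) :=
        mul_le_mul (hP x hx.2) h7 (sq_nonneg _) (Real.exp_pos _).le
    _ = 1 := by rw [← Real.exp_add, neg_add_cancel, Real.exp_zero]

end Pool.Agent.P.MP_a0f0ad_al.Fi
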