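import Pool.Agent.P.MP_a0f0ad_al.Fi.T.Iface2
import Pool.Agent.P.MP_a0f0ad_al.Fi.T.Base

/-! Step TREF of the filiform project. -/

namespace Pool.Agent.P.MP_a0f0ad_al.Fi

open Finset MeasureTheory

namespace TrefA

variable {d : ℕ} {D : LD d} {v α m z M : ℝ} {q : Fin d → ℝ} {Z L1 L2 : Finset ℝ} {ν : ℝ → ℝ}

/-- the reflected polynomial -/
def R (f : Fin d → ℝ) : Fin d → ℝ := fun j => (-1) ^ (j : ℕ) * f j

theorem norm_R (f : Fin d → ℝ) : ‖R f‖ ≤ ‖f‖ :=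
  (pi_norm_le_iff_of_nonneg (norm_nonneg _)).2 fun j => by
    rw [R, norm_mul, norm_pow, norm_neg, norm_one, one_pow, one_mul]
    exact norm_le_pi_norm f j

theorem ev_R (f : Fin d → ℝ) (k : ℕ) (x : ℝ) : ev (R f) k x = (-1) ^ k * ev f k (-x) := by
  simp only [ev, dot, mul_sum]
  refine sum_congr rfl fun j _ => ?_
  rcases lt_or_ge (j : ℕ) k with h | h
  · simp [Vd, Nat.descFactorial_eq_zero_iff_lt.2 h]
  · obtain ⟨i, hi⟩ := Nat.exists_eq_add_of_le h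
    have e : (j : ℕ) - k = i := by omega
    simp only [R, Vd, e]
    rw [neg_pow x, hi, pow_add]
    ring

theorem ev_R0 (f : Fin d → ℝ) (x : ℝ) : ev (R f) 0 x = ev f 0 (-x) := by
  rw [ev_R, pow_zero, one_mul]

theorem ev_R1 (f : Fin d → ℝ) (x : ℝ) : ev (R f) 1 x = -ev f 1 (-x) := by
  rw [ev_R, pow_one, neg_one_mul]

theorem ev_R2 (f : Fin d → ℝ) (x : ℝ) : ev (R f) 2 x = ev f 2 (-x) := by
  rw [ev_R, neg_one_sq, one_mul]

/-- the reflected set -/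
def N (Z : Finset ℝ) : Finset ℝ := Z.map (Equiv.neg ℝ).toEmbedding

theorem mem_N {x : ℝ} : x ∈ N Z ↔ -x ∈ Z := by
  rw [N, mem_map_equiv]; rfl

theorem sum_N (Z : Finset ℝ) (F : ℝ → ℝ) : ∑ x ∈ N Z, F x = ∑ x ∈ Z, F (-x) := sum_map _ _ _

theorem ts_neg (h : TS D v α m z M q Z L1 L2) : TS D v α m z M (-q) Z L1 L2 := by
  refine ⟨h.v0, h.v1, h.hα, h.αm, h.mz, h.zM, h.hM, fun x hx => ?_, ?_, ?_, h.mZ, h.zZ,
    fun x hx => ?_, fun x hx w hw e => ?_, ?_, h.hl, ?_, ?_, fun x => ?_, fun x => ?_⟩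
  · rw [ev_neg, abs_neg]; exact h.feas x hx
  · rw [ev_neg, abs_neg]; exact h.qα
  · rw [ev_neg, abs_neg]; exact h.qM
  · simpa only [ev_neg, abs_neg, neg_eq_zero] using h.hZ x hx
  · rw [ev_neg, ← abs_neg, neg_sub', neg_neg] at e
    refine (h.r2 x hx _ (D.neg_mem_ThA hw) e).imp (fun a => by rwa [ev_neg, abs_neg]) ?_
    rintro ⟨y, a, b, c⟩
    exact ⟨y, a, b, by rw [ev_neg, c, neg_neg]⟩
  · rw [norm_neg]; exact h.hq
  · rw [ev_neg]; exact neg_ne_zero.2 h.dα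
  · rw [ev_neg]; exact neg_ne_zero.2 h.dM
  · rw [ev_neg, LD.Lv.neg_iff]; exact h.h1 x
  · rw [ev_neg, LD.Lv.neg_iff]; exact h.h2 x

theorem rho_neg (f : Fin d → ℝ) :
    rhoF D (-q) α m z M Z (fun x => -ν x) f = -rhoF D q α m z M Z ν f := by
  simp only [rhoF, LD.Ib, ev_neg, D.be_neg, neg_mul, intervalIntegral.integral_neg, sum_neg_distrib]
  ring

theorem hess_neg (f g : Fin d → ℝ) :
    hess D (-q) α M L1 L2 Z (fun x => -ν x) f g = hess D q α M L1 L2 Z ν f g := by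
  simp only [hess, ev_neg, D.be_neg, D.Jb_neg, abs_neg, neg_mul, neg_div_neg_eq]

theorem ts_R (h : TS D v α m z M q Z L1 L2) :
    TS D v (-M) (-z) (-m) (-α) (R q) (N Z) (N L2) (N L1) := by
  refine ⟨h.v0, h.v1, neg_le_neg h.hM, neg_lt_neg h.zM, neg_lt_neg h.mz, neg_lt_neg h.αm,
    neg_le.1 h.hα, fun x hx => ?_, ?_, ?_, ?_, ?_, fun x hx => ?_, fun x hx w hw e => ?_, ?_, ?_,
    ?_, ?_, fun x => ?_, fun x => ?_⟩
  · rw [ev_R0]; exact h.feas _ ⟨le_neg.1 hx.2, neg_le.1 hx.1⟩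
  · rw [ev_R0, neg_neg]; exact h.qM
  · rw [ev_R0, neg_neg]; exact h.qα
  · rw [mem_N, neg_neg]; exact h.zZ
  · rw [mem_N, neg_neg]; exact h.mZ
  · obtain ⟨a1, a2, a3, a4, a5⟩ := h.hZ _ (mem_N.1 hx)
    refine ⟨neg_le.1 a2, le_neg.1 a1, by rwa [ev_R0], by rw [ev_R1, a4, neg_zero], fun y hy => ?_⟩
    rw [ev_R2]
    exact a5 _ (by rwa [← neg_sub', abs_neg])
  · rw [ev_R0] at e
    refine (h.r2 (-x) (by rwa [abs_neg]) w hw e).imp (fun a => by rwa [ev_R1, abs_neg]) ?_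
    rintro ⟨y, a, b, c⟩
    refine ⟨-y, by rwa [mem_N, neg_neg], ?_, by rwa [ev_R0, neg_neg]⟩
    rwa [← abs_neg, neg_sub', neg_neg]
  · exact (mul_le_mul_of_nonneg_left (norm_R q) h.v0.le).trans h.hq
  · rw [neg_sub_neg]; exact h.hl
  · rw [ev_R1, neg_neg]; exact neg_ne_zero.2 h.dM
  · rw [ev_R1, neg_neg]; exact neg_ne_zero.2 h.dα
  · rw [mem_N, h.h2, ev_R0, lt_neg, neg_lt, and_left_comm]
  · rw [mem_N, h.h1, ev_R0, lt_neg, neg_lt, and_left_comm]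

theorem ib_R (f : Fin d → ℝ) (s t : ℝ) : D.Ib (R q) f (-t) (-s) = D.Ib q (R f) s t := by
  simp only [LD.Ib, ev_R0]
  rw [← intervalIntegral.integral_comp_neg fun x => D.be (ev q 0 (-x)) * ev f 0 x]
  simp only [neg_neg]

theorem rho_R (f : Fin d → ℝ) :
    rhoF D (R q) (-M) (-z) (-m) (-α) (N Z) (fun x => -ν (-x)) f =
      -rhoF D q α m z M Z ν (R f) := by
  simp only [rhoF, ib_R, sum_N, ev_R0, neg_neg, neg_mul, sum_neg_distrib]
  ring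

theorem hess_R (f g : Fin d → ℝ) :
    hess D (R q) (-M) (-α) (N L2) (N L1) (N Z) (fun x => -ν (-x)) f g =
      -hess D q α M L1 L2 Z ν (R f) (R g) := by
  simp only [hess, sum_N, ev_R0, ev_R1, ev_R2, neg_neg, abs_neg, neg_mul, mul_neg, neg_div,
    div_neg, sum_neg_distrib]
  ring

end TrefA

open TrefA in
theorem p_TREF :
    S_TREF := by
  intro d D v α m z M q Z L1 L2 ν h
  refine ⟨⟨ts_neg h, fun c => ⟨?_, ?_⟩⟩, R q, N Z, N L2, N L1, ev_R q, fun _ => mem_N,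
    card_map _, ts_R h, fun c => ⟨?_, ?_⟩⟩
  · rintro ⟨f, a, b⟩
    exact ⟨f, a, by rwa [rho_neg, abs_neg] at b⟩
  · rintro ⟨f, g, a, a', b, e⟩
    exact ⟨f, g, a, a', b, by rwa [hess_neg] at e⟩
  · rintro ⟨f, a, b⟩
    exact ⟨R f, (norm_R f).trans a, by rwa [rho_R, abs_neg] at b⟩
  · rintro ⟨f, g, a, a', b, e⟩
    refine ⟨R f, R g, (norm_R f).trans a, (norm_R g).trans a', fun x hx => ?_,
      by rwa [hess_R, abs_neg] at e⟩
    rw [ev_R0, ev_R0]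
    exact b _ (by rwa [mem_N, neg_neg])

end Pool.Agent.P.MP_a0f0ad_al.Fi
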