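import Pool.Agent.P.MP_a0f0ad_al.Fi.T.Iface2
import Pool.Agent.P.MP_a0f0ad_al.Fi.T.Base

/-! Step TSHP of the filiform project. -/

namespace Pool.Agent.P.MP_a0f0ad_al.Fi

open Finset MeasureTheory

theorem p_TSHP (hTBAS : S_TBAS) :
    S_TSHP := by
  intro d S D hD v α m z M c A q Z L1 L2 h hc hm hA hq
  obtain ⟨_, -, -, hT⟩ := hTBAS d S D hD
  obtain ⟨-, t2, -, ⟨t4, -⟩, -⟩ := hT v α m z M q Z L1 L2 h
  have pos : ∀ x < m, 0 < A * ∏ y ∈ Z, (y - x) := fun x hx =>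
    mul_pos hA (prod_pos fun y hy => sub_pos.2 (hx.trans_le (h.hZ y hy).1))
  have neg : ∀ x < c, ev q 1 x < 0 := fun x hx => by
    rw [hq]
    exact mul_neg_of_neg_of_pos (sub_neg.2 hx) (pos x (hx.trans hm))
  have anti : StrictAntiOn (ev q 0) (Set.Icc α c) :=
    strictAntiOn_of_deriv_neg (convex_Icc _ _) (continuous_ev q 0).continuousOn fun x hx => by
      rw [interior_Icc] at hx
      rw [(hasDerivAt_ev q 0 x).deriv]
      exact neg x hx.2
  have mono : StrictMonoOn (ev q 0) (Set.Icc c m) :=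
    strictMonoOn_of_deriv_pos (convex_Icc _ _) (continuous_ev q 0).continuousOn fun x hx => by
      rw [interior_Icc] at hx
      rw [(hasDerivAt_ev q 0 x).deriv, hq]
      exact mul_pos (sub_pos.2 hx.1) (pos x hx.2)
  have hcI : c ∈ Set.Icc α M := ⟨hc.le, (hm.trans (h.mz.trans h.zM)).le⟩
  refine ⟨?_, ?_, fun x hx => ?_, ?_, fun hl => ?_⟩
  · rw [← h.qα, abs_of_pos (pos_of_mul_neg_left t4 (neg α hc).le)]
  · have h1 := mono ⟨le_rfl, hm.le⟩ ⟨hm.le, le_rfl⟩ hm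
    have h2 := (abs_le.1 (h.feas c hcI)).1
    have h3 := (h.hZ m h.mZ).2.2.1
    rcases abs_cases (ev q 0 m) with e | e <;> linarith [e.1]
  · rcases le_total x c with e | e
    · exact anti.antitoneOn ⟨hx.1, e⟩ ⟨hc.le, le_rfl⟩ e
    · exact mono.monotoneOn ⟨le_rfl, hm.le⟩ ⟨e, hx.2⟩ e
  · refine (abs_eq_abs.1 ((h.hZ z h.zZ).2.2.1.trans h.qM.symm)).resolve_left fun e => ?_
    obtain ⟨x, x1, -, x3⟩ := ev_rolle q 0 h.zM e
    rw [hq] at x3
    exact mul_ne_zero (sub_pos.2 (hm.trans (h.mz.trans x1))).ne' (mul_ne_zero hA.ne'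
      (prod_ne_zero_iff.2 fun y hy => (sub_neg.2 ((h.hZ y hy).2.1.trans_lt x1)).ne)) x3
  · have := t2 c hcI (fun hz => (h.hZ c hz).1.not_gt hm) hl.mem
    rw [hq, sub_self, zero_mul, abs_zero] at this
    exact this.not_gt (pow_pos h.v0 2)

end Pool.Agent.P.MP_a0f0ad_al.Fi
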