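import Pool.Agent.P.MP_a0f0ad_al.Fi.T.Iface2
import Pool.Agent.P.MP_a0f0ad_al.Fi.T.Base

/-! Step TSYM of the filiform project. -/

namespace Pool.Agent.P.MP_a0f0ad_al.Fi

open Finset MeasureTheory

namespace TsymA

theorem pos_left {W : Finset ℝ} {x : ℝ} (h : ∀ y ∈ W, x < y) :
    0 < (-1 : ℝ) ^ W.card * ∏ y ∈ W, (x - y) := by
  rw [← prod_neg]
  exact prod_pos fun y hy => by linarith [h y hy]

theorem sign_prod {W : Finset ℝ} {x : ℝ} (h : x ∉ W) :
    0 < (-1 : ℝ) ^ (W.filter fun y => x < y).card * ∏ y ∈ W, (x - y) := by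
  rw [← prod_filter_mul_prod_filter_not W fun y => x < y, ← mul_assoc]
  refine mul_pos (pos_left fun y hy => (mem_filter.1 hy).2) (prod_pos fun y hy => ?_)
  obtain ⟨h1, h2⟩ := mem_filter.1 hy
  exact sub_pos.2 (lt_of_le_of_ne (not_lt.1 h2) fun e => h (e ▸ h1))

theorem extreme {a b s Q : ℝ} (ha : |a| = Q) (hb : |b| ≤ Q) (hs : 0 ≤ s * a) :
    0 ≤ s * (a - b) := by
  have h1 : s * a = |s| * Q := by rw [← ha, ← abs_mul, abs_of_nonneg hs]
  have h2 : s * b ≤ |s| * Q :=
    (le_abs_self _).trans (by rw [abs_mul]; exact mul_le_mul_of_nonneg_left hb (abs_nonneg s))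
  linarith

theorem second {d : ℕ} {q : Fin d → ℝ} {A c y : ℝ} {Z : Finset ℝ} (hy : y ∈ Z)
    (h : ∀ x, ev q 1 x = A * (x - c) * ∏ t ∈ Z, (x - t)) :
    ev q 2 y = A * (y - c) * ∏ t ∈ Z.erase y, (y - t) := by
  have h1 : ev q 1 = fun x => (x - y) * (A * (x - c) * ∏ t ∈ Z.erase y, (x - t)) := by
    funext x
    rw [h, ← mul_prod_erase Z _ hy]
    ring
  have h2 : DifferentiableAt ℝ (fun x => A * (x - c) * ∏ t ∈ Z.erase y, (x - t)) y := by
    fun_prop
  have h3 := ((hasDerivAt_id' y).sub_const y).fun_mul h2.hasDerivAt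
  rw [← h1, sub_self, zero_mul, add_zero, one_mul] at h3
  exact (hasDerivAt_ev q 1 y).unique h3

theorem key (hTODD : S_TODD) {d : ℕ} {q : Fin d → ℝ} {c A T ε : ℝ} {Z : Finset ℝ} (hd : Even d)
    (hc : ev q 1 c = 0) (hA : A ≠ 0) (hε : ε ≠ 0) (hT : 0 < T) (hZ : ∀ y ∈ Z, ε * (y - c) < T)
    (hn : d ≤ 2 * ((Z.filter fun y => 0 < ε * (y - c)).card + 1))
    (h1 : 0 ≤ A * (ev q 0 (c + T) - ev q 0 (c - T)))
    (h2 : ∀ y ∈ Z, 0 < ε * (y - c) →
      0 ≤ A * (-1) ^ ((Z.filter fun t => ε * (y - c) < ε * (t - c)).card + 1) *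
        (ev q 0 (c + ε * (y - c)) - ev q 0 (c - ε * (y - c)))) :
    ∀ η, ev q 0 (c + η) = ev q 0 (c - η) := by
  have hi : Function.Injective fun y : ℝ => ε * (y - c) := fun x y e => by
    have := mul_left_cancel₀ hε e
    linarith
  have hm : T ∉ (Z.filter fun y => 0 < ε * (y - c)).image fun y => ε * (y - c) := by
    intro h
    obtain ⟨y, hy, e⟩ := mem_image.1 h
    exact (hZ y (mem_filter.1 hy).1).ne e
  refine hTODD d q c A (insert T ((Z.filter fun y => 0 < ε * (y - c)).image fun y => ε * (y - c)))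
    hd hc hA (fun η hη => ?_) ?_ fun η hη => ?_
  · rcases mem_insert.1 hη with rfl | hη
    · exact hT
    · obtain ⟨y, hy, rfl⟩ := mem_image.1 hη
      exact (mem_filter.1 hy).2
  · rwa [card_insert_of_notMem hm, card_image_of_injective _ hi]
  · rcases mem_insert.1 hη with rfl | hη
    · rw [filter_eq_empty_iff.2, card_empty, pow_zero, mul_one]
      · exact h1
      · intro t ht
        rcases mem_insert.1 ht with rfl | ht
        · exact lt_irrefl _
        · obtain ⟨y, hy, rfl⟩ := mem_image.1 ht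
          exact (hZ y (mem_filter.1 hy).1).not_gt
    · obtain ⟨y, hy, rfl⟩ := mem_image.1 hη
      obtain ⟨h3, h4⟩ := mem_filter.1 hy
      rw [filter_insert, if_pos (hZ y h3), card_insert_of_notMem fun h => hm (mem_filter.1 h).1,
        filter_image, card_image_of_injective _ hi, filter_filter,
        filter_congr (q := fun t => ε * (y - c) < ε * (t - c))
          fun t _ => ⟨fun h => h.2, fun h => ⟨h4.trans h, h⟩⟩]
      exact h2 y h3 h4

theorem parity {Z : Finset ℝ} {y : ℝ} (hy : y ∈ Z) (hZ : Odd Z.card) :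
    (-1 : ℝ) ^ (Z.filter fun t => t < y).card = (-1) ^ (Z.filter fun t => y < t).card := by
  have h1 := card_filter_add_card_filter_not (s := Z.erase y) fun t => y < t
  have h2 : (Z.erase y).filter (fun t => y < t) = Z.filter fun t => y < t := by
    ext t
    simp only [mem_filter, mem_erase]
    exact ⟨fun h => ⟨h.1.2, h.2⟩, fun h => ⟨⟨h.2.ne', h.1⟩, h.2⟩⟩
  have h3 : (Z.erase y).filter (fun t => ¬ y < t) = Z.filter fun t => t < y := by
    ext t
    simp only [mem_filter, mem_erase, not_lt]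
    exact ⟨fun h => ⟨h.1.2, lt_of_le_of_ne h.2 h.1.1⟩, fun h => ⟨⟨h.2.ne, h.1⟩, h.2.le⟩⟩
  rw [h2, h3] at h1
  have h4 := card_erase_add_one hy
  obtain ⟨k, hk⟩ := hZ
  have h5 : (-1 : ℝ) ^ ((Z.filter fun t => y < t).card + (Z.filter fun t => t < y).card) = 1 := by
    rw [h1, show (Z.erase y).card = 2 * k by omega, pow_mul]
    simp
  rw [pow_add] at h5
  rcases neg_one_pow_eq_or ℝ (Z.filter fun t => y < t).card with e | e <;> rw [e] at h5 ⊢ <;>
    linarith

end TsymA

open TsymA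

theorem p_TSYM (hTOPS : S_TOPS) (hTBAS : S_TBAS) (hTODD : S_TODD) :
    S_TSYM := by
  intro d S D hd hS v α m z M c q Z L1 L2 h hZ hmc hcz hc hq
  obtain ⟨_, -, -, -, -, -, -, h6⟩ := hTOPS d 0
  obtain ⟨_, -, -, hB⟩ := hTBAS d S D hS
  obtain ⟨-, -, -, ⟨bα, bM, bZ⟩, -⟩ := hB v α m z M q Z L1 L2 h
  have hcard : (insert c Z).card + 2 = d := by rw [card_insert_of_notMem hc]; omega
  obtain ⟨A, hA, hq1⟩ := (h6 q (insert c Z) ⟨α, h.dα⟩ fun y hy => by
    rcases mem_insert.1 hy with rfl | hy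
    · exact hq
    · exact (h.hZ y hy).2.2.2.1).2 hcard
  have hW : ∀ y ∈ insert c Z, m ≤ y ∧ y ≤ z := fun y hy => by
    rcases mem_insert.1 hy with rfl | hy
    · exact ⟨hmc.le, hcz.le⟩
    · exact ⟨(h.hZ y hy).1, (h.hZ y hy).2.1⟩
  obtain ⟨k, hk⟩ := id hd
  have hpos : ∀ x, x < m ∨ z < x → 0 < ∏ y ∈ insert c Z, (x - y) := by
    rintro x (hx | hx)
    · have := pos_left (W := insert c Z) (x := x) fun y hy => hx.trans_le (hW y hy).1
      rwa [Even.neg_one_pow ⟨k - 1, by omega⟩, one_mul] at this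
    · exact prod_pos fun y hy => by linarith [(hW y hy).2]
  have hne : ∀ x, x < m ∨ z < x → ev q 1 x ≠ 0 := fun x hx => by
    rw [hq1]; exact mul_ne_zero hA (hpos x hx).ne'
  refine ⟨?_, ?_, ?_⟩
  · refine (abs_eq_abs.1 (h.qα.trans (h.hZ m h.mZ).2.2.1.symm)).resolve_left fun e => ?_
    obtain ⟨x, -, h2, h3⟩ := ev_rolle q 0 h.αm e
    exact hne x (Or.inl h2) h3
  · refine (abs_eq_abs.1 (h.qM.trans (h.hZ z h.zZ).2.2.1.symm)).resolve_left fun e => ?_
    obtain ⟨x, h1, -, h3⟩ := ev_rolle q 0 h.zM e.symm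
    exact hne x (Or.inr h1) h3
  by_contra hcon
  rw [not_or, not_le, not_le] at hcon
  obtain ⟨c1, c2⟩ := hcon
  have αm := h.αm
  have zM := h.zM
  have sM : 0 ≤ A * ev q 0 M := by
    rw [hq1, ← mul_assoc] at bM
    rw [mul_comm]
    exact ((mul_pos_iff_of_pos_right (hpos M (Or.inr zM))).1 bM).le
  have sα : 0 ≤ -A * ev q 0 α := by
    rw [hq1, ← mul_assoc] at bα
    have := hpos α (Or.inl αm)
    by_contra e
    nlinarith [mul_pos (show 0 < ev q 0 α * A by linarith) this]
  have hq1' : ∀ x, ev q 1 x = A * (x - c) * ∏ t ∈ Z, (x - t) := fun x => by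
    rw [hq1, prod_insert hc, mul_assoc]
  have sZ : ∀ y ∈ Z, A * (y - c) * (-1) ^ (Z.filter fun t => y < t).card * ev q 0 y < 0 := by
    intro y hy
    have h1 := bZ y hy
    rw [second hy hq1'] at h1
    have h2 := sign_prod (W := Z.erase y) (x := y) (notMem_erase y Z)
    have h3 : (Z.erase y).filter (fun t => y < t) = Z.filter fun t => y < t := by
      ext t
      simp only [mem_filter, mem_erase]
      exact ⟨fun h => ⟨h.1.2, h.2⟩, fun h => ⟨⟨h.2.ne', h.1⟩, h.2⟩⟩
    rw [h3] at h2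
    by_contra e
    have h4 := mul_nonneg (not_lt.1 e) h2.le
    rcases neg_one_pow_eq_or ℝ (Z.filter fun t => y < t).card with e | e <;> rw [e] at h4 <;>
      nlinarith
  obtain ⟨T, T0, T1, T2, T3, T4, hT⟩ : ∃ T, 0 < T ∧ c - m < T ∧ z - c < T ∧ T ≤ M - c ∧
      T ≤ c - α ∧ 0 ≤ A * (ev q 0 (c + T) - ev q 0 (c - T)) := by
    rcases le_total (M - c) (c - α) with e | e
    · refine ⟨M - c, by linarith, c1, by linarith, le_rfl, e, ?_⟩
      rw [add_sub_cancel]
      exact extreme h.qM (h.feas _ ⟨by linarith, by linarith⟩) sM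
    · refine ⟨c - α, by linarith, by linarith, c2, e, le_rfl, ?_⟩
      rw [sub_sub_cancel]
      have := extreme h.qα (h.feas (c + (c - α)) ⟨by linarith, by linarith⟩) sα
      linarith
  have hsym : ∀ η, ev q 0 (c + η) = ev q 0 (c - η) := by
    have h1 := card_filter_add_card_filter_not (s := Z) fun y => 0 < 1 * (y - c)
    rw [filter_congr (p := fun y => ¬ 0 < 1 * (y - c)) (q := fun y => 0 < -1 * (y - c))
      fun y hy => ⟨fun e => by
        have : y ≠ c := fun e => hc (e ▸ hy)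
        have := lt_of_le_of_ne (show y ≤ c by linarith [not_lt.1 e]) this
        linarith, fun e => not_lt.2 (by linarith)⟩] at h1
    by_cases h2 : d ≤ 2 * ((Z.filter fun y => 0 < 1 * (y - c)).card + 1)
    · refine key hTODD hd hq hA one_ne_zero T0 (fun y hy => by linarith [(h.hZ y hy).2.1]) h2 hT
        fun y hy h3 => ?_
      obtain ⟨z1, z2, z3, -⟩ := h.hZ y hy
      rw [filter_congr (q := fun t => y < t) fun t _ => ⟨fun e => by linarith, fun e => by linarith⟩,
        show c + 1 * (y - c) = y by ring]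
      refine extreme z3 (h.feas _ ⟨by linarith, by linarith⟩) ?_
      have := sZ y hy
      rw [pow_succ]
      by_contra e
      nlinarith [mul_pos h3 (sub_pos.2 (not_le.1 e))]
    · refine key (ε := -1) hTODD hd hq hA (by norm_num) T0
        (fun y hy => by linarith [(h.hZ y hy).1]) (by omega) hT fun y hy h3 => ?_
      obtain ⟨z1, z2, z3, -⟩ := h.hZ y hy
      rw [filter_congr (q := fun t => t < y) fun t _ => ⟨fun e => by linarith, fun e => by linarith⟩,
        show c - -1 * (y - c) = y by ring, pow_succ, parity hy ⟨k - 2, by omega⟩]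
      have h4 : 0 ≤ A * (-1) ^ (Z.filter fun t => y < t).card * ev q 0 y := by
        have := sZ y hy
        by_contra e
        nlinarith [mul_pos h3 (sub_pos.2 (not_le.1 e))]
      have := extreme z3 (h.feas (c + -1 * (y - c)) ⟨by linarith, by linarith⟩) h4
      linarith
  have d1 := (hasDerivAt_ev q 0 (c + (M - α))).comp_const_add c (M - α)
  have d2 := (hasDerivAt_ev q 0 (c - (M - α))).comp_const_sub c (M - α)
  rw [funext hsym] at d1
  have d3 := d1.unique d2
  have p1 := hpos (c + (M - α)) (Or.inr (by linarith))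
  have p2 := hpos (c - (M - α)) (Or.inl (by linarith))
  rw [zero_add, hq1, hq1, ← mul_neg] at d3
  have := mul_left_cancel₀ hA d3
  linarith

end Pool.Agent.P.MP_a0f0ad_al.Fi
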