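import Pool.Agent.P.MP_a0f0ad_al.Fi.T.Iface2
import Pool.Agent.P.MP_a0f0ad_al.Fi.T.Base

/-! Step TTWA of the filiform project. -/

namespace Pool.Agent.P.MP_a0f0ad_al.Fi

open Finset MeasureTheory

namespace TtwaA

theorem eq_of_ne {f g : ℝ → ℝ} (hf : Continuous f) (hg : Continuous g) (c : ℝ)
    (h : ∀ x, x ≠ c → f x = g x) (x : ℝ) : f x = g x :=
  congrFun (hf.ext_on (dense_compl_singleton c) hg fun y hy => h y hy) x

end TtwaA

theorem p_TTWA (hTOPS : S_TOPS) (hTBAS : S_TBAS) (hTPC : S_TPC) (hTIBP : S_TIBP) (hTSHP : S_TSHP) :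
    S_TTWA := by
  have _ := hTBAS
  refine ⟨1, one_pos, fun d S D hD h0 => ?_⟩
  obtain ⟨C, hC, o1, o2, -⟩ := hTOPS d D.Lam
  obtain ⟨c1, hc1, pc⟩ := hTPC d S D hD
  have hL := hD.Lam_pos
  have hC0 : 0 < C := one_pos.trans_le hC
  refine ⟨c1 / (2 * D.Lam) / C ^ 2, by positivity, ?_⟩
  intro v α m z M c A q Z L1 L2 ν T αc cm hA hq hbe
  obtain ⟨-, -, s3, s4, -⟩ := hTSHP d S D hD v α m z M c A q Z L1 L2 T αc cm hA hq
  have hv := T.v0
  have cz : c < z := cm.trans T.mz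
  have hl : 0 < M - α := sub_pos.2 T.αM
  obtain ⟨g, g1, g2⟩ := o2 q
  obtain ⟨P, p1, p2⟩ := o1 g c (T.abs_le ⟨αc.le, (cz.trans T.zM).le⟩)
  have p3 : ∀ x, ev q 1 x = (x - c) * ev P 0 x := fun x => by
    have e := p2 x
    rw [g2, g2, zero_add, hq c, sub_self, zero_mul, zero_add] at e
    exact e
  have p4 : ∀ x, ev P 0 x = A * ∏ y ∈ Z, (y - x) :=
    TtwaA.eq_of_ne (continuous_ev P 0) (by fun_prop) c fun x hx =>
      mul_left_cancel₀ (sub_ne_zero.2 hx) ((p3 x).symm.trans (hq x))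
  have p5 : ‖P‖ ≤ C ^ 2 / v := by
    calc ‖P‖ ≤ C * (C * (1 / v)) := p1.trans (mul_le_mul_of_nonneg_left
          (g1.trans (mul_le_mul_of_nonneg_left T.norm_le hC0.le)) hC0.le)
      _ = C ^ 2 / v := by ring
  have i1 : 0 ≤ D.Ib q P α m := by
    refine intervalIntegral.integral_nonneg T.αm.le fun x hx => ?_
    refine mul_nonneg (hbe.trans (hD.be_mono (s3 x hx))) ?_
    rw [p4]
    exact mul_nonneg hA.le (prod_nonneg fun y hy => sub_nonneg.2 (hx.2.trans (T.hZ y hy).1))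
  have i2 : ∑ x ∈ Z, ν x * ev P 0 x = 0 := sum_eq_zero fun x hx => by
    rw [p4, prod_eq_zero (f := fun y => y - x) hx (sub_self x), mul_zero, mul_zero]
  have hne : ∀ x ∈ Set.Icc z M, x - c ≠ 0 := fun x hx => (sub_pos.2 (cz.trans_le hx.1)).ne'
  have hcont : ContinuousOn (fun x : ℝ => ((x - c) ^ 2)⁻¹) (Set.Icc z M) :=
    ContinuousOn.inv₀ (by fun_prop) fun x hx => pow_ne_zero 2 (hne x hx)
  have i3 := (hTIBP d S D hD q z M T.zM.le).2 (fun x => (x - c)⁻¹) (fun x => -((x - c) ^ 2)⁻¹)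
    (fun x hx => by
      have := ((hasDerivAt_id x).sub_const c).inv (hne x hx)
      refine this.congr_deriv ?_
      simp only [id, neg_div, one_div]) hcont.neg
  rw [LD.Spec.om_of_abs h0 (T.hZ z T.zZ).2.2.1, LD.Spec.om_of_abs h0 T.qM, zero_mul, zero_mul,
    sub_zero, zero_add] at i3
  have i4 : D.Ib q P z M = -∫ x in z..M, D.om (ev q 0 x) * ((x - c) ^ 2)⁻¹ := by
    rw [← intervalIntegral.integral_neg]
    simp only [← mul_neg]
    rw [← i3]
    refine intervalIntegral.integral_congr fun x hx => ?_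
    rw [Set.uIcc_of_le T.zM.le] at hx
    have := hne x hx
    simp only [p3 x]
    field_simp
  have i5 := pc v α m z M q Z L1 L2 T z M ((M - α) ^ 2)⁻¹ (fun x => ((x - c) ^ 2)⁻¹)
    (αc.trans cz).le T.zM le_rfl T.qM s4 hcont (fun x _ => by positivity) (by positivity)
    fun x hx => by
      have e := mul_pos hc1 hl
      have e1 : 0 < x - c := by linarith [hx.1]
      exact inv_anti₀ (by positivity) (pow_le_pow_left₀ e1.le (by linarith [hx.2]) 2)
  have i6 : c1 / (2 * D.Lam) ≤ c1 * (M - α) * ((M - α) ^ 2)⁻¹ := by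
    rw [show c1 * (M - α) * ((M - α) ^ 2)⁻¹ = c1 / (M - α) by field_simp]
    exact div_le_div_of_nonneg_left hc1.le hl T.len_le
  have i7 : c1 / (2 * D.Lam) ≤ |rhoF D q α m z M Z ν P| := by
    refine le_trans ?_ (le_abs_self _)
    rw [rhoF, i2, i4]
    linarith
  refine (TX.of_le P (by positivity) p5 i7).mono (le_of_eq ?_)
  field_simp

end Pool.Agent.P.MP_a0f0ad_al.Fi
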