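import Pool.Agent.P.MP_a0f0ad_al.Fi.T.Iface2
import Pool.Agent.P.MP_a0f0ad_al.Fi.T.Base

/-! Step TTWB of the filiform project. -/

namespace Pool.Agent.P.MP_a0f0ad_al.Fi

open Finset MeasureTheory

namespace TtwbA

variable {d : ℕ}

theorem hX (c s : ℝ) {x : ℝ} (hx : x ≠ c) :
    HasDerivAt (fun x => (x - c)⁻¹ ^ 3 + s * (x - c)⁻¹ ^ 2 + s ^ 2 / 4 * (x - c)⁻¹)
      (-(3 * (x - c)⁻¹ ^ 4 + 2 * s * (x - c)⁻¹ ^ 3 + s ^ 2 / 4 * (x - c)⁻¹ ^ 2)) x := by
  have hu : HasDerivAt (fun x => (x - c)⁻¹) (-(x - c)⁻¹ ^ 2) x :=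
    (((hasDerivAt_id' x).sub_const c).fun_inv (sub_ne_zero.2 hx)).congr_deriv (by
      rw [inv_pow, neg_div, one_div])
  exact (((hu.fun_pow 3).fun_add ((hu.fun_pow 2).const_mul s)).fun_add
    (hu.const_mul _)).congr_deriv (by generalize (x - c)⁻¹ = u; norm_num; ring)

theorem hH (P : Fin d → ℝ) (c : ℝ) {x : ℝ} (hx : x ≠ c) :
    HasDerivAt (fun x => ev P 0 x / (x - c)) (ev P 1 x / (x - c) - ev P 0 x / (x - c) ^ 2) x := by
  have := sub_ne_zero.2 hx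
  exact ((hasDerivAt_ev P 0 x).fun_div ((hasDerivAt_id' x).sub_const c) this).congr_deriv (by
    field_simp)

theorem sq_div (a e : ℝ) : a * a / (e * a) = a / e := by
  by_cases h : a = 0
  · simp [h]
  · rw [mul_div_mul_right _ _ h]

theorem lev (J a r : ℝ) {e : ℝ} (he : e ≠ 0) : J * (a * a) / r = J * (e * a / r) * (a / e) := by
  field_simp

end TtwbA

open TtwbA

theorem p_TTWB (hTBAS : S_TBAS) (hTPC : S_TPC) (hTIBP : S_TIBP) (hTJMP : S_TJMP) (hTFP : S_TFP) (hTSHP : S_TSHP) (hTTWC : S_TTWC) :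
    S_TTWB := by
  refine ⟨3, by norm_num, fun d S D hS h0 => ?_⟩
  obtain ⟨cb, -, -, hB⟩ := hTBAS d S D hS
  obtain ⟨cp, hcp, hP⟩ := hTPC d S D hS
  obtain ⟨C, hC, hW⟩ := hTTWC d S D hS
  have hΛ := hS.Lam_pos
  obtain ⟨c1, hc1⟩ : ∃ c1, c1 = cp / (2 * D.Lam) ^ 3 / 2 := ⟨_, rfl⟩
  have hc1' : 0 < c1 := by rw [hc1]; positivity
  refine ⟨min (c1 / C) (c1 / C ^ 2), by positivity,
    fun v α m z M c A q Z L1 L2 ν h hαc hcm hA hq hbe => ?_⟩
  obtain ⟨P, f, p, s, hs, nP, nf, eP, dp, ef, hp⟩ := hW v α m z M c A q Z L1 L2 h hαc hcm hA hq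
  obtain ⟨sα, sm, smin, sz, sc⟩ := hTSHP d S D hS v α m z M c A q Z L1 L2 h hαc hcm hA hq
  obtain ⟨-, b2, -⟩ := hB v α m z M q Z L1 L2 h
  have hv := h.v0
  have hcz : c < z := hcm.trans h.mz
  have q1 : ∀ x, ev q 1 x = (x - c) * ev P 0 x := fun x => by rw [hq, eP]
  have q2 : ∀ x, ev q 2 x = ev P 0 x + (x - c) * ev P 1 x := fun x => by
    have e := ((hasDerivAt_id' x).sub_const c).fun_mul (hasDerivAt_ev P 0 x)
    rw [← funext q1, one_mul] at e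
    exact (hasDerivAt_ev q 1 x).unique e
  have PZ : ∀ y ∈ Z, ev P 0 y = 0 := fun y hy => by
    rw [eP, prod_eq_zero (f := fun t => t - y) hy (sub_self y), mul_zero]
  have qm : |ev q 0 m| = D.Q := (h.hZ m h.mZ).2.2.1
  have qz : |ev q 0 z| = D.Q := (h.hZ z h.zZ).2.2.1
  have n1 : ∀ x ∈ L1, ev q 1 x ≠ 0 := fun x hx e => by
    obtain ⟨a1, a2, a3⟩ := (h.h1 x).1 hx
    have := b2 x ⟨a1.le, (a2.trans (h.mz.trans h.zM)).le⟩ (fun b => (h.hZ x b).1.not_gt a2) a3.mem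
    rw [e, abs_zero] at this
    exact this.not_gt (by positivity)
  have n2 : ∀ x ∈ L2, ev q 1 x ≠ 0 := fun x hx e => by
    obtain ⟨a1, a2, a3⟩ := (h.h2 x).1 hx
    have := b2 x ⟨((h.αm.trans h.mz).trans a1).le, a2.le⟩ (fun b => (h.hZ x b).2.1.not_gt a1) a3.mem
    rw [e, abs_zero] at this
    exact this.not_gt (by positivity)
  have cP := continuous_ev P
  -- the left range
  have j1 := hTJMP d S D hS q L1 α m p (ev f 0) h.αm.le h.h1 n1 (hS.not_Lv h.qα) (hS.not_Lv qm)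
    (fun x _ => dp x) (continuous_ev f 0).continuousOn
  have f1 := hTFP d S D hS q L1 α c m (fun x => p x - ev P 0 x / (x - c))
    (fun x => ev P 0 x * (1 + s * (x - c) / 2) ^ 2 / (x - c) ^ 2) hαc hcm h.h1 n1
    (hS.not_Lv h.qα) (hS.not_Lv qm) sc smin fun x hx hxc =>
      ⟨((dp x).fun_sub (hH P c hxc)).congr_deriv (by rw [ef x hxc]; ring), by
        have : 0 ≤ ev P 0 x := by
          rw [eP]
          exact mul_nonneg hA.le (prod_nonneg fun y hy => sub_nonneg.2 (hx.2.trans (h.hZ y hy).1))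
        positivity, ContinuousAt.div (by have := cP 0; fun_prop) (by fun_prop)
          (pow_ne_zero _ (sub_ne_zero.2 hxc))⟩
  have f2 := mul_nonneg_of_nonpos_of_nonpos hbe (sub_nonpos.2 hp)
  simp only [PZ m h.mZ, zero_div, sub_zero, mul_sub _ (p _), sum_sub_distrib] at f1 f2
  -- the right range
  have ne : ∀ x ∈ Set.Icc z M, x ≠ c := fun x hx => (hcz.trans_le hx.1).ne'
  have ne' : ∀ x ∈ Set.Icc z M, x - c ≠ 0 := fun x hx => sub_ne_zero.2 (ne x hx)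
  have cH : ContinuousOn (fun x => ev P 1 x / (x - c) - ev P 0 x / (x - c) ^ 2) (Set.Icc z M) :=
    ((cP 1).continuousOn.div (by fun_prop) ne').sub
      ((cP 0).continuousOn.div (by fun_prop) fun x hx => pow_ne_zero _ (ne' x hx))
  have cu : ContinuousOn (fun x => (x - c)⁻¹) (Set.Icc z M) := ContinuousOn.inv₀ (by fun_prop) ne'
  have cY : ContinuousOn (fun x => 3 * (x - c)⁻¹ ^ 4 + 2 * s * (x - c)⁻¹ ^ 3 +
      s ^ 2 / 4 * (x - c)⁻¹ ^ 2) (Set.Icc z M) := by fun_prop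
  have j2 := hTJMP d S D hS q L2 z M _ _ h.zM.le h.h2 n2 (hS.not_Lv qz) (hS.not_Lv h.qM)
    (fun x hx => hH P c (ne x hx)) cH
  obtain ⟨i1, i2⟩ := hTIBP d S D hS q z M h.zM.le
  have i3 := i2 _ _ (fun x hx => hX c s (ne x hx)) cY.neg
  have i4 : D.Ib q f z M = (∫ x in z..M, D.be (ev q 0 x) *
      (ev P 1 x / (x - c) - ev P 0 x / (x - c) ^ 2)) + ∫ x in z..M, D.be (ev q 0 x) *
      (ev q 1 x * ((x - c)⁻¹ ^ 3 + s * (x - c)⁻¹ ^ 2 + s ^ 2 / 4 * (x - c)⁻¹)) := by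
    have cq := (continuous_ev q 1).continuousOn (s := Set.Icc z M)
    rw [← intervalIntegral.integral_add (i1 _ cH) (i1 (fun x => ev q 1 x *
      ((x - c)⁻¹ ^ 3 + s * (x - c)⁻¹ ^ 2 + s ^ 2 / 4 * (x - c)⁻¹)) (by fun_prop))]
    refine intervalIntegral.integral_congr fun x hx => ?_
    rw [Set.uIcc_of_le h.zM.le] at hx
    have := ne' x hx
    simp only [ef x (ne x hx), q1 x]
    field_simp
    ring
  have l0 : 0 < M - α := sub_pos.2 h.αM
  have i5 := hP v α m z M q Z L1 L2 h z M ((M - α) * (2 * D.Lam) ^ 3)⁻¹ _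
    (h.αm.trans h.mz).le h.zM le_rfl h.qM sz cY (fun x hx => by
      have : 0 < x - c := sub_pos.2 (hcz.trans_le hx.1)
      positivity) (by positivity) fun x hx => by
      have a0 := mul_pos hcp l0
      have a1 : 0 < x - c := by linarith [hx.1]
      have a2 : x - c ≤ M - α := by linarith [hx.2]
      have a3 : ((M - α) * (2 * D.Lam) ^ 3)⁻¹ ≤ (x - c)⁻¹ ^ 4 := by
        rw [inv_pow, pow_succ' _ 3]
        exact inv_anti₀ (by positivity) (mul_le_mul a2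
          (pow_le_pow_left₀ a1.le (a2.trans h.len_le) 3) (by positivity) l0.le)
      have a4 : 0 ≤ (x - c)⁻¹ ^ 4 := by positivity
      have a5 : 0 ≤ 2 * s * (x - c)⁻¹ ^ 3 + s ^ 2 / 4 * (x - c)⁻¹ ^ 2 := by positivity
      linarith
  rw [show cp * (M - α) * ((M - α) * (2 * D.Lam) ^ 3)⁻¹ = 2 * c1 by rw [hc1]; field_simp] at i5
  simp only [LD.Spec.om_of_abs h0 qz, LD.Spec.om_of_abs h0 h.qM, zero_mul, sub_zero, zero_add,
    mul_neg, intervalIntegral.integral_neg] at i3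
  simp only [PZ z h.zZ, zero_div, mul_zero, sub_zero] at j2
  -- the identity
  have e1 : ∑ x ∈ L1, D.Jb (ev q 0 x) * (ev P 0 x * ev P 0 x) / |ev q 1 x| =
      ∑ x ∈ L1, D.Jb (ev q 0 x) * (ev q 1 x / |ev q 1 x|) * (ev P 0 x / (x - c)) :=
    sum_congr rfl fun x hx => by
      rw [lev _ _ _ (sub_ne_zero.2 fun e : x = c => sc (e ▸ ((h.h1 x).1 hx).2.2)), ← q1]
  have e2 : ∑ x ∈ L2, D.Jb (ev q 0 x) * (ev P 0 x * ev P 0 x) / |ev q 1 x| =
      ∑ x ∈ L2, D.Jb (ev q 0 x) * (ev q 1 x / |ev q 1 x|) * (ev P 0 x / (x - c)) :=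
    sum_congr rfl fun x hx => by
      rw [lev _ _ _ (sub_ne_zero.2 (hcz.trans ((h.h2 x).1 hx).1).ne'), ← q1]
  have e3 : ∀ b x, b * (ev P 0 x * ev P 0 x) / ev q 1 x = b * (ev P 0 x / (x - c)) := fun b x => by
    rw [q1, mul_div_assoc, sq_div]
  have e4 : ∑ x ∈ Z, ν x * (ev P 1 x * ev P 1 x) / ev q 2 x = ∑ x ∈ Z, ν x * ev f 0 x :=
    sum_congr rfl fun x hx => by
      rw [q2, ef x (hcm.trans_le (h.hZ x hx).1).ne', PZ x hx, zero_add, mul_div_assoc, sq_div]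
      simp
  have key : 2 * c1 ≤ rhoF D q α m z M Z ν f - hess D q α M L1 L2 Z ν P P := by
    rw [rhoF, hess, e1, e2, e3, e3, e4, i4, i3, j2, LD.Ib, j1]
    linarith
  by_cases k : c1 ≤ |rhoF D q α m z M Z ν f|
  · refine Or.inl ((TX.of_le f (N := C / v ^ 3) (by positivity)
      (by rwa [le_div_iff₀ (by positivity), mul_comm]) k).mono ?_)
    rw [div_div_eq_mul_div, mul_div_right_comm]
    exact h.pow_mono (by positivity) (min_le_left _ _) le_rfl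
  · refine Or.inr ((TH.of_le P P (c := c1) (N := C / v) (by positivity)
      (by rwa [le_div_iff₀ hv, mul_comm]) (by rwa [le_div_iff₀ hv, mul_comm])
      (fun x hx => ⟨PZ x hx, PZ x hx⟩) (by
        linarith [le_abs_self (rhoF D q α m z M Z ν f),
          neg_le_abs (hess D q α M L1 L2 Z ν P P)])).mono ?_)
    rw [div_pow, div_div_eq_mul_div, mul_div_right_comm]
    exact h.pow_mono (by positivity) (min_le_right _ _) (by norm_num)

end Pool.Agent.P.MP_a0f0ad_al.Fi
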