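import Pool.Agent.P.MP_a0f0ad_al.Fi.T.Iface2
import Pool.Agent.P.MP_a0f0ad_al.Fi.T.Base

/-! Step TTWC of the filiform project. -/

namespace Pool.Agent.P.MP_a0f0ad_al.Fi

open Finset MeasureTheory

namespace TtwcA

theorem dprod (c : ℝ) (Z : Finset ℝ) (h : ∀ y ∈ Z, y - c ≠ 0) :
    HasDerivAt (fun x => ∏ y ∈ Z, (y - x)) (-(∑ y ∈ Z, 1 / (y - c)) * ∏ y ∈ Z, (y - c)) c := by
  classical
  induction Z using Finset.induction_on with
  | empty => simpa using hasDerivAt_const c (1 : ℝ)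
  | insert a Z ha ih =>
    have h1 := ((hasDerivAt_id c).const_sub a).mul (ih fun y hy => h y (mem_insert_of_mem hy))
    have h2 := h a (mem_insert_self a Z)
    simp only [prod_insert ha, sum_insert ha]
    refine HasDerivAt.congr_deriv h1 ?_
    simp only [id]
    field_simp
    ring

theorem anti {G g : ℝ → ℝ} (h : ∀ x, HasDerivAt G (g x) x) {a b : ℝ} (hab : a ≤ b)
    (hg : ∀ x, a < x → x < b → g x ≤ 0) : G b ≤ G a :=
  antitoneOn_of_deriv_nonpos (convex_Icc a b)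
    (fun x _ => (h x).continuousAt.continuousWithinAt)
    (fun x _ => (h x).differentiableAt.differentiableWithinAt)
    (fun x hx => by
      rw [interior_Icc] at hx
      rw [(h x).deriv]
      exact hg x hx.1 hx.2)
    (Set.left_mem_Icc.2 hab) (Set.right_mem_Icc.2 hab) hab

theorem bound {C d v s p a b e n : ℝ} (hC : 1 ≤ C) (hd : 0 ≤ d) (v0 : 0 < v) (v1 : v ≤ 1)
    (s0 : 0 ≤ s) (hs : v * s ≤ d) (p0 : 0 ≤ p) (hp : v * p ≤ C ^ 2) (ha : a ≤ C * p)
    (hb : b ≤ C * a) (he : e ≤ C * a) (hn : n ≤ e + b + s * a + s ^ 2 / 4 * p) :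
    v ^ 3 * n ≤ C ^ 2 * (2 * C ^ 2 + d * C + d ^ 2) := by
  have C0 : 0 ≤ C := by linarith
  have h1 : C * a ≤ C * (C * p) := mul_le_mul_of_nonneg_left ha C0
  have h2 : s * a ≤ s * (C * p) := mul_le_mul_of_nonneg_left ha s0
  have h3 : n ≤ p * (2 * C ^ 2 + s * C + s ^ 2 / 4) := by nlinarith
  have h4 : v ^ 2 ≤ 1 := pow_le_one₀ v0.le v1
  have h5 : v * (v * s) ≤ d := by nlinarith [mul_nonneg v0.le s0]
  have h6 : (v * s) ^ 2 ≤ d ^ 2 := pow_le_pow_left₀ (mul_nonneg v0.le s0) hs 2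
  have h7 : v ^ 2 * (2 * C ^ 2 + s * C + s ^ 2 / 4) ≤ 2 * C ^ 2 + d * C + d ^ 2 := by
    have k1 : v ^ 2 * (2 * C ^ 2) ≤ 1 * (2 * C ^ 2) :=
      mul_le_mul_of_nonneg_right h4 (by positivity)
    have k2 : v * (v * s) * C ≤ d * C := mul_le_mul_of_nonneg_right h5 C0
    nlinarith [sq_nonneg d]
  calc v ^ 3 * n ≤ v ^ 3 * (p * (2 * C ^ 2 + s * C + s ^ 2 / 4)) :=
        mul_le_mul_of_nonneg_left h3 (by positivity)
    _ = v * p * (v ^ 2 * (2 * C ^ 2 + s * C + s ^ 2 / 4)) := by ring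
    _ ≤ C ^ 2 * (2 * C ^ 2 + d * C + d ^ 2) :=
        mul_le_mul hp h7 (by positivity) (by positivity)

end TtwcA

theorem p_TTWC (hTOPS : S_TOPS) (hTBAS : S_TBAS) (hTPOL : S_TPOL) (hTSHP : S_TSHP) :
    S_TTWC := by
  intro d S D hS
  obtain ⟨C, hC, o1, o2, -, -, -, o6⟩ := hTOPS d D.Lam
  obtain ⟨c0, -, -, hb⟩ := hTBAS d S D hS
  have C0 : 0 < C := by linarith
  refine ⟨C ^ 2 * (2 * C ^ 2 + d * C + d ^ 2), by positivity,
    fun v α m z M c A q Z L1 L2 hT h1 h2 hA hq => ?_⟩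
  have hc : |c| ≤ D.Lam := hT.abs_le ⟨h1.le, h2.le.trans (hT.mz.trans hT.zM).le⟩
  have q0 : ev q 1 c = 0 := by rw [hq, sub_self, zero_mul]
  have hy : ∀ y ∈ Z, 0 < y - c := fun y hy => by linarith [(hT.hZ y hy).1]
  have hv : ∀ y ∈ Z, v ≤ y - c := fun y hy' => by
    have := (hb v α m z M q Z L1 L2 hT).2.2.1 y hy' c (by linarith [hy y hy']) q0
    rwa [abs_sub_comm, abs_of_pos (hy y hy')] at this
  have hcard : (Z.card : ℝ) ≤ d := by
    have := (o6 q Z ⟨α, hT.dα⟩ fun y hy => (hT.hZ y hy).2.2.2.1).1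
    exact_mod_cast (by omega : Z.card ≤ d)
  obtain ⟨g0, n0, e0⟩ := o2 q
  obtain ⟨P, nP, eP⟩ := o1 g0 c hc
  obtain ⟨P1, n1, e1⟩ := o1 P c hc
  obtain ⟨P2, n2, e2⟩ := o1 P1 c hc
  obtain ⟨D1, n3, e3⟩ := o2 P1
  have hP : ∀ x, ev P 0 x = A * ∏ y ∈ Z, (y - x) := by
    refine congrFun (Continuous.ext_on (dense_compl_singleton c) (continuous_ev P 0)
      (by fun_prop) fun x hx => ?_)
    have := eP x
    rw [e0, e0, zero_add, q0, zero_add, hq] at this
    exact (mul_left_cancel₀ (sub_ne_zero.2 hx) this).symm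
  set s := ∑ y ∈ Z, 1 / (y - c) with hs
  have s0 : 0 ≤ s := sum_nonneg fun y hy' => (one_div_pos.2 (hy y hy')).le
  have s1 : v * s ≤ d := by
    rw [hs, mul_sum]
    refine le_trans ?_ hcard
    simpa using sum_le_card_nsmul Z (fun y => v * (1 / (y - c))) 1 fun y hy' => by
      rw [mul_one_div, div_le_one (hy y hy')]
      exact hv y hy'
  have hB : 0 < ev P 0 c := by
    rw [hP]
    exact mul_pos hA (prod_pos hy)
  have hP' : ∀ x, ev P 0 x = ev P 0 c * ∏ y ∈ Z, (1 - (x - c) / (y - c)) := fun x => by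
    rw [hP, hP, mul_assoc, ← prod_mul_distrib]
    refine congrArg _ (prod_congr rfl fun y hy' => ?_)
    have := (hy y hy').ne'
    field_simp
    ring
  have d1 : ∀ x, ev P 1 x = ev P1 0 x + (x - c) * ev P1 1 x := fun x => by
    have k := (((hasDerivAt_id x).sub_const c).mul (hasDerivAt_ev P1 0 x)).const_add (ev P 0 c)
    have k2 : HasDerivAt (ev P 0) (1 * ev P1 0 x + (x - c) * ev P1 1 x) x := by
      rw [funext e1]
      exact k
    rw [(hasDerivAt_ev P 0 x).unique k2, one_mul]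
  have d2 : ev P1 0 c = -s * ev P 0 c := by
    have k := (TtwcA.dprod c Z fun y hy' => (hy y hy').ne').const_mul A
    rw [← funext hP] at k
    have k2 := (hasDerivAt_ev P 0 c).unique k
    rw [zero_add, d1, sub_self, zero_mul, add_zero] at k2
    rw [k2, hP]
    ring
  have ef : ∀ x, ev (D1 + P2 + s • P1 + (s ^ 2 / 4) • P) 0 x =
      ev P1 1 x + ev P2 0 x + s * ev P1 0 x + s ^ 2 / 4 * ev P 0 x := fun x => by
    rw [ev_add, ev_add, ev_add, ev_smul, ev_smul, e3]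
  have vP : v * ‖P‖ ≤ C ^ 2 := by
    have k1 : ‖P‖ ≤ C * (C * ‖q‖) := nP.trans (mul_le_mul_of_nonneg_left n0 C0.le)
    calc v * ‖P‖ ≤ v * (C * (C * ‖q‖)) := mul_le_mul_of_nonneg_left k1 hT.v0.le
      _ = C ^ 2 * (v * ‖q‖) := by ring
      _ ≤ C ^ 2 * 1 := mul_le_mul_of_nonneg_left hT.hq (by positivity)
      _ = C ^ 2 := mul_one _
  have dp : ∀ x, HasDerivAt (fun x => ∫ t in c..x, ev (D1 + P2 + s • P1 + (s ^ 2 / 4) • P) 0 t)
      (ev (D1 + P2 + s • P1 + (s ^ 2 / 4) • P) 0 x) x := fun x =>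
    ((continuous_ev _ 0).integral_hasStrictDerivAt c x).hasDerivAt
  refine ⟨P, D1 + P2 + s • P1 + (s ^ 2 / 4) • P, _, s, s0, vP.trans ?_, ?_, hP, dp,
    fun x hx => ?_, ?_⟩
  · refine le_mul_of_one_le_right (by positivity) ?_
    have : (0 : ℝ) ≤ d * C + d ^ 2 := by positivity
    nlinarith
  · refine TtwcA.bound hC (Nat.cast_nonneg d) hT.v0 hT.v1 s0 s1 (norm_nonneg P) vP n1 n2 n3 ?_
    refine norm_add_le_of_le (norm_add_le_of_le (norm_add_le _ _) ?_) ?_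
    · rw [norm_smul, Real.norm_of_nonneg s0]
    · rw [norm_smul, Real.norm_of_nonneg (by positivity)]
  · have := sub_ne_zero.2 hx
    rw [ef, d1, e1 x, e2 x, d2]
    field_simp
    ring
  · obtain ⟨t1, t2, -⟩ := hTSHP d S D hS v α m z M c A q Z L1 L2 hT h1 h2 hA hq
    have pol := hTPOL (ev q 0) Z (ev P 0 c) c α m hB h1 h2 (fun y hy => (hT.hZ y hy).1)
      ⟨m, hT.mZ⟩ (fun x => by
        refine (hasDerivAt_ev q 0 x).congr_deriv ?_
        rw [zero_add, hq, ← hP, hP' x]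
        ring) (by rw [t1, t2])
    have dG := fun x => (dp x).sub (hasDerivAt_ev P1 0 x)
    have neg : ∀ x ∈ Set.Icc α m, x ≠ c →
        ev (D1 + P2 + s • P1 + (s ^ 2 / 4) • P) 0 x - ev P1 (0 + 1) x ≤ 0 := fun x hx hne => by
      have k1 := mul_le_mul_of_nonneg_left (pol x hx) hB.le
      rw [← mul_assoc, ← hP', ← hs] at k1
      have k2 : (x - c) ^ 2 * (ev (D1 + P2 + s • P1 + (s ^ 2 / 4) • P) 0 x - ev P1 (0 + 1) x) =
          ev P 0 x * (1 + s * (x - c) / 2) ^ 2 - ev P 0 c * 1 := by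
        rw [ef, zero_add, e1 x, e2 x, d2]
        ring
      have k3 : 0 < (x - c) ^ 2 := by
        have := sub_ne_zero.2 hne
        positivity
      exact nonpos_of_mul_nonpos_right (by linarith) k3
    have a1 := TtwcA.anti dG h1.le fun x k1 k2 => neg x ⟨k1.le, (k2.trans h2).le⟩ k2.ne
    have a2 := TtwcA.anti dG h2.le fun x k1 k2 => neg x ⟨(h1.trans k1).le, k2.le⟩ k1.ne'
    have m0 : 0 < m - c := sub_pos.2 h2
    have a0 : α - c < 0 := sub_neg.2 h1
    have b1 : ev P 0 m / (m - c) = ev P1 0 m + ev P 0 c / (m - c) := by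
      rw [e1 m]
      field_simp
      ring
    have b2 : ev P 0 α / (α - c) = ev P1 0 α + ev P 0 c / (α - c) := by
      have := a0.ne
      rw [e1 α]
      field_simp
      ring
    have b3 := div_pos hB m0
    have b4 := div_neg_of_pos_of_neg hB a0
    simp only [Pi.sub_apply] at a1 a2
    linarith

end Pool.Agent.P.MP_a0f0ad_al.Fi
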