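import Pool.Agent.P.MP_a0f0ad_al.Fi.T.Iface2
import Pool.Agent.P.MP_a0f0ad_al.Fi.T.Base

/-! Step TXL of the filiform project. -/

namespace Pool.Agent.P.MP_a0f0ad_al.Fi

open Finset MeasureTheory

namespace TxlA

theorem le_pow1 {δ u : ℝ} {a : ℕ} (h1 : δ ≤ 1) (h2 : δ ≤ u) (ha : a ≤ 1) : δ ≤ u ^ a := by
  rcases Nat.le_one_iff_eq_zero_or_eq_one.1 ha with rfl | rfl
  · rwa [pow_zero]
  · rwa [pow_one]

theorem prodA {A : Finset ℝ} {x κ l B v : ℝ} {d : ℕ} (hκ : 0 < κ) (hκ1 : κ ≤ 1) (hl : 0 < l)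
    (hB : 1 ≤ B) (hlB : l ≤ B) (hv : v ≤ l ^ d) (hA : A.card ≤ d)
    (h : ∀ y ∈ A, κ * l ≤ |x - y|) : κ ^ d / B ^ d * v ≤ |∏ y ∈ A, (x - y)| := by
  have h1 : (κ * l) ^ A.card ≤ |∏ y ∈ A, (x - y)| := by
    rw [abs_prod, ← prod_const]
    exact prod_le_prod (fun _ _ => by positivity) h
  refine le_trans ?_ h1
  have h2 : κ ^ d ≤ κ ^ A.card := pow_le_pow_of_le_one hκ.le hκ1 hA
  have h3 : v ≤ l ^ A.card * B ^ d := by
    refine hv.trans ?_
    rw [← Nat.add_sub_cancel' hA, pow_add, Nat.add_sub_cancel' hA]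
    exact mul_le_mul_of_nonneg_left ((pow_le_pow_left₀ hl.le hlB _).trans
      (pow_le_pow_right₀ hB (Nat.sub_le _ _))) (by positivity)
  have hBd : 0 < B ^ d := by positivity
  rw [mul_pow, div_mul_eq_mul_div, div_le_iff₀ hBd, mul_assoc]
  exact (mul_le_mul_of_nonneg_left h3 (by positivity)).trans
    (mul_le_mul_of_nonneg_right h2 (by positivity))

theorem int_low {φ : ℝ → ℝ} {α m δ L : ℝ} (hδ : 0 ≤ δ) (hα : α ≤ m - 2 * δ)
    (hi : ∀ s t, IntervalIntegrable φ volume s t) (h0 : ∀ x ∈ Set.Icc α m, 0 ≤ φ x)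
    (h1 : ∀ x ∈ Set.Icc (m - 2 * δ) (m - δ), L ≤ φ x) : δ * L ≤ ∫ x in α..m, φ x := by
  have a1 : ∫ _ in (m - 2 * δ)..(m - δ), L ≤ ∫ x in (m - 2 * δ)..(m - δ), φ x :=
    intervalIntegral.integral_mono_on (by linarith) intervalIntegrable_const (hi _ _) h1
  rw [intervalIntegral.integral_const, smul_eq_mul, show m - δ - (m - 2 * δ) = δ by ring] at a1
  have a2 := intervalIntegral.integral_add_adjacent_intervals (hi α (m - 2 * δ)) (hi _ (m - δ))
  have a3 := intervalIntegral.integral_add_adjacent_intervals (hi α (m - δ)) (hi _ m)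
  have a4 : 0 ≤ ∫ x in α..(m - 2 * δ), φ x :=
    intervalIntegral.integral_nonneg hα fun x hx => h0 x ⟨hx.1, by linarith [hx.2]⟩
  have a5 : 0 ≤ ∫ x in (m - δ)..m, φ x :=
    intervalIntegral.integral_nonneg (by linarith) fun x hx => h0 x ⟨by linarith [hx.1], hx.2⟩
  linarith

theorem sgn_prod (A K : Finset ℝ) (a e : ℕ) (m z x σ : ℝ) :
    σ * (-1) ^ (K.card + a + e) * ((A.val + K.val + Multiset.replicate a m +
      Multiset.replicate e z).map fun y => x - y).prod =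
    σ * (∏ y ∈ A, (x - y)) * (∏ y ∈ K, (y - x)) * (m - x) ^ a * (z - x) ^ e := by
  have h1 : ∏ y ∈ K, (y - x) = (-1) ^ K.card * ∏ y ∈ K, (x - y) := by
    rw [← prod_const, ← prod_mul_distrib]
    exact prod_congr rfl fun y _ => by ring
  have h2 : ∀ (u : ℝ) (n : ℕ), (u - x) ^ n = (-1) ^ n * (x - u) ^ n := fun u n => by
    rw [← mul_pow]; congr 1; ring
  rw [Multiset.map_add, Multiset.map_add, Multiset.map_add, Multiset.prod_add, Multiset.prod_add,
    Multiset.prod_add, Multiset.map_replicate, Multiset.map_replicate, Multiset.prod_replicate,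
    Multiset.prod_replicate, h1, h2 m, h2 z, ← prod_eq_multiset_prod, ← prod_eq_multiset_prod]
  ring

end TxlA

open TxlA in
theorem p_TXL (hTOPS : S_TOPS) (hTBAS : S_TBAS) :
    S_TXL := by
  refine ⟨6, by norm_num, fun d S D hD h0 => ?_⟩
  obtain ⟨C, hC, -, -, -, o4, -, o6⟩ := hTOPS d D.Lam
  obtain ⟨c, hc, hc1, hb⟩ := hTBAS d S D hD
  obtain ⟨ct, hct, htop⟩ := hD.exists_be_top
  have hQ := hD.Qpos
  have hbe := hD.be_Q_pos h0
  obtain ⟨t, ht, ht1, ht2, ht3⟩ : ∃ t : ℝ, 0 < t ∧ t ≤ 1 ∧ t ≤ D.Q / 2 ∧ t ≤ ct :=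
    ⟨min 1 (min (D.Q / 2) ct), by positivity, min_le_left _ _,
      (min_le_right _ _).trans (min_le_left _ _), (min_le_right _ _).trans (min_le_right _ _)⟩
  obtain ⟨κ, hκ, hκ1, hκ2⟩ : ∃ κ : ℝ, 0 < κ ∧ κ ≤ 1 ∧ κ ≤ c * D.Q / 2 :=
    ⟨min 1 (c * D.Q / 2), by positivity, min_le_left _ _, min_le_right _ _⟩
  obtain ⟨B, hB, hB2⟩ : ∃ B : ℝ, 1 ≤ B ∧ 2 * D.Lam ≤ B :=
    ⟨max 1 (2 * D.Lam), le_max_left _ _, le_max_right _ _⟩
  have hBd : 0 < B ^ d := by positivity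
  refine ⟨D.be D.Q * (κ ^ d / B ^ d) * (c / B ^ d) * (c * t / 2) ^ 3 / C, by positivity,
    fun v α m z M q Z L1 L2 ν T A K a e σ F ha he hσ hA hK hd hF p1 p2 p3 => ?_⟩
  obtain ⟨b1, -, -, -, ⟨-, b5⟩, ⟨b6, b7⟩, -⟩ := hb v α m z M q Z L1 L2 T
  have hv := T.v0
  have hKZ : ∀ y ∈ Z.erase m, y ∈ Z := fun y hy => mem_of_mem_erase hy
  obtain ⟨g, hg, hg2⟩ := o4 (A.val + K.val + Multiset.replicate a m + Multiset.replicate e z)
    (by simpa using hd) (by
      intro y hy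
      simp only [Multiset.mem_add, mem_val] at hy
      rcases hy with ((hy | hy) | hy) | hy
      · exact T.abs_le ⟨(hA y hy).1, (hA y hy).2.1⟩
      · exact T.abs_le (T.mem_Icc (hKZ y (hK hy)))
      · rw [Multiset.eq_of_mem_replicate hy]; exact T.abs_le (T.mem_Icc T.mZ)
      · rw [Multiset.eq_of_mem_replicate hy]; exact T.abs_le (T.mem_Icc T.zZ))
  have hσ1 : |σ| = 1 := by rcases hσ with rfl | rfl <;> simp
  have hf : ∀ x, ev ((σ * (-1) ^ (K.card + a + e)) • g) 0 x = F x := fun x => by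
    rw [ev_smul, hg2, hF, sgn_prod]
  have hn : ‖(σ * (-1) ^ (K.card + a + e)) • g‖ ≤ C := by
    rw [norm_smul, Real.norm_eq_abs, abs_mul, hσ1, abs_pow, abs_neg, abs_one, one_pow, one_mul,
      one_mul]
    exact hg
  generalize (σ * (-1) ^ (K.card + a + e)) • g = f at hf hn
  rw [div_mul_eq_mul_div]
  refine TX.of_le f (by linarith) hn (le_trans ?_ (le_abs_self _))
  obtain ⟨δ, hδ⟩ : ∃ δ, δ = c * t / 2 * v := ⟨_, rfl⟩
  have d0 : 0 < δ := by rw [hδ]; positivity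
  have d1 : 2 * δ ≤ c * v := by
    rw [hδ]; nlinarith [mul_pos hc hv, mul_le_mul_of_nonneg_left ht1 (mul_pos hc hv).le]
  have d2 : δ ≤ 1 := by nlinarith [T.v1]
  have hl : 0 < M - α := sub_pos.2 T.αM
  have hZc : (Z.erase m).card ≤ d := by
    have := (o6 q Z ⟨α, T.dα⟩ fun y hy => (T.hZ y hy).2.2.2.1).1
    have := card_erase_le (s := Z) (a := m)
    omega
  have k1 := prod_le_pow_mul_prod hK (φ := fun y => y - m) hB (fun y hy => by
    have := T.mem_Icc (hKZ y hy)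
    exact ⟨sub_nonneg.2 (T.hZ y (hKZ y hy)).1, by linarith [this.2, T.αm, T.len_le]⟩) hZc
  have k2 : c / B ^ d * v ^ 2 ≤ ∏ y ∈ K, (y - m) := by
    rw [div_mul_eq_mul_div, div_le_iff₀ hBd, mul_comm _ (B ^ d)]
    exact b5.trans k1
  have I1 := int_low (φ := fun x => D.be (ev q 0 x) * ev f 0 x) (α := α) (m := m)
    (L := D.be D.Q * ((κ ^ d / B ^ d * v) * (c / B ^ d * v ^ 2) * δ * δ)) d0.le (by linarith)
    (hD.ii_be (continuous_ev q 0) (continuous_ev f 0))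
    (fun x hx => hD.be_mul_nonneg (by rw [hf]; exact p1 x hx)) fun x hx => by
      have x1 : x ∈ Set.Icc α m := ⟨by linarith [hx.1], by linarith [hx.2]⟩
      have x2 : x ∈ Set.Icc α M := ⟨x1.1, by linarith [x1.2, T.mz, T.zM]⟩
      have e1 := b1 x x2 m (T.mem_Icc T.mZ)
      have e2 : |x - m| ≤ c * (M - α) * t := by
        rw [abs_sub_comm, abs_of_nonneg (sub_nonneg.2 x1.2)]
        nlinarith [hx.1, mul_le_mul_of_nonneg_left b7 (mul_pos hc ht).le]
      have e3 : |ev q 0 x - ev q 0 m| ≤ t :=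
        le_of_mul_le_mul_left (e1.trans e2) (mul_pos hc hl)
      have e4 : D.Q - t ≤ |ev q 0 x| := by
        have := abs_sub_abs_le_abs_sub (ev q 0 m) (ev q 0 x)
        rw [abs_sub_comm, (T.hZ m T.mZ).2.2.1] at this
        linarith
      have e5 := prodA (A := A) (x := x) hκ hκ1 hl hB (T.len_le.trans hB2) T.hl (by omega)
        fun y hy => by
          have := b1 x x2 y ⟨(hA y hy).1, (hA y hy).2.1⟩
          rw [(hA y hy).2.2, sub_zero] at this
          refine le_trans ?_ this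
          nlinarith [mul_le_mul_of_nonneg_left (show D.Q / 2 ≤ |ev q 0 x| by linarith)
            (mul_pos hc hl).le, mul_le_mul_of_nonneg_right hκ2 hl.le]
      have e6 : c / B ^ d * v ^ 2 ≤ ∏ y ∈ K, (y - x) := k2.trans (prod_le_prod
        (fun y hy => sub_nonneg.2 (T.hZ y (hKZ y (hK hy))).1) fun y _ => by linarith [x1.2])
      have e7 : δ ≤ (m - x) ^ a := le_pow1 d2 (by linarith [hx.2]) ha
      have e8 : δ ≤ (z - x) ^ e := le_pow1 d2 (by linarith [hx.2, T.mz]) he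
      have e9 : 0 ≤ c / B ^ d * v ^ 2 := by positivity
      have e10 : (κ ^ d / B ^ d * v) * (c / B ^ d * v ^ 2) * δ * δ ≤ |F x| := by
        rw [hF, abs_mul, abs_mul, abs_mul, abs_mul, hσ1, one_mul]
        refine mul_le_mul (mul_le_mul (mul_le_mul e5 (e6.trans (le_abs_self _)) e9 (abs_nonneg _))
          (e7.trans (le_abs_self _)) d0.le (by positivity)) (e8.trans (le_abs_self _)) d0.le
          (by positivity)
      rw [hf, ← abs_of_nonneg (hD.be_mul_nonneg (p1 x x1)), abs_mul]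
      exact mul_le_mul (htop _ (by linarith)) e10 (by positivity) (abs_nonneg _)
  have I2 : 0 ≤ ∫ x in z..M, -(D.be (ev q 0 x) * ev f 0 x) :=
    intervalIntegral.integral_nonneg T.zM.le fun x hx =>
      neg_nonneg.2 (hD.be_mul_nonpos (by rw [hf]; exact p2 x hx))
  rw [intervalIntegral.integral_neg] at I2
  have I3 : 0 ≤ ∑ x ∈ Z, ν x * ev f 0 x := sum_nonneg fun x hx => by rw [hf]; exact p3 x hx
  have I4 : D.be D.Q * (κ ^ d / B ^ d) * (c / B ^ d) * (c * t / 2) ^ 3 * v ^ 6 =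
      δ * (D.be D.Q * ((κ ^ d / B ^ d * v) * (c / B ^ d * v ^ 2) * δ * δ)) := by
    rw [hδ]; ring
  unfold rhoF LD.Ib
  linarith

end Pool.Agent.P.MP_a0f0ad_al.Fi
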