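import Pool.Agent.P.MP_a0f0ad_al.Fi.T.Tops
import Pool.Agent.P.MP_a0f0ad_al.Fi.T.Tbas
import Pool.Agent.P.MP_a0f0ad_al.Fi.T.Tpc
import Pool.Agent.P.MP_a0f0ad_al.Fi.T.Tibp
import Pool.Agent.P.MP_a0f0ad_al.Fi.T.Tjmp
import Pool.Agent.P.MP_a0f0ad_al.Fi.T.Tsgn
import Pool.Agent.P.MP_a0f0ad_al.Fi.T.Tmid
import Pool.Agent.P.MP_a0f0ad_al.Fi.T.Txl
import Pool.Agent.P.MP_a0f0ad_al.Fi.T.Thl
import Pool.Agent.P.MP_a0f0ad_al.Fi.T.Tcnt
import Pool.Agent.P.MP_a0f0ad_al.Fi.T.Todd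
import Pool.Agent.P.MP_a0f0ad_al.Fi.T.Tsym
import Pool.Agent.P.MP_a0f0ad_al.Fi.T.Tone
import Pool.Agent.P.MP_a0f0ad_al.Fi.T.Tpol
import Pool.Agent.P.MP_a0f0ad_al.Fi.T.Tfp
import Pool.Agent.P.MP_a0f0ad_al.Fi.T.Tshp
import Pool.Agent.P.MP_a0f0ad_al.Fi.T.Ttwa
import Pool.Agent.P.MP_a0f0ad_al.Fi.T.Ttwc
import Pool.Agent.P.MP_a0f0ad_al.Fi.T.Ttwb
import Pool.Agent.P.MP_a0f0ad_al.Fi.T.Tref

/-! Step TCP of the filiform project. -/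

namespace Pool.Agent.P.MP_a0f0ad_al.Fi

open Finset MeasureTheory

namespace TcpA

/-- the extra critical point lies in the left range -/
theorem left (hTOPS : S_TOPS) (hA : S_TTWA) (hB : S_TTWB) (hR : S_TREF) :
    ∃ k : ℕ, ∀ (d : ℕ) (S : Finset (G d)) (D : LD d), D.Spec S → D.om D.Q = 0 →
      ∃ c0 : ℝ, 0 < c0 ∧ ∀ (v α m z M c : ℝ) (q : Fin d → ℝ) (Z L1 L2 : Finset ℝ) (ν : ℝ → ℝ),
        TS D v α m z M q Z L1 L2 → Z.card + 3 = d → α < c → c < m → ev q 1 c = 0 →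
        TX D (c0 * v ^ k) α m z M q Z ν ∨ TH D (c0 * v ^ k) α M q Z L1 L2 ν := by
  classical
  obtain ⟨k1, -, hA⟩ := hA
  obtain ⟨k2, -, hB⟩ := hB
  refine ⟨max k1 k2, fun d S D hD h0 => ?_⟩
  obtain ⟨c1, hc1, hA⟩ := hA d S D hD h0
  obtain ⟨c2, hc2, hB⟩ := hB d S D hD h0
  have hm := lt_min hc1 hc2
  have pos : ∀ (v α m z M c A : ℝ) (q : Fin d → ℝ) (Z L1 L2 : Finset ℝ) (ν : ℝ → ℝ),
      TS D v α m z M q Z L1 L2 → α < c → c < m → 0 < A →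
      (∀ x, ev q 1 x = (x - c) * (A * ∏ y ∈ Z, (y - x))) →
      TX D (min c1 c2 * v ^ max k1 k2) α m z M q Z ν ∨
        TH D (min c1 c2 * v ^ max k1 k2) α M q Z L1 L2 ν := by
    intro v α m z M c A q Z L1 L2 ν h h1 h2 h3 h4
    have e1 := h.pow_mono hm.le (min_le_left c1 c2) (le_max_left k1 k2)
    have e2 := h.pow_mono hm.le (min_le_right c1 c2) (le_max_right k1 k2)
    rcases le_total 0 (D.be (ev q 0 c)) with e | e
    · exact Or.inl ((hA v α m z M c A q Z L1 L2 ν h h1 h2 h3 h4 e).mono e1)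
    · exact (hB v α m z M c A q Z L1 L2 ν h h1 h2 h3 h4 e).imp (·.mono e2) (·.mono e2)
  refine ⟨_, hm, fun v α m z M c q Z L1 L2 ν h hZ h1 h2 h3 => ?_⟩
  have hc : c ∉ Z := fun e => (h.hZ c e).1.not_gt h2
  obtain ⟨-, -, -, -, -, -, -, h6⟩ := hTOPS d 0
  obtain ⟨A, hA0, hq⟩ := (h6 q (insert c Z) ⟨α, h.dα⟩ fun y hy => by
    rcases mem_insert.1 hy with e | e
    · rw [e, h3]
    · exact (h.hZ y e).2.2.2.1).2 (by rw [card_insert_of_notMem hc]; omega)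
  have hq' : ∀ x, ev q 1 x = (x - c) * (A * (-1) ^ Z.card * ∏ y ∈ Z, (y - x)) := fun x => by
    rw [hq, prod_insert hc, mul_assoc A, ← prod_neg]
    simp only [neg_sub]; ring
  rcases lt_or_gt_of_ne (mul_ne_zero hA0 (pow_ne_zero Z.card (by norm_num : (-1 : ℝ) ≠ 0)))
    with e | e
  · obtain ⟨⟨h', hn⟩, -⟩ := hR d D v α m z M q Z L1 L2 ν h
    refine (pos v α m z M c (-(A * (-1) ^ Z.card)) (-q) Z L1 L2 _ h' h1 h2 (neg_pos.2 e)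
      fun x => ?_).imp (hn _).1 (hn _).2
    rw [ev_neg, hq']; ring
  · exact pos v α m z M c _ q Z L1 L2 ν h h1 h2 e hq'

end TcpA

theorem p_TCP (hMARK : S_MARK) :
    S_TCP := by
  have hBAS := p_TBAS hMARK p_TOPS
  have hPC := p_TPC hBAS
  have hSHP := p_TSHP hBAS
  have hR := p_TREF
  have hSYM := p_TSYM p_TOPS hBAS p_TODD
  obtain ⟨k1, hk1, hC⟩ := p_TCNT p_TOPS p_TSGN p_TMID (p_TXL p_TOPS hBAS) (p_THL p_TOPS hBAS)
  obtain ⟨k2, -, hO⟩ := p_TONE p_TOPS hBAS hPC p_TIBP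
  obtain ⟨k3, hL⟩ := TcpA.left p_TOPS (p_TTWA p_TOPS hBAS hPC p_TIBP hSHP)
    (p_TTWB hBAS hPC p_TIBP p_TJMP (p_TFP p_TIBP p_TJMP) hSHP (p_TTWC p_TOPS hBAS p_TPOL hSHP)) hR
  refine ⟨k1 + k2 + k3, by omega, fun d S D hd hD h0 => ?_⟩
  obtain ⟨c1, hc1, hC⟩ := hC d S D hD h0
  obtain ⟨c2, hc2, hO⟩ := hO d S D hD h0
  obtain ⟨c3, hc3, hL⟩ := hL d S D hD h0
  have hm := lt_min hc1 (lt_min hc2 hc3)
  refine ⟨_, hm, fun v α m z M q Z L1 L2 ν a1 a2 a3 a4 a5 a6 a7 a8 a9 a10 a11 a12 a13 a14 a15 a16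
    a17 a18 a19 a20 hZ => ?_⟩
  have h : TS D v α m z M q Z L1 L2 :=
    ⟨a1, a2, a3, a4, a5, a6, a7, a8, a9, a10, a11, a12, a13, a14, a15, a16, a17, a18, a19, a20⟩
  have e1 := h.pow_mono hm.le (min_le_left _ _) (show k1 ≤ k1 + k2 + k3 by omega)
  have e2 := h.pow_mono hm.le ((min_le_right _ _).trans (min_le_left _ _))
    (show k2 ≤ k1 + k2 + k3 by omega)
  have e3 := h.pow_mono hm.le ((min_le_right _ _).trans (min_le_right _ _))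
    (show k3 ≤ k1 + k2 + k3 by omega)
  change TX D _ α m z M q Z ν ∨ TH D _ α M q Z L1 L2 ν
  by_cases hE : Z.card + 3 = d → ∀ x, α < x → x < M → ev q 1 x = 0 → x ∈ Z
  · exact (hC v α m z M q Z L1 L2 ν h hZ hE).imp (·.mono e1) (·.mono e1)
  simp only [not_forall, exists_prop] at hE
  obtain ⟨h3, c, hc, hc', hq, hcZ⟩ := hE
  obtain ⟨-, q', Z', L1', L2', hq', hZ', hcard, h', hn⟩ := hR d D v α m z M q Z L1 L2 ν h
  have hq1 : ev q' 1 (-c) = 0 := by rw [hq', neg_neg, hq, mul_zero]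
  rcases lt_trichotomy c m with e | e | e
  · exact (hL v α m z M c q Z L1 L2 ν h h3 hc e hq).imp (·.mono e3) (·.mono e3)
  · exact absurd (e ▸ h.mZ) hcZ
  rcases lt_trichotomy c z with e' | e' | e'
  · obtain ⟨s1, s2, s3 | s3⟩ := hSYM d S D hd hD v α m z M c q Z L1 L2 h h3 e e' hcZ hq
    · exact Or.inl ((hO v α m z M c q Z L1 L2 ν h e e' hcZ hq s1 s3).mono e2)
    · refine Or.inl (((hn _).1 (hO v _ _ _ _ (-c) q' Z' L1' L2' _ h' (neg_lt_neg e')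
        (neg_lt_neg e) (by rwa [hZ', neg_neg]) hq1 ?_ (by linarith))).mono e2)
      simp only [hq', neg_neg, pow_zero, one_mul, s2]
  · exact absurd (e' ▸ h.zZ) hcZ
  · exact ((hL v _ _ _ _ (-c) q' Z' L1' L2' _ h' (hcard ▸ h3) (neg_lt_neg hc') (neg_lt_neg e')
      hq1).imp (hn _).1 (hn _).2).imp (·.mono e3) (·.mono e3)

end Pool.Agent.P.MP_a0f0ad_al.Fi
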