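import Pool.Agent.P.MP_a0f0ad_al.Fi.T.Iface2
import Pool.Agent.P.MP_a0f0ad_al.Fi.Z.Bq

/-! Step TODD of the filiform project. -/

namespace Pool.Agent.P.MP_a0f0ad_al.Fi

open Finset MeasureTheory

namespace ToddA

open Polynomial

theorem pairs (a : ℕ → ℝ) (x : ℝ) (n : ℕ) :
    ∑ i ∈ range (2 * n), a i * x ^ i - ∑ i ∈ range (2 * n), a i * (-x) ^ i =
      ∑ i ∈ range n, 2 * a (2 * i + 1) * x ^ (2 * i + 1) := by
  induction n with
  | zero => simp
  | succ n ih =>
    rw [show 2 * (n + 1) = 2 * n + 1 + 1 by ring, sum_range_succ, sum_range_succ, sum_range_succ,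
      sum_range_succ, sum_range_succ, ← ih, pow_succ (-x), pow_succ x, (even_two_mul n).neg_pow]
    ring

theorem odd_part (P : ℝ[X]) (n : ℕ) (h : P.degree < (2 * (n + 1) : ℕ)) (h1 : P.coeff 1 = 0) :
    ∃ E : ℝ[X], E.degree < n ∧ ∀ x, P.eval x - P.eval (-x) = x ^ 3 * E.eval (x ^ 2) := by
  have hn : P.natDegree < 2 * (n + 1) := by
    rcases eq_or_ne P 0 with rfl | h0
    · simp
    · exact (natDegree_lt_iff_degree_lt h0).2 h
  refine ⟨∑ i ∈ range n, monomial i (2 * P.coeff (2 * (i + 1) + 1)), ?_, fun x => ?_⟩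
  · refine (degree_lt_iff_coeff_zero _ _).2 fun m hm => ?_
    rw [finsetSum_coeff]
    exact sum_eq_zero fun i hi => by
      rw [coeff_monomial, if_neg (by have := mem_range.1 hi; omega)]
  · rw [eval_eq_sum_range' hn, eval_eq_sum_range' hn, pairs, sum_range_succ', eval_finsetSum,
      mul_sum]
    simp only [mul_zero, zero_add, h1, zero_mul, add_zero, eval_monomial]
    exact sum_congr rfl fun i _ => by ring

theorem card_gt (W : Finset ℝ) {N : ℕ} (h : W.card = N + 1) (i : Fin (N + 1)) :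
    (W.filter fun t => W.orderEmbOfFin h i < t).card + i = N := by
  have e : (W.filter fun t => W.orderEmbOfFin h i < t) =
      (Ioi i).map (W.orderEmbOfFin h).toEmbedding := by
    ext t
    simp only [mem_filter, mem_map, mem_Ioi, RelEmbedding.coe_toEmbedding]
    constructor
    · rintro ⟨h1, h2⟩
      have : t ∈ Set.range (W.orderEmbOfFin h) := by rw [range_orderEmbOfFin]; exact h1
      obtain ⟨j, rfl⟩ := this
      exact ⟨j, (W.orderEmbOfFin h).lt_iff_lt.1 h2, rfl⟩
    · rintro ⟨j, h1, rfl⟩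
      exact ⟨orderEmbOfFin_mem W h j, (W.orderEmbOfFin h).lt_iff_lt.2 h1⟩
  rw [e, card_map, Fin.card_Ioi]
  have := i.2
  omega

end ToddA

open Polynomial in
theorem p_TODD :
    S_TODD := by
  intro d q c σ W hd h1 hσ hW hc hs η
  obtain ⟨n, rfl⟩ := even_iff_exists_two_mul.1 hd
  rcases n with _ | n
  · simp [ev, dot]
  have hP : ∀ x, ev q 0 (c + x) = (taylor c (pol q)).eval x := fun x => by
    rw [ev_eq_eval, Function.iterate_zero_apply, taylor_eval, add_comm]
  obtain ⟨E, e1, e2⟩ := ToddA.odd_part (taylor c (pol q)) n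
    (by rw [degree_taylor]; exact degree_pol_lt q)
    (by rw [taylor_coeff_one, ← h1, ev_eq_eval, Function.iterate_one])
  have e3 : ∀ x, ev q 0 (c + x) - ev q 0 (c - x) = x ^ 3 * E.eval (x ^ 2) := fun x => by
    rw [sub_eq_add_neg c, hP, hP, e2]
  obtain ⟨N, hN⟩ : ∃ N, W.card = N + 1 := ⟨W.card - 1, by omega⟩
  have hp : ∀ i, 0 < W.orderEmbOfFin hN i := fun i => hW _ (orderEmbOfFin_mem W hN i)
  have h0 : C (σ * (-1) ^ N) * E = 0 := by
    refine eq_zero_of_alternate (n := N) ?_ (fun i => W.orderEmbOfFin hN i ^ 2)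
      (fun i j hij => pow_lt_pow_left₀ ((W.orderEmbOfFin hN).strictMono hij) (hp i).le two_ne_zero)
      fun i => ?_
    · refine lt_of_le_of_lt ?_ (e1.trans_le (by exact_mod_cast (by omega : n ≤ N)))
      rw [← smul_eq_C_mul]
      exact degree_smul_le _ _
    · have a := hs _ (orderEmbOfFin_mem W hN i)
      rw [e3] at a
      have b := ToddA.card_gt W hN i
      generalize (W.filter fun t => W.orderEmbOfFin hN i < t).card = m at a b
      have t : (-1 : ℝ) ^ (i : ℕ) * (-1) ^ N = (-1) ^ m := by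
        rw [← pow_add, show (i : ℕ) + N = 2 * i + m by omega, pow_add, pow_mul]
        simp
      rw [eval_mul, eval_C]
      refine le_of_mul_le_mul_left ?_ (pow_pos (hp i) 3)
      rw [mul_zero]
      refine a.trans_eq ?_
      rw [← t]
      ring
  have hE : E = 0 := (mul_eq_zero.1 h0).resolve_left
    (C_ne_zero.2 (mul_ne_zero hσ (pow_ne_zero _ (by norm_num))))
  have := e3 η
  rw [hE, eval_zero, mul_zero] at this
  exact sub_eq_zero.1 this

end Pool.Agent.P.MP_a0f0ad_al.Fi
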