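import Pool.Agent.P.MP_a0f0ad_al.Fi.T.Iface2
import Pool.Agent.P.MP_a0f0ad_al.Fi.Z.Bq

/-! Step TOPS of the filiform project. -/

namespace Pool.Agent.P.MP_a0f0ad_al.Fi

open Finset MeasureTheory Polynomial

namespace TopsA

variable {d : ℕ}

theorem ev0 (q : Fin d → ℝ) (x : ℝ) : ev q 0 x = (pol q).eval x := ev_eq_eval q 0 x

theorem ev1 (q : Fin d → ℝ) (x : ℝ) : ev q 1 x = (derivative (pol q)).eval x := ev_eq_eval q 1 x

theorem cf0 {P : ℝ[X]} (h : P.degree < d) (x : ℝ) : ev (cf d P) 0 x = P.eval x := ev_cf h 0 x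

theorem norm_C (r : ℝ) : ‖cf d (C r)‖ ≤ |r| :=
  norm_cf_le (abs_nonneg r) fun j _ => by
    rw [coeff_C]
    split_ifs <;> simp

theorem eval_ms (s : Multiset ℝ) (x : ℝ) :
    (s.map fun y => X - C y).prod.eval x = (s.map fun y => x - y).prod := by
  rw [eval_multiset_prod, Multiset.map_map]
  simp

theorem monic_ms (s : Multiset ℝ) : (s.map fun y => (X - C y : ℝ[X])).prod.Monic :=
  monic_multiset_prod_of_monic s (fun x => X - C x) fun x _ => monic_X_sub_C x

theorem fac {P : ℝ[X]} (h : P ≠ 0) (Z : Finset ℝ) (hZ : ∀ y ∈ Z, P.eval y = 0) :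
    ∃ R : ℝ[X], P = R * (Z.val.map fun y => X - C y).prod := by
  have h1 : Z.val ≤ P.roots := (Multiset.le_iff_subset Z.nodup).2 fun y hy =>
    (mem_roots h).2 (hZ y hy)
  obtain ⟨R, hR⟩ := (Multiset.prod_X_sub_C_dvd_iff_le_roots h _).2 h1
  exact ⟨R, hR.trans (mul_comm _ _)⟩

theorem deg_left {P R : ℝ[X]} {s : Multiset ℝ} (e : P = R * (s.map fun y => X - C y).prod)
    (h : P.degree < d) : R.degree < d :=
  (degree_le_mul_left R (monic_ms s).ne_zero).trans_lt (e ▸ h)

theorem deg_der (f : Fin d → ℝ) : (derivative (pol f)).degree < d :=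
  degree_derivative_le.trans_lt (degree_pol_lt f)

end TopsA

open TopsA

theorem p_TOPS :
    S_TOPS := by
  intro d L
  obtain ⟨C0, hC0, -, hM, hD⟩ := exists_cf_mul_bound d L
  obtain ⟨CV, hCV, hV⟩ := exists_Vd_bound d L
  have hK : C0 ≤ C0 * (C0 + CV) := le_mul_of_one_le_right (by linarith) (by linarith)
  refine ⟨C0 * (C0 + CV), hC0.trans hK, fun f c hc => ?_, fun f => ?_, fun f c hc => ?_,
    fun s hs hL => ?_, fun f Z hZ => ?_, fun f W hf hW => ?_⟩
  · have hf := norm_nonneg f
    rcases Nat.eq_zero_or_pos d with rfl | hd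
    · exact ⟨f, le_mul_of_one_le_left hf (hC0.trans hK), fun x => by simp [ev, dot]⟩
    have h1 : (pol f - C (ev f 0 c)).degree < d := (degree_sub_le _ _).trans_lt
      (max_lt (degree_pol_lt f) (degree_C_le.trans_lt (by exact_mod_cast hd)))
    obtain ⟨P, hP⟩ := dvd_iff_isRoot.2 (show (pol f - C (ev f 0 c)).IsRoot c by simp [ev0])
    have e : pol f - C (ev f 0 c) = P * (({c} : Multiset ℝ).map fun y => X - C y).prod := by
      rw [hP, mul_comm]
      simp
    refine ⟨cf d P, ?_, fun x => ?_⟩
    · have h2 := (hM P {c} (by simpa using hc) (e ▸ h1)).1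
      have h3 : cf d (pol f - C (ev f 0 c)) = f - cf d (C (ev f 0 c)) := by
        funext j
        have := congrFun (cf_pol f) j
        simp only [cf, coeff_sub, Pi.sub_apply] at this ⊢
        rw [this]
      rw [← e, h3] at h2
      have h4 := (norm_sub_le _ _).trans (add_le_add_right ((norm_C _).trans ((hV 0 c hc).2 f)) ‖f‖)
      refine h2.trans ?_
      rw [mul_assoc]
      gcongr
      nlinarith
    · have := congrArg (eval x) hP
      simp only [eval_sub, eval_C, eval_mul, eval_X] at this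
      rw [cf0 (deg_left e h1), ev0 f x]
      linarith
  · refine ⟨cf d (derivative (pol f)), ?_, fun k x => ?_⟩
    · have := hD _ (degree_pol_lt f)
      rw [cf_pol] at this
      exact this.trans (by gcongr)
    · rw [ev_cf (deg_der f), ev_eq_eval, Function.iterate_succ_apply]
  · have h1 : (derivative (pol f) * (({c} : Multiset ℝ).map fun y => X - C y).prod).degree < d := by
      by_cases h0 : derivative (pol f) = 0
      · rw [h0, zero_mul]
        exact WithBot.bot_lt_coe d
      have h2 := ((nonconst_iff f).2 h0).natDegree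
      have h3 := natDegree_derivative_lt h2.1
      rw [← natDegree_lt_iff_degree_lt (mul_ne_zero h0 (monic_ms _).ne_zero),
        natDegree_mul h0 (monic_ms _).ne_zero, natDegree_multiset_prod_X_sub_C_eq_card,
        Multiset.card_singleton]
      omega
    refine ⟨cf d _, (hM _ {c} (by simpa using hc) h1).2.trans ?_, fun x => ?_⟩
    · have := hD _ (degree_pol_lt f)
      rw [cf_pol] at this
      have hf := norm_nonneg f
      rw [mul_assoc]
      gcongr
      nlinarith
    · rw [cf0 h1, ev1, eval_mul, eval_ms, mul_comm]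
      simp
  · have h1 : ((1 : ℝ[X]) * (s.map fun y => X - C y).prod).degree < d := by
      rw [one_mul, ← natDegree_lt_iff_degree_lt (monic_ms _).ne_zero,
        natDegree_multiset_prod_X_sub_C_eq_card]
      exact hs
    refine ⟨cf d _, (hM 1 s hL h1).2.trans ?_, fun x => by rw [cf0 h1, one_mul, eval_ms]⟩
    have := norm_C (d := d) 1
    rw [C_1, abs_one] at this
    exact (mul_le_of_le_one_right (by linarith) this).trans hK
  · by_cases h0 : pol f = 0
    · exact ⟨0, by rw [norm_zero]; positivity, fun x => by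
        simp [pol_eq_zero.1 h0, ev, dot]⟩
    obtain ⟨R, hR⟩ := fac h0 Z fun y hy => ev0 f y ▸ (hZ y hy).2
    refine ⟨cf d R, ?_, fun x => ?_⟩
    · have := (hM R Z.val (fun y hy => (hZ y hy).1) (hR ▸ degree_pol_lt f)).1
      rw [← hR, cf_pol] at this
      exact this.trans (by gcongr)
    · rw [cf0 (deg_left hR (degree_pol_lt f)), ev0, hR, eval_mul, eval_ms, mul_comm]
      rfl
  · have h0 : derivative (pol f) ≠ 0 := fun e => by
      obtain ⟨x, hx⟩ := hf
      exact hx (by rw [ev1, e, eval_zero])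
    have h2 := ((nonconst_iff f).2 h0).natDegree
    have h3 := natDegree_derivative_lt h2.1
    obtain ⟨R, hR⟩ := fac h0 W fun y hy => ev1 f y ▸ hW y hy
    have hR0 : R ≠ 0 := fun e => h0 (by rw [hR, e, zero_mul])
    have h4 := congrArg natDegree hR
    rw [natDegree_mul hR0 (monic_ms _).ne_zero, natDegree_multiset_prod_X_sub_C_eq_card,
      card_val] at h4
    refine ⟨by omega, fun h5 => ?_⟩
    have h6 := eq_C_of_natDegree_eq_zero (show R.natDegree = 0 by omega)
    refine ⟨R.coeff 0, fun e => hR0 (by rw [h6, e, C_0]), fun x => ?_⟩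
    rw [ev1, hR, eval_mul, eval_ms, h6, eval_C, coeff_C_zero]
    rfl

end Pool.Agent.P.MP_a0f0ad_al.Fi
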